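import Mathlib

set_option autoImplicit false

/-!
Combinatorial part of the exceptional set bound: a selection lemma and a weighted count of classes.
-/

namespace Pool.Agent.H691R3

open Finset

section Selection

variable {ι : Type*}

/-- choice of the blocks belonging to the two forms with the largest total excess -/
lemma selection_two {q : ℕ} (hq : 2 ≤ q) (P : Finset ι) (θ c : ι → ℝ) (lab : ι → Fin q)
    (T C κ : ℝ) (hC : 0 ≤ C)
    (hθl : ∀ l, ∑ a ∈ P with lab a = l, θ a ≤ T + C)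
    (hE : κ * T - C ≤ ∑ a ∈ P, (θ a - c a)) :
    ∃ I ⊆ P, (∑ a ∈ I, c a) + max 0 (2 * T - ∑ a ∈ I, θ a) ≤ (2 - 2 * κ / q) * T + 3 * C := by
  classical
  set E : Fin q → ℝ := fun l => ∑ a ∈ P with lab a = l, (θ a - c a) with hEdef
  have hsum : ∑ l, E l = ∑ a ∈ P, (θ a - c a) :=
    Finset.sum_fiberwise_of_maps_to (fun a _ => Finset.mem_univ (lab a)) (fun a => θ a - c a)
  have hq0 : (0 : ℝ) < q := by exact_mod_cast (by omega : 0 < q)
  -- two forms with large total excess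
  obtain ⟨l1, l2, hne, hl⟩ : ∃ l1 l2 : Fin q, l1 ≠ l2 ∧ 2 / q * (∑ l, E l) ≤ E l1 + E l2 := by
    by_contra hcon
    push Not at hcon
    obtain ⟨n, rfl⟩ : ∃ n, q = n + 2 := ⟨q - 2, by omega⟩
    have h1 : ∀ l : Fin (n + 2), E l + E (finRotate (n + 2) l) < 2 / ((n + 2 : ℕ) : ℝ) * (∑ l, E l) := by
      intro l
      refine hcon l _ ?_
      intro h
      have h2 : finRotate (n + 2) l = l := h.symm
      rw [finRotate_apply] at h2
      simp at h2
    have h2 : ∑ l : Fin (n + 2), (E l + E (finRotate (n + 2) l)) <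
        ∑ _l : Fin (n + 2), (2 / ((n + 2 : ℕ) : ℝ) * (∑ l, E l)) :=
      Finset.sum_lt_sum_of_nonempty Finset.univ_nonempty (fun l _ => h1 l)
    rw [Finset.sum_add_distrib, Equiv.sum_comp (finRotate (n + 2)) E, Finset.sum_const,
      Finset.card_univ, Fintype.card_fin, nsmul_eq_mul] at h2
    have h3 : ((n + 2 : ℕ) : ℝ) * (2 / ((n + 2 : ℕ) : ℝ) * (∑ l, E l)) = 2 * ∑ l, E l := by
      field_simp
    rw [h3] at h2
    linarith
  set I1 := P.filter (fun a => lab a = l1) with hI1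
  set I2 := P.filter (fun a => lab a = l2) with hI2
  have hdisj : Disjoint I1 I2 := by
    rw [Finset.disjoint_left]
    intro a ha hb
    rw [hI1, Finset.mem_filter] at ha
    rw [hI2, Finset.mem_filter] at hb
    exact hne (ha.2.symm.trans hb.2)
  refine ⟨I1 ∪ I2, Finset.union_subset (Finset.filter_subset _ _) (Finset.filter_subset _ _), ?_⟩
  rw [Finset.sum_union hdisj, Finset.sum_union hdisj]
  have hE1 : E l1 = ∑ a ∈ I1, θ a - ∑ a ∈ I1, c a := by
    rw [hEdef]; simp only [Finset.sum_sub_distrib]; rfl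
  have hE2 : E l2 = ∑ a ∈ I2, θ a - ∑ a ∈ I2, c a := by
    rw [hEdef]; simp only [Finset.sum_sub_distrib]; rfl
  have ht1 : ∑ a ∈ I1, θ a ≤ T + C := hθl l1
  have ht2 : ∑ a ∈ I2, θ a ≤ T + C := hθl l2
  have hmain : 2 * κ / q * T - C ≤ E l1 + E l2 := by
    have h1 : 2 / q * (κ * T - C) ≤ 2 / q * (∑ l, E l) := by
      rw [hsum]
      exact mul_le_mul_of_nonneg_left hE (by positivity)
    have h2 : 2 / (q : ℝ) ≤ 1 := by
      rw [div_le_one hq0]; exact_mod_cast hq
    have h3 : 2 / (q : ℝ) * C ≤ 1 * C := mul_le_mul_of_nonneg_right h2 hC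
    have h4 : 2 / (q : ℝ) * (κ * T - C) = 2 * κ / q * T - 2 / q * C := by ring
    linarith
  have hmax : max 0 (2 * T - (∑ a ∈ I1, θ a + ∑ a ∈ I2, θ a)) ≤
      2 * T + 2 * C - (∑ a ∈ I1, θ a + ∑ a ∈ I2, θ a) := by
    refine max_le ?_ ?_ <;> linarith
  have h5 : (2 - 2 * κ / q) * T = 2 * T - 2 * κ / q * T := by ring
  linarith

/-- choice of blocks by size -/
lemma selection_all {q : ℕ} (P : Finset ι) (θ c : ι → ℝ) (lab : ι → Fin q)
    (hc0 : ∀ a ∈ P, 0 ≤ c a) (hc : ∀ a ∈ P, c a ≤ θ a / 2)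
    (T C κ : ℝ) (hT : 0 ≤ T) (hC : 0 ≤ C)
    (hθl : ∀ l, ∑ a ∈ P with lab a = l, θ a ≤ T + C)
    (hE : κ * T - C ≤ ∑ a ∈ P, (θ a - c a)) :
    ∃ I ⊆ P, (∑ a ∈ I, c a) + max 0 (2 * T - ∑ a ∈ I, θ a) ≤ max (2 - κ) (6 / 5) * T + 3 * C := by
  classical
  have hk1 : (2 - κ) * T ≤ max (2 - κ) (6 / 5) * T :=
    mul_le_mul_of_nonneg_right (le_max_left _ _) hT
  have hk2 : (6 / 5) * T ≤ max (2 - κ) (6 / 5) * T :=
    mul_le_mul_of_nonneg_right (le_max_right _ _) hT
  have hθ0 : ∀ a ∈ P, 0 ≤ θ a := fun a ha => by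
    have h1 := hc0 a ha
    have h2 := hc a ha
    linarith
  have hsub : ∀ I ⊆ P, ∑ a ∈ I, c a ≤ (∑ a ∈ I, θ a) / 2 := by
    intro I hI
    rw [Finset.sum_div]
    exact Finset.sum_le_sum fun a ha => hc a (hI ha)
  rcases le_or_gt (∑ a ∈ P, θ a) (2 * T) with h | h
  · refine ⟨P, Finset.Subset.refl _, ?_⟩
    rw [max_eq_right (by linarith)]
    rw [Finset.sum_sub_distrib] at hE
    linarith
  rcases le_or_gt T C with hTC | hTC
  · refine ⟨∅, Finset.empty_subset _, ?_⟩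
    simp only [Finset.sum_empty, sub_zero, zero_add]
    rw [max_eq_right (by linarith)]
    linarith
  have hθa : ∀ a ∈ P, θ a ≤ T + C := fun a ha =>
    (Finset.single_le_sum (f := θ) (fun b hb => hθ0 b (Finset.mem_filter.mp hb).1)
      (Finset.mem_filter.mpr ⟨ha, rfl⟩ : a ∈ P.filter (fun b => lab b = lab a))).trans
      (hθl (lab a))
  by_cases hbig : ∃ a ∈ P, ∃ b ∈ P, a ≠ b ∧ 4 / 5 * T < θ a ∧ 4 / 5 * T < θ b
  · obtain ⟨a, ha, b, hb, hab, h1, h2⟩ := hbig
    refine ⟨{a, b}, ?_, ?_⟩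
    · intro x hx
      rw [Finset.mem_insert, Finset.mem_singleton] at hx
      rcases hx with rfl | rfl <;> assumption
    rw [Finset.sum_pair hab, Finset.sum_pair hab]
    have ha' := hc a ha
    have hb' := hc b hb
    have ha2 := hθa a ha
    have hb2 := hθa b hb
    rcases le_or_gt (2 * T - (θ a + θ b)) 0 with h3 | h3
    · rw [max_eq_left h3]; linarith
    · rw [max_eq_right h3.le]; linarith
  · push Not at hbig
    -- a minimal subset crossing `2T`
    set F := P.powerset.filter (fun I => 2 * T ≤ ∑ a ∈ I, θ a) with hF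
    have hFne : F.Nonempty := ⟨P, by
      rw [hF, Finset.mem_filter]; exact ⟨Finset.mem_powerset.mpr (Finset.Subset.refl _), h.le⟩⟩
    obtain ⟨I, hI, hmin⟩ := Finset.exists_min_image F Finset.card hFne
    rw [hF, Finset.mem_filter, Finset.mem_powerset] at hI
    obtain ⟨hIP, hIT⟩ := hI
    obtain ⟨a, haI, ha⟩ : ∃ a ∈ I, θ a ≤ 4 / 5 * T := by
      by_contra hcon
      push Not at hcon
      have hcard : I.card ≤ 1 := by
        rw [Finset.card_le_one]
        intro x hx y hy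
        by_contra hxy
        have := hbig x (hIP hx) y (hIP hy) hxy (hcon x hx)
        linarith [hcon y hy]
      rcases I.eq_empty_or_nonempty with h5 | h5
      · rw [h5, Finset.sum_empty] at hIT
        linarith
      · obtain ⟨x, hx⟩ := h5
        have h6 : I = {x} := by
          refine Finset.eq_singleton_iff_unique_mem.mpr ⟨hx, fun y hy => ?_⟩
          exact Finset.card_le_one.mp hcard y hy x hx
        rw [h6, Finset.sum_singleton] at hIT
        have := hθa x (hIP hx)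
        linarith
    have hlt : ∑ b ∈ I.erase a, θ b < 2 * T := by
      by_contra hcon
      rw [not_lt] at hcon
      have hmem : I.erase a ∈ F := by
        rw [hF, Finset.mem_filter, Finset.mem_powerset]
        exact ⟨(Finset.erase_subset _ _).trans hIP, hcon⟩
      have h7 := hmin _ hmem
      have h8 := Finset.card_erase_lt_of_mem haI
      omega
    have hsplit : ∑ b ∈ I, θ b = ∑ b ∈ I.erase a, θ b + θ a :=
      (Finset.sum_erase_add _ _ haI).symm
    have hsplitc : ∑ b ∈ I, c b = ∑ b ∈ I.erase a, c b + c a :=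
      (Finset.sum_erase_add _ _ haI).symm
    have hce := hsub (I.erase a) ((Finset.erase_subset _ _).trans hIP)
    have hcI := hsub I hIP
    rcases le_or_gt (2 * T - ∑ b ∈ I.erase a, θ b) (2 / 5 * T) with h9 | h9
    · refine ⟨I.erase a, (Finset.erase_subset _ _).trans hIP, ?_⟩
      rw [max_eq_right (by linarith)]
      linarith
    · refine ⟨I, hIP, ?_⟩
      rw [max_eq_left (by linarith)]
      linarith

/-- The exponent. -/
noncomputable def expo (q : ℕ) (κ : ℝ) : ℝ := min (2 - 2 * κ / q) (max (2 - κ) (6 / 5))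

lemma selection {q : ℕ} (hq : 2 ≤ q) (P : Finset ι) (θ c : ι → ℝ) (lab : ι → Fin q)
    (hc0 : ∀ a ∈ P, 0 ≤ c a) (hc : ∀ a ∈ P, c a ≤ θ a / 2)
    (T C κ : ℝ) (hT : 0 ≤ T) (hC : 0 ≤ C)
    (hθl : ∀ l, ∑ a ∈ P with lab a = l, θ a ≤ T + C)
    (hE : κ * T - C ≤ ∑ a ∈ P, (θ a - c a)) :
    ∃ I ⊆ P, (∑ a ∈ I, c a) + max 0 (2 * T - ∑ a ∈ I, θ a) ≤ expo q κ * T + 3 * C := by
  unfold expo
  rcases le_total (2 - 2 * κ / q) (max (2 - κ) (6 / 5)) with h | h
  · rw [min_eq_left h]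
    exact selection_two hq P θ c lab T C κ hC hθl hE
  · rw [min_eq_right h]
    exact selection_all P θ c lab hc0 hc T C κ hT hC hθl hE

end Selection

section Counting

open Real

variable {X U : Type*}

theorem count_bound [DecidableEq U] (E : Finset X) (D : X → Finset U)
    (θ c f : U → ℝ) (hf0 : ∀ a, 0 ≤ f a) (F0 : ℝ) (hf : ∀ s : Finset U, ∑ a ∈ s, f a ≤ F0)
    (η : ℝ) (hη : 0 < η) (hfa : ∀ x ∈ E, ∀ a ∈ D x, exp (-(c a) - η * θ a) ≤ f a)
    (T G M C3 : ℝ) (hC3 : 0 ≤ C3)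
    (hsel : ∀ x ∈ E, ∑ a ∈ D x, c a + max 0 (2 * T - ∑ a ∈ D x, θ a) ≤ G)
    (hW : ∀ x ∈ E, ∑ a ∈ D x, θ a ≤ M)
    (hclass : ∀ x ∈ E, ((E.filter (fun y => D y = D x)).card : ℝ) ≤
      C3 * (1 + exp (2 * T - ∑ a ∈ D x, θ a))) :
    (E.card : ℝ) ≤ 2 * C3 * exp (G + η * M + F0) := by
  classical
  have h1 : (E.card : ℝ) = ∑ D0 ∈ E.image D, ((E.filter (fun y => D y = D0)).card : ℝ) := by
    exact_mod_cast Finset.card_eq_sum_card_image D E
  have h2 : ∀ D0 ∈ E.image D, ((E.filter (fun y => D y = D0)).card : ℝ) ≤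
      2 * C3 * exp (G + η * M) * ∏ a ∈ D0, f a := by
    intro D0 hD0
    obtain ⟨x, hx, rfl⟩ := Finset.mem_image.mp hD0
    refine (hclass x hx).trans ?_
    have h3 : 1 + exp (2 * T - ∑ a ∈ D x, θ a) ≤ 2 * exp (max 0 (2 * T - ∑ a ∈ D x, θ a)) := by
      have h4 : 1 ≤ exp (max 0 (2 * T - ∑ a ∈ D x, θ a)) :=
        Real.one_le_exp (le_max_left _ _)
      have h5 : exp (2 * T - ∑ a ∈ D x, θ a) ≤ exp (max 0 (2 * T - ∑ a ∈ D x, θ a)) :=
        Real.exp_le_exp.mpr (le_max_right _ _)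
      linarith
    have h6 : exp (max 0 (2 * T - ∑ a ∈ D x, θ a)) ≤
        exp (G + η * M) * exp (∑ a ∈ D x, (-(c a) - η * θ a)) := by
      rw [← Real.exp_add]
      refine Real.exp_le_exp.mpr ?_
      rw [Finset.sum_sub_distrib, Finset.sum_neg_distrib, ← Finset.mul_sum]
      have h7 := hsel x hx
      have h8 := mul_le_mul_of_nonneg_left (hW x hx) hη.le
      linarith
    have h9 : exp (∑ a ∈ D x, (-(c a) - η * θ a)) ≤ ∏ a ∈ D x, f a := by
      rw [Real.exp_sum]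
      exact Finset.prod_le_prod (fun a _ => (Real.exp_pos _).le) (fun a ha => hfa x hx a ha)
    calc C3 * (1 + exp (2 * T - ∑ a ∈ D x, θ a))
        ≤ C3 * (2 * (exp (G + η * M) * ∏ a ∈ D x, f a)) := by
          refine mul_le_mul_of_nonneg_left (h3.trans ?_) hC3
          refine mul_le_mul_of_nonneg_left (h6.trans ?_) (by norm_num)
          exact mul_le_mul_of_nonneg_left h9 (Real.exp_pos _).le
      _ = 2 * C3 * exp (G + η * M) * ∏ a ∈ D x, f a := by ring
  have h10 : ∑ D0 ∈ E.image D, ∏ a ∈ D0, f a ≤ exp F0 := by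
    set U0 := E.biUnion D with hU0
    calc ∑ D0 ∈ E.image D, ∏ a ∈ D0, f a ≤ ∑ D0 ∈ U0.powerset, ∏ a ∈ D0, f a := by
          refine Finset.sum_le_sum_of_subset_of_nonneg ?_ (fun t _ _ =>
            Finset.prod_nonneg fun a _ => hf0 a)
          intro D0 hD0
          obtain ⟨x, hx, rfl⟩ := Finset.mem_image.mp hD0
          exact Finset.mem_powerset.mpr (Finset.subset_biUnion_of_mem D hx)
      _ = ∏ a ∈ U0, (1 + f a) := (Finset.prod_one_add _).symm
      _ ≤ ∏ a ∈ U0, exp (f a) := by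
          refine Finset.prod_le_prod (fun a _ => by linarith [hf0 a]) (fun a _ => ?_)
          linarith [Real.add_one_le_exp (f a)]
      _ = exp (∑ a ∈ U0, f a) := (Real.exp_sum _ _).symm
      _ ≤ exp F0 := Real.exp_le_exp.mpr (hf U0)
  calc (E.card : ℝ) = ∑ D0 ∈ E.image D, ((E.filter (fun y => D y = D0)).card : ℝ) := h1
    _ ≤ ∑ D0 ∈ E.image D, 2 * C3 * exp (G + η * M) * ∏ a ∈ D0, f a := Finset.sum_le_sum h2
    _ = 2 * C3 * exp (G + η * M) * ∑ D0 ∈ E.image D, ∏ a ∈ D0, f a := by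
        rw [Finset.mul_sum]
    _ ≤ 2 * C3 * exp (G + η * M) * exp F0 := by
        refine mul_le_mul_of_nonneg_left h10 ?_
        positivity
    _ = 2 * C3 * exp (G + η * M + F0) := by rw [Real.exp_add (G + η * M)]; ring

end Counting

end Pool.Agent.H691R3
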