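import Pool.Agent.H691R3.Comb

set_option autoImplicit false
set_option linter.unusedVariables false

/-!
Selection of blocks for the methods with root extraction, abstractly; the weighted count of classes.
-/

namespace Pool.Agent.H691R3

open Finset

universe u

/-- gain of a block `a` with form `lab a` and weight `w a` in the method `(k, i1, i2)` -/
noncomputable def gain {ι : Type u} {q : ℕ} (lab : ι → Fin q) (w : ι → ℝ) (k : ℕ) (i1 i2 : Fin q)
    (a : ι) : ℝ := if lab a = i1 ∨ lab a = i2 then w a / k else w a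

/-- the data of a system of blocks -/
structure Blocks {ι : Type u} (q : ℕ) (B : Finset ι) (w c : ι → ℝ) (lab : ι → Fin q) (m : ι → ℕ)
    (X C κ : ℝ) : Prop where
  hX : 0 ≤ X
  hC : 0 ≤ C
  c0 : ∀ a ∈ B, 0 ≤ c a
  w0 : ∀ a ∈ B, 0 ≤ w a
  m1 : ∀ a ∈ B, 1 ≤ m a
  cw : ∀ a ∈ B, c a = 0 ∨ w a = m a * c a
  form : ∀ l, ∑ a ∈ B with lab a = l, w a ≤ X + C
  exc : κ * X - C ≤ ∑ a ∈ B, (w a - c a)

/-- existence of a good method, with exponent `e` -/
def Sel (q : ℕ) (κ e : ℝ) : Prop :=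
  ∃ Cm : ℝ, 0 ≤ Cm ∧ ∀ (ι : Type u) (B : Finset ι) (w c : ι → ℝ) (lab : ι → Fin q) (m : ι → ℕ)
    (X C : ℝ), Blocks q B w c lab m X C κ →
    ∃ (k : ℕ) (i1 i2 : Fin q) (I : Finset ι), 1 ≤ k ∧ k ≤ 4 ∧ i1 ≠ i2 ∧ I ⊆ B ∧
      (∀ a ∈ B, (lab a = i1 ∨ lab a = i2) → ¬ k ∣ m a → a ∈ I) ∧
      ∑ a ∈ I, c a + max 0 (2 * X / k - ∑ a ∈ I, gain lab w k i1 i2 a) ≤ e * X + Cm * C

section Counting

open Real

variable {X U : Type*}

theorem count_bound2 [DecidableEq U] (E : Finset X) (D : X → Finset U)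
    (θ c g f : U → ℝ) (hf0 : ∀ a, 0 ≤ f a) (F0 : ℝ) (hf : ∀ s : Finset U, ∑ a ∈ s, f a ≤ F0)
    (η b : ℝ) (hη : 0 < η) (hb : 0 ≤ b)
    (hfa : ∀ x ∈ E, ∀ a ∈ D x, b * exp (-(c a) - η * θ a) ≤ f a)
    (A G M C3 : ℝ) (hC3 : 0 ≤ C3)
    (hsel : ∀ x ∈ E, ∑ a ∈ D x, c a + max 0 (A - ∑ a ∈ D x, g a) ≤ G)
    (hW : ∀ x ∈ E, ∑ a ∈ D x, θ a ≤ M)
    (hclass : ∀ x ∈ E, ((E.filter (fun y => D y = D x)).card : ℝ) ≤
      C3 * b ^ (D x).card * (1 + exp (A - ∑ a ∈ D x, g a))) :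
    (E.card : ℝ) ≤ 2 * C3 * exp (G + η * M + F0) := by
  classical
  have h1 : (E.card : ℝ) = ∑ D0 ∈ E.image D, ((E.filter (fun y => D y = D0)).card : ℝ) := by
    exact_mod_cast Finset.card_eq_sum_card_image D E
  have h2 : ∀ D0 ∈ E.image D, ((E.filter (fun y => D y = D0)).card : ℝ) ≤
      2 * C3 * exp (G + η * M) * ∏ a ∈ D0, f a := by
    intro D0 hD0
    obtain ⟨x, hx, rfl⟩ := Finset.mem_image.mp hD0
    refine (hclass x hx).trans ?_
    have h3 : 1 + exp (A - ∑ a ∈ D x, g a) ≤ 2 * exp (max 0 (A - ∑ a ∈ D x, g a)) := by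
      have h4 : 1 ≤ exp (max 0 (A - ∑ a ∈ D x, g a)) :=
        Real.one_le_exp (le_max_left _ _)
      have h5 : exp (A - ∑ a ∈ D x, g a) ≤ exp (max 0 (A - ∑ a ∈ D x, g a)) :=
        Real.exp_le_exp.mpr (le_max_right _ _)
      linarith
    have h6 : exp (max 0 (A - ∑ a ∈ D x, g a)) ≤
        exp (G + η * M) * exp (∑ a ∈ D x, (-(c a) - η * θ a)) := by
      rw [← Real.exp_add]
      refine Real.exp_le_exp.mpr ?_
      rw [Finset.sum_sub_distrib, Finset.sum_neg_distrib, ← Finset.mul_sum]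
      have h7 := hsel x hx
      have h8 := mul_le_mul_of_nonneg_left (hW x hx) hη.le
      linarith
    have h9 : b ^ (D x).card * exp (∑ a ∈ D x, (-(c a) - η * θ a)) ≤ ∏ a ∈ D x, f a := by
      rw [Real.exp_sum, ← Finset.prod_const, ← Finset.prod_mul_distrib]
      exact Finset.prod_le_prod (fun a _ => mul_nonneg hb (Real.exp_pos _).le)
        (fun a ha => hfa x hx a ha)
    have hbp : 0 ≤ b ^ (D x).card := pow_nonneg hb _
    calc C3 * b ^ (D x).card * (1 + exp (A - ∑ a ∈ D x, g a))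
        ≤ C3 * b ^ (D x).card * (2 * (exp (G + η * M) * exp (∑ a ∈ D x, (-(c a) - η * θ a)))) := by
          refine mul_le_mul_of_nonneg_left (h3.trans ?_) (mul_nonneg hC3 hbp)
          exact mul_le_mul_of_nonneg_left h6 (by norm_num)
      _ = 2 * C3 * exp (G + η * M) *
          (b ^ (D x).card * exp (∑ a ∈ D x, (-(c a) - η * θ a))) := by ring
      _ ≤ 2 * C3 * exp (G + η * M) * ∏ a ∈ D x, f a :=
          mul_le_mul_of_nonneg_left h9 (by positivity)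
  have h10 : ∑ D0 ∈ E.image D, ∏ a ∈ D0, f a ≤ exp F0 := by
    set U0 := E.biUnion D with hU0
    calc ∑ D0 ∈ E.image D, ∏ a ∈ D0, f a ≤ ∑ D0 ∈ U0.powerset, ∏ a ∈ D0, f a := by
          refine Finset.sum_le_sum_of_subset_of_nonneg ?_ (fun t _ _ =>
            Finset.prod_nonneg fun a _ => hf0 a)
          intro D0 hD0
          obtain ⟨x, hx, rfl⟩ := Finset.mem_image.mp hD0
          exact Finset.mem_powerset.mpr (Finset.subset_biUnion_of_mem D hx)
      _ = ∏ a ∈ U0, (1 + f a) := (Finset.prod_one_add _).symm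
      _ ≤ ∏ a ∈ U0, exp (f a) := by
          refine Finset.prod_le_prod (fun a _ => by linarith [hf0 a]) (fun a _ => ?_)
          linarith [Real.add_one_le_exp (f a)]
      _ = exp (∑ a ∈ U0, f a) := (Real.exp_sum _ _).symm
      _ ≤ exp F0 := Real.exp_le_exp.mpr (hf U0)
  calc (E.card : ℝ) = ∑ D0 ∈ E.image D, ((E.filter (fun y => D y = D0)).card : ℝ) := h1
    _ ≤ ∑ D0 ∈ E.image D, 2 * C3 * exp (G + η * M) * ∏ a ∈ D0, f a := Finset.sum_le_sum h2
    _ = 2 * C3 * exp (G + η * M) * ∑ D0 ∈ E.image D, ∏ a ∈ D0, f a := by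
        rw [Finset.mul_sum]
    _ ≤ 2 * C3 * exp (G + η * M) * exp F0 := by
        refine mul_le_mul_of_nonneg_left h10 ?_
        positivity
    _ = 2 * C3 * exp (G + η * M + F0) := by rw [Real.exp_add (G + η * M)]; ring

end Counting

end Pool.Agent.H691R3
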