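import Pool.Agent.H691R3.Class

set_option autoImplicit false
set_option linter.unusedSectionVars false

/-!
The blocks attached to a point.
-/

namespace Pool.Agent.H691R3

open NumberField IsDedekindDomain Finset

variable {K : Type*} [Field K] [NumberField K]

/-- `d` times the truncated counting function of `[x : 1]` -/
noncomputable def NT (T : Set (HeightOneSpectrum (𝓞 K))) {q : ℕ} (α : Fin q → K × K) (x : K) : ℝ :=
  ∑ᶠ (v : HeightOneSpectrum (𝓞 K)) (_ : v ∉ T),
    ∑ l : Fin q, min (lamA (fv v) (aff x) (α l)) (Real.log (Nv v))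

/-- the point `[x : 1]` is different from all `α l` -/
def Off {q : ℕ} (α : Fin q → K × K) (x : K) : Prop :=
  ∀ l, (aff x).1 * (α l).2 - (aff x).2 * (α l).1 ≠ 0

/-- weight of a block -/
noncomputable def wt {q : ℕ} (a : Pl K × Fin q × ℕ) : ℝ := (a.2.2 : ℝ) * Lu a.1

open Classical in
/-- cost of a block -/
noncomputable def cost (Sp : Finset (Pl K)) {q : ℕ} (a : Pl K × Fin q × ℕ) : ℝ :=
  if a.1 ∈ Sp then 0 else Lu a.1

open Classical in
/-- threshold for the multiplicity -/
noncomputable def thr (Sp : Finset (Pl K)) (v : Pl K) : ℕ := if v ∈ Sp then 1 else 2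

/-- bad finite places: two of the points coincide -/
def Bad {q : ℕ} (α : Fin q → K × K) : Set (HeightOneSpectrum (𝓞 K)) :=
  {v | ∃ l j, l ≠ j ∧ lamA (fv v) (α l) (α j) ≠ 0}

lemma bad_finite {q : ℕ} (α : Fin q → K × K) (hα0 : ∀ l, α l ≠ 0)
    (hα : ∀ i j, i ≠ j → (α i).1 * (α j).2 - (α i).2 * (α j).1 ≠ 0) : (Bad α).Finite := by
  have h : Bad α ⊆ ⋃ l : Fin q, ⋃ j : Fin q, ⋃ _ : l ≠ j,
      {v : HeightOneSpectrum (𝓞 K) | lamA (fv v) (α l) (α j) ≠ 0} := by
    rintro v ⟨l, j, hlj, hv⟩
    simp only [Set.mem_iUnion]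
    exact ⟨l, j, hlj, hv⟩
  refine Set.Finite.subset ?_ h
  refine Set.finite_iUnion fun l => Set.finite_iUnion fun j => Set.finite_iUnion fun hlj => ?_
  exact lamF_support_finite (hα0 l) (hα0 j) (hα l j hlj)

lemma lam_le_lev (v : Pl K) (t : ℝ) : t ≤ (⌊t / Lu v⌋₊ : ℝ) * Lu v + Lu v := by
  have h1 := (Nat.lt_floor_add_one (t / Lu v)).le
  have h2 := mul_le_mul_of_nonneg_right h1 (Lu_pos v).le
  rw [div_mul_cancel₀ _ (Lu_pos v).ne'] at h2
  linarith

lemma lev_le_lam (v : Pl K) (t : ℝ) (h : 1 ≤ ⌊t / Lu v⌋₊) : (⌊t / Lu v⌋₊ : ℝ) * Lu v ≤ t := by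
  have h0 : 0 ≤ t / Lu v := by
    by_contra hcon
    rw [not_le] at hcon
    rw [Nat.floor_of_nonpos hcon.le] at h
    omega
  have h1 := Nat.floor_le h0
  have h2 := mul_le_mul_of_nonneg_right h1 (Lu_pos v).le
  rwa [div_mul_cancel₀ _ (Lu_pos v).ne'] at h2

/-- Existence of the block decomposition. -/
theorem exists_blocks {q : ℕ} (hq : 0 < q) (T : Set (HeightOneSpectrum (𝓞 K))) (hT : T.Finite)
    (α : Fin q → K × K) (hα0 : ∀ l, α l ≠ 0)
    (hα : ∀ i j, i ≠ j → (α i).1 * (α j).2 - (α i).2 * (α j).1 ≠ 0) :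
    ∃ Sp : Finset (Pl K), ∃ C : ℝ, 0 ≤ C ∧ ∀ x : K, Off α x →
      ∃ B : Finset (Pl K × Fin q × ℕ),
        Set.InjOn (fun a : Pl K × Fin q × ℕ => a.1) B ∧
        (∀ a ∈ B, wt a ≤ lam a.1 (aff x) (α a.2.1)) ∧
        (∀ a ∈ B, thr Sp a.1 ≤ a.2.2) ∧
        (∀ l, ∑ a ∈ B with a.2.1 = l, wt a ≤ hr (aff x) + C) ∧
        q * hr (aff x) - NT T α x - C ≤ ∑ a ∈ B, (wt a - cost Sp a) := by
  classical
  have : Nonempty (Fin q) := ⟨⟨0, hq⟩⟩
  -- the special places
  set Sf : Finset (HeightOneSpectrum (𝓞 K)) := (hT.union (bad_finite α hα0 hα)).toFinset with hSf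
  set Sp : Finset (Pl K) := (Finset.univ : Finset (InfinitePlace K)).disjSum Sf with hSp
  have hinl : ∀ w : InfinitePlace K, (Sum.inl w : Pl K) ∈ Sp := fun w => by
    rw [hSp, Finset.inl_mem_disjSum]; exact Finset.mem_univ w
  have hinr : ∀ v : HeightOneSpectrum (𝓞 K), (Sum.inr v : Pl K) ∈ Sp ↔ (v ∈ T ∨ v ∈ Bad α) :=
    fun v => by
      rw [hSp, Finset.inr_mem_disjSum, hSf, Set.Finite.mem_toFinset, Set.mem_union]
  -- constants
  set M : Pl K → ℝ := fun v => ∑ l : Fin q, ∑ j : Fin q, (|lam v (α l) (α j)| + loss v) with hM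
  have hM0 : ∀ v l j, |lam v (α l) (α j)| + loss v ≤ M v := by
    intro v l j
    have h1 : |lam v (α l) (α j)| + loss v ≤ ∑ j : Fin q, (|lam v (α l) (α j)| + loss v) :=
      Finset.single_le_sum (f := fun j => |lam v (α l) (α j)| + loss v)
        (fun j _ => add_nonneg (abs_nonneg _) (loss_nonneg v)) (Finset.mem_univ j)
    refine h1.trans ?_
    exact Finset.single_le_sum (f := fun l => ∑ j : Fin q, (|lam v (α l) (α j)| + loss v))
      (fun l _ => Finset.sum_nonneg fun j _ => add_nonneg (abs_nonneg _) (loss_nonneg v))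
      (Finset.mem_univ l)
  have hMnn : ∀ v, 0 ≤ M v := fun v => Finset.sum_nonneg fun l _ =>
    Finset.sum_nonneg fun j _ => add_nonneg (abs_nonneg _) (loss_nonneg v)
  set Csp : ℝ := ∑ v ∈ Sp, (Lu v + q * M v) with hCsp
  have hCsp0 : 0 ≤ Csp := Finset.sum_nonneg fun v _ =>
    add_nonneg (Lu_pos v).le (mul_nonneg (Nat.cast_nonneg _) (hMnn v))
  set Cα : ℝ := ∑ l : Fin q, |hr (α l)| with hCα
  have hCα0 : 0 ≤ Cα := Finset.sum_nonneg fun l _ => abs_nonneg _
  refine ⟨Sp, lossK K + Csp + Cα, by have := lossK_nonneg K; positivity, ?_⟩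
  intro x hx
  have hax := aff_ne_zero x
  -- the nearest point
  have hnear : ∀ v : Pl K, ∃ l : Fin q, ∀ j, lam v (aff x) (α j) ≤ lam v (aff x) (α l) :=
    fun v => Finite.exists_max (fun l => lam v (aff x) (α l))
  choose near hnear using hnear
  set lev : Pl K → ℕ := fun v => ⌊lam v (aff x) (α (near v)) / Lu v⌋₊ with hlev
  -- a finite set of places
  set Vf : Finset (HeightOneSpectrum (𝓞 K)) :=
    Sf ∪ Finset.univ.biUnion (fun l : Fin q => (lamF_support_finite hax (hα0 l) (hx l)).toFinset)
    with hVf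
  have hVf0 : ∀ v, v ∉ Vf → ∀ l, lamA (fv v) (aff x) (α l) = 0 := by
    intro v hv l
    by_contra hcon
    apply hv
    rw [hVf, Finset.mem_union, Finset.mem_biUnion]
    right
    exact ⟨l, Finset.mem_univ l, by rw [Set.Finite.mem_toFinset]; exact hcon⟩
  set P0 : Finset (Pl K) := (Finset.univ : Finset (InfinitePlace K)).disjSum Vf with hP0
  have hSpP0 : Sp ⊆ P0 := by
    rw [hSp, hP0]
    exact Finset.disjSum_mono (Finset.Subset.refl _) Finset.subset_union_left
  set Q0 : Finset (Pl K) := P0.filter (fun v => thr Sp v ≤ lev v) with hQ0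
  set g : Pl K → Pl K × Fin q × ℕ := fun v => (v, near v, lev v) with hg
  have hginj : Function.Injective g := fun a b hab => congrArg Prod.fst hab
  set B : Finset (Pl K × Fin q × ℕ) := Q0.image g with hB
  have hthr : ∀ v, 1 ≤ thr Sp v := fun v => by unfold thr; split_ifs <;> omega
  have hwt : ∀ v ∈ Q0, wt (g v) ≤ lam v (aff x) (α (near v)) := by
    intro v hv
    rw [hQ0, Finset.mem_filter] at hv
    exact lev_le_lam v _ ((hthr v).trans hv.2)
  refine ⟨B, ?_, ?_, ?_, ?_, ?_⟩
  · intro a ha b hb hab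
    rw [hB, Finset.mem_coe, Finset.mem_image] at ha hb
    obtain ⟨v, _, rfl⟩ := ha
    obtain ⟨u, _, rfl⟩ := hb
    have : v = u := hab
    rw [this]
  · intro a ha
    rw [hB, Finset.mem_image] at ha
    obtain ⟨v, hv, rfl⟩ := ha
    exact hwt v hv
  · intro a ha
    rw [hB, Finset.mem_image] at ha
    obtain ⟨v, hv, rfl⟩ := ha
    exact (Finset.mem_filter.mp hv).2
  · intro l
    have h1 : ∑ a ∈ B with a.2.1 = l, wt a = ∑ v ∈ Q0.filter (fun v => near v = l), wt (g v) := by
      rw [hB, Finset.filter_image, Finset.sum_image (fun a _ b _ hab => hginj hab)]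
    rw [h1]
    have h2 : ∑ v ∈ Q0.filter (fun v => near v = l), wt (g v) ≤
        ∑ v ∈ Q0.filter (fun v => near v = l), lam v (aff x) (α l) := by
      refine Finset.sum_le_sum fun v hv => ?_
      rw [Finset.mem_filter] at hv
      have := hwt v hv.1
      rwa [hv.2] at this
    have h3 := sum_lam_le hax (hα0 l) (hx l) (Q0.filter (fun v => near v = l))
    have h4 : hr (α l) ≤ Cα := (le_abs_self _).trans
      (Finset.single_le_sum (f := fun l => |hr (α l)|) (fun l _ => abs_nonneg _)
        (Finset.mem_univ l))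
    linarith
  · -- the sum of all local heights
    have hsum : (q : ℝ) * hr (aff x) + ∑ l : Fin q, hr (α l) =
        ∑ v ∈ P0, ∑ l : Fin q, lam v (aff x) (α l) := by
      rw [Finset.sum_comm]
      have h1 : ∀ l : Fin q, ∑ v ∈ P0, lam v (aff x) (α l) = hr (aff x) + hr (α l) := by
        intro l
        rw [← sum_lam hax (hα0 l) (hx l), hP0, Finset.sum_disjSum]
        congr 1
        symm
        refine finsum_eq_sum_of_support_subset _ ?_
        intro v hv
        by_contra hcon
        exact hv (hVf0 v (by exact_mod_cast hcon) l)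
      rw [Finset.sum_congr rfl (fun l _ => h1 l), Finset.sum_add_distrib, Finset.sum_const,
        Finset.card_univ, Fintype.card_fin, nsmul_eq_mul]
    -- the truncated counting function
    set mn : Pl K → ℝ := fun v => ∑ l : Fin q, min (lam v (aff x) (α l)) (Lu v) with hmn
    have hmn0 : ∀ v : HeightOneSpectrum (𝓞 K), 0 ≤ mn (Sum.inr v) := by
      intro v
      refine Finset.sum_nonneg fun l _ => le_min ?_ (Lu_pos _).le
      exact lamF_nonneg v hax (hα0 l) (hx l)
    have hNT : ∑ v ∈ P0 \ Sp, mn v ≤ NT T α x := by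
      have h1 : NT T α x = ∑ v ∈ Vf.filter (fun v => v ∉ T), mn (Sum.inr v) := by
        unfold NT
        simp only [← Set.mem_compl_iff]
        rw [finsum_mem_eq_sum_of_inter_support_eq (t := Vf.filter (fun v => v ∉ T))]
        · exact Finset.sum_congr rfl fun v _ => rfl
        ext v
        simp only [Set.mem_compl_iff, Set.mem_inter_iff, Function.mem_support, Finset.coe_filter, Set.mem_ofPred_eq]
        constructor
        · rintro ⟨hv1, hv2⟩
          refine ⟨⟨?_, hv1⟩, hv2⟩
          by_contra hcon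
          apply hv2
          refine Finset.sum_eq_zero fun l _ => ?_
          rw [hVf0 v hcon l]
          exact min_eq_left (log_Nv_pos v).le
        · rintro ⟨⟨_, hv1⟩, hv2⟩
          exact ⟨hv1, hv2⟩
      rw [h1]
      have h2 : P0 \ Sp = (Vf.filter (fun v => v ∉ T ∧ v ∉ Bad α)).image Sum.inr := by
        ext v
        rcases v with w | v
        · simp only [Finset.mem_sdiff, Finset.mem_image, reduceCtorEq, and_false, exists_false,
            iff_false, not_and, not_not]
          exact fun _ => hinl w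
        · rw [Finset.mem_sdiff, hinr, hP0, Finset.inr_mem_disjSum, Finset.mem_image]
          constructor
          · rintro ⟨h3, h4⟩
            push Not at h4
            exact ⟨v, Finset.mem_filter.mpr ⟨h3, h4⟩, rfl⟩
          · rintro ⟨u, hu, huv⟩
            have : u = v := Sum.inr_injective huv
            subst this
            rw [Finset.mem_filter] at hu
            exact ⟨hu.1, by push Not; exact hu.2⟩
      rw [h2, Finset.sum_image (fun a _ b _ hab => Sum.inr_injective hab)]
      refine Finset.sum_le_sum_of_subset_of_nonneg ?_ (fun v _ _ => hmn0 v)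
      intro v hv
      rw [Finset.mem_filter] at hv ⊢
      exact ⟨hv.1, hv.2.1⟩
    -- comparison of other points with the nearest one
    have hother : ∀ v : Pl K, ∀ l, l ≠ near v →
        lam v (aff x) (α l) ≤ lam v (α l) (α (near v)) + loss v := by
      intro v l hl
      have h1 := lam_triangle v (p := α l) (q := aff x) (r := α (near v)) (hα0 l) hax
        (hα0 (near v)) (hα l (near v) hl) (wedge_ne_comm (hx l)) (hx (near v))
        (lam v (aff x) (α l)) (by rw [lam_comm]) (hnear v l)
      linarith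
    -- special places
    have hspec : ∀ v ∈ Sp, ∑ l : Fin q, lam v (aff x) (α l) ≤
        (if thr Sp v ≤ lev v then wt (g v) - cost Sp (g v) else 0) + (Lu v + q * M v) := by
      intro v hv
      have h1 : ∑ l : Fin q, lam v (aff x) (α l) ≤
          lam v (aff x) (α (near v)) + q * M v := by
        rw [← Finset.add_sum_erase _ _ (Finset.mem_univ (near v))]
        have h2 : ∑ l ∈ Finset.univ.erase (near v), lam v (aff x) (α l) ≤
            ∑ l ∈ Finset.univ.erase (near v), M v := by
          refine Finset.sum_le_sum fun l hl => ?_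
          refine (hother v l (Finset.ne_of_mem_erase hl)).trans ?_
          exact (add_le_add (le_abs_self _) le_rfl).trans (hM0 v l (near v))
        have h3 : ∑ l ∈ Finset.univ.erase (near v), M v ≤ q * M v := by
          rw [Finset.sum_const, nsmul_eq_mul]
          refine mul_le_mul_of_nonneg_right ?_ (hMnn v)
          have h4 : (Finset.univ.erase (near v)).card ≤ q := by
            refine (Finset.card_le_univ _).trans ?_
            rw [Fintype.card_fin]
          exact_mod_cast h4
        linarith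
      have h5 := lam_le_lev v (lam v (aff x) (α (near v)))
      have hthrv : thr Sp v = 1 := by unfold thr; rw [if_pos hv]
      have hcostv : cost Sp (g v) = 0 := by unfold cost; rw [if_pos hv]
      rw [hthrv, hcostv]
      split_ifs with h6
      · have h7 : wt (g v) = (⌊lam v (aff x) (α (near v)) / Lu v⌋₊ : ℝ) * Lu v := rfl
        linarith
      · have h7 : lev v = 0 := by omega
        rw [hlev] at h7
        simp only at h7
        rw [h7, Nat.cast_zero, zero_mul] at h5
        linarith
    -- ordinary places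
    have hord : ∀ v ∈ P0 \ Sp, ∑ l : Fin q, lam v (aff x) (α l) - mn v ≤
        (if thr Sp v ≤ lev v then wt (g v) - cost Sp (g v) else 0) := by
      intro v hv
      rw [Finset.mem_sdiff] at hv
      rcases v with w | v
      · exact absurd (hinl w) hv.2
      have hgood : ∀ l j, l ≠ j → lam (Sum.inr v : Pl K) (α l) (α j) = 0 := by
        intro l j hlj
        by_contra hcon
        exact hv.2 ((hinr v).mpr (Or.inr ⟨l, j, hlj, hcon⟩))
      have hzero : ∀ l, l ≠ near (Sum.inr v) → lam (Sum.inr v : Pl K) (aff x) (α l) = 0 := by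
        intro l hl
        refine le_antisymm ?_ (lamF_nonneg v hax (hα0 l) (hx l))
        refine (hother (Sum.inr v) l hl).trans ?_
        rw [hgood l _ hl]
        simp [loss]
      have h1 : ∑ l : Fin q, lam (Sum.inr v : Pl K) (aff x) (α l) =
          lam (Sum.inr v : Pl K) (aff x) (α (near (Sum.inr v))) :=
        Finset.sum_eq_single _ (fun l _ hl => hzero l hl)
          (fun h => absurd (Finset.mem_univ _) h)
      have h2 : mn (Sum.inr v) =
          min (lam (Sum.inr v : Pl K) (aff x) (α (near (Sum.inr v)))) (Lu (Sum.inr v : Pl K)) := by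
        refine Finset.sum_eq_single _ (fun l _ hl => ?_)
          (fun h => absurd (Finset.mem_univ _) h)
        rw [hzero l hl]
        exact min_eq_left (Lu_pos _).le
      obtain ⟨m, hm⟩ := lamF_discrete v hax (hα0 (near (Sum.inr v))) (hx (near (Sum.inr v)))
      have hm' : lam (Sum.inr v : Pl K) (aff x) (α (near (Sum.inr v))) =
          m * Lu (Sum.inr v : Pl K) := hm
      have hlevm : lev (Sum.inr v) = m := by
        rw [hlev]
        simp only
        rw [hm', mul_div_cancel_right₀ _ (Lu_pos _).ne', Nat.floor_natCast]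
      have hthrv : thr Sp (Sum.inr v) = 2 := by unfold thr; rw [if_neg hv.2]
      have hcostv : cost Sp (g (Sum.inr v)) = Lu (Sum.inr v : Pl K) := by
        unfold cost; rw [if_neg hv.2]
      have hLp := Lu_pos (Sum.inr v : Pl K)
      rw [h1, h2, hm', hthrv, hcostv, hlevm]
      have hwtg : wt (g (Sum.inr v)) = (m : ℝ) * Lu (Sum.inr v : Pl K) := by
        unfold wt
        rw [hg]
        simp only
        rw [hlevm]
      rw [hwtg]
      split_ifs with h6
      · have h7 : (2 : ℝ) ≤ m := by exact_mod_cast h6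
        rw [min_eq_right (by nlinarith)]
      · have h7 : m ≤ 1 := by omega
        have h8 : (m : ℝ) ≤ 1 := by exact_mod_cast h7
        rw [min_eq_left (by nlinarith)]
        linarith
    -- conclusion
    have hBsum : ∑ a ∈ B, (wt a - cost Sp a) =
        ∑ v ∈ P0, (if thr Sp v ≤ lev v then wt (g v) - cost Sp (g v) else 0) := by
      rw [hB, Finset.sum_image (fun a _ b _ hab => hginj hab), hQ0, Finset.sum_filter]
    rw [hBsum]
    have hs1 : ∑ v ∈ P0, ∑ l : Fin q, lam v (aff x) (α l) =
        ∑ v ∈ P0 \ Sp, ∑ l : Fin q, lam v (aff x) (α l) +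
          ∑ v ∈ Sp, ∑ l : Fin q, lam v (aff x) (α l) := (Finset.sum_sdiff hSpP0).symm
    have hs2 : ∑ v ∈ P0, (if thr Sp v ≤ lev v then wt (g v) - cost Sp (g v) else 0) =
        ∑ v ∈ P0 \ Sp, (if thr Sp v ≤ lev v then wt (g v) - cost Sp (g v) else 0) +
          ∑ v ∈ Sp, (if thr Sp v ≤ lev v then wt (g v) - cost Sp (g v) else 0) :=
      (Finset.sum_sdiff hSpP0).symm
    have hs3 := Finset.sum_le_sum hord
    have hs4 := Finset.sum_le_sum hspec
    rw [Finset.sum_sub_distrib] at hs3
    rw [Finset.sum_add_distrib] at hs4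
    have hs5 : -Cα ≤ ∑ l : Fin q, hr (α l) := by
      rw [hCα, ← Finset.sum_neg_distrib]
      exact Finset.sum_le_sum fun l _ => neg_abs_le _
    have hL := lossK_nonneg K
    linarith

end Pool.Agent.H691R3
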