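import Pool.Agent.H691R3.RootClass

set_option autoImplicit false
set_option linter.unusedSectionVars false
set_option linter.unusedVariables false

/-!
The blocks attached to a point (all multiplicities), and the congruence of orders.
-/

namespace Pool.Agent.H691R3

open NumberField IsDedekindDomain Finset

variable {K : Type*} [Field K] [NumberField K]

/-- `d` times the truncated counting function of `[x : 1]` -/
noncomputable def NTc (T : Set (HeightOneSpectrum (𝓞 K))) {q : ℕ} (α : Fin q → K × K) (x : K) : ℝ :=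
  ∑ᶠ (v : HeightOneSpectrum (𝓞 K)) (_ : v ∉ T),
    ∑ l : Fin q, min (lamA (fv v) (aff x) (α l)) (Real.log (Nv v))

open Classical in
/-- cost of a block -/
noncomputable def cst (Sp : Finset (Pl K)) {q : ℕ} (a : Pl K × Fin q × ℕ) : ℝ :=
  if a.1 ∈ Sp then 0 else Lu a.1

/-- non-ordinary places -/
def Bad2 {q : ℕ} (α : Fin q → K × K) : Set (HeightOneSpectrum (𝓞 K)) :=
  {v | ¬ (∀ k : ℕ, 1 ≤ k → k ≤ 4 → Ordin k α v)}

lemma nat_support_finite {k : ℕ} (hk : 1 ≤ k) :
    {v : HeightOneSpectrum (𝓞 K) | fv v (k : K) ≠ 1}.Finite :=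
  fv_support_finite (by exact_mod_cast (by omega : k ≠ 0))

lemma bad2_finite {q : ℕ} (α : Fin q → K × K) (hα0 : ∀ l, α l ≠ 0)
    (hα : ∀ i j, i ≠ j → wg (α i) (α j) ≠ 0) : (Bad2 α).Finite := by
  have h : Bad2 α ⊆ ((⋃ l : Fin q, {v : HeightOneSpectrum (𝓞 K) | nrm (fv v) (α l) ≠ 1}) ∪
      (⋃ l : Fin q, ⋃ j : Fin q, ⋃ _ : l ≠ j,
      {v : HeightOneSpectrum (𝓞 K) | lamA (fv v) (α l) (α j) ≠ 0})) ∪
      (⋃ k : Fin 5, ⋃ _ : 1 ≤ (k : ℕ), {v : HeightOneSpectrum (𝓞 K) | fv v ((k : ℕ) : K) ≠ 1}) := by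
    intro v hv
    by_contra hcon
    apply hv
    intro k hk1 hk4
    simp only [Set.mem_union, Set.mem_iUnion, not_or, not_exists] at hcon
    obtain ⟨⟨h1, h2⟩, h3⟩ := hcon
    refine ⟨fun l => ?_, fun l j hlj => ?_, ?_⟩
    · by_contra h4
      exact h1 l h4
    · by_contra h4
      exact h2 l j hlj h4
    · by_contra h4
      exact h3 ⟨k, by omega⟩ hk1 h4
  refine Set.Finite.subset ?_ h
  refine ((Set.finite_iUnion fun l => max_support_finite (hα0 l)).union
    (Set.finite_iUnion fun l => Set.finite_iUnion fun j => Set.finite_iUnion fun hlj => ?_)).union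
    (Set.finite_iUnion fun k => Set.finite_iUnion fun hk => nat_support_finite hk)
  exact lamF_support_finite (hα0 l) (hα0 j) (hα l j hlj)

lemma le_floor_mul (v : Pl K) (t : ℝ) : t ≤ (⌊t / Lu v⌋₊ : ℝ) * Lu v + Lu v := by
  have h1 := (Nat.lt_floor_add_one (t / Lu v)).le
  have h2 := mul_le_mul_of_nonneg_right h1 (Lu_pos v).le
  rw [div_mul_cancel₀ _ (Lu_pos v).ne'] at h2
  linarith

lemma floor_mul_le (v : Pl K) (t : ℝ) (h : 1 ≤ ⌊t / Lu v⌋₊) : (⌊t / Lu v⌋₊ : ℝ) * Lu v ≤ t := by
  have h0 : 0 ≤ t / Lu v := by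
    by_contra hcon
    rw [not_le] at hcon
    rw [Nat.floor_of_nonpos hcon.le] at h
    omega
  have h1 := Nat.floor_le h0
  have h2 := mul_le_mul_of_nonneg_right h1 (Lu_pos v).le
  rwa [div_mul_cancel₀ _ (Lu_pos v).ne'] at h2

/-- the properties of the blocks of a point -/
structure IsBlocks (T : Set (HeightOneSpectrum (𝓞 K))) {q : ℕ} (α : Fin q → K × K)
    (Sp : Finset (Pl K)) (C : ℝ) (x : K) (B : Finset (Pl K × Fin q × ℕ)) : Prop where
  inj : Set.InjOn (fun a : Pl K × Fin q × ℕ => a.1) B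
  le_lam : ∀ a ∈ B, wt a ≤ lam a.1 (aff x) (α a.2.1)
  one_le : ∀ a ∈ B, 1 ≤ a.2.2
  form : ∀ l, ∑ a ∈ B with a.2.1 = l, wt a ≤ hr (aff x) + C
  excess : q * hr (aff x) - NTc T α x - C ≤ ∑ a ∈ B, (wt a - cst Sp a)
  exact : ∀ v : HeightOneSpectrum (𝓞 K), (Sum.inr v : Pl K) ∉ Sp → ∀ l, ∃ m : ℕ,
    lamA (fv v) (aff x) (α l) = m * Real.log (Nv v) ∧ (m = 0 ∨ ((Sum.inr v : Pl K), l, m) ∈ B)

/-- Existence of the block decomposition. -/
theorem exists_blocks2 {q : ℕ} (hq : 0 < q) (T : Set (HeightOneSpectrum (𝓞 K))) (hT : T.Finite)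
    (α : Fin q → K × K) (hα0 : ∀ l, α l ≠ 0)
    (hα : ∀ i j, i ≠ j → wg (α i) (α j) ≠ 0) :
    ∃ Sp : Finset (Pl K), (∀ w : InfinitePlace K, (Sum.inl w : Pl K) ∈ Sp) ∧
      (∀ v : HeightOneSpectrum (𝓞 K), (Sum.inr v : Pl K) ∉ Sp →
        ∀ k : ℕ, 1 ≤ k → k ≤ 4 → Ordin k α v) ∧
      ∃ C : ℝ, 0 ≤ C ∧ ∀ x : K, Off α x →
      ∃ B : Finset (Pl K × Fin q × ℕ), IsBlocks T α Sp C x B := by
  classical
  have : Nonempty (Fin q) := ⟨⟨0, hq⟩⟩
  -- the special places
  set Sf : Finset (HeightOneSpectrum (𝓞 K)) := (hT.union (bad2_finite α hα0 hα)).toFinset with hSf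
  set Sp : Finset (Pl K) := (Finset.univ : Finset (InfinitePlace K)).disjSum Sf with hSp
  have hinl : ∀ w : InfinitePlace K, (Sum.inl w : Pl K) ∈ Sp := fun w => by
    rw [hSp, Finset.inl_mem_disjSum]; exact Finset.mem_univ w
  have hinr : ∀ v : HeightOneSpectrum (𝓞 K), (Sum.inr v : Pl K) ∈ Sp ↔ (v ∈ T ∨ v ∈ Bad2 α) :=
    fun v => by
      rw [hSp, Finset.inr_mem_disjSum, hSf, Set.Finite.mem_toFinset, Set.mem_union]
  have hordin : ∀ v : HeightOneSpectrum (𝓞 K), (Sum.inr v : Pl K) ∉ Sp →
      ∀ k : ℕ, 1 ≤ k → k ≤ 4 → Ordin k α v := by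
    intro v hv
    by_contra hcon
    exact hv ((hinr v).mpr (Or.inr hcon))
  -- constants
  set M : Pl K → ℝ := fun v => ∑ l : Fin q, ∑ j : Fin q, (|lam v (α l) (α j)| + loss v) with hM
  have hM0 : ∀ v l j, |lam v (α l) (α j)| + loss v ≤ M v := by
    intro v l j
    have h1 : |lam v (α l) (α j)| + loss v ≤ ∑ j : Fin q, (|lam v (α l) (α j)| + loss v) :=
      Finset.single_le_sum (f := fun j => |lam v (α l) (α j)| + loss v)
        (fun j _ => add_nonneg (abs_nonneg _) (loss_nonneg v)) (Finset.mem_univ j)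
    refine h1.trans ?_
    exact Finset.single_le_sum (f := fun l => ∑ j : Fin q, (|lam v (α l) (α j)| + loss v))
      (fun l _ => Finset.sum_nonneg fun j _ => add_nonneg (abs_nonneg _) (loss_nonneg v))
      (Finset.mem_univ l)
  have hMnn : ∀ v, 0 ≤ M v := fun v => Finset.sum_nonneg fun l _ =>
    Finset.sum_nonneg fun j _ => add_nonneg (abs_nonneg _) (loss_nonneg v)
  set Csp : ℝ := ∑ v ∈ Sp, (Lu v + q * M v) with hCsp
  have hCsp0 : 0 ≤ Csp := Finset.sum_nonneg fun v _ =>
    add_nonneg (Lu_pos v).le (mul_nonneg (Nat.cast_nonneg _) (hMnn v))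
  set Cα : ℝ := ∑ l : Fin q, |hr (α l)| with hCα
  have hCα0 : 0 ≤ Cα := Finset.sum_nonneg fun l _ => abs_nonneg _
  refine ⟨Sp, hinl, hordin, lossK K + Csp + Cα, by have := lossK_nonneg K; positivity, ?_⟩
  intro x hx
  have hax := aff_ne_zero x
  -- the nearest point
  have hnear : ∀ v : Pl K, ∃ l : Fin q, ∀ j, lam v (aff x) (α j) ≤ lam v (aff x) (α l) :=
    fun v => Finite.exists_max (fun l => lam v (aff x) (α l))
  choose near hnear using hnear
  set lev : Pl K → ℕ := fun v => ⌊lam v (aff x) (α (near v)) / Lu v⌋₊ with hlev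
  -- a finite set of places
  set Vf : Finset (HeightOneSpectrum (𝓞 K)) :=
    Sf ∪ Finset.univ.biUnion (fun l : Fin q => (lamF_support_finite hax (hα0 l) (hx l)).toFinset)
    with hVf
  have hVf0 : ∀ v, v ∉ Vf → ∀ l, lamA (fv v) (aff x) (α l) = 0 := by
    intro v hv l
    by_contra hcon
    apply hv
    rw [hVf, Finset.mem_union, Finset.mem_biUnion]
    right
    exact ⟨l, Finset.mem_univ l, by rw [Set.Finite.mem_toFinset]; exact hcon⟩
  set P0 : Finset (Pl K) := (Finset.univ : Finset (InfinitePlace K)).disjSum Vf with hP0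
  have hSpP0 : Sp ⊆ P0 := by
    rw [hSp, hP0]
    exact Finset.disjSum_mono (Finset.Subset.refl _) Finset.subset_union_left
  set Q0 : Finset (Pl K) := P0.filter (fun v => 1 ≤ lev v) with hQ0
  set g : Pl K → Pl K × Fin q × ℕ := fun v => (v, near v, lev v) with hg
  have hginj : Function.Injective g := fun a b hab => congrArg Prod.fst hab
  set B : Finset (Pl K × Fin q × ℕ) := Q0.image g with hB
  have hwt : ∀ v ∈ Q0, wt (g v) ≤ lam v (aff x) (α (near v)) := by
    intro v hv
    rw [hQ0, Finset.mem_filter] at hv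
    exact floor_mul_le v _ hv.2
  -- comparison of other points with the nearest one
  have hother : ∀ v : Pl K, ∀ l, l ≠ near v →
      lam v (aff x) (α l) ≤ lam v (α l) (α (near v)) + loss v := by
    intro v l hl
    have h1 := lam_triangle v (p := α l) (q := aff x) (r := α (near v)) (hα0 l) hax
      (hα0 (near v)) (hα l (near v) hl) (wg_ne_comm (hx l)) (hx (near v))
      (lam v (aff x) (α l)) (by rw [lam_comm]) (hnear v l)
    linarith
  -- ordinary places
  have hzero : ∀ v : HeightOneSpectrum (𝓞 K), (Sum.inr v : Pl K) ∉ Sp →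
      ∀ l, l ≠ near (Sum.inr v) → lam (Sum.inr v : Pl K) (aff x) (α l) = 0 := by
    intro v hv l hl
    have ho := hordin v hv 1 le_rfl (by norm_num)
    refine le_antisymm ?_ (lamF_nonneg v hax (hα0 l) (hx l))
    refine (hother (Sum.inr v) l hl).trans ?_
    have h1 : lam (Sum.inr v : Pl K) (α l) (α (near (Sum.inr v))) = 0 := ho.lam_zero l _ hl
    rw [h1]
    simp [loss]
  have hexact : ∀ v : HeightOneSpectrum (𝓞 K), ∃ m : ℕ,
      lam (Sum.inr v : Pl K) (aff x) (α (near (Sum.inr v))) = m * Lu (Sum.inr v : Pl K) ∧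
      lev (Sum.inr v) = m := by
    intro v
    obtain ⟨m, hm⟩ := lamF_discrete v hax (hα0 (near (Sum.inr v))) (hx (near (Sum.inr v)))
    have hm' : lam (Sum.inr v : Pl K) (aff x) (α (near (Sum.inr v))) =
        m * Lu (Sum.inr v : Pl K) := hm
    refine ⟨m, hm', ?_⟩
    rw [hlev]
    simp only
    rw [hm', mul_div_cancel_right₀ _ (Lu_pos _).ne', Nat.floor_natCast]
  refine ⟨B, ?_, ?_, ?_, ?_, ?_, ?_⟩
  · intro a ha b hb hab
    rw [hB, Finset.mem_coe, Finset.mem_image] at ha hb
    obtain ⟨v, _, rfl⟩ := ha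
    obtain ⟨u, _, rfl⟩ := hb
    have : v = u := hab
    rw [this]
  · intro a ha
    rw [hB, Finset.mem_image] at ha
    obtain ⟨v, hv, rfl⟩ := ha
    exact hwt v hv
  · intro a ha
    rw [hB, Finset.mem_image] at ha
    obtain ⟨v, hv, rfl⟩ := ha
    exact (Finset.mem_filter.mp hv).2
  · intro l
    have h1 : ∑ a ∈ B with a.2.1 = l, wt a = ∑ v ∈ Q0.filter (fun v => near v = l), wt (g v) := by
      rw [hB, Finset.filter_image, Finset.sum_image (fun a _ b _ hab => hginj hab)]
    rw [h1]
    have h2 : ∑ v ∈ Q0.filter (fun v => near v = l), wt (g v) ≤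
        ∑ v ∈ Q0.filter (fun v => near v = l), lam v (aff x) (α l) := by
      refine Finset.sum_le_sum fun v hv => ?_
      rw [Finset.mem_filter] at hv
      have := hwt v hv.1
      rwa [hv.2] at this
    have h3 := sum_lam_le hax (hα0 l) (hx l) (Q0.filter (fun v => near v = l))
    have h4 : hr (α l) ≤ Cα := (le_abs_self _).trans
      (Finset.single_le_sum (f := fun l => |hr (α l)|) (fun l _ => abs_nonneg _)
        (Finset.mem_univ l))
    linarith
  · -- the sum of all local heights
    have hsum : (q : ℝ) * hr (aff x) + ∑ l : Fin q, hr (α l) =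
        ∑ v ∈ P0, ∑ l : Fin q, lam v (aff x) (α l) := by
      rw [Finset.sum_comm]
      have h1 : ∀ l : Fin q, ∑ v ∈ P0, lam v (aff x) (α l) = hr (aff x) + hr (α l) := by
        intro l
        rw [← sum_lam hax (hα0 l) (hx l), hP0, Finset.sum_disjSum]
        congr 1
        symm
        refine finsum_eq_sum_of_support_subset _ ?_
        intro v hv
        by_contra hcon
        exact hv (hVf0 v (by exact_mod_cast hcon) l)
      rw [Finset.sum_congr rfl (fun l _ => h1 l), Finset.sum_add_distrib, Finset.sum_const,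
        Finset.card_univ, Fintype.card_fin, nsmul_eq_mul]
    -- the truncated counting function
    set mn : Pl K → ℝ := fun v => ∑ l : Fin q, min (lam v (aff x) (α l)) (Lu v) with hmn
    have hmn0 : ∀ v : HeightOneSpectrum (𝓞 K), 0 ≤ mn (Sum.inr v) := by
      intro v
      refine Finset.sum_nonneg fun l _ => le_min ?_ (Lu_pos _).le
      exact lamF_nonneg v hax (hα0 l) (hx l)
    have hNT : ∑ v ∈ P0 \ Sp, mn v ≤ NTc T α x := by
      have h1 : NTc T α x = ∑ v ∈ Vf.filter (fun v => v ∉ T), mn (Sum.inr v) := by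
        unfold NTc
        simp only [← Set.mem_compl_iff]
        rw [finsum_mem_eq_sum_of_inter_support_eq (t := Vf.filter (fun v => v ∉ T))]
        · exact Finset.sum_congr rfl fun v _ => rfl
        ext v
        simp only [Set.mem_compl_iff, Set.mem_inter_iff, Function.mem_support, Finset.coe_filter,
          Set.mem_ofPred_eq]
        constructor
        · rintro ⟨hv1, hv2⟩
          refine ⟨⟨?_, hv1⟩, hv2⟩
          by_contra hcon
          apply hv2
          refine Finset.sum_eq_zero fun l _ => ?_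
          rw [hVf0 v hcon l]
          exact min_eq_left (log_Nv_pos v).le
        · rintro ⟨⟨_, hv1⟩, hv2⟩
          exact ⟨hv1, hv2⟩
      rw [h1]
      have h2 : P0 \ Sp = (Vf.filter (fun v => v ∉ T ∧ v ∉ Bad2 α)).image Sum.inr := by
        ext v
        rcases v with w | v
        · simp only [Finset.mem_sdiff, Finset.mem_image, reduceCtorEq, and_false, exists_false,
            iff_false, not_and, not_not]
          exact fun _ => hinl w
        · rw [Finset.mem_sdiff, hinr, hP0, Finset.inr_mem_disjSum, Finset.mem_image]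
          constructor
          · rintro ⟨h3, h4⟩
            push Not at h4
            exact ⟨v, Finset.mem_filter.mpr ⟨h3, h4⟩, rfl⟩
          · rintro ⟨u, hu, huv⟩
            have : u = v := Sum.inr_injective huv
            subst this
            rw [Finset.mem_filter] at hu
            exact ⟨hu.1, by push Not; exact hu.2⟩
      rw [h2, Finset.sum_image (fun a _ b _ hab => Sum.inr_injective hab)]
      refine Finset.sum_le_sum_of_subset_of_nonneg ?_ (fun v _ _ => hmn0 v)
      intro v hv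
      rw [Finset.mem_filter] at hv ⊢
      exact ⟨hv.1, hv.2.1⟩
    -- special places
    have hspec : ∀ v ∈ Sp, ∑ l : Fin q, lam v (aff x) (α l) ≤
        (if 1 ≤ lev v then wt (g v) - cst Sp (g v) else 0) + (Lu v + q * M v) := by
      intro v hv
      have h1 : ∑ l : Fin q, lam v (aff x) (α l) ≤
          lam v (aff x) (α (near v)) + q * M v := by
        rw [← Finset.add_sum_erase _ _ (Finset.mem_univ (near v))]
        have h2 : ∑ l ∈ Finset.univ.erase (near v), lam v (aff x) (α l) ≤
            ∑ l ∈ Finset.univ.erase (near v), M v := by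
          refine Finset.sum_le_sum fun l hl => ?_
          refine (hother v l (Finset.ne_of_mem_erase hl)).trans ?_
          exact (add_le_add (le_abs_self _) le_rfl).trans (hM0 v l (near v))
        have h3 : ∑ l ∈ Finset.univ.erase (near v), M v ≤ q * M v := by
          rw [Finset.sum_const, nsmul_eq_mul]
          refine mul_le_mul_of_nonneg_right ?_ (hMnn v)
          have h4 : (Finset.univ.erase (near v)).card ≤ q := by
            refine (Finset.card_le_univ _).trans ?_
            rw [Fintype.card_fin]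
          exact_mod_cast h4
        linarith
      have h5 := le_floor_mul v (lam v (aff x) (α (near v)))
      have hcostv : cst Sp (g v) = 0 := by unfold cst; rw [if_pos hv]
      rw [hcostv]
      split_ifs with h6
      · have h7 : wt (g v) = (⌊lam v (aff x) (α (near v)) / Lu v⌋₊ : ℝ) * Lu v := rfl
        linarith
      · have h7 : lev v = 0 := by omega
        rw [hlev] at h7
        simp only at h7
        rw [h7, Nat.cast_zero, zero_mul] at h5
        linarith
    -- ordinary places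
    have hord : ∀ v ∈ P0 \ Sp, ∑ l : Fin q, lam v (aff x) (α l) - mn v ≤
        (if 1 ≤ lev v then wt (g v) - cst Sp (g v) else 0) := by
      intro v hv
      rw [Finset.mem_sdiff] at hv
      rcases v with w | v
      · exact absurd (hinl w) hv.2
      have hz := hzero v hv.2
      have h1 : ∑ l : Fin q, lam (Sum.inr v : Pl K) (aff x) (α l) =
          lam (Sum.inr v : Pl K) (aff x) (α (near (Sum.inr v))) :=
        Finset.sum_eq_single _ (fun l _ hl => hz l hl)
          (fun h => absurd (Finset.mem_univ _) h)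
      have h2 : mn (Sum.inr v) =
          min (lam (Sum.inr v : Pl K) (aff x) (α (near (Sum.inr v)))) (Lu (Sum.inr v : Pl K)) := by
        refine Finset.sum_eq_single _ (fun l _ hl => ?_)
          (fun h => absurd (Finset.mem_univ _) h)
        rw [hz l hl]
        exact min_eq_left (Lu_pos _).le
      obtain ⟨m, hm', hlevm⟩ := hexact v
      have hcostv : cst Sp (g (Sum.inr v)) = Lu (Sum.inr v : Pl K) := by
        unfold cst; rw [if_neg hv.2]
      have hLp := Lu_pos (Sum.inr v : Pl K)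
      rw [h1, h2, hm', hcostv, hlevm]
      have hwtg : wt (g (Sum.inr v)) = (m : ℝ) * Lu (Sum.inr v : Pl K) := by
        unfold wt
        rw [hg]
        simp only
        rw [hlevm]
      rw [hwtg]
      split_ifs with h6
      · have h7 : (1 : ℝ) ≤ m := by exact_mod_cast h6
        rw [min_eq_right (by nlinarith)]
      · have h7 : m = 0 := by omega
        rw [h7, Nat.cast_zero, zero_mul, min_eq_left hLp.le]
        linarith
    -- conclusion
    have hBsum : ∑ a ∈ B, (wt a - cst Sp a) =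
        ∑ v ∈ P0, (if 1 ≤ lev v then wt (g v) - cst Sp (g v) else 0) := by
      rw [hB, Finset.sum_image (fun a _ b _ hab => hginj hab), hQ0, Finset.sum_filter]
    rw [hBsum]
    have hs1 : ∑ v ∈ P0, ∑ l : Fin q, lam v (aff x) (α l) =
        ∑ v ∈ P0 \ Sp, ∑ l : Fin q, lam v (aff x) (α l) +
          ∑ v ∈ Sp, ∑ l : Fin q, lam v (aff x) (α l) := (Finset.sum_sdiff hSpP0).symm
    have hs2 : ∑ v ∈ P0, (if 1 ≤ lev v then wt (g v) - cst Sp (g v) else 0) =
        ∑ v ∈ P0 \ Sp, (if 1 ≤ lev v then wt (g v) - cst Sp (g v) else 0) +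
          ∑ v ∈ Sp, (if 1 ≤ lev v then wt (g v) - cst Sp (g v) else 0) :=
      (Finset.sum_sdiff hSpP0).symm
    have hs3 := Finset.sum_le_sum hord
    have hs4 := Finset.sum_le_sum hspec
    rw [Finset.sum_sub_distrib] at hs3
    rw [Finset.sum_add_distrib] at hs4
    have hs5 : -Cα ≤ ∑ l : Fin q, hr (α l) := by
      rw [hCα, ← Finset.sum_neg_distrib]
      exact Finset.sum_le_sum fun l _ => neg_abs_le _
    have hL := lossK_nonneg K
    linarith
  · intro v hv l
    by_cases hl : l = near (Sum.inr v)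
    · obtain ⟨m, hm', hlevm⟩ := hexact v
      refine ⟨m, ?_, ?_⟩
      · rw [hl]; exact hm'
      · rcases Nat.eq_zero_or_pos m with h0 | h0
        · left; exact h0
        · right
          rw [hB, Finset.mem_image]
          refine ⟨Sum.inr v, ?_, ?_⟩
          · rw [hQ0, Finset.mem_filter, hP0, Finset.inr_mem_disjSum]
            refine ⟨?_, by omega⟩
            by_contra hcon
            have h1 := hVf0 v hcon (near (Sum.inr v))
            have h2 : lam (Sum.inr v : Pl K) (aff x) (α (near (Sum.inr v))) = 0 := h1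
            rw [h2] at hm'
            have h3 := Lu_pos (Sum.inr v : Pl K)
            have h4 : (1 : ℝ) ≤ m := by exact_mod_cast h0
            nlinarith
          · rw [hg]
            simp only
            rw [hlevm, hl]
    · refine ⟨0, ?_, Or.inl rfl⟩
      rw [Nat.cast_zero, zero_mul]
      exact hzero v hv l hl

/-- same mandatory blocks give congruent orders -/
lemma order_congr {T : Set (HeightOneSpectrum (𝓞 K))} {q : ℕ} {α : Fin q → K × K}
    (hα0 : ∀ l, α l ≠ 0)
    {Sp : Finset (Pl K)} {C : ℝ} {x y : K} {B B' D : Finset (Pl K × Fin q × ℕ)}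
    (hB : IsBlocks T α Sp C x B) (hB' : IsBlocks T α Sp C y B') {k : ℕ}
    (hord : ∀ v : HeightOneSpectrum (𝓞 K), (Sum.inr v : Pl K) ∉ Sp → Ordin k α v)
    {i1 i2 : Fin q} (hx : Off α x) (hy : Off α y)
    (hD : D ⊆ B) (hD' : D ⊆ B')
    (hm : ∀ a ∈ B, (a.2.1 = i1 ∨ a.2.1 = i2) → ¬ k ∣ a.2.2 → a ∈ D)
    (hm' : ∀ a ∈ B', (a.2.1 = i1 ∨ a.2.1 = i2) → ¬ k ∣ a.2.2 → a ∈ D)
    (v : HeightOneSpectrum (𝓞 K)) (hv : (Sum.inr v : Pl K) ∉ Sp) :
    ∃ n : ℤ, fv v ((wg (aff x) (α i1) / wg (aff x) (α i2)) /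
          (wg (aff y) (α i1) / wg (aff y) (α i2))) = (Nv v) ^ ((k : ℤ) * n) := by
  have hN : (0 : ℝ) < Nv v := by linarith [two_le_Nv v]
  have hlog := log_Nv_pos v
  -- orders of the forms
  have key : ∀ l, (l = i1 ∨ l = i2) → ∃ m m' : ℕ,
      lamA (fv v) (aff x) (α l) = m * Real.log (Nv v) ∧
      lamA (fv v) (aff y) (α l) = m' * Real.log (Nv v) ∧ ∃ n : ℤ, (m : ℤ) - m' = k * n := by
    intro l hl
    obtain ⟨m, hm1, hm2⟩ := hB.exact v hv l
    obtain ⟨m', hm1', hm2'⟩ := hB'.exact v hv l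
    refine ⟨m, m', hm1, hm1', ?_⟩
    -- a block of `D` at `v` for the form `l` determines both
    have aux : ∀ n : ℕ, 1 ≤ n → ((Sum.inr v : Pl K), l, n) ∈ D → m = n ∧ m' = n := by
      intro n hn hnD
      have h1 := hD hnD
      have h2 := hD' hnD
      constructor
      · rcases hm2 with h3 | h3
        · have h4 := hB.le_lam _ h1
          have h5 : lam (Sum.inr v : Pl K) (aff x) (α l) = lamA (fv v) (aff x) (α l) := rfl
          simp only at h4
          rw [h5, hm1, h3, Nat.cast_zero, zero_mul] at h4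
          have h6 : wt ((Sum.inr v : Pl K), l, n) = (n : ℝ) * Real.log (Nv v) := rfl
          rw [h6] at h4
          have h7 : (1 : ℝ) ≤ n := by exact_mod_cast hn
          nlinarith
        · have h4 := hB.inj (Finset.mem_coe.mpr h3) (Finset.mem_coe.mpr h1) rfl
          have h5 := congrArg (fun a : Pl K × Fin q × ℕ => a.2.2) h4
          exact h5
      · rcases hm2' with h3 | h3
        · have h4 := hB'.le_lam _ h2
          have h5 : lam (Sum.inr v : Pl K) (aff y) (α l) = lamA (fv v) (aff y) (α l) := rfl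
          simp only at h4
          rw [h5, hm1', h3, Nat.cast_zero, zero_mul] at h4
          have h6 : wt ((Sum.inr v : Pl K), l, n) = (n : ℝ) * Real.log (Nv v) := rfl
          rw [h6] at h4
          have h7 : (1 : ℝ) ≤ n := by exact_mod_cast hn
          nlinarith
        · have h4 := hB'.inj (Finset.mem_coe.mpr h3) (Finset.mem_coe.mpr h2) rfl
          have h5 := congrArg (fun a : Pl K × Fin q × ℕ => a.2.2) h4
          exact h5
    by_cases hkm : k ∣ m
    · by_cases hkm' : k ∣ m'
      · obtain ⟨r, hr⟩ := hkm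
        obtain ⟨r', hr'⟩ := hkm'
        exact ⟨(r : ℤ) - r', by rw [hr, hr']; push_cast; ring⟩
      · have hm0 : m' ≠ 0 := fun h => hkm' (by rw [h]; exact dvd_zero k)
        rcases hm2' with h3 | h3
        · exact absurd h3 hm0
        · have h4 := hm' _ h3 hl hkm'
          obtain ⟨h5, h6⟩ := aux m' (by omega) h4
          exact ⟨0, by rw [h5]; ring⟩
    · have hm0 : m ≠ 0 := fun h => hkm (by rw [h]; exact dvd_zero k)
      rcases hm2 with h3 | h3
      · exact absurd h3 hm0
      · have h4 := hm _ h3 hl hkm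
        obtain ⟨h5, h6⟩ := aux m (by omega) h4
        exact ⟨0, by rw [h6]; ring⟩
  obtain ⟨m1, m1', e1, e1', n1, hn1⟩ := key i1 (Or.inl rfl)
  obtain ⟨m2, m2', e2, e2', n2, hn2⟩ := key i2 (Or.inr rfl)
  have ho := hord v hv
  have hval : ∀ (z : K) (l : Fin q) (m : ℕ), Off α z →
      lamA (fv v) (aff z) (α l) = m * Real.log (Nv v) →
      fv v (wg (aff z) (α l)) = nrm (fv v) (aff z) * (Nv v) ^ (-(m : ℤ)) := by
    intro z l m hz hm
    rw [wg_exp (fv v) (aff_ne_zero z) (hα0 l) (hz l), ho.nrm_one l, mul_one, hm]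
    congr 1
    rw [← neg_mul, mul_comm, ← Real.rpow_def_of_pos hN, ← Real.rpow_intCast]
    push_cast
    rfl
  have nx := nrm_pos (fv v) (aff_ne_zero x)
  have ny := nrm_pos (fv v) (aff_ne_zero y)
  refine ⟨n2 - n1, ?_⟩
  rw [map_div₀, map_div₀, map_div₀, hval x i1 m1 hx e1, hval x i2 m2 hx e2, hval y i1 m1' hy e1',
    hval y i2 m2' hy e2', mul_div_mul_left _ _ nx.ne', mul_div_mul_left _ _ ny.ne',
    ← zpow_sub₀ hN.ne', ← zpow_sub₀ hN.ne', ← zpow_sub₀ hN.ne']
  congr 1
  have h3 : (k : ℤ) * (n2 - n1) = k * n2 - k * n1 := by ring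
  rw [h3, ← hn1, ← hn2]
  ring

end Pool.Agent.H691R3
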