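import Pool.Agent.H691R3.Local

set_option autoImplicit false

/-!
Global facts on local heights: product formula, finiteness of supports, discreteness.
-/

namespace Pool.Agent.H691R3

open NumberField IsDedekindDomain Finset

variable {K : Type*} [Field K] [NumberField K]

/-- the finite place, as an absolute value -/
noncomputable def fv (v : HeightOneSpectrum (𝓞 K)) : AbsoluteValue K ℝ := (FinitePlace.mk v).1

lemma fv_apply (v : HeightOneSpectrum (𝓞 K)) (x : K) : fv v x = FinitePlace.mk v x := rfl

lemma fv_na (v : HeightOneSpectrum (𝓞 K)) (a b : K) : fv v (a + b) ≤ max (fv v a) (fv v b) :=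
  FinitePlace.add_le (FinitePlace.mk v) a b

lemma fv_support_finite {x : K} (hx : x ≠ 0) : {v : HeightOneSpectrum (𝓞 K) | fv v x ≠ 1}.Finite := by
  have h := FinitePlace.hasFiniteMulSupport (K := K) hx
  have h2 : {v : HeightOneSpectrum (𝓞 K) | fv v x ≠ 1} =
      (fun v => FinitePlace.mk v) ⁻¹' (Function.mulSupport (fun w : FinitePlace K => w x)) := by
    ext v
    simp [Function.mulSupport, fv_apply]
  rw [h2]
  exact Set.Finite.preimage (fun a _ b _ hab => FinitePlace.mk_eq_iff.mp hab) h

lemma log_fv_support_finite {x : K} (hx : x ≠ 0) :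
    (Function.support fun v : HeightOneSpectrum (𝓞 K) => Real.log (fv v x)).Finite := by
  refine (fv_support_finite hx).subset ?_
  intro v hv
  simp only [Function.mem_support, Set.mem_ofPred_eq] at hv ⊢
  intro h
  rw [h, Real.log_one] at hv
  exact hv rfl

lemma max_support_finite {p : K × K} (hp : p ≠ 0) :
    {v : HeightOneSpectrum (𝓞 K) | max (fv v p.1) (fv v p.2) ≠ 1}.Finite := by
  by_cases h1 : p.1 = 0
  · have h2 : p.2 ≠ 0 := fun h => hp (Prod.ext h1 h)
    refine (fv_support_finite h2).subset ?_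
    intro v hv
    simp only [Set.mem_ofPred_eq] at hv ⊢
    rwa [h1, map_zero, max_eq_right ((fv v).nonneg _)] at hv
  · by_cases h2 : p.2 = 0
    · refine (fv_support_finite h1).subset ?_
      intro v hv
      simp only [Set.mem_ofPred_eq] at hv ⊢
      rwa [h2, map_zero, max_eq_left ((fv v).nonneg _)] at hv
    · refine ((fv_support_finite h1).union (fv_support_finite h2)).subset ?_
      intro v hv
      simp only [Set.mem_ofPred_eq, Set.mem_union] at hv ⊢
      by_contra hcon
      push Not at hcon
      rw [hcon.1, hcon.2] at hv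
      simp at hv

lemma log_max_support_finite {p : K × K} (hp : p ≠ 0) :
    (Function.support fun v : HeightOneSpectrum (𝓞 K) =>
      Real.log (max (fv v p.1) (fv v p.2))).Finite := by
  refine (max_support_finite hp).subset ?_
  intro v hv
  simp only [Function.mem_support, Set.mem_ofPred_eq] at hv ⊢
  intro h
  rw [h, Real.log_one] at hv
  exact hv rfl

/-- the product formula in logarithmic form -/
lemma log_product_formula {x : K} (hx : x ≠ 0) :
    ∑ w : InfinitePlace K, (w.mult : ℝ) * Real.log (w x) +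
      ∑ᶠ v : HeightOneSpectrum (𝓞 K), Real.log (fv v x) = 0 := by
  have h := NumberField.prod_abs_eq_one (K := K) hx
  have h1 : ∏ᶠ w : FinitePlace K, w x = ∏ᶠ v : HeightOneSpectrum (𝓞 K), fv v x := by
    rw [← finprod_comp_equiv (FinitePlace.equivHeightOneSpectrum (K := K)).symm]
    rfl
  rw [h1] at h
  set S := (fv_support_finite hx).toFinset with hS
  have h2 : ∏ᶠ v : HeightOneSpectrum (𝓞 K), fv v x = ∏ v ∈ S, fv v x := by
    refine finprod_eq_prod_of_mulSupport_subset _ ?_
    intro v hv
    rw [hS, Set.Finite.coe_toFinset]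
    exact hv
  have h3 : ∑ᶠ v : HeightOneSpectrum (𝓞 K), Real.log (fv v x) = ∑ v ∈ S, Real.log (fv v x) := by
    refine finsum_eq_sum_of_support_subset _ ?_
    intro v hv
    rw [hS, Set.Finite.coe_toFinset]
    simp only [Function.mem_support, Set.mem_ofPred_eq] at hv ⊢
    intro h
    rw [h, Real.log_one] at hv
    exact hv rfl
  rw [h2] at h
  rw [h3]
  have hpos : ∀ w : InfinitePlace K, 0 < w x := fun w => InfinitePlace.pos_iff.mpr hx
  have h4 : Real.log ((∏ w : InfinitePlace K, w x ^ w.mult) * ∏ v ∈ S, fv v x) = 0 := by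
    rw [h, Real.log_one]
  rw [Real.log_mul, Real.log_prod, Real.log_prod] at h4
  · rw [← h4]
    congr 1
    refine Finset.sum_congr rfl fun w _ => ?_
    rw [Real.log_pow]
  · intro v _
    exact ((fv v).pos hx).ne'
  · intro w _
    exact (pow_pos (hpos w) _).ne'
  · exact (Finset.prod_pos fun w _ => pow_pos (hpos w) _).ne'
  · exact (Finset.prod_pos fun v _ => (fv v).pos hx).ne'

/-- the relative logarithmic height -/
noncomputable def hr (p : K × K) : ℝ :=
  ∑ w : InfinitePlace K, (w.mult : ℝ) * Real.log (max (w p.1) (w p.2)) +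
    ∑ᶠ v : HeightOneSpectrum (𝓞 K), Real.log (max (fv v p.1) (fv v p.2))

lemma lamF_support_finite {p r : K × K} (hp : p ≠ 0) (hr : r ≠ 0)
    (h : p.1 * r.2 - p.2 * r.1 ≠ 0) :
    {v : HeightOneSpectrum (𝓞 K) | lamA (fv v) p r ≠ 0}.Finite := by
  refine (((max_support_finite hp).union (max_support_finite hr)).union
    (fv_support_finite h)).subset ?_
  intro v hv
  simp only [Set.mem_ofPred_eq, Set.mem_union] at hv ⊢
  by_contra hcon
  push Not at hcon
  unfold lamA at hv
  rw [hcon.1.1, hcon.1.2, hcon.2] at hv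
  simp at hv

/-- the sum of all local heights -/
lemma sum_lam {p r : K × K} (hp : p ≠ 0) (hr' : r ≠ 0) (h : p.1 * r.2 - p.2 * r.1 ≠ 0) :
    ∑ w : InfinitePlace K, (w.mult : ℝ) * lamA w.1 p r +
      ∑ᶠ v : HeightOneSpectrum (𝓞 K), lamA (fv v) p r = hr p + hr r := by
  have h1 := log_product_formula (K := K) h
  have e1 : ∑ w : InfinitePlace K, (w.mult : ℝ) * lamA w.1 p r =
      ∑ w : InfinitePlace K, (w.mult : ℝ) * Real.log (max (w p.1) (w p.2)) +
      ∑ w : InfinitePlace K, (w.mult : ℝ) * Real.log (max (w r.1) (w r.2)) -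
      ∑ w : InfinitePlace K, (w.mult : ℝ) * Real.log (w (p.1 * r.2 - p.2 * r.1)) := by
    rw [← Finset.sum_add_distrib, ← Finset.sum_sub_distrib]
    refine Finset.sum_congr rfl fun w _ => ?_
    rw [lamA_eq w.1 hp hr' h]
    simp only [InfinitePlace.coe_apply]
    ring
  have e2 : ∑ᶠ v : HeightOneSpectrum (𝓞 K), lamA (fv v) p r =
      ∑ᶠ v : HeightOneSpectrum (𝓞 K), Real.log (max (fv v p.1) (fv v p.2)) +
      ∑ᶠ v : HeightOneSpectrum (𝓞 K), Real.log (max (fv v r.1) (fv v r.2)) -
      ∑ᶠ v : HeightOneSpectrum (𝓞 K), Real.log (fv v (p.1 * r.2 - p.2 * r.1)) := by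
    rw [← finsum_add_distrib (log_max_support_finite hp) (log_max_support_finite hr'),
      ← finsum_sub_distrib _ (log_fv_support_finite h)]
    · exact finsum_congr fun v => lamA_eq (fv v) hp hr' h
    · exact ((log_max_support_finite hp).union (log_max_support_finite hr')).subset
        (Function.support_add _ _)
  rw [e1, e2]
  unfold hr
  linarith

end Pool.Agent.H691R3
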