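import Mathlib

set_option autoImplicit false

/-!
Local heights on the projective line over a number field: ultrametric and triangle inequalities,
product formula, discreteness.
-/

namespace Pool.Agent.H691R3

open NumberField IsDedekindDomain Finset

section Abs

variable {K : Type*} [Field K]

lemma wedge_id1 (p q r : K × K) :
    (p.1 * r.2 - p.2 * r.1) * q.1 =
      (p.1 * q.2 - p.2 * q.1) * r.1 + (q.1 * r.2 - q.2 * r.1) * p.1 := by ring

lemma wedge_id2 (p q r : K × K) :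
    (p.1 * r.2 - p.2 * r.1) * q.2 =
      (p.1 * q.2 - p.2 * q.1) * r.2 + (q.1 * r.2 - q.2 * r.1) * p.2 := by ring

/-- logarithm of the reciprocal distance for an absolute value -/
noncomputable def lamA (f : K → ℝ) (p r : K × K) : ℝ :=
  Real.log (max (f p.1) (f p.2) * max (f r.1) (f r.2) / f (p.1 * r.2 - p.2 * r.1))

variable (f : AbsoluteValue K ℝ)

lemma max_pos {p : K × K} (hp : p ≠ 0) : 0 < max (f p.1) (f p.2) := by
  by_contra h
  rw [not_lt] at h
  have h1 : f p.1 = 0 := le_antisymm ((le_max_left _ _).trans h) (f.nonneg _)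
  have h2 : f p.2 = 0 := le_antisymm ((le_max_right _ _).trans h) (f.nonneg _)
  rw [f.eq_zero] at h1 h2
  exact hp (Prod.ext h1 h2)

lemma max_mul_max {p : K × K} (a : K) :
    max (f (a * p.1)) (f (a * p.2)) = f a * max (f p.1) (f p.2) := by
  rw [f.map_mul, f.map_mul, mul_max_of_nonneg _ _ (f.nonneg a)]

lemma wedge_comm (p r : K × K) : f (p.1 * r.2 - p.2 * r.1) = f (r.1 * p.2 - r.2 * p.1) := by
  rw [← f.map_neg]
  congr 1
  ring

lemma lamA_comm (p r : K × K) : lamA f p r = lamA f r p := by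
  unfold lamA
  rw [wedge_comm f p r, mul_comm (max (f p.1) (f p.2))]

lemma lamA_eq {p r : K × K} (hp : p ≠ 0) (hr : r ≠ 0) (h : p.1 * r.2 - p.2 * r.1 ≠ 0) :
    lamA f p r = Real.log (max (f p.1) (f p.2)) + Real.log (max (f r.1) (f r.2)) -
      Real.log (f (p.1 * r.2 - p.2 * r.1)) := by
  unfold lamA
  rw [Real.log_div, Real.log_mul]
  · exact (max_pos f hp).ne'
  · exact (max_pos f hr).ne'
  · exact (mul_pos (max_pos f hp) (max_pos f hr)).ne'
  · exact (f.pos h).ne'

/-- the nonarchimedean case -/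
lemma wedge_ultra (hna : ∀ a b, f (a + b) ≤ max (f a) (f b)) (p q r : K × K) :
    f (p.1 * r.2 - p.2 * r.1) * max (f q.1) (f q.2) ≤
      max (f (p.1 * q.2 - p.2 * q.1) * max (f r.1) (f r.2))
        (f (q.1 * r.2 - q.2 * r.1) * max (f p.1) (f p.2)) := by
  rw [mul_max_of_nonneg _ _ (f.nonneg _)]
  refine max_le ?_ ?_
  · rw [← f.map_mul, wedge_id1 p q r]
    refine (hna _ _).trans (max_le_max ?_ ?_)
    · rw [f.map_mul]
      exact mul_le_mul_of_nonneg_left (le_max_left _ _) (f.nonneg _)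
    · rw [f.map_mul]
      exact mul_le_mul_of_nonneg_left (le_max_left _ _) (f.nonneg _)
  · rw [← f.map_mul, wedge_id2 p q r]
    refine (hna _ _).trans (max_le_max ?_ ?_)
    · rw [f.map_mul]
      exact mul_le_mul_of_nonneg_left (le_max_right _ _) (f.nonneg _)
    · rw [f.map_mul]
      exact mul_le_mul_of_nonneg_left (le_max_right _ _) (f.nonneg _)

/-- the archimedean case -/
lemma wedge_arch (p q r : K × K) :
    f (p.1 * r.2 - p.2 * r.1) * max (f q.1) (f q.2) ≤
      f (p.1 * q.2 - p.2 * q.1) * max (f r.1) (f r.2) +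
        f (q.1 * r.2 - q.2 * r.1) * max (f p.1) (f p.2) := by
  rw [mul_max_of_nonneg _ _ (f.nonneg _)]
  refine max_le ?_ ?_
  · rw [← f.map_mul, wedge_id1 p q r]
    refine (f.add_le _ _).trans (add_le_add ?_ ?_)
    · rw [f.map_mul]
      exact mul_le_mul_of_nonneg_left (le_max_left _ _) (f.nonneg _)
    · rw [f.map_mul]
      exact mul_le_mul_of_nonneg_left (le_max_left _ _) (f.nonneg _)
  · rw [← f.map_mul, wedge_id2 p q r]
    refine (f.add_le _ _).trans (add_le_add ?_ ?_)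
    · rw [f.map_mul]
      exact mul_le_mul_of_nonneg_left (le_max_right _ _) (f.nonneg _)
    · rw [f.map_mul]
      exact mul_le_mul_of_nonneg_left (le_max_right _ _) (f.nonneg _)

/-- `lamA f p r ≥ t` means the wedge is small -/
lemma le_lamA_iff {p r : K × K} (hp : p ≠ 0) (hr : r ≠ 0) (h : p.1 * r.2 - p.2 * r.1 ≠ 0) (t : ℝ) :
    t ≤ lamA f p r ↔ f (p.1 * r.2 - p.2 * r.1) ≤
      Real.exp (-t) * (max (f p.1) (f p.2) * max (f r.1) (f r.2)) := by
  have h1 := max_pos f hp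
  have h2 := max_pos f hr
  have h3 := f.pos h
  unfold lamA
  rw [Real.le_log_iff_exp_le (by positivity), le_div_iff₀ h3, Real.exp_neg, inv_mul_eq_div,
    le_div_iff₀ (Real.exp_pos t), mul_comm (Real.exp t)]

lemma lamA_nonneg (hna : ∀ a b, f (a + b) ≤ max (f a) (f b)) {p r : K × K} (hp : p ≠ 0)
    (hr : r ≠ 0) (h : p.1 * r.2 - p.2 * r.1 ≠ 0) : 0 ≤ lamA f p r := by
  rw [le_lamA_iff f hp hr h, neg_zero, Real.exp_zero, one_mul, sub_eq_add_neg]
  refine (hna _ _).trans (max_le ?_ ?_)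
  · rw [f.map_mul]
    exact mul_le_mul (le_max_left _ _) (le_max_right _ _) (f.nonneg _) (max_pos f hp).le
  · rw [f.map_neg, f.map_mul]
    exact mul_le_mul (le_max_right _ _) (le_max_left _ _) (f.nonneg _) (max_pos f hp).le

lemma lamA_ge_neg_log_two {p r : K × K} (hp : p ≠ 0)
    (hr : r ≠ 0) (h : p.1 * r.2 - p.2 * r.1 ≠ 0) : - Real.log 2 ≤ lamA f p r := by
  rw [le_lamA_iff f hp hr h, neg_neg, Real.exp_log (by norm_num), sub_eq_add_neg, two_mul]
  refine (f.add_le _ _).trans (add_le_add ?_ ?_)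
  · rw [f.map_mul]
    exact mul_le_mul (le_max_left _ _) (le_max_right _ _) (f.nonneg _) (max_pos f hp).le
  · rw [f.map_neg, f.map_mul]
    exact mul_le_mul (le_max_right _ _) (le_max_left _ _) (f.nonneg _) (max_pos f hp).le

lemma lamA_ultra (hna : ∀ a b, f (a + b) ≤ max (f a) (f b)) {p q r : K × K} (hp : p ≠ 0)
    (hq : q ≠ 0) (hr : r ≠ 0) (hpr : p.1 * r.2 - p.2 * r.1 ≠ 0)
    (hpq : p.1 * q.2 - p.2 * q.1 ≠ 0) (hqr : q.1 * r.2 - q.2 * r.1 ≠ 0) (t : ℝ)
    (h1 : t ≤ lamA f p q) (h2 : t ≤ lamA f q r) : t ≤ lamA f p r := by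
  rw [le_lamA_iff f hp hq hpq] at h1
  rw [le_lamA_iff f hq hr hqr] at h2
  rw [le_lamA_iff f hp hr hpr]
  have h3 := wedge_ultra f hna p q r
  have hP := max_pos f hp
  have hQ := max_pos f hq
  have hR := max_pos f hr
  refine le_of_mul_le_mul_right (h3.trans (max_le ?_ ?_)) hQ
  · calc f (p.1 * q.2 - p.2 * q.1) * max (f r.1) (f r.2)
        ≤ (Real.exp (-t) * (max (f p.1) (f p.2) * max (f q.1) (f q.2))) *
          max (f r.1) (f r.2) := mul_le_mul_of_nonneg_right h1 hR.le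
      _ = _ := by ring
  · calc f (q.1 * r.2 - q.2 * r.1) * max (f p.1) (f p.2)
        ≤ (Real.exp (-t) * (max (f q.1) (f q.2) * max (f r.1) (f r.2))) *
          max (f p.1) (f p.2) := mul_le_mul_of_nonneg_right h2 hP.le
      _ = _ := by ring

lemma lamA_arch {p q r : K × K} (hp : p ≠ 0)
    (hq : q ≠ 0) (hr : r ≠ 0) (hpr : p.1 * r.2 - p.2 * r.1 ≠ 0)
    (hpq : p.1 * q.2 - p.2 * q.1 ≠ 0) (hqr : q.1 * r.2 - q.2 * r.1 ≠ 0) (t : ℝ)
    (h1 : t ≤ lamA f p q) (h2 : t ≤ lamA f q r) : t - Real.log 2 ≤ lamA f p r := by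
  rw [le_lamA_iff f hp hq hpq] at h1
  rw [le_lamA_iff f hq hr hqr] at h2
  rw [le_lamA_iff f hp hr hpr]
  have h3 := wedge_arch f p q r
  have hP := max_pos f hp
  have hQ := max_pos f hq
  have hR := max_pos f hr
  have e1 : Real.exp (-(t - Real.log 2)) = 2 * Real.exp (-t) := by
    rw [neg_sub, sub_eq_add_neg, Real.exp_add, Real.exp_log (by norm_num)]
  rw [e1]
  refine le_of_mul_le_mul_right (h3.trans ?_) hQ
  calc f (p.1 * q.2 - p.2 * q.1) * max (f r.1) (f r.2) +
        f (q.1 * r.2 - q.2 * r.1) * max (f p.1) (f p.2)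
      ≤ (Real.exp (-t) * (max (f p.1) (f p.2) * max (f q.1) (f q.2))) *
          max (f r.1) (f r.2) +
        (Real.exp (-t) * (max (f q.1) (f q.2) * max (f r.1) (f r.2))) *
          max (f p.1) (f p.2) :=
        add_le_add (mul_le_mul_of_nonneg_right h1 hR.le) (mul_le_mul_of_nonneg_right h2 hP.le)
    _ = _ := by ring

end Abs

section NF

variable {K : Type*} [Field K] [NumberField K]

/-- the finite place function as an absolute value -/
lemma finite_na (v : HeightOneSpectrum (𝓞 K)) (a b : K) :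
    (FinitePlace.mk v).1 (a + b) ≤ max ((FinitePlace.mk v).1 a) ((FinitePlace.mk v).1 b) :=
  FinitePlace.add_le (FinitePlace.mk v) a b

/-- norm of the prime -/
noncomputable def Nv (v : HeightOneSpectrum (𝓞 K)) : ℝ := (Ideal.absNorm v.asIdeal : ℝ)

lemma two_le_Nv (v : HeightOneSpectrum (𝓞 K)) : 2 ≤ Nv v := by
  have h := NumberField.HeightOneSpectrum.one_lt_absNorm v
  unfold Nv
  exact_mod_cast h

lemma log_Nv_pos (v : HeightOneSpectrum (𝓞 K)) : 0 < Real.log (Nv v) :=
  Real.log_pos (by linarith [two_le_Nv v])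

lemma log_two_le_log_Nv (v : HeightOneSpectrum (𝓞 K)) : Real.log 2 ≤ Real.log (Nv v) :=
  Real.log_le_log (by norm_num) (two_le_Nv v)

end NF

end Pool.Agent.H691R3
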