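import Pool.Agent.H691R3.Data2
import Pool.Agent.H691R3.Comb2
import Pool.Agent.H691R3.PrimeSum

set_option autoImplicit false
set_option linter.unusedSectionVars false
set_option linter.unusedVariables false

/-!
The counting theorem with root extraction.
-/

namespace Pool.Agent.H691R3

open NumberField IsDedekindDomain Finset

universe u

variable {K : Type u} [Field K] [NumberField K]

lemma log_two_le_Lu' (v : Pl K) : Real.log 2 ≤ Lu v := by
  rcases v with w | v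
  · unfold Lu
    simp only [Sum.elim_inl]
    have := Real.log_le_sub_one_of_pos (x := 2) (by norm_num)
    linarith
  · exact log_two_le_log_Nv v

/-- majorant of the weights -/
noncomputable def gmaj2 (η : ℝ) (v : Pl K) : ℝ :=
  Real.exp (η * Real.log 2) * Real.exp (-(1 + η) * Lu v)

lemma gmaj2_summable {η : ℝ} (hη : 0 < η) : Summable (gmaj2 (K := K) η) := by
  unfold gmaj2
  refine Summable.mul_left _ ?_
  have h1 := nm_summable (K := K) (x := 1 + η) (by linarith)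
  refine summable_of_sum_le (c := (Fintype.card (InfinitePlace K) : ℝ) +
    ∑' v : HeightOneSpectrum (𝓞 K), (nm v : ℝ) ^ (-(1 + η)))
    (fun v => (Real.exp_pos _).le) fun s => ?_
  rw [← Finset.toLeft_disjSum_toRight (u := s), Finset.sum_disjSum]
  refine add_le_add ?_ ?_
  · calc ∑ w ∈ s.toLeft, Real.exp (-(1 + η) * Lu (Sum.inl w : Pl K))
        ≤ ∑ w ∈ s.toLeft, (1 : ℝ) := by
          refine Finset.sum_le_sum fun w _ => ?_
          refine Real.exp_le_one_iff.mpr ?_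
          have := Lu_pos (Sum.inl w : Pl K)
          nlinarith [mul_pos hη this]
      _ ≤ (Fintype.card (InfinitePlace K) : ℝ) := by
          rw [Finset.sum_const, nsmul_eq_mul, mul_one]
          exact_mod_cast Finset.card_le_univ _
  · calc ∑ v ∈ s.toRight, Real.exp (-(1 + η) * Lu (Sum.inr v : Pl K))
        = ∑ v ∈ s.toRight, (nm v : ℝ) ^ (-(1 + η)) := by
          refine Finset.sum_congr rfl fun v _ => ?_
          have h2 : (0 : ℝ) < nm v := by
            have := two_le_nm v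
            exact_mod_cast (by omega : 0 < nm v)
          rw [Real.rpow_def_of_pos h2, mul_comm]
          rfl
      _ ≤ _ := h1.sum_le_tsum _ (fun v _ => by positivity)

/-- the weight -/
noncomputable def fwt2 (Sp : Finset (Pl K)) (η : ℝ) {q : ℕ} (a : Pl K × Fin q × ℕ) : ℝ :=
  if 1 ≤ a.2.2 then 4 * Real.exp (-(cst Sp a) - η * wt a) else 0

lemma fwt2_nonneg (Sp : Finset (Pl K)) (η : ℝ) {q : ℕ} (a : Pl K × Fin q × ℕ) :
    0 ≤ fwt2 Sp η a := by
  unfold fwt2
  split_ifs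
  · positivity
  · exact le_rfl

lemma weights2_bounded (Sp : Finset (Pl K)) (q : ℕ) {η : ℝ} (hη : 0 < η) :
    ∃ F0 : ℝ, ∀ s : Finset (Pl K × Fin q × ℕ), ∑ a ∈ s, fwt2 Sp η a ≤ F0 := by
  classical
  set ρ : ℝ := Real.exp (-(η * Real.log 2)) with hρ
  have hlog : 0 < Real.log 2 := Real.log_pos (by norm_num)
  have hρ0 : 0 ≤ ρ := (Real.exp_pos _).le
  have hρ1 : ρ < 1 := by
    rw [hρ, Real.exp_lt_one_iff]
    have := mul_pos hη hlog
    linarith
  set G : Pl K → ℝ := fun v => 4 * ((if v ∈ Sp then 1 else 0) + gmaj2 η v) with hG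
  have hG0 : ∀ v, 0 ≤ G v := by
    intro v
    rw [hG]
    simp only
    have h1 : 0 ≤ gmaj2 η v := by unfold gmaj2; positivity
    split_ifs <;> linarith
  have hGs : Summable G := by
    refine Summable.mul_left _ (Summable.add ?_ (gmaj2_summable hη))
    refine summable_of_ne_finset_zero (s := Sp) fun v hv => ?_
    rw [if_neg hv]
  have hH : Summable (fun b : Fin q × ℕ => (1 : ℝ) * ρ ^ b.2) := by
    refine Summable.mul_of_nonneg (f := fun _ : Fin q => (1 : ℝ)) (g := fun n : ℕ => ρ ^ n)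
      (Summable.of_finite) (summable_geometric_of_lt_one hρ0 hρ1) (fun _ => zero_le_one)
      (fun n => pow_nonneg hρ0 n)
  have hGH : Summable (fun a : Pl K × Fin q × ℕ => G a.1 * (1 * ρ ^ a.2.2)) :=
    Summable.mul_of_nonneg (f := G) (g := fun b : Fin q × ℕ => (1 : ℝ) * ρ ^ b.2) hGs hH
      (fun v => hG0 v) (fun b => mul_nonneg zero_le_one (pow_nonneg hρ0 _))
  refine ⟨∑' a : Pl K × Fin q × ℕ, G a.1 * (1 * ρ ^ a.2.2), fun s => ?_⟩
  have hle : ∀ a : Pl K × Fin q × ℕ, fwt2 Sp η a ≤ G a.1 * (1 * ρ ^ a.2.2) := by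
    intro a
    have hnn : 0 ≤ G a.1 * (1 * ρ ^ a.2.2) :=
      mul_nonneg (hG0 _) (mul_nonneg zero_le_one (pow_nonneg hρ0 _))
    unfold fwt2
    split_ifs with hthr
    · have hLu := log_two_le_Lu' a.1
      have hpow : ρ ^ a.2.2 = Real.exp (-(a.2.2 * (η * Real.log 2))) := by
        rw [hρ, ← Real.exp_nat_mul]
        congr 1
        ring
      have hm0 : (0 : ℝ) ≤ a.2.2 := Nat.cast_nonneg _
      by_cases hv : a.1 ∈ Sp
      · have h1 : 4 ≤ G a.1 := by
          rw [hG]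
          simp only [if_pos hv]
          have h1 : 0 ≤ gmaj2 η a.1 := by unfold gmaj2; positivity
          linarith
        have h2 : Real.exp (-(cst Sp a) - η * wt a) ≤ 1 * ρ ^ a.2.2 := by
          rw [one_mul, hpow]
          refine Real.exp_le_exp.mpr ?_
          have h3 : cst Sp a = 0 := by unfold cst; rw [if_pos hv]
          rw [h3]
          unfold wt
          have h4 : (a.2.2 : ℝ) * (η * Real.log 2) ≤ a.2.2 * (η * Lu a.1) :=
            mul_le_mul_of_nonneg_left (mul_le_mul_of_nonneg_left hLu hη.le) hm0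
          linarith
        calc 4 * Real.exp (-(cst Sp a) - η * wt a) ≤ 4 * (1 * ρ ^ a.2.2) :=
              mul_le_mul_of_nonneg_left h2 (by norm_num)
          _ ≤ G a.1 * (1 * ρ ^ a.2.2) :=
            mul_le_mul_of_nonneg_right h1 (mul_nonneg zero_le_one (pow_nonneg hρ0 _))
      · have h1 : G a.1 = 4 * gmaj2 η a.1 := by
          rw [hG]
          simp only [if_neg hv, zero_add]
        have h2 : Real.exp (-(cst Sp a) - η * wt a) ≤ gmaj2 η a.1 * (1 * ρ ^ a.2.2) := by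
          unfold gmaj2
          rw [one_mul, hpow, ← Real.exp_add, ← Real.exp_add]
          refine Real.exp_le_exp.mpr ?_
          have h3 : cst Sp a = Lu a.1 := by unfold cst; rw [if_neg hv]
          rw [h3]
          unfold wt
          have h5 : (1 : ℝ) ≤ a.2.2 := by exact_mod_cast hthr
          have h4 : 0 ≤ ((a.2.2 : ℝ) - 1) * (η * (Lu a.1 - Real.log 2)) :=
            mul_nonneg (by linarith) (mul_nonneg hη.le (by linarith))
          nlinarith
        rw [h1, mul_assoc]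
        exact mul_le_mul_of_nonneg_left h2 (by norm_num)
    · exact hnn
  calc ∑ a ∈ s, fwt2 Sp η a ≤ ∑ a ∈ s, G a.1 * (1 * ρ ^ a.2.2) :=
        Finset.sum_le_sum fun a _ => hle a
    _ ≤ _ := hGH.sum_le_tsum _ (fun a _ =>
        mul_nonneg (hG0 _) (mul_nonneg zero_le_one (pow_nonneg hρ0 _)))

/-- points with height in a window -/
theorem count_window2 {q : ℕ} (hq : 2 ≤ q) (T : Set (HeightOneSpectrum (𝓞 K))) (hT : T.Finite)
    (α : Fin q → K × K) (hα0 : ∀ l, α l ≠ 0) (hα : ∀ i j, i ≠ j → wg (α i) (α j) ≠ 0)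
    (κ e : ℝ) (hκ0 : 0 ≤ κ) (he : Sel.{u} q κ e) (C0 : ℝ) (hC0 : 0 ≤ C0) (δ : ℝ) (hδ : 0 < δ) :
    ∃ C : ℝ, 0 ≤ C ∧ ∀ X : ℝ, 1 ≤ X → ∀ E : Finset K,
      (∀ x ∈ E, Off α x ∧ NTc T α x < (q - κ) * hr (aff x) + C0 ∧
        X - 1 ≤ hr (aff x) ∧ hr (aff x) ≤ X) →
      (E.card : ℝ) ≤ C * Real.exp ((e + δ) * X) := by
  classical
  obtain ⟨Sp, hinl, hord, C1, hC1, hB⟩ := exists_blocks2 (by omega : 0 < q) T hT α hα0 hα
  obtain ⟨Cm, hCm, hselect⟩ := he
  have hq0 : (0 : ℝ) < q := by exact_mod_cast (by omega : 0 < q)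
  set η : ℝ := δ / q with hη
  have hηpos : 0 < η := div_pos hδ hq0
  obtain ⟨F0, hF0⟩ := weights2_bounded Sp q hηpos
  set Cs : ℝ := C1 + κ + C0 with hCs
  have hCs0 : 0 ≤ Cs := by positivity
  -- constants of the methods
  have hclassC : ∀ (k : ℕ) (i1 i2 : Fin q), ∃ C : ℝ, 0 ≤ C ∧ (1 ≤ k → k ≤ 4 → i1 ≠ i2 →
      ∀ (A : Finset (Pl K × Fin q × ℕ)),
      Set.InjOn (fun a : Pl K × Fin q × ℕ => a.1) A → (∀ a ∈ A, 1 ≤ a.2.2) →
      ∀ (F : Finset K) (T : ℝ),
      (∀ x ∈ F, Off α x) → (∀ x ∈ F, hr (aff x) ≤ T) →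
      (∀ x ∈ F, ∀ a ∈ A, wt a ≤ lam a.1 (aff x) (α a.2.1)) →
      (∀ x ∈ F, ∀ y ∈ F, ∀ v : HeightOneSpectrum (𝓞 K), (Sum.inr v : Pl K) ∉ Sp →
        ∃ n : ℤ, fv v ((wg (aff x) (α i1) / wg (aff x) (α i2)) /
          (wg (aff y) (α i1) / wg (aff y) (α i2))) = (Nv v) ^ ((k : ℤ) * n)) →
      (F.card : ℝ) ≤ C * (k : ℝ) ^ A.card *
        (1 + Real.exp (2 * T / k - ∑ a ∈ A, gk k i1 i2 a))) := by
    intro k i1 i2
    by_cases h : 1 ≤ k ∧ k ≤ 4 ∧ i1 ≠ i2
    · obtain ⟨C, hC, hcl⟩ := class_bound_root α hα0 hα i1 i2 h.2.2 (by omega : 0 < k) Sp hinl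
        (fun v hv => hord v hv k h.1 h.2.1)
      exact ⟨C, hC, fun _ _ _ => hcl⟩
    · exact ⟨0, le_rfl, fun h1 h2 h3 => absurd ⟨h1, h2, h3⟩ h⟩
  choose Cc hCc0 hCc using hclassC
  set C3 : ℝ := ∑ k ∈ range 5, ∑ i1 : Fin q, ∑ i2 : Fin q, Cc k i1 i2 with hC3
  have hC3le : ∀ k i1 i2, k ≤ 4 → Cc k i1 i2 ≤ C3 := by
    intro k i1 i2 hk
    have e1 : Cc k i1 i2 ≤ ∑ i2 : Fin q, Cc k i1 i2 :=
      Finset.single_le_sum (f := fun i2 => Cc k i1 i2) (fun i _ => hCc0 k i1 i)
        (Finset.mem_univ i2)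
    have e2 : ∑ i2 : Fin q, Cc k i1 i2 ≤ ∑ i1 : Fin q, ∑ i2 : Fin q, Cc k i1 i2 :=
      Finset.single_le_sum (f := fun i1 => ∑ i2 : Fin q, Cc k i1 i2)
        (fun i _ => Finset.sum_nonneg fun j _ => hCc0 k i j) (Finset.mem_univ i1)
    have e3 : ∑ i1 : Fin q, ∑ i2 : Fin q, Cc k i1 i2 ≤ C3 :=
      Finset.single_le_sum (f := fun k => ∑ i1 : Fin q, ∑ i2 : Fin q, Cc k i1 i2)
        (fun k _ => Finset.sum_nonneg fun i _ => Finset.sum_nonneg fun j _ => hCc0 k i j)
        (Finset.mem_range.mpr (by omega))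
    linarith
  have hC30 : 0 ≤ C3 := Finset.sum_nonneg fun k _ => Finset.sum_nonneg fun i _ =>
    Finset.sum_nonneg fun j _ => hCc0 k i j
  refine ⟨(5 * q * q) * (2 * C3 * Real.exp (Cm * Cs + δ * Cs + F0)), by positivity, ?_⟩
  intro X hX E hE
  have hsel : ∀ x : K, ∃ (B : Finset (Pl K × Fin q × ℕ)) (k : ℕ) (i1 i2 : Fin q)
      (I : Finset (Pl K × Fin q × ℕ)), x ∈ E →
      (IsBlocks T α Sp C1 x B ∧ 1 ≤ k ∧ k ≤ 4 ∧ i1 ≠ i2 ∧ I ⊆ B ∧
      (∀ a ∈ B, (a.2.1 = i1 ∨ a.2.1 = i2) → ¬ k ∣ a.2.2 → a ∈ I) ∧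
      (∑ a ∈ I, wt a ≤ q * (X + Cs)) ∧
      (∑ a ∈ I, cst Sp a) + max 0 (2 * X / k - ∑ a ∈ I, gk k i1 i2 a) ≤ e * X + Cm * Cs) := by
    intro x
    by_cases hx : x ∈ E
    · obtain ⟨hoff, hviol, hlow, hup⟩ := hE x hx
      obtain ⟨B, hBx⟩ := hB x hoff
      have hcost0 : ∀ a ∈ B, 0 ≤ cst Sp a := by
        intro a _
        unfold cst
        split_ifs
        · exact le_rfl
        · exact (Lu_pos _).le
      have hwt0 : ∀ a ∈ B, 0 ≤ wt a := fun a _ => by
        unfold wt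
        exact mul_nonneg (Nat.cast_nonneg _) (Lu_pos _).le
      have hcw : ∀ a ∈ B, cst Sp a = 0 ∨ wt a = a.2.2 * cst Sp a := by
        intro a _
        unfold cst wt
        split_ifs
        · left; rfl
        · right; rfl
      have hl : ∀ l, ∑ a ∈ B with a.2.1 = l, wt a ≤ X + Cs := by
        intro l
        have := hBx.form l
        linarith
      have hEx : κ * X - Cs ≤ ∑ a ∈ B, (wt a - cst Sp a) := by
        refine le_trans ?_ hBx.excess
        have h1 : κ * (X - 1) ≤ κ * hr (aff x) := mul_le_mul_of_nonneg_left hlow hκ0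
        have h2 : ((q : ℝ) - κ) * hr (aff x) = q * hr (aff x) - κ * hr (aff x) := by ring
        have h3 : κ * (X - 1) = κ * X - κ := by ring
        linarith
      obtain ⟨k, i1, i2, I, hk1, hk4, hi, hIB, hmand, hI⟩ := hselect _ B wt (cst Sp)
        (fun a => a.2.1) (fun a => a.2.2) X Cs
        ⟨by linarith, hCs0, hcost0, hwt0, hBx.one_le, hcw, hl, hEx⟩
      refine ⟨B, k, i1, i2, I, fun _ => ⟨hBx, hk1, hk4, hi, hIB, hmand, ?_, hI⟩⟩
      calc ∑ a ∈ I, wt a ≤ ∑ a ∈ B, wt a :=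
            Finset.sum_le_sum_of_subset_of_nonneg hIB fun a ha _ => hwt0 a ha
        _ = ∑ l : Fin q, ∑ a ∈ B with a.2.1 = l, wt a :=
            (Finset.sum_fiberwise_of_maps_to (fun a _ => Finset.mem_univ a.2.1) wt).symm
        _ ≤ ∑ l : Fin q, (X + Cs) := Finset.sum_le_sum fun l _ => hl l
        _ = q * (X + Cs) := by
            rw [Finset.sum_const, Finset.card_univ, Fintype.card_fin, nsmul_eq_mul]
    · exact ⟨∅, 1, ⟨0, by omega⟩, ⟨0, by omega⟩, ∅, fun h => absurd h hx⟩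
  choose B kk j1 j2 I hI using hsel
  -- count each method
  have hmethod : ∀ k ∈ range 5, ∀ i1 i2 : Fin q,
      ((E.filter (fun x => kk x = k ∧ j1 x = i1 ∧ j2 x = i2)).card : ℝ) ≤
        2 * C3 * Real.exp ((e * X + Cm * Cs) + η * (q * (X + Cs)) + F0) := by
    intro k _ i1 i2
    set E' := E.filter (fun x => kk x = k ∧ j1 x = i1 ∧ j2 x = i2) with hE'
    have hmem : ∀ x ∈ E', x ∈ E ∧ kk x = k ∧ j1 x = i1 ∧ j2 x = i2 := fun x hx => by
      rw [hE', Finset.mem_filter] at hx; exact hx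
    refine count_bound2 E' I wt (cst Sp) (gk k i1 i2) (fwt2 Sp η) (fwt2_nonneg Sp η) F0 hF0 η 4
      hηpos (by norm_num) ?_ (2 * X / k) (e * X + Cm * Cs) (q * (X + Cs)) C3 hC30 ?_ ?_ ?_
    · intro x hx a ha
      obtain ⟨hxE, _⟩ := hmem x hx
      obtain ⟨hb, _, _, _, hIB, _⟩ := hI x hxE
      unfold fwt2
      rw [if_pos (hb.one_le a (hIB ha))]
    · intro x hx
      obtain ⟨hxE, e1, e2, e3⟩ := hmem x hx
      have h1 := (hI x hxE).2.2.2.2.2.2.2
      rw [e1, e2, e3] at h1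
      exact h1
    · intro x hx
      obtain ⟨hxE, e1, e2, e3⟩ := hmem x hx
      exact (hI x hxE).2.2.2.2.2.2.1
    · intro x hx
      obtain ⟨hxE, e1, e2, e3⟩ := hmem x hx
      obtain ⟨hb, hk1, hk4, hi, hIB, hmand, hwle, hsel'⟩ := hI x hxE
      rw [e1] at hk1 hk4
      rw [e2, e3] at hi
      have hcl := hCc k i1 i2 hk1 hk4 hi (I x)
        (hb.inj.mono (by exact_mod_cast hIB)) (fun a ha => hb.one_le a (hIB ha))
        (E'.filter (fun y => I y = I x)) X ?_ ?_ ?_ ?_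
      · refine hcl.trans ?_
        have h0 : 0 ≤ 1 + Real.exp (2 * X / k - ∑ a ∈ I x, gk k i1 i2 a) := by positivity
        refine mul_le_mul_of_nonneg_right ?_ h0
        have hk4' : (k : ℝ) ≤ 4 := by exact_mod_cast hk4
        exact mul_le_mul (hC3le k i1 i2 hk4) (pow_le_pow_left₀ (Nat.cast_nonneg _) hk4' _)
          (pow_nonneg (Nat.cast_nonneg _) _) hC30
      · intro y hy
        exact (hE y (hmem y (Finset.mem_filter.mp hy).1).1).1
      · intro y hy
        exact (hE y (hmem y (Finset.mem_filter.mp hy).1).1).2.2.2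
      · intro y hy a ha
        obtain ⟨hy1, hy2⟩ := Finset.mem_filter.mp hy
        obtain ⟨hby, _, _, _, hIBy, _⟩ := hI y (hmem y hy1).1
        rw [← hy2] at ha
        exact hby.le_lam a (hIBy ha)
      · intro y hy z hz v hv
        obtain ⟨hy1, hy2⟩ := Finset.mem_filter.mp hy
        obtain ⟨hz1, hz2⟩ := Finset.mem_filter.mp hz
        obtain ⟨hyE, f1, f2, f3⟩ := hmem y hy1
        obtain ⟨hzE, g1, g2, g3⟩ := hmem z hz1
        obtain ⟨hby, _, _, _, hIBy, hmy, _⟩ := hI y hyE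
        obtain ⟨hbz, _, _, _, hIBz, hmz, _⟩ := hI z hzE
        rw [f1, f2, f3, hy2] at hmy
        rw [g1, g2, g3, hz2] at hmz
        exact order_congr hα0 hby hbz (fun v hv => hord v hv k hk1 hk4) (hE y hyE).1
          (hE z hzE).1 (by rw [← hy2]; exact hIBy) (by rw [← hz2]; exact hIBz) hmy hmz v hv
  -- sum over the methods
  have hcover : (E.card : ℝ) ≤ ∑ k ∈ range 5, ∑ i1 : Fin q, ∑ i2 : Fin q,
      ((E.filter (fun x => kk x = k ∧ j1 x = i1 ∧ j2 x = i2)).card : ℝ) := by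
    have h1 : (E.card : ℝ) = ∑ p ∈ (range 5) ×ˢ (Finset.univ : Finset (Fin q × Fin q)),
        ((E.filter (fun x => (kk x, (j1 x, j2 x)) = p)).card : ℝ) := by
      exact_mod_cast Finset.card_eq_sum_card_fiberwise (s := E)
        (t := (range 5) ×ˢ (Finset.univ : Finset (Fin q × Fin q)))
        (f := fun x => (kk x, (j1 x, j2 x))) (by
          intro x hx
          simp only [Finset.coe_product, Set.mem_prod, Finset.coe_range, Set.mem_Iio,
            Finset.coe_univ, Set.mem_univ, and_true]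
          have := (hI x hx).2.2.1
          omega)
    rw [h1, Finset.sum_product]
    refine Finset.sum_le_sum fun k _ => ?_
    rw [← Finset.univ_product_univ, Finset.sum_product]
    refine Finset.sum_le_sum fun i1 _ => Finset.sum_le_sum fun i2 _ => ?_
    refine le_of_eq ?_
    congr 2
    ext x
    simp only [Finset.mem_filter, Prod.mk.injEq]
  have h5 : η * (q * (X + Cs)) = δ * (X + Cs) := by
    rw [hη]; field_simp
  calc (E.card : ℝ) ≤ ∑ k ∈ range 5, ∑ i1 : Fin q, ∑ i2 : Fin q,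
        ((E.filter (fun x => kk x = k ∧ j1 x = i1 ∧ j2 x = i2)).card : ℝ) := hcover
    _ ≤ ∑ k ∈ range 5, ∑ i1 : Fin q, ∑ i2 : Fin q,
        2 * C3 * Real.exp ((e * X + Cm * Cs) + η * (q * (X + Cs)) + F0) :=
        Finset.sum_le_sum fun k hk => Finset.sum_le_sum fun i1 _ => Finset.sum_le_sum fun i2 _ =>
          hmethod k hk i1 i2
    _ = (5 * q * q) * (2 * C3 * Real.exp ((e * X + Cm * Cs) + η * (q * (X + Cs)) + F0)) := by
        rw [Finset.sum_const, Finset.sum_const, Finset.sum_const, Finset.card_range,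
          Finset.card_univ, Fintype.card_fin]
        simp only [nsmul_eq_mul]
        push_cast
        ring
    _ = _ := by
        have h6 : Real.exp ((e * X + Cm * Cs) + η * (q * (X + Cs)) + F0) =
            Real.exp (Cm * Cs + δ * Cs + F0) * Real.exp ((e + δ) * X) := by
          rw [h5, ← Real.exp_add]; congr 1; ring
        rw [h6]; ring

/-- points of bounded height -/
theorem count_all2 {q : ℕ} (hq : 2 ≤ q) (T : Set (HeightOneSpectrum (𝓞 K))) (hT : T.Finite)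
    (α : Fin q → K × K) (hα0 : ∀ l, α l ≠ 0) (hα : ∀ i j, i ≠ j → wg (α i) (α j) ≠ 0)
    (κ e : ℝ) (hκ0 : 0 ≤ κ) (he0 : 0 ≤ e) (he : Sel.{u} q κ e) (C0 : ℝ) (hC0 : 0 ≤ C0)
    (δ : ℝ) (hδ : 0 < δ) :
    ∃ C : ℝ, 0 ≤ C ∧ ∀ X : ℝ, 0 ≤ X → ∀ E : Finset K,
      (∀ x ∈ E, Off α x ∧ NTc T α x < (q - κ) * hr (aff x) + C0 ∧ hr (aff x) ≤ X) →
      (E.card : ℝ) ≤ C * Real.exp ((e + δ) * X) := by
  classical
  obtain ⟨C, hC, hwin⟩ := count_window2 hq T hT α hα0 hα κ e hκ0 he C0 hC0 (δ / 2) (by positivity)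
  refine ⟨C * (2 / δ) * Real.exp (e + δ), by positivity, ?_⟩
  intro X hX E hE
  set N : ℕ := ⌊X⌋₊ + 1 with hN
  have hNX : (N : ℝ) ≤ X + 1 := by
    rw [hN]; push_cast
    have := Nat.floor_le hX
    linarith
  have h1 : (E.card : ℝ) = ∑ j ∈ Finset.range N,
      ((E.filter (fun x => ⌊hr (aff x)⌋₊ = j)).card : ℝ) := by
    have h2 := Finset.card_eq_sum_card_fiberwise (s := E) (t := Finset.range N)
      (f := fun x => ⌊hr (aff x)⌋₊) ?_
    · exact_mod_cast h2
    · intro x hx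
      simp only [Finset.coe_range, Set.mem_Iio]
      rw [hN]
      have := Nat.floor_le_floor (hE x hx).2.2
      omega
  have h3 : ∀ j ∈ Finset.range N, ((E.filter (fun x => ⌊hr (aff x)⌋₊ = j)).card : ℝ) ≤
      C * Real.exp ((e + δ / 2) * (X + 1)) := by
    intro j hj
    rw [Finset.mem_range] at hj
    have hjN : (j : ℝ) + 1 ≤ X + 1 := by
      have : ((j + 1 : ℕ) : ℝ) ≤ N := by exact_mod_cast hj
      push_cast at this
      linarith
    refine (hwin ((j : ℝ) + 1) (by have : (0 : ℝ) ≤ j := Nat.cast_nonneg j; linarith) _ ?_).trans ?_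
    · intro x hx
      rw [Finset.mem_filter] at hx
      obtain ⟨hx1, hx2⟩ := hx
      obtain ⟨hx3, hx4, hx5⟩ := hE x hx1
      refine ⟨hx3, hx4, ?_, ?_⟩
      · have := Nat.floor_le (hr_aff_nonneg x)
        rw [hx2] at this
        linarith
      · have := (Nat.lt_floor_add_one (hr (aff x))).le
        rw [hx2] at this
        exact this
    · refine mul_le_mul_of_nonneg_left ?_ hC
      refine Real.exp_le_exp.mpr ?_
      exact mul_le_mul_of_nonneg_left hjN (by positivity)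
  have h4 : (E.card : ℝ) ≤ (X + 1) * (C * Real.exp ((e + δ / 2) * (X + 1))) := by
    rw [h1]
    refine (Finset.sum_le_sum h3).trans ?_
    rw [Finset.sum_const, Finset.card_range, nsmul_eq_mul]
    exact mul_le_mul_of_nonneg_right hNX (by positivity)
  have h5 : X + 1 ≤ 2 / δ * Real.exp (δ / 2 * (X + 1)) := by
    have h6 := Real.add_one_le_exp (δ / 2 * (X + 1))
    have h7 : 2 / δ * (δ / 2 * (X + 1)) = X + 1 := by field_simp
    calc X + 1 = 2 / δ * (δ / 2 * (X + 1)) := h7.symm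
      _ ≤ 2 / δ * Real.exp (δ / 2 * (X + 1)) :=
        mul_le_mul_of_nonneg_left (by linarith) (by positivity)
  calc (E.card : ℝ) ≤ (X + 1) * (C * Real.exp ((e + δ / 2) * (X + 1))) := h4
    _ ≤ (2 / δ * Real.exp (δ / 2 * (X + 1))) *
        (C * Real.exp ((e + δ / 2) * (X + 1))) :=
        mul_le_mul_of_nonneg_right h5 (by positivity)
    _ = C * (2 / δ) * (Real.exp (δ / 2 * (X + 1)) *
        Real.exp ((e + δ / 2) * (X + 1))) := by ring
    _ = C * (2 / δ) * (Real.exp (e + δ) * Real.exp ((e + δ) * X)) := by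
        rw [← Real.exp_add, ← Real.exp_add]
        congr 2
        ring
    _ = _ := by ring

end Pool.Agent.H691R3
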