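import Mathlib

set_option autoImplicit false
set_option linter.unusedVariables false

/-!
Combinatorial part of the exceptional set bound in several variables: a selection lemma and a
weighted count of classes.
-/

namespace Pool.Agent.H691R3

open Finset

section NSelection

variable {ι : Type*}

/-- choice of blocks, several variables -/
theorem nselection {n : ℕ} (B : Finset ι) (g : Fin n → ι → ℝ) (c : ι → ℝ)
    (hg0 : ∀ i, ∀ a ∈ B, 0 ≤ g i a) (hc : ∀ a ∈ B, c a ≤ (∑ i, g i a) / 2)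
    (X : Fin n → ℝ) (L C κ : ℝ) (hX : ∀ i, 0 ≤ X i) (hXL : ∀ i, X i ≤ L) (hC : 0 ≤ C)
    (hκ : κ ≤ 2) (hgX : ∀ i, ∀ a ∈ B, g i a ≤ X i + C)
    (hE : κ * ∑ i, X i - C ≤ ∑ a ∈ B, (∑ i, g i a - c a)) :
    ∃ I ⊆ B, (∑ a ∈ I, c a) + ∑ i, max 0 (2 * X i - ∑ a ∈ I, g i a) ≤
      max ((2 - κ) * n) (2 * n - 4 / 5) * L + (n + 1) * C := by
  classical
  have hn0 : (0 : ℝ) ≤ n := Nat.cast_nonneg n
  -- sums without overshoot
  have htot : ∀ J ⊆ B, (∀ i, ∑ a ∈ J, g i a ≤ 2 * X i) →
      (∑ a ∈ J, c a) + ∑ i, max 0 (2 * X i - ∑ a ∈ J, g i a) =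
        ∑ i, 2 * X i - ∑ a ∈ J, (∑ i, g i a - c a) := by
    intro J _ hJ
    have h1 : ∑ i, max 0 (2 * X i - ∑ a ∈ J, g i a) = ∑ i, (2 * X i - ∑ a ∈ J, g i a) :=
      Finset.sum_congr rfl fun i _ => max_eq_right (by linarith [hJ i])
    rw [h1, Finset.sum_sub_distrib, Finset.sum_sub_distrib, Finset.sum_comm]
    ring
  by_cases hB : ∀ i, ∑ a ∈ B, g i a ≤ 2 * X i
  · refine ⟨B, Finset.Subset.refl _, ?_⟩
    rw [htot B (Finset.Subset.refl _) hB, ← Finset.mul_sum]
    have h1 : ∑ i, X i ≤ n * L := by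
      calc ∑ i, X i ≤ ∑ _i : Fin n, L := Finset.sum_le_sum fun i _ => hXL i
        _ = n * L := by rw [Finset.sum_const, Finset.card_univ, Fintype.card_fin, nsmul_eq_mul]
    have h2 : (2 - κ) * ∑ i, X i ≤ (2 - κ) * (n * L) :=
      mul_le_mul_of_nonneg_left h1 (by linarith)
    rcases n.eq_zero_or_pos with hn | hn
    · subst hn
      simp only [Finset.univ_eq_empty, Finset.sum_empty, mul_zero, zero_sub, Nat.cast_zero,
        zero_add, one_mul] at hE ⊢
      have h3 : max (0 : ℝ) (-(4 / 5)) = 0 := max_eq_left (by norm_num)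
      rw [h3]
      linarith
    · have hL : 0 ≤ L := (hX ⟨0, hn⟩).trans (hXL ⟨0, hn⟩)
      have h3 : (2 - κ) * n * L ≤ max ((2 - κ) * n) (2 * n - 4 / 5) * L :=
        mul_le_mul_of_nonneg_right (le_max_left _ _) hL
      have h4 : 0 ≤ (n : ℝ) * C := mul_nonneg hn0 hC
      linarith
  · push Not at hB
    obtain ⟨i0, hi0⟩ := hB
    set F := B.powerset.filter (fun I => ∃ i, 2 * X i < ∑ a ∈ I, g i a) with hF
    have hFne : F.Nonempty := ⟨B, by
      rw [hF, Finset.mem_filter]
      exact ⟨Finset.mem_powerset.mpr (Finset.Subset.refl _), i0, hi0⟩⟩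
    obtain ⟨I, hI, hmin⟩ := Finset.exists_min_image F Finset.card hFne
    rw [hF, Finset.mem_filter, Finset.mem_powerset] at hI
    obtain ⟨hIB, i, hi⟩ := hI
    have hL : 0 ≤ L := (hX i).trans (hXL i)
    have hIne : I.Nonempty := by
      rw [Finset.nonempty_iff_ne_empty]
      intro h
      rw [h, Finset.sum_empty] at hi
      linarith [hX i]
    obtain ⟨a, haI, hamin⟩ := Finset.exists_min_image I (g i) hIne
    set J := I.erase a with hJ
    have hJI : J ⊆ I := Finset.erase_subset _ _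
    have hJB : J ⊆ B := hJI.trans hIB
    have hnot : ∀ j, ∑ b ∈ J, g j b ≤ 2 * X j := by
      intro j
      by_contra hcon
      rw [not_le] at hcon
      have hmem : J ∈ F := by
        rw [hF, Finset.mem_filter, Finset.mem_powerset]
        exact ⟨hJB, j, hcon⟩
      have h7 := hmin _ hmem
      have h8 := Finset.card_erase_lt_of_mem haI
      rw [← hJ] at h8
      omega
    have hsplit : ∀ j, ∑ b ∈ I, g j b = ∑ b ∈ J, g j b + g j a := fun j =>
      (Finset.sum_erase_add _ _ haI).symm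
    set R := ∑ b ∈ J, g i b with hR
    have hRi := hsplit i
    rw [← hR] at hRi
    -- the final comparison
    have hfin : ∑ j, 2 * X j - 4 / 5 * X i ≤ max ((2 - κ) * n) (2 * n - 4 / 5) * L := by
      have h1 : ∑ j, 2 * X j = 2 * X i + ∑ j ∈ Finset.univ.erase i, 2 * X j :=
        (Finset.add_sum_erase _ _ (Finset.mem_univ i)).symm
      have h2 : ∑ j ∈ Finset.univ.erase i, 2 * X j ≤ ∑ _j ∈ Finset.univ.erase i, 2 * L :=
        Finset.sum_le_sum fun j _ => by linarith [hXL j]
      have h3 : ∑ _j ∈ Finset.univ.erase i, 2 * L = ((n : ℝ) - 1) * (2 * L) := by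
        rw [Finset.sum_const, nsmul_eq_mul, Finset.card_erase_of_mem (Finset.mem_univ i),
          Finset.card_univ, Fintype.card_fin, Nat.cast_sub (by have := i.2; omega)]
        push_cast
        ring
      have h4 : (2 * n - 4 / 5) * L ≤ max ((2 - κ) * n) (2 * n - 4 / 5) * L :=
        mul_le_mul_of_nonneg_right (le_max_right _ _) hL
      have h5 := hXL i
      linarith
    -- option J
    have hoptJ : (∑ b ∈ J, c b) + ∑ j, max 0 (2 * X j - ∑ b ∈ J, g j b) ≤
        ∑ j, 2 * X j - R / 2 := by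
      rw [htot J hJB hnot]
      have h1 : R / 2 ≤ ∑ b ∈ J, (∑ j, g j b - c b) := by
        rw [hR, Finset.sum_div]
        refine Finset.sum_le_sum fun b hb => ?_
        have h2 := hc b (hJB hb)
        have h3 : g i b ≤ ∑ j, g j b :=
          Finset.single_le_sum (f := fun j => g j b) (fun j _ => hg0 j b (hJB hb))
            (Finset.mem_univ i)
        linarith
      linarith
    -- option I
    have hoptI : (∑ b ∈ I, c b) + ∑ j, max 0 (2 * X j - ∑ b ∈ I, g j b) ≤
        ∑ j, 2 * X j - (2 * X i - (R + g i a) / 2) + n * C := by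
      have h1 : ∑ b ∈ I, c b ≤ ∑ j, (∑ b ∈ I, g j b) / 2 := by
        rw [← Finset.sum_div, Finset.sum_comm, Finset.sum_div]
        exact Finset.sum_le_sum fun b hb => hc b (hIB hb)
      have h2 : ∑ j, (∑ b ∈ I, g j b) / 2 + ∑ j, max 0 (2 * X j - ∑ b ∈ I, g j b) ≤
          ∑ j, (2 * X j + C - (if j = i then 2 * X i - (R + g i a) / 2 else 0)) := by
        rw [← Finset.sum_add_distrib]
        refine Finset.sum_le_sum fun j _ => ?_
        by_cases hj : j = i
        · subst hj
          rw [if_pos rfl, max_eq_left (by linarith), hRi]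
          linarith
        · rw [if_neg hj]
          have h3 := hsplit j
          have h4 := hnot j
          have h5 := hgX j a (hIB haI)
          have h6 := hX j
          have h7 : 0 ≤ ∑ b ∈ I, g j b := Finset.sum_nonneg fun b hb => hg0 j b (hIB hb)
          rcases max_cases 0 (2 * X j - ∑ b ∈ I, g j b) with h | h
          · rw [h.1]; linarith
          · rw [h.1]; linarith
      rw [Finset.sum_sub_distrib, Finset.sum_add_distrib, Finset.sum_ite_eq' Finset.univ i,
        if_pos (Finset.mem_univ i), Finset.sum_const, Finset.card_univ, Fintype.card_fin,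
        nsmul_eq_mul] at h2
      linarith
    have hnC : 0 ≤ (n : ℝ) * C := mul_nonneg hn0 hC
    rcases Nat.lt_or_ge I.card 3 with hcard | hcard
    · -- at most two blocks
      refine ⟨I, hIB, ?_⟩
      have h1 : R + g i a ≤ 2 * (X i + C) := by
        rw [← hRi]
        calc ∑ b ∈ I, g i b ≤ ∑ _b ∈ I, (X i + C) :=
              Finset.sum_le_sum fun b hb => hgX i b (hIB hb)
          _ = I.card * (X i + C) := by rw [Finset.sum_const, nsmul_eq_mul]
          _ ≤ 2 * (X i + C) := by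
              refine mul_le_mul_of_nonneg_right ?_ (by linarith [hX i])
              exact_mod_cast (by omega : I.card ≤ 2)
      have h2 := hX i
      linarith
    · have hR2 : 2 * g i a ≤ R := by
        have h1 : 2 ≤ J.card := by
          rw [hJ, Finset.card_erase_of_mem haI]
          omega
        have h2 : 0 ≤ g i a := hg0 i a (hIB haI)
        calc 2 * g i a ≤ J.card * g i a :=
              mul_le_mul_of_nonneg_right (by exact_mod_cast h1) h2
          _ = ∑ _b ∈ J, g i a := by rw [Finset.sum_const, nsmul_eq_mul]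
          _ ≤ R := Finset.sum_le_sum fun b hb => hamin b (hJI hb)
      rcases le_or_gt (8 / 5 * X i) R with h1 | h1
      · exact ⟨J, hJB, by linarith⟩
      · exact ⟨I, hIB, by linarith⟩

end NSelection

section NCounting

open Real

variable {X U : Type*}

theorem count_bound3 [DecidableEq U] (E : Finset X) (D : X → Finset U)
    (θ c f : U → ℝ) (hf0 : ∀ a, 0 ≤ f a) (F0 : ℝ) (hf : ∀ s : Finset U, ∑ a ∈ s, f a ≤ F0)
    (η : ℝ) (hη : 0 < η) (hfa : ∀ x ∈ E, ∀ a ∈ D x, exp (-(c a) - η * θ a) ≤ f a)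
    (Rf : Finset U → ℝ) (G M C3 : ℝ) (hC3 : 0 ≤ C3)
    (hsel : ∀ x ∈ E, ∑ a ∈ D x, c a + Rf (D x) ≤ G)
    (hW : ∀ x ∈ E, ∑ a ∈ D x, θ a ≤ M)
    (hclass : ∀ x ∈ E, ((E.filter (fun y => D y = D x)).card : ℝ) ≤ C3 * exp (Rf (D x))) :
    (E.card : ℝ) ≤ C3 * exp (G + η * M + F0) := by
  classical
  have h1 : (E.card : ℝ) = ∑ D0 ∈ E.image D, ((E.filter (fun y => D y = D0)).card : ℝ) := by
    exact_mod_cast Finset.card_eq_sum_card_image D E
  have h2 : ∀ D0 ∈ E.image D, ((E.filter (fun y => D y = D0)).card : ℝ) ≤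
      C3 * exp (G + η * M) * ∏ a ∈ D0, f a := by
    intro D0 hD0
    obtain ⟨x, hx, rfl⟩ := Finset.mem_image.mp hD0
    refine (hclass x hx).trans ?_
    have h6 : exp (Rf (D x)) ≤
        exp (G + η * M) * exp (∑ a ∈ D x, (-(c a) - η * θ a)) := by
      rw [← Real.exp_add]
      refine Real.exp_le_exp.mpr ?_
      rw [Finset.sum_sub_distrib, Finset.sum_neg_distrib, ← Finset.mul_sum]
      have h7 := hsel x hx
      have h8 := mul_le_mul_of_nonneg_left (hW x hx) hη.le
      linarith
    have h9 : exp (∑ a ∈ D x, (-(c a) - η * θ a)) ≤ ∏ a ∈ D x, f a := by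
      rw [Real.exp_sum]
      exact Finset.prod_le_prod (fun a _ => (Real.exp_pos _).le) (fun a ha => hfa x hx a ha)
    calc C3 * exp (Rf (D x)) ≤ C3 * (exp (G + η * M) * ∏ a ∈ D x, f a) := by
          refine mul_le_mul_of_nonneg_left (h6.trans ?_) hC3
          exact mul_le_mul_of_nonneg_left h9 (Real.exp_pos _).le
      _ = C3 * exp (G + η * M) * ∏ a ∈ D x, f a := by ring
  have h10 : ∑ D0 ∈ E.image D, ∏ a ∈ D0, f a ≤ exp F0 := by
    set U0 := E.biUnion D with hU0
    calc ∑ D0 ∈ E.image D, ∏ a ∈ D0, f a ≤ ∑ D0 ∈ U0.powerset, ∏ a ∈ D0, f a := by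
          refine Finset.sum_le_sum_of_subset_of_nonneg ?_ (fun t _ _ =>
            Finset.prod_nonneg fun a _ => hf0 a)
          intro D0 hD0
          obtain ⟨x, hx, rfl⟩ := Finset.mem_image.mp hD0
          exact Finset.mem_powerset.mpr (Finset.subset_biUnion_of_mem D hx)
      _ = ∏ a ∈ U0, (1 + f a) := (Finset.prod_one_add _).symm
      _ ≤ ∏ a ∈ U0, exp (f a) := by
          refine Finset.prod_le_prod (fun a _ => by linarith [hf0 a]) (fun a _ => ?_)
          linarith [Real.add_one_le_exp (f a)]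
      _ = exp (∑ a ∈ U0, f a) := (Real.exp_sum _ _).symm
      _ ≤ exp F0 := Real.exp_le_exp.mpr (hf U0)
  calc (E.card : ℝ) = ∑ D0 ∈ E.image D, ((E.filter (fun y => D y = D0)).card : ℝ) := h1
    _ ≤ ∑ D0 ∈ E.image D, C3 * exp (G + η * M) * ∏ a ∈ D0, f a := Finset.sum_le_sum h2
    _ = C3 * exp (G + η * M) * ∑ D0 ∈ E.image D, ∏ a ∈ D0, f a := by
        rw [Finset.mul_sum]
    _ ≤ C3 * exp (G + η * M) * exp F0 := by
        refine mul_le_mul_of_nonneg_left h10 ?_
        positivity
    _ = C3 * exp (G + η * M + F0) := by rw [Real.exp_add (G + η * M)]; ring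

end NCounting

end Pool.Agent.H691R3
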