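import Pool.Agent.H691R3.Data

set_option autoImplicit false
set_option linter.unusedSectionVars false
set_option linter.unusedVariables false

/-!
The blocks attached to a point of a product of lines.
-/

namespace Pool.Agent.H691R3

open NumberField IsDedekindDomain Finset

variable {K : Type*} [Field K] [NumberField K]

/-- data at one place: for every coordinate a form and a multiplicity -/
abbrev UB (K : Type*) [Field K] [NumberField K] {n : ℕ} (q : Fin n → ℕ) : Type _ :=
  Pl K × ((i : Fin n) → Fin (q i) × ℕ)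

/-- the truncated counting function: every prime counts once -/
noncomputable def NTn (T : Set (HeightOneSpectrum (𝓞 K))) {n : ℕ} {q : Fin n → ℕ}
    (α : (i : Fin n) → Fin (q i) → K × K) (x : Fin n → K) : ℝ :=
  ∑ᶠ (v : HeightOneSpectrum (𝓞 K)) (_ : v ∉ T),
    min (∑ i, ∑ l : Fin (q i), lamA (fv v) (aff (x i)) (α i l)) (Real.log (Nv v))

/-- weight of a block in the coordinate `i` -/
noncomputable def wti {n : ℕ} {q : Fin n → ℕ} (i : Fin n) (u : UB K q) : ℝ :=
  ((u.2 i).2 : ℝ) * Lu u.1

open Classical in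
/-- cost of a block -/
noncomputable def costn (Sp : Finset (Pl K)) {n : ℕ} {q : Fin n → ℕ} (u : UB K q) : ℝ :=
  if u.1 ∈ Sp then 0 else Lu u.1

/-- total multiplicity -/
def mul {n : ℕ} {q : Fin n → ℕ} (u : UB K q) : ℕ := ∑ i, (u.2 i).2

lemma sum_wti {n : ℕ} {q : Fin n → ℕ} (u : UB K q) : ∑ i, wti i u = (mul u : ℝ) * Lu u.1 := by
  unfold wti mul
  push_cast
  rw [Finset.sum_mul]

/-- Existence of the block decomposition. -/
theorem exists_nblocks {n : ℕ} {q : Fin n → ℕ} (hq : ∀ i, 0 < q i)
    (T : Set (HeightOneSpectrum (𝓞 K))) (hT : T.Finite)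
    (α : (i : Fin n) → Fin (q i) → K × K) (hα0 : ∀ i l, α i l ≠ 0)
    (hα : ∀ i, ∀ l j, l ≠ j → (α i l).1 * (α i j).2 - (α i l).2 * (α i j).1 ≠ 0) :
    ∃ Sp : Finset (Pl K), ∃ C : ℝ, 0 ≤ C ∧ ∀ x : Fin n → K, (∀ i, Off (α i) (x i)) →
      ∃ B : Finset (UB K q),
        Set.InjOn (fun u : UB K q => u.1) B ∧
        (∀ u ∈ B, ∀ i, 1 ≤ (u.2 i).2 → wti i u ≤ lam u.1 (aff (x i)) (α i (u.2 i).1)) ∧
        (∀ u ∈ B, thr Sp u.1 ≤ mul u) ∧
        (∀ i, ∀ l, ∑ u ∈ B with (u.2 i).1 = l, wti i u ≤ hr (aff (x i)) + C) ∧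
        ∑ i, (q i : ℝ) * hr (aff (x i)) - NTn T α x - C ≤
          ∑ u ∈ B, (∑ i, wti i u - costn Sp u) := by
  classical
  have : ∀ i, Nonempty (Fin (q i)) := fun i => ⟨⟨0, hq i⟩⟩
  -- the special places
  have hbadfin : (⋃ i, Bad (α i)).Finite := Set.finite_iUnion fun i => bad_finite (α i) (hα0 i) (hα i)
  set Sf : Finset (HeightOneSpectrum (𝓞 K)) := (hT.union hbadfin).toFinset with hSf
  set Sp : Finset (Pl K) := (Finset.univ : Finset (InfinitePlace K)).disjSum Sf with hSp
  have hinl : ∀ w : InfinitePlace K, (Sum.inl w : Pl K) ∈ Sp := fun w => by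
    rw [hSp, Finset.inl_mem_disjSum]; exact Finset.mem_univ w
  have hinr : ∀ v : HeightOneSpectrum (𝓞 K), (Sum.inr v : Pl K) ∈ Sp ↔
      (v ∈ T ∨ ∃ i, v ∈ Bad (α i)) :=
    fun v => by
      rw [hSp, Finset.inr_mem_disjSum, hSf, Set.Finite.mem_toFinset, Set.mem_union,
        Set.mem_iUnion]
  -- constants
  set M : (i : Fin n) → Pl K → ℝ := fun i v =>
    ∑ l : Fin (q i), ∑ j : Fin (q i), (|lam v (α i l) (α i j)| + loss v) with hM
  have hM0 : ∀ i v l j, |lam v (α i l) (α i j)| + loss v ≤ M i v := by
    intro i v l j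
    have h1 : |lam v (α i l) (α i j)| + loss v ≤
        ∑ j : Fin (q i), (|lam v (α i l) (α i j)| + loss v) :=
      Finset.single_le_sum (f := fun j => |lam v (α i l) (α i j)| + loss v)
        (fun j _ => add_nonneg (abs_nonneg _) (loss_nonneg v)) (Finset.mem_univ j)
    refine h1.trans ?_
    exact Finset.single_le_sum
      (f := fun l => ∑ j : Fin (q i), (|lam v (α i l) (α i j)| + loss v))
      (fun l _ => Finset.sum_nonneg fun j _ => add_nonneg (abs_nonneg _) (loss_nonneg v))
      (Finset.mem_univ l)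
  have hMnn : ∀ i v, 0 ≤ M i v := fun i v => Finset.sum_nonneg fun l _ =>
    Finset.sum_nonneg fun j _ => add_nonneg (abs_nonneg _) (loss_nonneg v)
  set Csp : ℝ := ∑ v ∈ Sp, ∑ i, (Lu v + q i * M i v) with hCsp
  have hCsp0 : 0 ≤ Csp := Finset.sum_nonneg fun v _ => Finset.sum_nonneg fun i _ =>
    add_nonneg (Lu_pos v).le (mul_nonneg (Nat.cast_nonneg _) (hMnn i v))
  set Cα : ℝ := ∑ i, ∑ l : Fin (q i), |hr (α i l)| with hCα
  have hCα0 : 0 ≤ Cα := Finset.sum_nonneg fun i _ => Finset.sum_nonneg fun l _ => abs_nonneg _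
  refine ⟨Sp, lossK K + Csp + Cα, by have := lossK_nonneg K; positivity, ?_⟩
  intro x hx
  have hax : ∀ i, aff (x i) ≠ 0 := fun i => aff_ne_zero (x i)
  -- the nearest point
  have hnear : ∀ i, ∀ v : Pl K, ∃ l : Fin (q i), ∀ j,
      lam v (aff (x i)) (α i j) ≤ lam v (aff (x i)) (α i l) :=
    fun i v => Finite.exists_max (fun l => lam v (aff (x i)) (α i l))
  choose near hnear using hnear
  set lev : Fin n → Pl K → ℕ := fun i v => ⌊lam v (aff (x i)) (α i (near i v)) / Lu v⌋₊ with hlev
  -- a finite set of places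
  set Vf : Finset (HeightOneSpectrum (𝓞 K)) :=
    Sf ∪ Finset.univ.biUnion (fun i : Fin n => Finset.univ.biUnion (fun l : Fin (q i) =>
      (lamF_support_finite (hax i) (hα0 i l) (hx i l)).toFinset)) with hVf
  have hVf0 : ∀ v, v ∉ Vf → ∀ i l, lamA (fv v) (aff (x i)) (α i l) = 0 := by
    intro v hv i l
    by_contra hcon
    apply hv
    rw [hVf, Finset.mem_union, Finset.mem_biUnion]
    right
    refine ⟨i, Finset.mem_univ i, ?_⟩
    rw [Finset.mem_biUnion]
    exact ⟨l, Finset.mem_univ l, by rw [Set.Finite.mem_toFinset]; exact hcon⟩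
  set P0 : Finset (Pl K) := (Finset.univ : Finset (InfinitePlace K)).disjSum Vf with hP0
  have hSpP0 : Sp ⊆ P0 := by
    rw [hSp, hP0]
    exact Finset.disjSum_mono (Finset.Subset.refl _) Finset.subset_union_left
  set Q0 : Finset (Pl K) := P0.filter (fun v => thr Sp v ≤ ∑ i, lev i v) with hQ0
  set g : Pl K → UB K q := fun v => (v, fun i => (near i v, lev i v)) with hg
  have hginj : Function.Injective g := fun a b hab => congrArg Prod.fst hab
  set B : Finset (UB K q) := Q0.image g with hB
  have hthr : ∀ v, 1 ≤ thr Sp v := fun v => by unfold thr; split_ifs <;> omega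
  have hmulg : ∀ v, mul (g v) = ∑ i, lev i v := fun v => rfl
  have hwt : ∀ v, ∀ i, 1 ≤ lev i v → wti i (g v) ≤ lam v (aff (x i)) (α i (near i v)) := by
    intro v i hv
    exact lev_le_lam v _ hv
  refine ⟨B, ?_, ?_, ?_, ?_, ?_⟩
  · intro a ha b hb hab
    rw [hB, Finset.mem_coe, Finset.mem_image] at ha hb
    obtain ⟨v, _, rfl⟩ := ha
    obtain ⟨u, _, rfl⟩ := hb
    have : v = u := hab
    rw [this]
  · intro a ha i hi
    rw [hB, Finset.mem_image] at ha
    obtain ⟨v, hv, rfl⟩ := ha
    exact hwt v i hi
  · intro a ha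
    rw [hB, Finset.mem_image] at ha
    obtain ⟨v, hv, rfl⟩ := ha
    exact (Finset.mem_filter.mp hv).2
  · intro i l
    have h1 : ∑ a ∈ B with (a.2 i).1 = l, wti i a =
        ∑ v ∈ Q0.filter (fun v => near i v = l), wti i (g v) := by
      rw [hB, Finset.filter_image, Finset.sum_image (fun a _ b _ hab => hginj hab)]
    rw [h1]
    have h2 : ∑ v ∈ Q0.filter (fun v => near i v = l), wti i (g v) ≤
        ∑ v ∈ (Q0.filter (fun v => near i v = l)).filter (fun v => 1 ≤ lev i v),
          lam v (aff (x i)) (α i l) := by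
      have h3 : ∑ v ∈ Q0.filter (fun v => near i v = l), wti i (g v) =
          ∑ v ∈ (Q0.filter (fun v => near i v = l)).filter (fun v => 1 ≤ lev i v),
            wti i (g v) := by
        symm
        refine Finset.sum_filter_of_ne fun v _ hv => ?_
        by_contra hcon
        have h4 : lev i v = 0 := by omega
        apply hv
        have h5 : wti i (g v) = ((lev i v : ℕ) : ℝ) * Lu v := rfl
        rw [h5, h4]
        simp
      rw [h3]
      refine Finset.sum_le_sum fun v hv => ?_
      rw [Finset.mem_filter, Finset.mem_filter] at hv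
      have := hwt v i hv.2
      rwa [hv.1.2] at this
    have h3 := sum_lam_le (hax i) (hα0 i l) (hx i l)
      ((Q0.filter (fun v => near i v = l)).filter (fun v => 1 ≤ lev i v))
    have h4 : hr (α i l) ≤ Cα := by
      refine (le_abs_self _).trans ?_
      refine (Finset.single_le_sum (f := fun l => |hr (α i l)|) (fun l _ => abs_nonneg _)
        (Finset.mem_univ l)).trans ?_
      exact Finset.single_le_sum (f := fun i => ∑ l : Fin (q i), |hr (α i l)|)
        (fun i _ => Finset.sum_nonneg fun l _ => abs_nonneg _) (Finset.mem_univ i)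
    linarith
  · -- the sum of all local heights
    have hsum : ∑ i, ((q i : ℝ) * hr (aff (x i)) + ∑ l : Fin (q i), hr (α i l)) =
        ∑ v ∈ P0, ∑ i, ∑ l : Fin (q i), lam v (aff (x i)) (α i l) := by
      rw [Finset.sum_comm]
      refine Finset.sum_congr rfl fun i _ => ?_
      rw [Finset.sum_comm]
      have h1 : ∀ l : Fin (q i), ∑ v ∈ P0, lam v (aff (x i)) (α i l) =
          hr (aff (x i)) + hr (α i l) := by
        intro l
        rw [← sum_lam (hax i) (hα0 i l) (hx i l), hP0, Finset.sum_disjSum]
        congr 1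
        symm
        refine finsum_eq_sum_of_support_subset _ ?_
        intro v hv
        by_contra hcon
        exact hv (hVf0 v (by exact_mod_cast hcon) i l)
      rw [Finset.sum_congr rfl (fun l _ => h1 l), Finset.sum_add_distrib, Finset.sum_const,
        Finset.card_univ, Fintype.card_fin, nsmul_eq_mul]
    -- the truncated counting function
    set tot : Pl K → ℝ := fun v => ∑ i, ∑ l : Fin (q i), lam v (aff (x i)) (α i l) with htot
    set mn : Pl K → ℝ := fun v => min (tot v) (Lu v) with hmn
    have htot0 : ∀ v : HeightOneSpectrum (𝓞 K), 0 ≤ tot (Sum.inr v) := by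
      intro v
      refine Finset.sum_nonneg fun i _ => Finset.sum_nonneg fun l _ => ?_
      exact lamF_nonneg v (hax i) (hα0 i l) (hx i l)
    have hmn0 : ∀ v : HeightOneSpectrum (𝓞 K), 0 ≤ mn (Sum.inr v) :=
      fun v => le_min (htot0 v) (Lu_pos _).le
    have hNT : ∑ v ∈ P0 \ Sp, mn v ≤ NTn T α x := by
      have h1 : NTn T α x = ∑ v ∈ Vf.filter (fun v => v ∉ T), mn (Sum.inr v) := by
        unfold NTn
        simp only [← Set.mem_compl_iff]
        rw [finsum_mem_eq_sum_of_inter_support_eq (t := Vf.filter (fun v => v ∉ T))]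
        · exact Finset.sum_congr rfl fun v _ => rfl
        ext v
        simp only [Set.mem_compl_iff, Set.mem_inter_iff, Function.mem_support, Finset.coe_filter,
          Set.mem_ofPred_eq]
        constructor
        · rintro ⟨hv1, hv2⟩
          refine ⟨⟨?_, hv1⟩, hv2⟩
          by_contra hcon
          apply hv2
          rw [Finset.sum_eq_zero fun i _ => Finset.sum_eq_zero fun l _ => hVf0 v hcon i l]
          exact min_eq_left (log_Nv_pos v).le
        · rintro ⟨⟨_, hv1⟩, hv2⟩
          exact ⟨hv1, hv2⟩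
      rw [h1]
      have h2 : P0 \ Sp = (Vf.filter (fun v => v ∉ T ∧ ∀ i, v ∉ Bad (α i))).image Sum.inr := by
        ext v
        rcases v with w | v
        · simp only [Finset.mem_sdiff, Finset.mem_image, reduceCtorEq, and_false, exists_false,
            iff_false, not_and, not_not]
          exact fun _ => hinl w
        · rw [Finset.mem_sdiff, hinr, hP0, Finset.inr_mem_disjSum, Finset.mem_image]
          constructor
          · rintro ⟨h3, h4⟩
            push Not at h4
            exact ⟨v, Finset.mem_filter.mpr ⟨h3, h4⟩, rfl⟩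
          · rintro ⟨u, hu, huv⟩
            have : u = v := Sum.inr_injective huv
            subst this
            rw [Finset.mem_filter] at hu
            exact ⟨hu.1, by push Not; exact hu.2⟩
      rw [h2, Finset.sum_image (fun a _ b _ hab => Sum.inr_injective hab)]
      refine Finset.sum_le_sum_of_subset_of_nonneg ?_ (fun v _ _ => hmn0 v)
      intro v hv
      rw [Finset.mem_filter] at hv ⊢
      exact ⟨hv.1, hv.2.1⟩
    -- comparison of other points with the nearest one
    have hother : ∀ i, ∀ v : Pl K, ∀ l, l ≠ near i v →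
        lam v (aff (x i)) (α i l) ≤ lam v (α i l) (α i (near i v)) + loss v := by
      intro i v l hl
      have h1 := lam_triangle v (p := α i l) (q := aff (x i)) (r := α i (near i v)) (hα0 i l)
        (hax i) (hα0 i (near i v)) (hα i l (near i v) hl) (wedge_ne_comm (hx i l))
        (hx i (near i v)) (lam v (aff (x i)) (α i l)) (by rw [lam_comm]) (hnear i v l)
      linarith
    -- special places
    have hspec : ∀ v ∈ Sp, tot v ≤
        (if thr Sp v ≤ ∑ i, lev i v then ∑ i, wti i (g v) - costn Sp (g v) else 0) +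
          ∑ i, (Lu v + q i * M i v) := by
      intro v hv
      have hthrv : thr Sp v = 1 := by unfold thr; rw [if_pos hv]
      have hcostv : costn Sp (g v) = 0 := by unfold costn; rw [if_pos hv]
      have hi : ∀ i, ∑ l : Fin (q i), lam v (aff (x i)) (α i l) ≤
          (lev i v : ℝ) * Lu v + (Lu v + q i * M i v) := by
        intro i
        have h1 : ∑ l : Fin (q i), lam v (aff (x i)) (α i l) ≤
            lam v (aff (x i)) (α i (near i v)) + q i * M i v := by
          rw [← Finset.add_sum_erase _ _ (Finset.mem_univ (near i v))]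
          have h2 : ∑ l ∈ Finset.univ.erase (near i v), lam v (aff (x i)) (α i l) ≤
              ∑ l ∈ Finset.univ.erase (near i v), M i v := by
            refine Finset.sum_le_sum fun l hl => ?_
            refine (hother i v l (Finset.ne_of_mem_erase hl)).trans ?_
            exact (add_le_add (le_abs_self _) le_rfl).trans (hM0 i v l (near i v))
          have h3 : ∑ l ∈ Finset.univ.erase (near i v), M i v ≤ q i * M i v := by
            rw [Finset.sum_const, nsmul_eq_mul]
            refine mul_le_mul_of_nonneg_right ?_ (hMnn i v)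
            have h4 : (Finset.univ.erase (near i v)).card ≤ q i := by
              refine (Finset.card_le_univ _).trans ?_
              rw [Fintype.card_fin]
            exact_mod_cast h4
          linarith
        have h5 := lam_le_lev v (lam v (aff (x i)) (α i (near i v)))
        have h6 : ((⌊lam v (aff (x i)) (α i (near i v)) / Lu v⌋₊ : ℕ) : ℝ) = (lev i v : ℝ) := rfl
        rw [h6] at h5
        linarith
      have hsumi : tot v ≤ ∑ i, ((lev i v : ℝ) * Lu v + (Lu v + q i * M i v)) :=
        Finset.sum_le_sum fun i _ => hi i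
      rw [Finset.sum_add_distrib] at hsumi
      have hw : ∑ i, wti i (g v) = ∑ i, (lev i v : ℝ) * Lu v := rfl
      rw [hthrv, hcostv, hw, sub_zero]
      split_ifs with h6
      · exact hsumi
      · have h7 : ∑ i, lev i v = 0 := by omega
        have h8 : ∑ i, (lev i v : ℝ) * Lu v = 0 := by
          rw [← Finset.sum_mul]
          have : ∑ i, (lev i v : ℝ) = ((∑ i, lev i v : ℕ) : ℝ) := by push_cast; rfl
          rw [this, h7]; simp
        rw [h8] at hsumi
        exact hsumi
    -- ordinary places
    have hord : ∀ v ∈ P0 \ Sp, tot v - mn v ≤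
        (if thr Sp v ≤ ∑ i, lev i v then ∑ i, wti i (g v) - costn Sp (g v) else 0) := by
      intro v hv
      rw [Finset.mem_sdiff] at hv
      rcases v with w | v
      · exact absurd (hinl w) hv.2
      have hgood : ∀ i l j, l ≠ j → lam (Sum.inr v : Pl K) (α i l) (α i j) = 0 := by
        intro i l j hlj
        by_contra hcon
        exact hv.2 ((hinr v).mpr (Or.inr ⟨i, l, j, hlj, hcon⟩))
      have hLp := Lu_pos (Sum.inr v : Pl K)
      have hi : ∀ i, ∑ l : Fin (q i), lam (Sum.inr v : Pl K) (aff (x i)) (α i l) =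
          (lev i (Sum.inr v) : ℝ) * Lu (Sum.inr v : Pl K) := by
        intro i
        have hzero : ∀ l, l ≠ near i (Sum.inr v) →
            lam (Sum.inr v : Pl K) (aff (x i)) (α i l) = 0 := by
          intro l hl
          refine le_antisymm ?_ (lamF_nonneg v (hax i) (hα0 i l) (hx i l))
          refine (hother i (Sum.inr v) l hl).trans ?_
          rw [hgood i l _ hl]
          simp [loss]
        have h1 : ∑ l : Fin (q i), lam (Sum.inr v : Pl K) (aff (x i)) (α i l) =
            lam (Sum.inr v : Pl K) (aff (x i)) (α i (near i (Sum.inr v))) :=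
          Finset.sum_eq_single _ (fun l _ hl => hzero l hl)
            (fun h => absurd (Finset.mem_univ _) h)
        obtain ⟨m, hm⟩ := lamF_discrete v (hax i) (hα0 i (near i (Sum.inr v)))
          (hx i (near i (Sum.inr v)))
        have hm' : lam (Sum.inr v : Pl K) (aff (x i)) (α i (near i (Sum.inr v))) =
            m * Lu (Sum.inr v : Pl K) := hm
        have hlevm : lev i (Sum.inr v) = m := by
          rw [hlev]
          simp only
          rw [hm', mul_div_cancel_right₀ _ (Lu_pos _).ne', Nat.floor_natCast]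
        rw [h1, hm', hlevm]
      have htotv : tot (Sum.inr v) = ((∑ i, lev i (Sum.inr v) : ℕ) : ℝ) * Lu (Sum.inr v : Pl K) := by
        rw [htot]
        simp only
        rw [Finset.sum_congr rfl (fun i _ => hi i), ← Finset.sum_mul]
        push_cast
        rfl
      have hthrv : thr Sp (Sum.inr v) = 2 := by unfold thr; rw [if_neg hv.2]
      have hcostv : costn Sp (g (Sum.inr v)) = Lu (Sum.inr v : Pl K) := by
        unfold costn; rw [if_neg hv.2]
      have hmnv : mn (Sum.inr v) = min (tot (Sum.inr v)) (Lu (Sum.inr v : Pl K)) := rfl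
      rw [hmnv, hthrv, hcostv, sum_wti, hmulg, htotv]
      split_ifs with h6
      · have h7 : (2 : ℝ) ≤ ((∑ i, lev i (Sum.inr v) : ℕ) : ℝ) := by exact_mod_cast h6
        rw [min_eq_right (by nlinarith)]
      · have h7 : ∑ i, lev i (Sum.inr v) ≤ 1 := by omega
        have h8 : ((∑ i, lev i (Sum.inr v) : ℕ) : ℝ) ≤ 1 := by exact_mod_cast h7
        rw [min_eq_left (by nlinarith)]
        linarith
    -- conclusion
    have hBsum : ∑ a ∈ B, (∑ i, wti i a - costn Sp a) =
        ∑ v ∈ P0, (if thr Sp v ≤ ∑ i, lev i v then ∑ i, wti i (g v) - costn Sp (g v) else 0) := by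
      rw [hB, Finset.sum_image (fun a _ b _ hab => hginj hab), hQ0, Finset.sum_filter]
    rw [hBsum]
    have hs1 : ∑ v ∈ P0, tot v = ∑ v ∈ P0 \ Sp, tot v + ∑ v ∈ Sp, tot v :=
      (Finset.sum_sdiff hSpP0).symm
    have hs2 : ∑ v ∈ P0, (if thr Sp v ≤ ∑ i, lev i v then
          ∑ i, wti i (g v) - costn Sp (g v) else 0) =
        ∑ v ∈ P0 \ Sp, (if thr Sp v ≤ ∑ i, lev i v then
          ∑ i, wti i (g v) - costn Sp (g v) else 0) +
          ∑ v ∈ Sp, (if thr Sp v ≤ ∑ i, lev i v then
            ∑ i, wti i (g v) - costn Sp (g v) else 0) :=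
      (Finset.sum_sdiff hSpP0).symm
    have hs3 := Finset.sum_le_sum hord
    have hs4 := Finset.sum_le_sum hspec
    rw [Finset.sum_sub_distrib] at hs3
    rw [Finset.sum_add_distrib] at hs4
    have hs5 : -Cα ≤ ∑ i, ∑ l : Fin (q i), hr (α i l) := by
      rw [hCα, ← Finset.sum_neg_distrib]
      refine Finset.sum_le_sum fun i _ => ?_
      rw [← Finset.sum_neg_distrib]
      exact Finset.sum_le_sum fun l _ => neg_abs_le _
    rw [Finset.sum_add_distrib] at hsum
    have hL := lossK_nonneg K
    linarith

end Pool.Agent.H691R3
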