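import Pool.Agent.H691R3.NData
import Pool.Agent.H691R3.NComb
import Pool.Agent.H691R3.Main

set_option autoImplicit false
set_option linter.unusedSectionVars false
set_option linter.unusedVariables false

/-!
The counting theorem for products of lines.
-/

namespace Pool.Agent.H691R3

open NumberField IsDedekindDomain Finset

variable {K : Type*} [Field K] [NumberField K]

open Classical in
/-- the weight -/
noncomputable def fwn (Sp : Finset (Pl K)) (η : ℝ) {n : ℕ} {q : Fin n → ℕ} (u : UB K q) : ℝ :=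
  if thr Sp u.1 ≤ mul u then Real.exp (-(costn Sp u) - η * ∑ i, wti i u) else 0

lemma fwn_nonneg (Sp : Finset (Pl K)) (η : ℝ) {n : ℕ} {q : Fin n → ℕ} (u : UB K q) :
    0 ≤ fwn Sp η u := by
  unfold fwn
  split_ifs
  · exact (Real.exp_pos _).le
  · exact le_rfl

lemma nweights_bounded (Sp : Finset (Pl K)) {n : ℕ} (q : Fin n → ℕ) {η : ℝ} (hη : 0 < η) :
    ∃ F0 : ℝ, ∀ s : Finset (UB K q), ∑ u ∈ s, fwn Sp η u ≤ F0 := by
  classical
  set ρ : ℝ := Real.exp (-(η * Real.log 2)) with hρ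
  have hlog : 0 < Real.log 2 := Real.log_pos (by norm_num)
  have hρ0 : 0 ≤ ρ := (Real.exp_pos _).le
  have hρ1 : ρ < 1 := by
    rw [hρ, Real.exp_lt_one_iff]
    have := mul_pos hη hlog
    linarith
  set G : Pl K → ℝ := fun v => (if v ∈ Sp then 1 else 0) + gmaj η v with hG
  have hG0 : ∀ v, 0 ≤ G v := by
    intro v
    rw [hG]
    simp only
    have h1 : 0 ≤ gmaj η v := by unfold gmaj; positivity
    split_ifs <;> linarith
  have hGs : Summable G := by
    refine Summable.add ?_ (gmaj_summable hη)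
    refine summable_of_ne_finset_zero (s := Sp) fun v hv => ?_
    rw [if_neg hv]
  have hle : ∀ u : UB K q, fwn Sp η u ≤ G u.1 * ∏ i, ρ ^ (u.2 i).2 := by
    intro u
    have hprod : ∏ i, ρ ^ (u.2 i).2 = ρ ^ (mul u) := by
      rw [Finset.prod_pow_eq_pow_sum]; rfl
    rw [hprod]
    have hnn : 0 ≤ G u.1 * ρ ^ (mul u) := mul_nonneg (hG0 _) (pow_nonneg hρ0 _)
    unfold fwn
    rw [sum_wti]
    split_ifs with hthr
    · have hLu := log_two_le_Lu u.1
      have hpow : ρ ^ (mul u) = Real.exp (-((mul u : ℝ) * (η * Real.log 2))) := by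
        rw [hρ, ← Real.exp_nat_mul]
        congr 1
        ring
      have hm0 : (0 : ℝ) ≤ (mul u : ℝ) := Nat.cast_nonneg _
      by_cases hv : u.1 ∈ Sp
      · have h1 : 1 ≤ G u.1 := by
          rw [hG]
          simp only [if_pos hv]
          have h1 : 0 ≤ gmaj η u.1 := by unfold gmaj; positivity
          linarith
        have h2 : Real.exp (-(costn Sp u) - η * ((mul u : ℝ) * Lu u.1)) ≤ ρ ^ (mul u) := by
          rw [hpow]
          refine Real.exp_le_exp.mpr ?_
          have h3 : costn Sp u = 0 := by unfold costn; rw [if_pos hv]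
          rw [h3]
          have h4 : (mul u : ℝ) * (η * Real.log 2) ≤ (mul u : ℝ) * (η * Lu u.1) :=
            mul_le_mul_of_nonneg_left (mul_le_mul_of_nonneg_left hLu hη.le) hm0
          linarith
        calc Real.exp (-(costn Sp u) - η * ((mul u : ℝ) * Lu u.1)) ≤ ρ ^ (mul u) := h2
          _ = 1 * ρ ^ (mul u) := by ring
          _ ≤ G u.1 * ρ ^ (mul u) :=
            mul_le_mul_of_nonneg_right h1 (pow_nonneg hρ0 _)
      · have h1 : gmaj η u.1 ≤ G u.1 := by
          rw [hG]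
          simp only [if_neg hv, zero_add, le_refl]
        have h2 : Real.exp (-(costn Sp u) - η * ((mul u : ℝ) * Lu u.1)) ≤
            gmaj η u.1 * ρ ^ (mul u) := by
          unfold gmaj
          rw [hpow, ← Real.exp_add, ← Real.exp_add]
          refine Real.exp_le_exp.mpr ?_
          have h3 : costn Sp u = Lu u.1 := by unfold costn; rw [if_neg hv]
          rw [h3]
          have h5 : (2 : ℝ) ≤ (mul u : ℝ) := by
            have : thr Sp u.1 = 2 := by unfold thr; rw [if_neg hv]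
            rw [this] at hthr
            exact_mod_cast hthr
          have h4 : 0 ≤ ((mul u : ℝ) - 2) * (η * (Lu u.1 - Real.log 2)) :=
            mul_nonneg (by linarith) (mul_nonneg hη.le (by linarith))
          nlinarith
        exact h2.trans (mul_le_mul_of_nonneg_right h1 (pow_nonneg hρ0 _))
    · exact hnn
  refine ⟨(∑' v, G v) * ∏ i, ((q i : ℝ) * (1 / (1 - ρ))), fun s => ?_⟩
  -- enclose `s` in a product
  set Mx : ℕ := (s.sup fun u => mul u) + 1 with hMx
  set t : (i : Fin n) → Finset (Fin (q i) × ℕ) := fun i =>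
    (Finset.univ : Finset (Fin (q i))) ×ˢ Finset.range Mx with ht
  have hsub : s ⊆ (s.image Prod.fst) ×ˢ Fintype.piFinset t := by
    intro u hu
    rw [Finset.mem_product]
    refine ⟨Finset.mem_image_of_mem _ hu, ?_⟩
    rw [Fintype.mem_piFinset]
    intro i
    rw [ht]
    simp only [Finset.mem_product, Finset.mem_univ, true_and, Finset.mem_range]
    have h1 : (u.2 i).2 ≤ mul u := by
      unfold mul
      exact Finset.single_le_sum (f := fun i => (u.2 i).2) (fun _ _ => Nat.zero_le _)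
        (Finset.mem_univ i)
    have h2 : mul u ≤ s.sup fun u => mul u := Finset.le_sup (f := fun u => mul u) hu
    omega
  calc ∑ u ∈ s, fwn Sp η u ≤ ∑ u ∈ s, G u.1 * ∏ i, ρ ^ (u.2 i).2 :=
        Finset.sum_le_sum fun u _ => hle u
    _ ≤ ∑ u ∈ (s.image Prod.fst) ×ˢ Fintype.piFinset t, G u.1 * ∏ i, ρ ^ (u.2 i).2 := by
        refine Finset.sum_le_sum_of_subset_of_nonneg hsub fun u _ _ => ?_
        exact mul_nonneg (hG0 _) (Finset.prod_nonneg fun i _ => pow_nonneg hρ0 _)
    _ = (∑ v ∈ s.image Prod.fst, G v) * ∑ b ∈ Fintype.piFinset t, ∏ i, ρ ^ (b i).2 := by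
        rw [Finset.sum_product, Finset.sum_mul]
        refine Finset.sum_congr rfl fun v _ => ?_
        rw [Finset.mul_sum]
    _ = (∑ v ∈ s.image Prod.fst, G v) * ∏ i, ∑ b ∈ t i, ρ ^ b.2 := by
        rw [Finset.prod_univ_sum]
    _ ≤ (∑' v, G v) * ∏ i, ((q i : ℝ) * (1 / (1 - ρ))) := by
        refine mul_le_mul (hGs.sum_le_tsum _ (fun v _ => hG0 v)) ?_
          (Finset.prod_nonneg fun i _ => Finset.sum_nonneg fun b _ => pow_nonneg hρ0 _)
          (tsum_nonneg fun v => hG0 v)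
        refine Finset.prod_le_prod (fun i _ => Finset.sum_nonneg fun b _ => pow_nonneg hρ0 _)
          fun i _ => ?_
        rw [ht]
        simp only
        rw [Finset.sum_product]
        simp only [Finset.sum_const, Finset.card_univ, Fintype.card_fin, nsmul_eq_mul]
        refine mul_le_mul_of_nonneg_left ?_ (Nat.cast_nonneg _)
        have h1 := (summable_geometric_of_lt_one hρ0 hρ1).sum_le_tsum (Finset.range Mx)
          (fun m _ => pow_nonneg hρ0 m)
        rw [tsum_geometric_of_lt_one hρ0 hρ1] at h1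
        rw [one_div]
        exact h1

/-- the class bound in several variables -/
theorem nclass_bound {n : ℕ} {q : Fin n → ℕ} (α : (i : Fin n) → Fin (q i) → K × K)
    (hα0 : ∀ i l, α i l ≠ 0) (A : Finset (UB K q)) (hA : Set.InjOn (fun u : UB K q => u.1) A)
    (E : Finset (Fin n → K)) (X : Fin n → ℝ)
    (hne : ∀ x ∈ E, ∀ i, Off (α i) (x i)) (hX : ∀ x ∈ E, ∀ i, hr (aff (x i)) ≤ X i)
    (hcl : ∀ x ∈ E, ∀ u ∈ A, ∀ i, 1 ≤ (u.2 i).2 →
      wti i u ≤ lam u.1 (aff (x i)) (α i (u.2 i).1)) :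
    (E.card : ℝ) ≤ (64 * Real.exp (3 * lossK K)) ^ n *
      Real.exp (∑ i, max 0 (2 * X i - ∑ u ∈ A, wti i u)) := by
  classical
  set F : (i : Fin n) → Finset K := fun i => E.image (fun x => x i) with hF
  have hsub : E ⊆ Fintype.piFinset F := by
    intro x hx
    rw [Fintype.mem_piFinset]
    intro i
    exact Finset.mem_image_of_mem _ hx
  have h1 : (E.card : ℝ) ≤ ∏ i, ((F i).card : ℝ) := by
    have h2 := Finset.card_le_card hsub
    rw [Fintype.card_piFinset] at h2
    exact_mod_cast h2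
  have h2 : ∀ i, ((F i).card : ℝ) ≤ 64 * Real.exp (3 * lossK K) *
      Real.exp (max 0 (2 * X i - ∑ u ∈ A, wti i u)) := by
    intro i
    set Ai : Finset (Pl K × Fin (q i) × ℕ) :=
      (A.filter (fun u => 1 ≤ (u.2 i).2)).image (fun u => (u.1, (u.2 i).1, (u.2 i).2)) with hAi
    have hinj : Set.InjOn (fun u : UB K q => ((u.1, (u.2 i).1, (u.2 i).2) : Pl K × Fin (q i) × ℕ))
        (A.filter (fun u => 1 ≤ (u.2 i).2)) := by
      intro u hu u' hu' huu
      have huu' : u.1 = u'.1 := congrArg (fun a : Pl K × Fin (q i) × ℕ => a.1) huu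
      refine hA ?_ ?_ huu'
      · exact (Finset.mem_filter.mp (Finset.mem_coe.mp hu)).1
      · exact (Finset.mem_filter.mp (Finset.mem_coe.mp hu')).1
    have hAinj : Set.InjOn (fun a : Pl K × Fin (q i) × ℕ => a.1) Ai := by
      intro a ha b hb hab
      rw [hAi, Finset.mem_coe, Finset.mem_image] at ha hb
      obtain ⟨u, hu, rfl⟩ := ha
      obtain ⟨u', hu', rfl⟩ := hb
      rw [Finset.mem_filter] at hu hu'
      have h3 : u = u' := hA hu.1 hu'.1 hab
      rw [h3]
    have hcount := class_bound (α i) (hα0 i) Ai hAinj (F i) (X i) ?_ ?_ ?_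
    · have h3 : ∑ a ∈ Ai, (a.2.2 : ℝ) * Lu a.1 = ∑ u ∈ A, wti i u := by
        rw [hAi, Finset.sum_image hinj]
        have h4 : ∑ u ∈ A.filter (fun u => 1 ≤ (u.2 i).2), wti i u = ∑ u ∈ A, wti i u := by
          refine Finset.sum_filter_of_ne fun u _ hu => ?_
          by_contra hcon
          apply hu
          have h5 : (u.2 i).2 = 0 := by omega
          unfold wti
          rw [h5]; simp
        rw [← h4]
        rfl
      rw [h3] at hcount
      refine hcount.trans ?_
      set t := 2 * X i - ∑ u ∈ A, wti i u with ht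
      have h4 : 1 + Real.exp t ≤ 2 * Real.exp (max 0 t) := by
        have h5 : 1 ≤ Real.exp (max 0 t) := Real.one_le_exp (le_max_left _ _)
        have h6 : Real.exp t ≤ Real.exp (max 0 t) := Real.exp_le_exp.mpr (le_max_right _ _)
        linarith
      calc 32 * Real.exp (3 * lossK K) * (1 + Real.exp t)
          ≤ 32 * Real.exp (3 * lossK K) * (2 * Real.exp (max 0 t)) :=
            mul_le_mul_of_nonneg_left h4 (by positivity)
        _ = _ := by ring
    · intro y hy l
      rw [hF, Finset.mem_image] at hy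
      obtain ⟨x, hx, rfl⟩ := hy
      exact hne x hx i l
    · intro y hy
      rw [hF, Finset.mem_image] at hy
      obtain ⟨x, hx, rfl⟩ := hy
      exact hX x hx i
    · intro y hy a ha
      rw [hF, Finset.mem_image] at hy
      obtain ⟨x, hx, rfl⟩ := hy
      rw [hAi, Finset.mem_image] at ha
      obtain ⟨u, hu, rfl⟩ := ha
      rw [Finset.mem_filter] at hu
      exact hcl x hx u hu.1 i hu.2
  refine h1.trans ?_
  calc ∏ i, ((F i).card : ℝ) ≤ ∏ i, (64 * Real.exp (3 * lossK K) *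
        Real.exp (max 0 (2 * X i - ∑ u ∈ A, wti i u))) :=
        Finset.prod_le_prod (fun i _ => Nat.cast_nonneg _) fun i _ => h2 i
    _ = _ := by
        rw [Finset.prod_mul_distrib, Finset.prod_const, Finset.card_univ, Fintype.card_fin,
          Real.exp_sum]

/-- points with heights in a window -/
theorem ncount_window {n : ℕ} {q : Fin n → ℕ} (hq : ∀ i, 0 < q i)
    (T : Set (HeightOneSpectrum (𝓞 K))) (hT : T.Finite)
    (α : (i : Fin n) → Fin (q i) → K × K) (hα0 : ∀ i l, α i l ≠ 0)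
    (hα : ∀ i, ∀ l j, l ≠ j → (α i l).1 * (α i j).2 - (α i l).2 * (α i j).1 ≠ 0)
    (κ : ℝ) (hκ0 : 0 ≤ κ) (hκ2 : κ ≤ 2) (C0 : ℝ) (hC0 : 0 ≤ C0) (δ : ℝ) (hδ : 0 < δ) :
    ∃ C : ℝ, 0 ≤ C ∧ ∀ (X : Fin n → ℝ) (L : ℝ), 0 ≤ L → (∀ i, 1 ≤ X i) → (∀ i, X i ≤ L) →
      ∀ E : Finset (Fin n → K),
      (∀ x ∈ E, (∀ i, Off (α i) (x i)) ∧
        NTn T α x < ∑ i, ((q i : ℝ) - κ) * hr (aff (x i)) + C0 ∧
        ∀ i, X i - 1 ≤ hr (aff (x i)) ∧ hr (aff (x i)) ≤ X i) →
      (E.card : ℝ) ≤ C * Real.exp ((max ((2 - κ) * n) (2 * n - 4 / 5) + δ) * L) := by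
  classical
  obtain ⟨Sp, C1, hC1, hB⟩ := exists_nblocks hq T hT α hα0 hα
  set Q : ℝ := ∑ i, (q i : ℝ) with hQ
  have hQ0 : 0 ≤ Q := Finset.sum_nonneg fun i _ => Nat.cast_nonneg _
  set η : ℝ := δ / (Q + 1) with hη
  have hηpos : 0 < η := div_pos hδ (by linarith)
  obtain ⟨F0, hF0⟩ := nweights_bounded Sp q hηpos
  have hn0 : (0 : ℝ) ≤ n := Nat.cast_nonneg n
  set Cs : ℝ := C1 + κ * n + C0 with hCs
  have hCs0 : 0 ≤ Cs := by positivity
  set C3 : ℝ := (64 * Real.exp (3 * lossK K)) ^ n with hC3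
  have hC30 : 0 ≤ C3 := by positivity
  refine ⟨C3 * Real.exp ((n + 1) * Cs + δ * Cs + F0), by positivity, ?_⟩
  intro X L hL hX1 hXL E hE
  set ex : ℝ := max ((2 - κ) * n) (2 * n - 4 / 5) with hex
  have hsel : ∀ x : Fin n → K, ∃ I : Finset (UB K q), x ∈ E →
      (Set.InjOn (fun u : UB K q => u.1) I ∧
      (∀ u ∈ I, ∀ i, 1 ≤ (u.2 i).2 → wti i u ≤ lam u.1 (aff (x i)) (α i (u.2 i).1)) ∧
      (∀ u ∈ I, thr Sp u.1 ≤ mul u) ∧
      (∑ u ∈ I, ∑ i, wti i u ≤ Q * (L + Cs)) ∧
      (∑ u ∈ I, costn Sp u) + ∑ i, max 0 (2 * X i - ∑ u ∈ I, wti i u) ≤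
        ex * L + (n + 1) * Cs) := by
    intro x
    by_cases hx : x ∈ E
    · obtain ⟨hoff, hviol, hwin⟩ := hE x hx
      obtain ⟨B, hB1, hB2, hB3, hB4, hB5⟩ := hB x hoff
      have hw0 : ∀ i, ∀ u ∈ B, 0 ≤ wti i u := fun i u _ =>
        mul_nonneg (Nat.cast_nonneg _) (Lu_pos _).le
      have hcost : ∀ u ∈ B, costn Sp u ≤ (∑ i, wti i u) / 2 := by
        intro u hu
        have h1 := hB3 u hu
        have hL := Lu_pos u.1
        rw [sum_wti]
        unfold costn
        unfold thr at h1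
        split_ifs at h1 ⊢ with h2
        · have : (0 : ℝ) ≤ (mul u : ℝ) := Nat.cast_nonneg _
          positivity
        · have : (2 : ℝ) ≤ (mul u : ℝ) := by exact_mod_cast h1
          nlinarith
      have hl : ∀ i l, ∑ u ∈ B with (u.2 i).1 = l, wti i u ≤ X i + Cs := by
        intro i l
        have h1 := hB4 i l
        have h2 := (hwin i).2
        have h3 : 0 ≤ κ * n := mul_nonneg hκ0 hn0
        linarith
      have hsingle : ∀ i, ∀ u ∈ B, wti i u ≤ X i + Cs := by
        intro i u hu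
        refine le_trans ?_ (hl i (u.2 i).1)
        exact Finset.single_le_sum (f := fun u => wti i u)
          (fun u' hu' => hw0 i u' (Finset.mem_filter.mp hu').1)
          (Finset.mem_filter.mpr ⟨hu, rfl⟩)
      have hEx : κ * ∑ i, X i - Cs ≤ ∑ u ∈ B, (∑ i, wti i u - costn Sp u) := by
        refine le_trans ?_ hB5
        have h1 : κ * ∑ i, X i - κ * n ≤ κ * ∑ i, hr (aff (x i)) := by
          have h2 : ∑ i, X i - n ≤ ∑ i, hr (aff (x i)) := by
            have h3 : ∑ i, (X i - 1) ≤ ∑ i, hr (aff (x i)) :=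
              Finset.sum_le_sum fun i _ => (hwin i).1
            rw [Finset.sum_sub_distrib, Finset.sum_const, Finset.card_univ, Fintype.card_fin,
              nsmul_eq_mul, mul_one] at h3
            exact h3
          have := mul_le_mul_of_nonneg_left h2 hκ0
          linarith
        have h2 : ∑ i, ((q i : ℝ) - κ) * hr (aff (x i)) =
            ∑ i, (q i : ℝ) * hr (aff (x i)) - κ * ∑ i, hr (aff (x i)) := by
          rw [Finset.mul_sum, ← Finset.sum_sub_distrib]
          exact Finset.sum_congr rfl fun i _ => by ring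
        rw [h2] at hviol
        linarith
      obtain ⟨I, hIB, hI⟩ := nselection B (fun i u => wti i u) (costn Sp) hw0 hcost X L Cs κ
        (fun i => by linarith [hX1 i]) hXL hCs0 hκ2 hsingle hEx
      refine ⟨I, fun _ => ⟨hB1.mono (by exact_mod_cast hIB), fun u hu => hB2 u (hIB hu),
        fun u hu => hB3 u (hIB hu), ?_, hI⟩⟩
      calc ∑ u ∈ I, ∑ i, wti i u ≤ ∑ u ∈ B, ∑ i, wti i u :=
            Finset.sum_le_sum_of_subset_of_nonneg hIB fun u hu _ =>
              Finset.sum_nonneg fun i _ => hw0 i u hu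
        _ = ∑ i, ∑ u ∈ B, wti i u := Finset.sum_comm
        _ = ∑ i, ∑ l : Fin (q i), ∑ u ∈ B with (u.2 i).1 = l, wti i u := by
            refine Finset.sum_congr rfl fun i _ => ?_
            exact (Finset.sum_fiberwise_of_maps_to
              (fun u _ => Finset.mem_univ (u.2 i).1) (fun u => wti i u)).symm
        _ ≤ ∑ i, ∑ l : Fin (q i), (L + Cs) := by
            refine Finset.sum_le_sum fun i _ => Finset.sum_le_sum fun l _ => ?_
            have h1 := hl i l
            have h2 := hXL i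
            linarith
        _ = Q * (L + Cs) := by
            rw [hQ, Finset.sum_mul]
            refine Finset.sum_congr rfl fun i _ => ?_
            rw [Finset.sum_const, Finset.card_univ, Fintype.card_fin, nsmul_eq_mul]
    · exact ⟨∅, fun h => absurd h hx⟩
  choose I hI using hsel
  have hcount := count_bound3 E I (fun u => ∑ i, wti i u) (costn Sp) (fwn Sp η)
    (fwn_nonneg Sp η) F0 hF0 η hηpos ?_ (fun A => ∑ i, max 0 (2 * X i - ∑ u ∈ A, wti i u))
    (ex * L + (n + 1) * Cs) (Q * (L + Cs)) C3 hC30 ?_ ?_ ?_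
  · refine hcount.trans ?_
    rw [mul_assoc C3, ← Real.exp_add]
    refine mul_le_mul_of_nonneg_left (Real.exp_le_exp.mpr ?_) hC30
    have h1 : η * (Q * (L + Cs)) ≤ δ * (L + Cs) := by
      have h2 : η * Q ≤ δ := by
        rw [hη, div_mul_eq_mul_div, div_le_iff₀ (by linarith)]
        nlinarith
      have := mul_le_mul_of_nonneg_right h2 (by linarith : 0 ≤ L + Cs)
      linarith
    linarith
  · intro x hx u hu
    unfold fwn
    rw [if_pos ((hI x hx).2.2.1 u hu)]
  · intro x hx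
    exact (hI x hx).2.2.2.2
  · intro x hx
    exact (hI x hx).2.2.2.1
  · intro x hx
    refine nclass_bound α hα0 (I x) (hI x hx).1 (E.filter (fun y => I y = I x)) X ?_ ?_ ?_
    · intro y hy
      exact (hE y (Finset.mem_filter.mp hy).1).1
    · intro y hy i
      exact ((hE y (Finset.mem_filter.mp hy).1).2.2 i).2
    · intro y hy u hu
      rw [Finset.mem_filter] at hy
      rw [← hy.2] at hu
      exact (hI y hy.1).2.1 u hu

/-- points of bounded height -/
theorem ncount_all {n : ℕ} {q : Fin n → ℕ} (hq : ∀ i, 0 < q i)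
    (T : Set (HeightOneSpectrum (𝓞 K))) (hT : T.Finite)
    (α : (i : Fin n) → Fin (q i) → K × K) (hα0 : ∀ i l, α i l ≠ 0)
    (hα : ∀ i, ∀ l j, l ≠ j → (α i l).1 * (α i j).2 - (α i l).2 * (α i j).1 ≠ 0)
    (κ : ℝ) (hκ0 : 0 ≤ κ) (hκ2 : κ ≤ 2) (C0 : ℝ) (hC0 : 0 ≤ C0) (δ : ℝ) (hδ : 0 < δ) :
    ∃ C : ℝ, 0 ≤ C ∧ ∀ X : ℝ, 0 ≤ X → ∀ E : Finset (Fin n → K),
      (∀ x ∈ E, (∀ i, Off (α i) (x i)) ∧
        NTn T α x < ∑ i, ((q i : ℝ) - κ) * hr (aff (x i)) + C0 ∧
        ∀ i, hr (aff (x i)) ≤ X) →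
      (E.card : ℝ) ≤ C * Real.exp ((max ((2 - κ) * n) (2 * n - 4 / 5) + δ) * X) := by
  classical
  obtain ⟨C, hC, hwin⟩ := ncount_window hq T hT α hα0 hα κ hκ0 hκ2 C0 hC0 (δ / 2) (by positivity)
  set ex : ℝ := max ((2 - κ) * n) (2 * n - 4 / 5) with hex
  have hex0 : 0 ≤ ex := by
    rw [hex]
    exact le_trans (mul_nonneg (by linarith) (Nat.cast_nonneg _)) (le_max_left _ _)
  refine ⟨C * ((2 / δ) ^ n * (n.factorial : ℝ)) * Real.exp (ex + δ), by positivity, ?_⟩
  intro X hX E hE
  set N : ℕ := ⌊X⌋₊ + 1 with hN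
  have hNX : (N : ℝ) ≤ X + 1 := by
    rw [hN]; push_cast
    have := Nat.floor_le hX
    linarith
  set W : Finset (Fin n → ℕ) := Fintype.piFinset (fun _ : Fin n => Finset.range N) with hW
  have hWcard : (W.card : ℝ) ≤ (X + 1) ^ n := by
    rw [hW, Fintype.card_piFinset]
    simp only [Finset.card_range, Finset.prod_const, Finset.card_univ, Fintype.card_fin]
    push_cast
    exact pow_le_pow_left₀ (Nat.cast_nonneg _) hNX n
  have h1 : (E.card : ℝ) = ∑ j ∈ W,
      ((E.filter (fun x => (fun i => ⌊hr (aff (x i))⌋₊) = j)).card : ℝ) := by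
    have h2 := Finset.card_eq_sum_card_fiberwise (s := E) (t := W)
      (f := fun x => (fun i => ⌊hr (aff (x i))⌋₊)) ?_
    · exact_mod_cast h2
    · intro x hx
      simp only [hW, Finset.mem_coe, Fintype.mem_piFinset, Finset.mem_range]
      intro i
      rw [hN]
      have := Nat.floor_le_floor ((hE x hx).2.2 i)
      omega
  have h3 : ∀ j ∈ W, ((E.filter (fun x => (fun i => ⌊hr (aff (x i))⌋₊) = j)).card : ℝ) ≤
      C * Real.exp ((ex + δ / 2) * (X + 1)) := by
    intro j hj
    rw [hW, Fintype.mem_piFinset] at hj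
    have hjN : ∀ i, (j i : ℝ) + 1 ≤ X + 1 := by
      intro i
      have h4 := hj i
      rw [Finset.mem_range] at h4
      have : ((j i + 1 : ℕ) : ℝ) ≤ N := by exact_mod_cast h4
      push_cast at this
      linarith
    refine hwin (fun i => (j i : ℝ) + 1) (X + 1) (by linarith)
      (fun i => by have : (0 : ℝ) ≤ j i := Nat.cast_nonneg _; linarith) hjN _ ?_
    intro x hx
    rw [Finset.mem_filter] at hx
    obtain ⟨hx1, hx2⟩ := hx
    obtain ⟨hx3, hx4, hx5⟩ := hE x hx1
    refine ⟨hx3, hx4, fun i => ?_⟩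
    have hx2i : ⌊hr (aff (x i))⌋₊ = j i := congrFun hx2 i
    constructor
    · have := Nat.floor_le (hr_aff_nonneg (x i))
      rw [hx2i] at this
      linarith
    · have := (Nat.lt_floor_add_one (hr (aff (x i)))).le
      rw [hx2i] at this
      exact this
  have h4 : (E.card : ℝ) ≤ (X + 1) ^ n * (C * Real.exp ((ex + δ / 2) * (X + 1))) := by
    rw [h1]
    refine (Finset.sum_le_sum h3).trans ?_
    rw [Finset.sum_const, nsmul_eq_mul]
    exact mul_le_mul_of_nonneg_right hWcard (by positivity)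
  have h5 : (X + 1) ^ n ≤ (2 / δ) ^ n * (n.factorial : ℝ) * Real.exp (δ / 2 * (X + 1)) := by
    have hY : 0 ≤ δ / 2 * (X + 1) := by positivity
    have h6 := Real.pow_div_factorial_le_exp (δ / 2 * (X + 1)) hY n
    have hfac : (0 : ℝ) < (n.factorial : ℝ) := by exact_mod_cast Nat.factorial_pos n
    rw [div_le_iff₀ hfac] at h6
    have h7 : (X + 1) ^ n = (2 / δ) ^ n * (δ / 2 * (X + 1)) ^ n := by
      rw [← mul_pow]
      congr 1
      field_simp
    rw [h7]
    calc (2 / δ) ^ n * (δ / 2 * (X + 1)) ^ n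
        ≤ (2 / δ) ^ n * (Real.exp (δ / 2 * (X + 1)) * (n.factorial : ℝ)) :=
          mul_le_mul_of_nonneg_left h6 (by positivity)
      _ = _ := by ring
  calc (E.card : ℝ) ≤ (X + 1) ^ n * (C * Real.exp ((ex + δ / 2) * (X + 1))) := h4
    _ ≤ ((2 / δ) ^ n * (n.factorial : ℝ) * Real.exp (δ / 2 * (X + 1))) *
        (C * Real.exp ((ex + δ / 2) * (X + 1))) :=
        mul_le_mul_of_nonneg_right h5 (by positivity)
    _ = C * ((2 / δ) ^ n * (n.factorial : ℝ)) * (Real.exp (δ / 2 * (X + 1)) *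
        Real.exp ((ex + δ / 2) * (X + 1))) := by ring
    _ = C * ((2 / δ) ^ n * (n.factorial : ℝ)) * (Real.exp (ex + δ) *
        Real.exp ((ex + δ) * X)) := by
        rw [← Real.exp_add, ← Real.exp_add]
        congr 2
        ring
    _ = _ := by ring

end Pool.Agent.H691R3
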