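import Mathlib

set_option autoImplicit false
set_option linter.unusedVariables false

/-!
Averaging over the choice of two forms in every coordinate.
-/

namespace Pool.Agent.H691R3

open Finset

section Pair

variable {ι : Type*} {n P : ℕ}

/-- the form `l` is one of the two forms attached to `a` -/
def isCh (P : ℕ) (a l : Fin (P + 2)) : Prop := l = a ∨ l = finRotate (P + 2) a

instance (P : ℕ) (a l : Fin (P + 2)) : Decidable (isCh P a l) := by
  unfold isCh; infer_instance

lemma rot_ne (a : Fin (P + 2)) : finRotate (P + 2) a ≠ a := by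
  intro h
  rw [finRotate_apply] at h
  simp at h

lemma sum_isCh (l : Fin (P + 2)) :
    ∑ a : Fin (P + 2), (if isCh P a l then (1 : ℝ) else 0) = 2 := by
  have h1 : ∀ a : Fin (P + 2), (if isCh P a l then (1 : ℝ) else 0) =
      (if a = l then 1 else 0) + (if finRotate (P + 2) a = l then 1 else 0) := by
    intro a
    by_cases h2 : a = l
    · have h3 : ¬ finRotate (P + 2) a = l := by rw [← h2]; exact rot_ne a
      have h4 : isCh P a l := Or.inl h2.symm
      rw [if_pos h4, if_pos h2, if_neg h3]; norm_num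
    · by_cases h3 : finRotate (P + 2) a = l
      · have h4 : isCh P a l := Or.inr h3.symm
        rw [if_pos h4, if_neg h2, if_pos h3]; norm_num
      · have h4 : ¬ isCh P a l := by
          rintro (h | h)
          · exact h2 h.symm
          · exact h3 h.symm
        rw [if_neg h4, if_neg h2, if_neg h3]; norm_num
  rw [Finset.sum_congr rfl (fun a _ => h1 a), Finset.sum_add_distrib,
    Equiv.sum_comp (finRotate (P + 2)) (fun a => if a = l then (1 : ℝ) else 0)]
  simp
  norm_num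

lemma sum_prod_fun (g : Fin n → Fin (P + 2) → ℝ) :
    ∑ φ : Fin n → Fin (P + 2), ∏ j, g j (φ j) = ∏ j, ∑ a, g j a := by
  rw [Finset.prod_univ_sum, Fintype.piFinset_univ]

lemma sum_single_fun (f : Fin (P + 2) → ℝ) (i : Fin n) :
    ∑ φ : Fin n → Fin (P + 2), f (φ i) =
      ((P : ℝ) + 2) ^ n * ((∑ a, f a) / ((P : ℝ) + 2)) := by
  classical
  have hQ : ((P : ℝ) + 2) ≠ 0 := by positivity
  have h1 := sum_prod_fun (fun j a => if j = i then f a else 1) (n := n) (P := P)
  have h2 : ∀ φ : Fin n → Fin (P + 2), ∏ j, (if j = i then f (φ j) else 1) = f (φ i) := by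
    intro φ
    rw [Finset.prod_ite_eq' Finset.univ i (fun j => f (φ j)), if_pos (Finset.mem_univ i)]
  rw [Finset.sum_congr rfl (fun φ _ => h2 φ)] at h1
  rw [h1]
  have h3 : ∀ j : Fin n, ∑ a : Fin (P + 2), (if j = i then f a else 1) =
      (if j = i then (∑ a, f a) / ((P : ℝ) + 2) else 1) * ((P : ℝ) + 2) := by
    intro j
    by_cases hj : j = i
    · simp only [if_pos hj]
      rw [div_mul_cancel₀ _ hQ]
    · simp only [if_neg hj, Finset.sum_const, Finset.card_univ, Fintype.card_fin, nsmul_eq_mul,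
        mul_one, one_mul]
      push_cast
      ring
  rw [Finset.prod_congr rfl (fun j _ => h3 j), Finset.prod_mul_distrib,
    Finset.prod_ite_eq' Finset.univ i (fun _ => (∑ a, f a) / ((P : ℝ) + 2)),
    if_pos (Finset.mem_univ i), Finset.prod_const, Finset.card_univ, Fintype.card_fin]
  ring

/-- number of coordinates met -/
def kk (m : Fin n → ι → ℕ) (a : ι) : ℕ := (Finset.univ.filter (fun i => m i a ≠ 0)).card

/-- lower bound for the mean saving of a block -/
noncomputable def Dm (P : ℕ) (m : Fin n → ι → ℕ) (Lw c : ι → ℝ) (a : ι) : ℝ :=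
  2 / ((P : ℝ) + 2) * (∑ i, (m i a : ℝ)) * Lw a - c a +
    c a * (1 - 2 / ((P : ℝ) + 2)) ^ kk m a

/-- multiplicity in the chosen forms -/
noncomputable def xm (lab : Fin n → ι → Fin (P + 2)) (m : Fin n → ι → ℕ)
    (φ : Fin n → Fin (P + 2)) (a : ι) : ℝ :=
  ∑ i, (if isCh P (φ i) (lab i a) then (m i a : ℝ) else 0)

lemma mean_saving (lab : Fin n → ι → Fin (P + 2)) (m : Fin n → ι → ℕ) (Lw c : ι → ℝ) (a : ι)
    (hL : 0 < Lw a) (hc0 : 0 ≤ c a) :
    ((P : ℝ) + 2) ^ n * Dm P m Lw c a ≤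
      ∑ φ : Fin n → Fin (P + 2), max 0 (xm lab m φ a * Lw a - c a) := by
  classical
  have hQ : (0 : ℝ) < (P : ℝ) + 2 := by positivity
  set u : (i : Fin n) → Fin (P + 2) → ℝ := fun i b =>
    if m i a = 0 then 1 else (1 - (if isCh P b (lab i a) then (1 : ℝ) else 0)) with hu
  have hu01 : ∀ i b, 0 ≤ u i b ∧ u i b ≤ 1 := by
    intro i b
    rw [hu]
    simp only
    split_ifs <;> norm_num
  have hpt : ∀ φ : Fin n → Fin (P + 2),
      xm lab m φ a * Lw a - c a + c a * ∏ i, u i (φ i) ≤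
        max 0 (xm lab m φ a * Lw a - c a) := by
    intro φ
    by_cases hx : ∀ i, (if isCh P (φ i) (lab i a) then (m i a : ℝ) else 0) = 0
    · have hx0 : xm lab m φ a = 0 := Finset.sum_eq_zero fun i _ => hx i
      rw [hx0]
      have h1 : ∏ i, u i (φ i) ≤ 1 :=
        Finset.prod_le_one (fun i _ => (hu01 i _).1) fun i _ => (hu01 i _).2
      have h2 := mul_le_mul_of_nonneg_left h1 hc0
      refine le_trans ?_ (le_max_left _ _)
      linarith
    · push Not at hx
      obtain ⟨i, hi⟩ := hx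
      have h1 : isCh P (φ i) (lab i a) := by
        by_contra hcon
        rw [if_neg hcon] at hi
        exact hi rfl
      rw [if_pos h1] at hi
      have h2 : m i a ≠ 0 := by
        intro h
        rw [h] at hi
        exact hi Nat.cast_zero
      have h3 : u i (φ i) = 0 := by
        rw [hu]
        simp only
        rw [if_neg h2, if_pos h1, sub_self]
      rw [Finset.prod_eq_zero (Finset.mem_univ i) h3, mul_zero, add_zero]
      exact le_max_right _ _
  refine le_trans (le_of_eq ?_) (Finset.sum_le_sum fun φ _ => hpt φ)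
  rw [Finset.sum_add_distrib, Finset.sum_sub_distrib, ← Finset.mul_sum, sum_prod_fun,
    Finset.sum_const, Finset.card_univ, Fintype.card_fun, Fintype.card_fin, Fintype.card_fin,
    nsmul_eq_mul, ← Finset.sum_mul]
  have h1 : ∑ φ : Fin n → Fin (P + 2), xm lab m φ a =
      ((P : ℝ) + 2) ^ n * (2 / ((P : ℝ) + 2) * ∑ i, (m i a : ℝ)) := by
    unfold xm
    rw [Finset.sum_comm, Finset.mul_sum, Finset.mul_sum]
    refine Finset.sum_congr rfl fun i _ => ?_
    have h2 := sum_single_fun (n := n) (P := P)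
      (fun b => if isCh P b (lab i a) then (m i a : ℝ) else 0) i
    rw [h2]
    have h3 : ∑ b : Fin (P + 2), (if isCh P b (lab i a) then (m i a : ℝ) else 0) =
        2 * (m i a : ℝ) := by
      have h4 := sum_isCh (P := P) (lab i a)
      have h5 : ∀ b : Fin (P + 2), (if isCh P b (lab i a) then (m i a : ℝ) else 0) =
          (if isCh P b (lab i a) then (1 : ℝ) else 0) * (m i a : ℝ) := by
        intro b
        split_ifs <;> ring
      rw [Finset.sum_congr rfl (fun b _ => h5 b), ← Finset.sum_mul, h4]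
    rw [h3]
    ring
  have h2 : ∏ i, ∑ b, u i b = ((P : ℝ) + 2) ^ n * (1 - 2 / ((P : ℝ) + 2)) ^ kk m a := by
    have h3 : ∀ i, ∑ b, u i b =
        ((P : ℝ) + 2) * (if m i a ≠ 0 then (1 - 2 / ((P : ℝ) + 2)) else 1) := by
      intro i
      rw [hu]
      simp only
      by_cases h4 : m i a = 0
      · simp only [h4, if_true, ne_eq, not_true_eq_false, if_false, Finset.sum_const,
          Finset.card_univ, Fintype.card_fin, nsmul_eq_mul, mul_one]
        push_cast
        ring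
      · simp only [h4, if_false, ne_eq, not_false_eq_true, if_true]
        rw [Finset.sum_sub_distrib, sum_isCh, Finset.sum_const, Finset.card_univ,
          Fintype.card_fin, nsmul_eq_mul]
        push_cast
        field_simp
    rw [Finset.prod_congr rfl (fun i _ => h3 i), Finset.prod_mul_distrib, Finset.prod_const,
      Finset.card_univ, Fintype.card_fin, Finset.prod_ite, Finset.prod_const_one, mul_one,
      Finset.prod_const]
    rfl
  rw [h1, h2]
  unfold Dm
  push_cast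
  ring

/-- a good choice of two forms in every coordinate -/
theorem pair_choice (B : Finset ι) (lab : Fin n → ι → Fin (P + 2)) (m : Fin n → ι → ℕ)
    (Lw c : ι → ℝ) (hL : ∀ a ∈ B, 0 < Lw a) (hc0 : ∀ a ∈ B, 0 ≤ c a) :
    ∃ φ : Fin n → Fin (P + 2), ∑ a ∈ B, Dm P m Lw c a ≤
      ∑ a ∈ B, max 0 (xm lab m φ a * Lw a - c a) := by
  classical
  by_contra hcon
  push Not at hcon
  have h1 : ∑ φ : Fin n → Fin (P + 2), ∑ a ∈ B, max 0 (xm lab m φ a * Lw a - c a) <
      ∑ _φ : Fin n → Fin (P + 2), ∑ a ∈ B, Dm P m Lw c a :=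
    Finset.sum_lt_sum_of_nonempty Finset.univ_nonempty fun φ _ => hcon φ
  rw [Finset.sum_comm, Finset.sum_const, Finset.card_univ, Fintype.card_fun, Fintype.card_fin,
    Fintype.card_fin, nsmul_eq_mul, Finset.mul_sum] at h1
  have h2 : ∑ a ∈ B, ((P : ℝ) + 2) ^ n * Dm P m Lw c a ≤
      ∑ a ∈ B, ∑ φ : Fin n → Fin (P + 2), max 0 (xm lab m φ a * Lw a - c a) :=
    Finset.sum_le_sum fun a ha => mean_saving lab m Lw c a (hL a ha) (hc0 a ha)
  push_cast at h1
  linarith

lemma kk_le_n (m : Fin n → ι → ℕ) (a : ι) : kk m a ≤ n := by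
  unfold kk
  refine (Finset.card_filter_le _ _).trans ?_
  rw [Finset.card_univ, Fintype.card_fin]

lemma kk_le_sum (m : Fin n → ι → ℕ) (a : ι) : kk m a ≤ ∑ i, m i a := by
  unfold kk
  rw [Finset.card_eq_sum_ones, Finset.sum_filter]
  refine Finset.sum_le_sum fun i _ => ?_
  split_ifs with h
  · omega
  · exact Nat.zero_le _

/-- quadratic bound -/
lemma Dm_quad (m : Fin n → ι → ℕ) (Lw c : ι → ℝ) (a : ι) (hL : 0 < Lw a)
    (hc : c a = 0 ∨ c a = Lw a) :
    (2 / ((P : ℝ) + 2)) ^ 2 * ((∑ i, (m i a : ℝ)) * Lw a - c a) ≤ Dm P m Lw c a := by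
  set p : ℝ := 2 / ((P : ℝ) + 2) with hp
  have hQ : (0 : ℝ) < (P : ℝ) + 2 := by positivity
  have hp0 : 0 ≤ p := by positivity
  have hp1 : p ≤ 1 := by
    rw [hp, div_le_one hQ]
    have : (0 : ℝ) ≤ P := Nat.cast_nonneg P
    linarith
  have hM : (∑ i, (m i a : ℝ)) = ((∑ i, m i a : ℕ) : ℝ) := by push_cast; rfl
  unfold Dm
  rw [← hp, hM]
  set M : ℕ := ∑ i, m i a with hMdef
  have hM0 : (0 : ℝ) ≤ M := Nat.cast_nonneg M
  rcases hc with hc | hc
  · rw [hc]
    have h1 : p ^ 2 ≤ p := by nlinarith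
    have h2 : 0 ≤ (M : ℝ) * Lw a := mul_nonneg hM0 hL.le
    nlinarith
  · rw [hc]
    have hkM : kk m a ≤ M := kk_le_sum m a
    rcases Nat.eq_zero_or_pos (kk m a) with hk | hk
    · rw [hk, pow_zero]
      have h2 : 0 ≤ (M : ℝ) * Lw a := mul_nonneg hM0 hL.le
      have h1 : p ^ 2 ≤ p := by nlinarith
      have h3 : 0 ≤ p ^ 2 * Lw a := by positivity
      nlinarith
    · obtain ⟨k, hk'⟩ : ∃ k, kk m a = k + 1 := ⟨kk m a - 1, by omega⟩
      rw [hk', pow_succ (1 - p) k]
      have hB := one_add_mul_le_pow (a := -p) (by linarith) k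
      have hkM' : (k : ℝ) + 1 ≤ M := by exact_mod_cast (by omega : k + 1 ≤ M)
      have h1 : (1 - p) ^ k * (1 - p) ≥ (1 - k * p) * (1 - p) := by
        refine mul_le_mul_of_nonneg_right ?_ (by linarith)
        have : (1 : ℝ) + -p = 1 - p := by ring
        rw [this] at hB
        linarith
      have h2 : (1 - k * p) * (1 - p) ≥ (1 - ((M : ℝ) - 1) * p) * (1 - p) := by
        refine mul_le_mul_of_nonneg_right ?_ (by linarith)
        have := mul_le_mul_of_nonneg_right (by linarith : (k : ℝ) ≤ M - 1) hp0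
        linarith
      have h3 : p * M - 1 + (1 - ((M : ℝ) - 1) * p) * (1 - p) = p ^ 2 * (M - 1) := by ring
      have h4 : p ^ 2 * ((M : ℝ) - 1) ≤ p * M - 1 + (1 - p) ^ k * (1 - p) := by linarith
      have h5 := mul_le_mul_of_nonneg_right h4 hL.le
      linarith

/-- linear bound -/
lemma Dm_lin (m : Fin n → ι → ℕ) (Lw c : ι → ℝ) (a : ι) (hc0 : 0 ≤ c a) :
    2 / ((P : ℝ) + 2) * ((∑ i, (m i a : ℝ)) * Lw a) -
      (1 - (1 - 2 / ((P : ℝ) + 2)) ^ n) * c a ≤ Dm P m Lw c a := by
  set p : ℝ := 2 / ((P : ℝ) + 2) with hp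
  have hQ : (0 : ℝ) < (P : ℝ) + 2 := by positivity
  have hp0 : 0 ≤ p := by positivity
  have hp1 : p ≤ 1 := by
    rw [hp, div_le_one hQ]
    have : (0 : ℝ) ≤ P := Nat.cast_nonneg P
    linarith
  unfold Dm
  rw [← hp]
  have h1 : (1 - p) ^ n ≤ (1 - p) ^ kk m a :=
    pow_le_pow_of_le_one (by linarith) (by linarith) (kk_le_n m a)
  have h2 := mul_le_mul_of_nonneg_left h1 hc0
  linarith

/-- the exponent from the averaging argument -/
theorem pair_total (hn : 1 ≤ n) (B : Finset ι) (lab : Fin n → ι → Fin (P + 2))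
    (m : Fin n → ι → ℕ) (Lw c : ι → ℝ) (hL : ∀ a ∈ B, 0 < Lw a)
    (hc : ∀ a ∈ B, c a = 0 ∨ c a = Lw a)
    (X : Fin n → ℝ) (C κ : ℝ) (hX : ∀ i, 0 ≤ X i) (hC : 0 ≤ C)
    (hform : ∀ i l, ∑ a ∈ B with lab i a = l, (m i a : ℝ) * Lw a ≤ X i + C)
    (hE : κ * ∑ i, X i - C ≤ ∑ a ∈ B, ((∑ i, (m i a : ℝ)) * Lw a - c a)) :
    ∃ φ : Fin n → Fin (P + 2),
      ∑ i, 2 * X i - ∑ a ∈ B, max 0 (xm lab m φ a * Lw a - c a) ≤
        min ((2 - 4 * κ / ((P : ℝ) + 2) ^ 2) * ∑ i, X i)
          ((((P : ℝ) + 2) - κ) * (1 - (1 - 2 / ((P : ℝ) + 2)) ^ n) * ∑ i, X i) +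
          (1 + ((P : ℝ) + 2) * n) * C := by
  classical
  obtain ⟨φ, hφ⟩ := pair_choice B lab m Lw c hL
    (fun a ha => by rcases hc a ha with h | h
                    · rw [h]
                    · rw [h]; exact (hL a ha).le)
  refine ⟨φ, ?_⟩
  set Q : ℝ := (P : ℝ) + 2 with hQdef
  have hQ : (0 : ℝ) < Q := by positivity
  have hQ2 : (2 : ℝ) ≤ Q := by
    have : (0 : ℝ) ≤ P := Nat.cast_nonneg P
    rw [hQdef]; linarith
  set p : ℝ := 2 / Q with hp
  have hpQ : p * Q = 2 := by rw [hp]; field_simp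
  have hp0 : 0 < p := by positivity
  have hp1 : p ≤ 1 := by rw [hp, div_le_one hQ]; exact hQ2
  set SX := ∑ i, X i with hSX
  have hSX0 : 0 ≤ SX := Finset.sum_nonneg fun i _ => hX i
  have hn0 : (0 : ℝ) ≤ n := Nat.cast_nonneg n
  have hc0 : ∀ a ∈ B, 0 ≤ c a := fun a ha => by
    rcases hc a ha with h | h
    · rw [h]
    · rw [h]; exact (hL a ha).le
  -- quadratic bound
  have hq1 : p ^ 2 * (κ * SX - C) ≤ ∑ a ∈ B, Dm P m Lw c a := by
    refine (mul_le_mul_of_nonneg_left hE (by positivity)).trans ?_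
    rw [Finset.mul_sum]
    exact Finset.sum_le_sum fun a ha => Dm_quad m Lw c a (hL a ha) (hc a ha)
  -- linear bound
  set σ : ℝ := 1 - (1 - p) ^ n with hσ
  have hσp : p ≤ σ := by
    have h1 : (1 - p) ^ n ≤ (1 - p) ^ 1 :=
      pow_le_pow_of_le_one (by linarith) (by linarith) hn
    rw [pow_one] at h1
    rw [hσ]; linarith
  have hσ1 : σ ≤ 1 := by
    have : 0 ≤ (1 - p) ^ n := pow_nonneg (by linarith) _
    rw [hσ]; linarith
  set W : ℝ := ∑ a ∈ B, (∑ i, (m i a : ℝ)) * Lw a with hW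
  have hWle : W ≤ Q * (SX + n * C) := by
    have h1 : W = ∑ i, ∑ a ∈ B, (m i a : ℝ) * Lw a := by
      rw [hW, Finset.sum_comm]
      exact Finset.sum_congr rfl fun a _ => by rw [Finset.sum_mul]
    rw [h1]
    have h2 : ∀ i, ∑ a ∈ B, (m i a : ℝ) * Lw a ≤ Q * (X i + C) := by
      intro i
      rw [← Finset.sum_fiberwise_of_maps_to (g := fun a => lab i a) (t := Finset.univ)
        (fun a _ => Finset.mem_univ _)]
      refine (Finset.sum_le_sum fun l _ => hform i l).trans (le_of_eq ?_)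
      rw [Finset.sum_const, Finset.card_univ, Fintype.card_fin, nsmul_eq_mul]
      push_cast
      ring
    refine (Finset.sum_le_sum fun i _ => h2 i).trans (le_of_eq ?_)
    rw [← Finset.mul_sum, Finset.sum_add_distrib, Finset.sum_const, Finset.card_univ,
      Fintype.card_fin, nsmul_eq_mul]
  set ct : ℝ := ∑ a ∈ B, c a with hct
  have hE' : κ * SX - C ≤ W - ct := by
    rw [Finset.sum_sub_distrib] at hE
    exact hE
  have hq2 : p * W - σ * ct ≤ ∑ a ∈ B, Dm P m Lw c a := by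
    have h1 : p * W - σ * ct = ∑ a ∈ B, (p * ((∑ i, (m i a : ℝ)) * Lw a) - σ * c a) := by
      rw [Finset.sum_sub_distrib, ← Finset.mul_sum, ← Finset.mul_sum]
    rw [h1]
    exact Finset.sum_le_sum fun a ha => Dm_lin m Lw c a (hc0 a ha)
  have hq3 : σ * (κ * SX - C) - (σ - p) * (Q * (SX + n * C)) ≤ p * W - σ * ct := by
    have h1 := mul_le_mul_of_nonneg_left hE' (by linarith : 0 ≤ σ)
    have h2 := mul_le_mul_of_nonneg_left hWle (by linarith : 0 ≤ σ - p)
    have h3 : p * W - σ * ct = σ * (W - ct) - (σ - p) * W := by ring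
    linarith
  have h2SX : ∑ i, 2 * X i = 2 * SX := by rw [hSX, Finset.mul_sum]
  rw [h2SX]
  have hnC : 0 ≤ (n : ℝ) * C := mul_nonneg hn0 hC
  rcases le_total ((2 - 4 * κ / Q ^ 2) * SX) ((Q - κ) * σ * SX) with h | h
  · rw [min_eq_left h]
    have h1 : (2 - 4 * κ / Q ^ 2) * SX = 2 * SX - p ^ 2 * (κ * SX) := by
      rw [hp]; field_simp
      ring
    have h2 : p ^ 2 * C ≤ 1 * C := mul_le_mul_of_nonneg_right (by nlinarith) hC
    have h3 : 0 ≤ Q * ((n : ℝ) * C) := mul_nonneg hQ.le hnC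
    nlinarith
  · rw [min_eq_right h]
    have h1 : σ * (κ * SX - C) - (σ - p) * (Q * (SX + n * C)) =
        2 * SX - (Q - κ) * σ * SX - σ * C - (σ - p) * Q * (n * C) := by
      have : (σ - p) * (Q * (SX + n * C)) = σ * Q * SX - (p * Q) * SX + (σ - p) * Q * (n * C) := by
        ring
      rw [this, hpQ]
      ring
    have h2 : σ * C ≤ 1 * C := mul_le_mul_of_nonneg_right hσ1 hC
    have h3 : (σ - p) * Q * (n * C) ≤ 1 * Q * (n * C) := by
      refine mul_le_mul_of_nonneg_right ?_ hnC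
      exact mul_le_mul_of_nonneg_right (by linarith) hQ.le
    nlinarith

end Pair

end Pool.Agent.H691R3
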