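import Pool.Agent.H691R3.NMain
import Pool.Agent.H691R3.NPair

set_option autoImplicit false
set_option linter.unusedSectionVars false
set_option linter.unusedVariables false

/-!
The counting theorem for products of lines, with the averaging argument.
-/

namespace Pool.Agent.H691R3

open NumberField IsDedekindDomain Finset

variable {K : Type*} [Field K] [NumberField K]

/-- the exponent -/
noncomputable def exn (n Q : ℕ) (κ : ℝ) : ℝ :=
  min (max ((2 - κ) * n) (2 * n - 4 / 5))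
    (min ((2 - 4 * κ / (Q : ℝ) ^ 2) * n) (((Q : ℝ) - κ) * (1 - (1 - 2 / (Q : ℝ)) ^ n) * n))

/-- the selection of blocks -/
theorem nselect {n : ℕ} (hn : 1 ≤ n) {q : Fin n → ℕ} (Q : ℕ) (hQ : 2 ≤ Q) (hqQ : ∀ i, q i ≤ Q)
    (Sp : Finset (Pl K)) (α : (i : Fin n) → Fin (q i) → K × K) (x : Fin n → K)
    (B : Finset (UB K q)) (hB1 : Set.InjOn (fun u : UB K q => u.1) B)
    (hB2 : ∀ u ∈ B, ∀ i, 1 ≤ (u.2 i).2 → wti i u ≤ lam u.1 (aff (x i)) (α i (u.2 i).1))
    (hB3 : ∀ u ∈ B, thr Sp u.1 ≤ mul u)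
    (X : Fin n → ℝ) (L C κ : ℝ) (hX0 : ∀ i, 0 ≤ X i) (hXL : ∀ i, X i ≤ L) (hC : 0 ≤ C)
    (hκ0 : 0 ≤ κ) (hκ2 : κ ≤ 2)
    (hB4 : ∀ i l, ∑ u ∈ B with (u.2 i).1 = l, wti i u ≤ X i + C)
    (hB5 : κ * ∑ i, X i - C ≤ ∑ u ∈ B, (∑ i, wti i u - costn Sp u)) :
    ∃ I : Finset (UB K q), Set.InjOn (fun u : UB K q => u.1) I ∧
      (∀ u ∈ I, ∀ i, 1 ≤ (u.2 i).2 → wti i u ≤ lam u.1 (aff (x i)) (α i (u.2 i).1)) ∧
      (∀ u ∈ I, thr Sp u.1 ≤ mul u) ∧
      (∑ u ∈ I, ∑ i, wti i u ≤ ∑ u ∈ B, ∑ i, wti i u) ∧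
      (∑ u ∈ I, costn Sp u) + ∑ i, max 0 (2 * X i - ∑ u ∈ I, wti i u) ≤
        exn n Q κ * L + (1 + 2 * n + Q * n) * C := by
  classical
  have hn0 : (0 : ℝ) ≤ n := Nat.cast_nonneg n
  have hQ0 : (2 : ℝ) ≤ Q := by exact_mod_cast hQ
  have hnC : 0 ≤ (n : ℝ) * C := mul_nonneg hn0 hC
  have hQnC : 0 ≤ (Q : ℝ) * n * C := by positivity
  have hL : 0 ≤ L := (hX0 ⟨0, hn⟩).trans (hXL ⟨0, hn⟩)
  have hw0 : ∀ i, ∀ u : UB K q, 0 ≤ wti i u := fun i u =>
    mul_nonneg (Nat.cast_nonneg _) (Lu_pos _).le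
  unfold exn
  set E1 : ℝ := max ((2 - κ) * n) (2 * n - 4 / 5) with hE1
  set E2 : ℝ := (2 - 4 * κ / (Q : ℝ) ^ 2) * n with hE2
  set E3 : ℝ := ((Q : ℝ) - κ) * (1 - (1 - 2 / (Q : ℝ)) ^ n) * n with hE3
  rcases le_total E1 (min E2 E3) with hcase | hcase
  · rw [min_eq_left hcase]
    have hcost : ∀ u ∈ B, costn Sp u ≤ (∑ i, wti i u) / 2 := by
      intro u hu
      have h1 := hB3 u hu
      have hL := Lu_pos u.1
      rw [sum_wti]
      unfold costn
      unfold thr at h1
      split_ifs at h1 ⊢ with h2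
      · have : (0 : ℝ) ≤ (mul u : ℝ) := Nat.cast_nonneg _
        positivity
      · have : (2 : ℝ) ≤ (mul u : ℝ) := by exact_mod_cast h1
        nlinarith
    have hsingle : ∀ i, ∀ u ∈ B, wti i u ≤ X i + C := by
      intro i u hu
      refine le_trans ?_ (hB4 i (u.2 i).1)
      exact Finset.single_le_sum (f := fun u => wti i u) (fun u' _ => hw0 i u')
        (Finset.mem_filter.mpr ⟨hu, rfl⟩)
    obtain ⟨I, hIB, hI⟩ := nselection B (fun i u => wti i u) (costn Sp) (fun i u _ => hw0 i u)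
      hcost X L C κ hX0 hXL hC hκ2 hsingle hB5
    refine ⟨I, hB1.mono (by exact_mod_cast hIB), fun u hu => hB2 u (hIB hu),
      fun u hu => hB3 u (hIB hu), ?_, by linarith⟩
    exact Finset.sum_le_sum_of_subset_of_nonneg hIB fun u hu _ =>
      Finset.sum_nonneg fun i _ => hw0 i u
  · rw [min_eq_right hcase]
    obtain ⟨P, rfl⟩ : ∃ P, Q = P + 2 := ⟨Q - 2, by omega⟩
    set lab : Fin n → UB K q → Fin (P + 2) := fun i u => Fin.castLE (hqQ i) (u.2 i).1 with hlab
    set m : Fin n → UB K q → ℕ := fun i u => (u.2 i).2 with hm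
    set Lw : UB K q → ℝ := fun u => Lu u.1 with hLw
    have hc : ∀ u ∈ B, costn Sp u = 0 ∨ costn Sp u = Lw u := by
      intro u _
      unfold costn
      split_ifs
      · exact Or.inl rfl
      · exact Or.inr rfl
    have hform : ∀ i l, ∑ u ∈ B with lab i u = l, (m i u : ℝ) * Lw u ≤ X i + C := by
      intro i l
      by_cases hl : l.val < q i
      · have h1 : B.filter (fun u => lab i u = l) =
            B.filter (fun u => (u.2 i).1 = ⟨l.val, hl⟩) := by
          refine Finset.filter_congr fun u _ => ?_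
          rw [hlab]
          simp only [Fin.ext_iff, Fin.val_castLE]
        rw [h1]
        exact hB4 i ⟨l.val, hl⟩
      · have h1 : B.filter (fun u => lab i u = l) = ∅ := by
          rw [Finset.filter_eq_empty_iff]
          intro u _ h
          apply hl
          rw [← h, hlab]
          simp only [Fin.val_castLE]
          exact (u.2 i).1.2
        rw [h1, Finset.sum_empty]
        have := hX0 i
        linarith
    have hwsum : ∀ u : UB K q, (∑ i, (m i u : ℝ)) * Lw u = ∑ i, wti i u := by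
      intro u
      rw [Finset.sum_mul]
      rfl
    obtain ⟨φ, hφ⟩ := pair_total hn B lab m Lw (costn Sp) (fun u _ => Lu_pos _) hc X C κ hX0 hC
      hform (by simpa only [hwsum] using hB5)
    set r : UB K q → UB K q := fun u =>
      (u.1, fun i => ((u.2 i).1, if isCh P (φ i) (lab i u) then (u.2 i).2 else 0)) with hr
    have hr1 : ∀ u, (r u).1 = u.1 := fun u => rfl
    have hr2 : ∀ u i, ((r u).2 i).1 = (u.2 i).1 := fun u i => rfl
    have hr3 : ∀ u i, ((r u).2 i).2 = if isCh P (φ i) (lab i u) then (u.2 i).2 else 0 :=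
      fun u i => rfl
    have hrw : ∀ u i, wti i (r u) = if isCh P (φ i) (lab i u) then wti i u else 0 := by
      intro u i
      unfold wti
      rw [hr3, hr1]
      split_ifs
      · rfl
      · simp
    have hrle : ∀ u i, wti i (r u) ≤ wti i u := by
      intro u i
      rw [hrw]
      split_ifs
      · exact le_rfl
      · exact hw0 i u
    have hrc : ∀ u, costn Sp (r u) = costn Sp u := fun u => rfl
    have hxm : ∀ u, xm lab m φ u = (mul (r u) : ℝ) := by
      intro u
      unfold xm mul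
      push_cast
      refine Finset.sum_congr rfl fun i _ => ?_
      rw [hr3]
      split_ifs
      · rfl
      · simp
    set F : Finset (UB K q) := B.filter (fun u => thr Sp u.1 ≤ mul (r u)) with hF
    have hFB : F ⊆ B := Finset.filter_subset _ _
    have hrinj : Set.InjOn r F := by
      intro u hu u' hu' huu
      refine hB1 ?_ ?_ ?_
      · exact_mod_cast hFB (by exact_mod_cast hu)
      · exact_mod_cast hFB (by exact_mod_cast hu')
      · have := congrArg (fun a : UB K q => a.1) huu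
        exact this
    refine ⟨F.image r, ?_, ?_, ?_, ?_, ?_⟩
    · intro a ha b hb hab
      rw [Finset.mem_coe, Finset.mem_image] at ha hb
      obtain ⟨u, hu, rfl⟩ := ha
      obtain ⟨u', hu', rfl⟩ := hb
      have h1 : u = u' := hB1 (by exact_mod_cast hFB hu) (by exact_mod_cast hFB hu') hab
      rw [h1]
    · intro a ha i hi
      rw [Finset.mem_image] at ha
      obtain ⟨u, hu, rfl⟩ := ha
      rw [hr3] at hi
      split_ifs at hi with h1
      · rw [hrw, if_pos h1, hr1, hr2]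
        exact hB2 u (hFB hu) i hi
      · omega
    · intro a ha
      rw [Finset.mem_image] at ha
      obtain ⟨u, hu, rfl⟩ := ha
      rw [hF, Finset.mem_filter] at hu
      exact hu.2
    · rw [Finset.sum_image hrinj]
      calc ∑ u ∈ F, ∑ i, wti i (r u) ≤ ∑ u ∈ F, ∑ i, wti i u :=
            Finset.sum_le_sum fun u _ => Finset.sum_le_sum fun i _ => hrle u i
        _ ≤ ∑ u ∈ B, ∑ i, wti i u :=
            Finset.sum_le_sum_of_subset_of_nonneg hFB fun u _ _ =>
              Finset.sum_nonneg fun i _ => hw0 i u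
    · have e1 : ∑ a ∈ F.image r, costn Sp a = ∑ u ∈ F, costn Sp u := by
        rw [Finset.sum_image hrinj]
        exact Finset.sum_congr rfl fun u _ => hrc u
      have e2 : ∀ i, ∑ a ∈ F.image r, wti i a = ∑ u ∈ F, wti i (r u) := fun i =>
        Finset.sum_image hrinj
      rw [e1]
      simp only [e2]
      -- no overshoot
      have hover : ∀ i, ∑ u ∈ F, wti i (r u) ≤ 2 * (X i + C) := by
        intro i
        have h1 : ∑ u ∈ F, wti i (r u) ≤ ∑ u ∈ B, wti i (r u) :=
          Finset.sum_le_sum_of_subset_of_nonneg hFB fun u _ _ => hw0 i (r u)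
        have h2 : ∑ u ∈ B, wti i (r u) ≤ ∑ u ∈ B, ((if lab i u = φ i then (m i u : ℝ) * Lw u else 0)
            + (if lab i u = finRotate (P + 2) (φ i) then (m i u : ℝ) * Lw u else 0)) := by
          refine Finset.sum_le_sum fun u _ => ?_
          rw [hrw]
          have h3 : wti i u = (m i u : ℝ) * Lw u := rfl
          have h4 := hw0 i u
          rw [h3] at h4 ⊢
          by_cases h5 : lab i u = φ i
          · rw [if_pos h5]
            split_ifs <;> linarith
          · by_cases h6 : lab i u = finRotate (P + 2) (φ i)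
            · rw [if_neg h5, if_pos h6]
              split_ifs <;> linarith
            · have h7 : ¬ isCh P (φ i) (lab i u) := by
                rintro (h | h)
                · exact h5 h
                · exact h6 h
              rw [if_neg h5, if_neg h6, if_neg h7]
              linarith
        rw [Finset.sum_add_distrib, ← Finset.sum_filter, ← Finset.sum_filter] at h2
        have h3 := hform i (φ i)
        have h4 := hform i (finRotate (P + 2) (φ i))
        linarith
      have hmax : ∑ i, max 0 (2 * X i - ∑ u ∈ F, wti i (r u)) ≤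
          ∑ i, (2 * X i - ∑ u ∈ F, wti i (r u) + 2 * C) := by
        refine Finset.sum_le_sum fun i _ => ?_
        have := hover i
        refine max_le ?_ ?_ <;> linarith
      have hsav : ∑ u ∈ B, max 0 (xm lab m φ u * Lw u - costn Sp u) ≤
          ∑ u ∈ F, (∑ i, wti i (r u) - costn Sp u) := by
        have h1 : ∑ u ∈ B, max 0 (xm lab m φ u * Lw u - costn Sp u) =
            ∑ u ∈ F, max 0 (xm lab m φ u * Lw u - costn Sp u) := by
          symm
          refine Finset.sum_subset hFB fun u hu hnu => ?_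
          have h2 : ¬ thr Sp u.1 ≤ mul (r u) := by
            intro h
            exact hnu (by rw [hF, Finset.mem_filter]; exact ⟨hu, h⟩)
          have hLp := Lu_pos u.1
          rw [hxm]
          refine max_eq_left ?_
          unfold thr at h2
          unfold costn
          split_ifs at h2 ⊢ with h3
          · have h4 : mul (r u) = 0 := by omega
            rw [h4]; simp
          · have h4 : mul (r u) ≤ 1 := by omega
            have h5 : (mul (r u) : ℝ) ≤ 1 := by exact_mod_cast h4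
            have h6 := mul_le_mul_of_nonneg_right h5 hLp.le
            have h7 : Lw u = Lu u.1 := rfl
            rw [h7]
            linarith
        rw [h1]
        refine Finset.sum_le_sum fun u hu => ?_
        rw [hF, Finset.mem_filter] at hu
        have hLp := Lu_pos u.1
        have h8 : ∑ i, wti i (r u) = (mul (r u) : ℝ) * Lw u := sum_wti (r u)
        rw [hxm, h8]
        refine max_le ?_ le_rfl
        have h2 := hu.2
        unfold thr at h2
        unfold costn
        have h7 : Lw u = Lu u.1 := rfl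
        rw [h7]
        split_ifs at h2 ⊢ with h3
        · rw [sub_zero]
          exact mul_nonneg (Nat.cast_nonneg _) hLp.le
        · have h5 : (2 : ℝ) ≤ (mul (r u) : ℝ) := by exact_mod_cast h2
          have h6 := mul_le_mul_of_nonneg_right h5 hLp.le
          linarith
      rw [Finset.sum_sub_distrib] at hsav
      have hcomm : ∑ u ∈ F, ∑ i, wti i (r u) = ∑ i, ∑ u ∈ F, wti i (r u) := Finset.sum_comm
      rw [Finset.sum_add_distrib, Finset.sum_sub_distrib, Finset.sum_const, Finset.card_univ,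
        Fintype.card_fin, nsmul_eq_mul] at hmax
      have hSX : ∑ i, X i ≤ n * L := by
        calc ∑ i, X i ≤ ∑ _i : Fin n, L := Finset.sum_le_sum fun i _ => hXL i
          _ = n * L := by rw [Finset.sum_const, Finset.card_univ, Fintype.card_fin, nsmul_eq_mul]
      have hQc : ((P + 2 : ℕ) : ℝ) = (P : ℝ) + 2 := by push_cast; ring
      rw [hQc] at hE2 hE3 hQ0
      have hc2 : 0 ≤ 2 - 4 * κ / ((P : ℝ) + 2) ^ 2 := by
        have h1 : 4 * κ / ((P : ℝ) + 2) ^ 2 ≤ 2 := by
          rw [div_le_iff₀ (by positivity)]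
          nlinarith
        linarith
      have hc3 : 0 ≤ ((P : ℝ) + 2 - κ) * (1 - (1 - 2 / ((P : ℝ) + 2)) ^ n) := by
        refine mul_nonneg (by linarith) ?_
        have h1 : 2 / ((P : ℝ) + 2) ≤ 1 := by
          rw [div_le_one (by linarith)]; exact hQ0
        have h2 : 0 ≤ 2 / ((P : ℝ) + 2) := by positivity
        have h3 : (1 - 2 / ((P : ℝ) + 2)) ^ n ≤ 1 :=
          pow_le_one₀ (by linarith) (by linarith)
        linarith
      have hmin : min ((2 - 4 * κ / ((P : ℝ) + 2) ^ 2) * ∑ i, X i)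
          ((((P : ℝ) + 2) - κ) * (1 - (1 - 2 / ((P : ℝ) + 2)) ^ n) * ∑ i, X i) ≤
          min E2 E3 * L := by
        rw [min_mul_of_nonneg _ _ hL]
        refine min_le_min ?_ ?_
        · rw [hE2, mul_assoc]
          exact mul_le_mul_of_nonneg_left hSX hc2
        · rw [hE3, mul_assoc _ (n : ℝ) L]
          exact mul_le_mul_of_nonneg_left hSX hc3
      rw [hQc]
      linarith

/-- points with heights in a window -/
theorem ncount_window2 {n : ℕ} (hn : 1 ≤ n) {q : Fin n → ℕ} (hq : ∀ i, 0 < q i)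
    (Q : ℕ) (hQ2 : 2 ≤ Q) (hqQ : ∀ i, q i ≤ Q)
    (T : Set (HeightOneSpectrum (𝓞 K))) (hT : T.Finite)
    (α : (i : Fin n) → Fin (q i) → K × K) (hα0 : ∀ i l, α i l ≠ 0)
    (hα : ∀ i, ∀ l j, l ≠ j → (α i l).1 * (α i j).2 - (α i l).2 * (α i j).1 ≠ 0)
    (κ : ℝ) (hκ0 : 0 ≤ κ) (hκ2 : κ ≤ 2) (C0 : ℝ) (hC0 : 0 ≤ C0) (δ : ℝ) (hδ : 0 < δ) :
    ∃ C : ℝ, 0 ≤ C ∧ ∀ (X : Fin n → ℝ) (L : ℝ), 0 ≤ L → (∀ i, 1 ≤ X i) → (∀ i, X i ≤ L) →
      ∀ E : Finset (Fin n → K),
      (∀ x ∈ E, (∀ i, Off (α i) (x i)) ∧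
        NTn T α x < ∑ i, ((q i : ℝ) - κ) * hr (aff (x i)) + C0 ∧
        ∀ i, X i - 1 ≤ hr (aff (x i)) ∧ hr (aff (x i)) ≤ X i) →
      (E.card : ℝ) ≤ C * Real.exp ((exn n Q κ + δ) * L) := by
  classical
  obtain ⟨Sp, C1, hC1, hB⟩ := exists_nblocks hq T hT α hα0 hα
  set Qs : ℝ := ∑ i, (q i : ℝ) with hQs
  have hQs0 : 0 ≤ Qs := Finset.sum_nonneg fun i _ => Nat.cast_nonneg _
  set η : ℝ := δ / (Qs + 1) with hη
  have hηpos : 0 < η := div_pos hδ (by linarith)
  obtain ⟨F0, hF0⟩ := nweights_bounded Sp q hηpos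
  have hn0 : (0 : ℝ) ≤ n := Nat.cast_nonneg n
  set Cs : ℝ := C1 + κ * n + C0 with hCs
  have hCs0 : 0 ≤ Cs := by positivity
  set C3 : ℝ := (64 * Real.exp (3 * lossK K)) ^ n with hC3
  have hC30 : 0 ≤ C3 := by positivity
  refine ⟨C3 * Real.exp ((1 + 2 * n + Q * n) * Cs + δ * Cs + F0), by positivity, ?_⟩
  intro X L hL hX1 hXL E hE
  set ex : ℝ := exn n Q κ with hex
  have hsel : ∀ x : Fin n → K, ∃ I : Finset (UB K q), x ∈ E →
      (Set.InjOn (fun u : UB K q => u.1) I ∧
      (∀ u ∈ I, ∀ i, 1 ≤ (u.2 i).2 → wti i u ≤ lam u.1 (aff (x i)) (α i (u.2 i).1)) ∧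
      (∀ u ∈ I, thr Sp u.1 ≤ mul u) ∧
      (∑ u ∈ I, ∑ i, wti i u ≤ Qs * (L + Cs)) ∧
      (∑ u ∈ I, costn Sp u) + ∑ i, max 0 (2 * X i - ∑ u ∈ I, wti i u) ≤
        ex * L + (1 + 2 * n + Q * n) * Cs) := by
    intro x
    by_cases hx : x ∈ E
    · obtain ⟨hoff, hviol, hwin⟩ := hE x hx
      obtain ⟨B, hB1, hB2, hB3, hB4, hB5⟩ := hB x hoff
      have hl : ∀ i l, ∑ u ∈ B with (u.2 i).1 = l, wti i u ≤ X i + Cs := by
        intro i l
        have h1 := hB4 i l
        have h2 := (hwin i).2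
        have h3 : 0 ≤ κ * n := mul_nonneg hκ0 hn0
        linarith
      have hEx : κ * ∑ i, X i - Cs ≤ ∑ u ∈ B, (∑ i, wti i u - costn Sp u) := by
        refine le_trans ?_ hB5
        have h1 : κ * ∑ i, X i - κ * n ≤ κ * ∑ i, hr (aff (x i)) := by
          have h2 : ∑ i, X i - n ≤ ∑ i, hr (aff (x i)) := by
            have h3 : ∑ i, (X i - 1) ≤ ∑ i, hr (aff (x i)) :=
              Finset.sum_le_sum fun i _ => (hwin i).1
            rw [Finset.sum_sub_distrib, Finset.sum_const, Finset.card_univ, Fintype.card_fin,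
              nsmul_eq_mul, mul_one] at h3
            exact h3
          have := mul_le_mul_of_nonneg_left h2 hκ0
          linarith
        have h2 : ∑ i, ((q i : ℝ) - κ) * hr (aff (x i)) =
            ∑ i, (q i : ℝ) * hr (aff (x i)) - κ * ∑ i, hr (aff (x i)) := by
          rw [Finset.mul_sum, ← Finset.sum_sub_distrib]
          exact Finset.sum_congr rfl fun i _ => by ring
        rw [h2] at hviol
        linarith
      obtain ⟨I, hI1, hI2, hI3, hI4, hI5⟩ := nselect hn Q hQ2 hqQ Sp α x B hB1 hB2 hB3 X L Cs κ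
        (fun i => by linarith [hX1 i]) hXL hCs0 hκ0 hκ2 hl hEx
      refine ⟨I, fun _ => ⟨hI1, hI2, hI3, ?_, hI5⟩⟩
      calc ∑ u ∈ I, ∑ i, wti i u ≤ ∑ u ∈ B, ∑ i, wti i u := hI4
        _ = ∑ i, ∑ u ∈ B, wti i u := Finset.sum_comm
        _ = ∑ i, ∑ l : Fin (q i), ∑ u ∈ B with (u.2 i).1 = l, wti i u := by
            refine Finset.sum_congr rfl fun i _ => ?_
            exact (Finset.sum_fiberwise_of_maps_to
              (fun u _ => Finset.mem_univ (u.2 i).1) (fun u => wti i u)).symm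
        _ ≤ ∑ i, ∑ l : Fin (q i), (L + Cs) := by
            refine Finset.sum_le_sum fun i _ => Finset.sum_le_sum fun l _ => ?_
            have h1 := hl i l
            have h2 := hXL i
            linarith
        _ = Qs * (L + Cs) := by
            rw [hQs, Finset.sum_mul]
            refine Finset.sum_congr rfl fun i _ => ?_
            rw [Finset.sum_const, Finset.card_univ, Fintype.card_fin, nsmul_eq_mul]
    · exact ⟨∅, fun h => absurd h hx⟩
  choose I hI using hsel
  have hcount := count_bound3 E I (fun u => ∑ i, wti i u) (costn Sp) (fwn Sp η)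
    (fwn_nonneg Sp η) F0 hF0 η hηpos ?_ (fun A => ∑ i, max 0 (2 * X i - ∑ u ∈ A, wti i u))
    (ex * L + (1 + 2 * n + Q * n) * Cs) (Qs * (L + Cs)) C3 hC30 ?_ ?_ ?_
  · refine hcount.trans ?_
    rw [mul_assoc C3, ← Real.exp_add]
    refine mul_le_mul_of_nonneg_left (Real.exp_le_exp.mpr ?_) hC30
    have h1 : η * (Qs * (L + Cs)) ≤ δ * (L + Cs) := by
      have h2 : η * Qs ≤ δ := by
        rw [hη, div_mul_eq_mul_div, div_le_iff₀ (by linarith)]
        nlinarith
      have := mul_le_mul_of_nonneg_right h2 (by linarith : 0 ≤ L + Cs)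
      linarith
    linarith
  · intro x hx u hu
    unfold fwn
    rw [if_pos ((hI x hx).2.2.1 u hu)]
  · intro x hx
    exact (hI x hx).2.2.2.2
  · intro x hx
    exact (hI x hx).2.2.2.1
  · intro x hx
    refine nclass_bound α hα0 (I x) (hI x hx).1 (E.filter (fun y => I y = I x)) X ?_ ?_ ?_
    · intro y hy
      exact (hE y (Finset.mem_filter.mp hy).1).1
    · intro y hy i
      exact ((hE y (Finset.mem_filter.mp hy).1).2.2 i).2
    · intro y hy u hu
      rw [Finset.mem_filter] at hy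
      rw [← hy.2] at hu
      exact (hI y hy.1).2.1 u hu

lemma exn_nonneg {n Q : ℕ} (hQ : 2 ≤ Q) {κ : ℝ} (hκ0 : 0 ≤ κ) (hκ2 : κ ≤ 2) :
    0 ≤ exn n Q κ := by
  have hQ0 : (2 : ℝ) ≤ Q := by exact_mod_cast hQ
  have hn0 : (0 : ℝ) ≤ n := Nat.cast_nonneg n
  unfold exn
  refine le_min (le_trans (mul_nonneg (by linarith) hn0) (le_max_left _ _)) (le_min ?_ ?_)
  · refine mul_nonneg ?_ hn0
    have h1 : 4 * κ / (Q : ℝ) ^ 2 ≤ 2 := by
      rw [div_le_iff₀ (by positivity)]
      nlinarith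
    linarith
  · refine mul_nonneg (mul_nonneg (by linarith) ?_) hn0
    have h1 : 2 / (Q : ℝ) ≤ 1 := by
      rw [div_le_one (by linarith)]; exact hQ0
    have h2 : 0 ≤ 2 / (Q : ℝ) := by positivity
    have h3 : (1 - 2 / (Q : ℝ)) ^ n ≤ 1 := pow_le_one₀ (by linarith) (by linarith)
    linarith

/-- points of bounded height -/
theorem ncount_all2 {n : ℕ} (hn : 1 ≤ n) {q : Fin n → ℕ} (hq : ∀ i, 0 < q i)
    (Q : ℕ) (hQ2 : 2 ≤ Q) (hqQ : ∀ i, q i ≤ Q)
    (T : Set (HeightOneSpectrum (𝓞 K))) (hT : T.Finite)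
    (α : (i : Fin n) → Fin (q i) → K × K) (hα0 : ∀ i l, α i l ≠ 0)
    (hα : ∀ i, ∀ l j, l ≠ j → (α i l).1 * (α i j).2 - (α i l).2 * (α i j).1 ≠ 0)
    (κ : ℝ) (hκ0 : 0 ≤ κ) (hκ2 : κ ≤ 2) (C0 : ℝ) (hC0 : 0 ≤ C0) (δ : ℝ) (hδ : 0 < δ) :
    ∃ C : ℝ, 0 ≤ C ∧ ∀ X : ℝ, 0 ≤ X → ∀ E : Finset (Fin n → K),
      (∀ x ∈ E, (∀ i, Off (α i) (x i)) ∧
        NTn T α x < ∑ i, ((q i : ℝ) - κ) * hr (aff (x i)) + C0 ∧
        ∀ i, hr (aff (x i)) ≤ X) →
      (E.card : ℝ) ≤ C * Real.exp ((exn n Q κ + δ) * X) := by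
  classical
  obtain ⟨C, hC, hwin⟩ := ncount_window2 hn hq Q hQ2 hqQ T hT α hα0 hα κ hκ0 hκ2 C0 hC0 (δ / 2)
    (by positivity)
  have hex0 := exn_nonneg (n := n) hQ2 hκ0 hκ2
  set ex : ℝ := exn n Q κ with hex
  refine ⟨C * ((2 / δ) ^ n * (n.factorial : ℝ)) * Real.exp (ex + δ), by positivity, ?_⟩
  intro X hX E hE
  set N : ℕ := ⌊X⌋₊ + 1 with hN
  have hNX : (N : ℝ) ≤ X + 1 := by
    rw [hN]; push_cast
    have := Nat.floor_le hX
    linarith
  set W : Finset (Fin n → ℕ) := Fintype.piFinset (fun _ : Fin n => Finset.range N) with hW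
  have hWcard : (W.card : ℝ) ≤ (X + 1) ^ n := by
    rw [hW, Fintype.card_piFinset]
    simp only [Finset.card_range, Finset.prod_const, Finset.card_univ, Fintype.card_fin]
    push_cast
    exact pow_le_pow_left₀ (Nat.cast_nonneg _) hNX n
  have h1 : (E.card : ℝ) = ∑ j ∈ W,
      ((E.filter (fun x => (fun i => ⌊hr (aff (x i))⌋₊) = j)).card : ℝ) := by
    have h2 := Finset.card_eq_sum_card_fiberwise (s := E) (t := W)
      (f := fun x => (fun i => ⌊hr (aff (x i))⌋₊)) ?_
    · exact_mod_cast h2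
    · intro x hx
      simp only [hW, Finset.mem_coe, Fintype.mem_piFinset, Finset.mem_range]
      intro i
      rw [hN]
      have := Nat.floor_le_floor ((hE x hx).2.2 i)
      omega
  have h3 : ∀ j ∈ W, ((E.filter (fun x => (fun i => ⌊hr (aff (x i))⌋₊) = j)).card : ℝ) ≤
      C * Real.exp ((ex + δ / 2) * (X + 1)) := by
    intro j hj
    rw [hW, Fintype.mem_piFinset] at hj
    have hjN : ∀ i, (j i : ℝ) + 1 ≤ X + 1 := by
      intro i
      have h4 := hj i
      rw [Finset.mem_range] at h4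
      have : ((j i + 1 : ℕ) : ℝ) ≤ N := by exact_mod_cast h4
      push_cast at this
      linarith
    refine hwin (fun i => (j i : ℝ) + 1) (X + 1) (by linarith)
      (fun i => by have : (0 : ℝ) ≤ j i := Nat.cast_nonneg _; linarith) hjN _ ?_
    intro x hx
    rw [Finset.mem_filter] at hx
    obtain ⟨hx1, hx2⟩ := hx
    obtain ⟨hx3, hx4, hx5⟩ := hE x hx1
    refine ⟨hx3, hx4, fun i => ?_⟩
    have hx2i : ⌊hr (aff (x i))⌋₊ = j i := congrFun hx2 i
    constructor
    · have := Nat.floor_le (hr_aff_nonneg (x i))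
      rw [hx2i] at this
      linarith
    · have := (Nat.lt_floor_add_one (hr (aff (x i)))).le
      rw [hx2i] at this
      exact this
  have h4 : (E.card : ℝ) ≤ (X + 1) ^ n * (C * Real.exp ((ex + δ / 2) * (X + 1))) := by
    rw [h1]
    refine (Finset.sum_le_sum h3).trans ?_
    rw [Finset.sum_const, nsmul_eq_mul]
    exact mul_le_mul_of_nonneg_right hWcard (by positivity)
  have h5 : (X + 1) ^ n ≤ (2 / δ) ^ n * (n.factorial : ℝ) * Real.exp (δ / 2 * (X + 1)) := by
    have hY : 0 ≤ δ / 2 * (X + 1) := by positivity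
    have h6 := Real.pow_div_factorial_le_exp (δ / 2 * (X + 1)) hY n
    have hfac : (0 : ℝ) < (n.factorial : ℝ) := by exact_mod_cast Nat.factorial_pos n
    rw [div_le_iff₀ hfac] at h6
    have h7 : (X + 1) ^ n = (2 / δ) ^ n * (δ / 2 * (X + 1)) ^ n := by
      rw [← mul_pow]
      congr 1
      field_simp
    rw [h7]
    calc (2 / δ) ^ n * (δ / 2 * (X + 1)) ^ n
        ≤ (2 / δ) ^ n * (Real.exp (δ / 2 * (X + 1)) * (n.factorial : ℝ)) :=
          mul_le_mul_of_nonneg_left h6 (by positivity)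
      _ = _ := by ring
  calc (E.card : ℝ) ≤ (X + 1) ^ n * (C * Real.exp ((ex + δ / 2) * (X + 1))) := h4
    _ ≤ ((2 / δ) ^ n * (n.factorial : ℝ) * Real.exp (δ / 2 * (X + 1))) *
        (C * Real.exp ((ex + δ / 2) * (X + 1))) :=
        mul_le_mul_of_nonneg_right h5 (by positivity)
    _ = C * ((2 / δ) ^ n * (n.factorial : ℝ)) * (Real.exp (δ / 2 * (X + 1)) *
        Real.exp ((ex + δ / 2) * (X + 1))) := by ring
    _ = C * ((2 / δ) ^ n * (n.factorial : ℝ)) * (Real.exp (ex + δ) *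
        Real.exp ((ex + δ) * X)) := by
        rw [← Real.exp_add, ← Real.exp_add]
        congr 2
        ring
    _ = _ := by ring

end Pool.Agent.H691R3
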