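import Pool.Agent.H691R3.PData
import Pool.Agent.H691R3.PlaceK

set_option autoImplicit false
set_option linter.unusedSectionVars false
set_option linter.unusedVariables false

/-!
Explicit curves give a configuration.
-/

namespace Pool.Agent.H691R3

open NumberField IsDedekindDomain Finset

section Abs

variable {K : Type*} [Field K] (f : AbsoluteValue K ℝ)

/-- log of the sup of the coordinates -/
noncomputable def ln (p : K × K) : ℝ := Real.log (max (f p.1) (f p.2))

lemma lin_upper {cc : ℝ} (hcc : 1 ≤ cc) (hf : ∀ a b, f (a + b) ≤ cc * max (f a) (f b))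
    (p r s : K × K) :
    max (f (p.1 * s.1 + p.2 * s.2)) (f (r.1 * s.1 + r.2 * s.2)) ≤
      cc * max (max (f p.1) (f p.2)) (max (f r.1) (f r.2)) * max (f s.1) (f s.2) := by
  have hs1 : f s.1 ≤ max (f s.1) (f s.2) := le_max_left _ _
  have hs2 : f s.2 ≤ max (f s.1) (f s.2) := le_max_right _ _
  have hs0 : 0 ≤ max (f s.1) (f s.2) := (f.nonneg _).trans hs1
  have key : ∀ q : K × K, max (f q.1) (f q.2) ≤
      max (max (f p.1) (f p.2)) (max (f r.1) (f r.2)) →
      f (q.1 * s.1 + q.2 * s.2) ≤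
      cc * max (max (f p.1) (f p.2)) (max (f r.1) (f r.2)) * max (f s.1) (f s.2) := by
    intro q hq
    set m := max (max (f p.1) (f p.2)) (max (f r.1) (f r.2)) with hm
    have hm0 : 0 ≤ m := (f.nonneg _).trans ((le_max_left _ _).trans hq)
    refine (hf _ _).trans ?_
    rw [mul_assoc]
    refine mul_le_mul_of_nonneg_left ?_ (by linarith)
    rw [f.map_mul, f.map_mul]
    refine max_le ?_ ?_
    · exact mul_le_mul ((le_max_left _ _).trans hq) hs1 (f.nonneg _) hm0
    · exact mul_le_mul ((le_max_right _ _).trans hq) hs2 (f.nonneg _) hm0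
  exact max_le (key p (le_max_left _ _)) (key r (le_max_right _ _))

lemma log_max_le {a b : ℝ} (ha : 0 < a) (hb : 0 < b) :
    Real.log (max a b) ≤ |Real.log a| + |Real.log b| := by
  rcases max_cases a b with h | h
  · rw [h.1]
    have := le_abs_self (Real.log a)
    have := abs_nonneg (Real.log b)
    linarith
  · rw [h.1]
    have := le_abs_self (Real.log b)
    have := abs_nonneg (Real.log a)
    linarith

/-- an invertible linear map changes the size by a bounded amount -/
lemma lin_bound {cc : ℝ} (hcc : 1 ≤ cc) (hf : ∀ a b, f (a + b) ≤ cc * max (f a) (f b))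
    {p r : K × K} (hdet : p.1 * r.2 - p.2 * r.1 ≠ 0) {s : K × K} (hs : s ≠ 0) :
    |ln f (p.1 * s.1 + p.2 * s.2, r.1 * s.1 + r.2 * s.2) - ln f s| ≤
      Real.log cc + |ln f p| + |ln f r| + |Real.log (f (p.1 * r.2 - p.2 * r.1))| := by
  have hp : p ≠ 0 := by
    rintro rfl
    simp at hdet
  have hr : r ≠ 0 := by
    rintro rfl
    simp at hdet
  set y : K × K := (p.1 * s.1 + p.2 * s.2, r.1 * s.1 + r.2 * s.2) with hy
  have hy1 : (p.1 * r.2 - p.2 * r.1) * s.1 = r.2 * y.1 + (-p.2) * y.2 := by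
    rw [hy]; ring
  have hy2 : (p.1 * r.2 - p.2 * r.1) * s.2 = (-r.1) * y.1 + p.1 * y.2 := by
    rw [hy]; ring
  have hy0 : y ≠ 0 := by
    intro h0
    rw [h0] at hy1 hy2
    simp only [Prod.fst_zero, Prod.snd_zero, mul_zero, add_zero] at hy1 hy2
    have h1 := (mul_eq_zero.mp hy1).resolve_left hdet
    have h2 := (mul_eq_zero.mp hy2).resolve_left hdet
    exact hs (Prod.ext h1 h2)
  have hps := max_pos f hp
  have hrs := max_pos f hr
  have hss := max_pos f hs
  have hys := max_pos f hy0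
  have hdp := f.pos hdet
  have hcc0 : 0 < cc := by linarith
  have hm := log_max_le hps hrs
  have hmp : 0 < max (max (f p.1) (f p.2)) (max (f r.1) (f r.2)) := lt_of_lt_of_le hps (le_max_left _ _)
  have hu := lin_upper f hcc hf p r s
  have hup : ln f y ≤ Real.log cc + (|ln f p| + |ln f r|) + ln f s := by
    have h1 := Real.log_le_log hys hu
    rw [Real.log_mul (by positivity) hss.ne', Real.log_mul hcc0.ne' hmp.ne'] at h1
    unfold ln
    linarith
  have hlo : ln f s ≤ Real.log cc + (|ln f p| + |ln f r|) + ln f y +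
      |Real.log (f (p.1 * r.2 - p.2 * r.1))| := by
    have h1 := lin_upper f hcc hf (r.2, -p.2) (-r.1, p.1) y
    simp only at h1
    rw [← hy1, ← hy2, f.map_mul, f.map_mul, ← mul_max_of_nonneg _ _ (f.nonneg _), f.map_neg,
      f.map_neg] at h1
    have h2 : max (max (f r.2) (f p.2)) (max (f r.1) (f p.1)) =
        max (max (f p.1) (f p.2)) (max (f r.1) (f r.2)) := by
      apply le_antisymm
      · refine max_le (max_le ?_ ?_) (max_le ?_ ?_) <;> simp
      · refine max_le (max_le ?_ ?_) (max_le ?_ ?_) <;> simp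
    rw [h2] at h1
    have h3 := Real.log_le_log (by positivity) h1
    rw [Real.log_mul hdp.ne' hss.ne', Real.log_mul (by positivity) hys.ne',
      Real.log_mul hcc0.ne' hmp.ne'] at h3
    have h4 := neg_abs_le (Real.log (f (p.1 * r.2 - p.2 * r.1)))
    unfold ln
    linarith
  have h5 := abs_nonneg (Real.log (f (p.1 * r.2 - p.2 * r.1)))
  rw [abs_le]
  constructor <;> linarith

end Abs

variable {K : Type*} [Field K] [NumberField K]

/-- the forms of degree `0` and `1` -/
def IsForm (e : ℕ) (τ : K × K → K × K) : Prop :=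
  (e = 0 ∧ ∃ b : K × K, b ≠ 0 ∧ ∀ s, τ s = b) ∨
    (e = 1 ∧ ∃ p r : K × K, p.1 * r.2 - p.2 * r.1 ≠ 0 ∧
      ∀ s, τ s = (p.1 * s.1 + p.2 * s.2, r.1 * s.1 + r.2 * s.2))

lemma lnf_finite {p : K × K} (hp : p ≠ 0) :
    {v : HeightOneSpectrum (𝓞 K) | ln (fv v) p ≠ 0}.Finite := log_max_support_finite hp

lemma form_bound {e : ℕ} {τ : K × K → K × K} (hτ : IsForm e τ) :
    ∃ b : Pl K → ℝ, (∀ v, 0 ≤ b v) ∧
      {v : HeightOneSpectrum (𝓞 K) | b (Sum.inr v) ≠ 0}.Finite ∧
      ∀ s : K × K, s ≠ 0 → τ s ≠ 0 ∧ ∀ v, |ln (av v) (τ s) - e * ln (av v) s| ≤ b v := by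
  classical
  rcases hτ with ⟨he, b0, hb0, hτ⟩ | ⟨he, p, r, hdet, hτ⟩
  · subst he
    refine ⟨fun v => |ln (av v) b0|, fun v => abs_nonneg _, ?_, fun s hs => ⟨?_, fun v => ?_⟩⟩
    · refine (lnf_finite hb0).subset ?_
      intro v hv
      rw [Set.mem_ofPred_eq] at hv ⊢
      intro h
      exact hv (abs_eq_zero.mpr h)
    · rw [hτ]; exact hb0
    · rw [hτ, Nat.cast_zero, zero_mul, sub_zero]
  · subst he
    have hp : p ≠ 0 := by
      rintro rfl
      simp at hdet
    have hr : r ≠ 0 := by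
      rintro rfl
      simp at hdet
    refine ⟨fun v => Real.log (Sum.elim (fun _ : InfinitePlace K => (2 : ℝ))
        (fun _ : HeightOneSpectrum (𝓞 K) => (1 : ℝ)) v) + |ln (av v) p| + |ln (av v) r| +
        |Real.log (av v (p.1 * r.2 - p.2 * r.1))|, fun v => ?_, ?_, fun s hs => ⟨?_, fun v => ?_⟩⟩
    · have h1 : 0 ≤ Real.log (Sum.elim (fun _ : InfinitePlace K => (2 : ℝ))
        (fun _ : HeightOneSpectrum (𝓞 K) => (1 : ℝ)) v) := by
        rcases v with w | v
        · exact Real.log_nonneg (by norm_num)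
        · exact Real.log_nonneg le_rfl
      positivity
    · refine (((lnf_finite hp).union (lnf_finite hr)).union
        (log_fv_support_finite hdet)).subset ?_
      intro v hv
      rw [Set.mem_ofPred_eq] at hv
      simp only [Set.mem_union, Set.mem_ofPred_eq, Function.mem_support]
      by_contra hcon
      push Not at hcon
      apply hv
      have h1 : av (Sum.inr v : Pl K) = fv v := rfl
      beta_reduce
      rw [h1, hcon.1.1, hcon.1.2, hcon.2]
      simp
    · rw [hτ]
      intro h0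
      have hy1 : (p.1 * r.2 - p.2 * r.1) * s.1 = 0 := by
        have h1 : p.1 * s.1 + p.2 * s.2 = 0 := congrArg Prod.fst h0
        have h2 : r.1 * s.1 + r.2 * s.2 = 0 := congrArg Prod.snd h0
        linear_combination r.2 * h1 - p.2 * h2
      have hy2 : (p.1 * r.2 - p.2 * r.1) * s.2 = 0 := by
        have h1 : p.1 * s.1 + p.2 * s.2 = 0 := congrArg Prod.fst h0
        have h2 : r.1 * s.1 + r.2 * s.2 = 0 := congrArg Prod.snd h0
        linear_combination -r.1 * h1 + p.1 * h2
      exact hs (Prod.ext ((mul_eq_zero.mp hy1).resolve_left hdet)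
        ((mul_eq_zero.mp hy2).resolve_left hdet))
    · rw [hτ, Nat.cast_one, one_mul]
      refine lin_bound (av v) ?_ ?_ hdet hs
      · rcases v with w | v
        · exact one_le_two
        · exact le_rfl
      · intro a b
        rcases v with w | v
        · exact av_two (Sum.inl w) a b
        · have := fv_na v a b
          simp only [Sum.elim_inr, one_mul]
          exact this

/-- the height of the value of a form -/
lemma form_height {e : ℕ} {τ : K × K → K × K} (hτ : IsForm e τ) :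
    ∃ C : ℝ, 0 ≤ C ∧ ∀ s : K × K, s ≠ 0 → |hr (τ s) - e * hr s| ≤ C := by
  classical
  obtain ⟨b, hb0, hbf, hb⟩ := form_bound hτ
  refine ⟨∑ w : InfinitePlace K, (w.mult : ℝ) * b (Sum.inl w) +
    ∑ v ∈ hbf.toFinset, b (Sum.inr v), ?_, fun s hs => ?_⟩
  · refine add_nonneg (Finset.sum_nonneg fun w _ => ?_) (Finset.sum_nonneg fun v _ => hb0 _)
    exact mul_nonneg (Nat.cast_nonneg _) (hb0 _)
  obtain ⟨hτ0, hbs⟩ := hb s hs
  have e1 : hr (τ s) - e * hr s =
      ∑ w : InfinitePlace K, (w.mult : ℝ) *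
        (ln (av (Sum.inl w : Pl K)) (τ s) - e * ln (av (Sum.inl w : Pl K)) s) +
      ∑ᶠ v : HeightOneSpectrum (𝓞 K),
        (ln (av (Sum.inr v : Pl K)) (τ s) - e * ln (av (Sum.inr v : Pl K)) s) := by
    have hf1 : (Function.support fun v : HeightOneSpectrum (𝓞 K) =>
        (e : ℝ) * ln (av (Sum.inr v : Pl K)) s).Finite := by
      refine (log_max_support_finite hs).subset ?_
      intro v hv
      rw [Function.mem_support] at hv ⊢
      intro h0
      apply hv
      have : ln (av (Sum.inr v : Pl K)) s = Real.log (max (fv v s.1) (fv v s.2)) := rfl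
      rw [this, h0, mul_zero]
    have hf0 : (Function.support fun v : HeightOneSpectrum (𝓞 K) =>
        ln (av (Sum.inr v : Pl K)) (τ s)).Finite := log_max_support_finite hτ0
    have hf2 : (Function.support fun v : HeightOneSpectrum (𝓞 K) =>
        ln (av (Sum.inr v : Pl K)) s).Finite := log_max_support_finite hs
    rw [finsum_sub_distrib hf0 hf1, ← mul_finsum]
    unfold hr
    have e2 : ∑ w : InfinitePlace K, (w.mult : ℝ) *
        (ln (av (Sum.inl w : Pl K)) (τ s) - e * ln (av (Sum.inl w : Pl K)) s) =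
        ∑ w : InfinitePlace K, (w.mult : ℝ) * Real.log (max (w (τ s).1) (w (τ s).2)) -
        e * ∑ w : InfinitePlace K, (w.mult : ℝ) * Real.log (max (w s.1) (w s.2)) := by
      rw [Finset.mul_sum, ← Finset.sum_sub_distrib]
      refine Finset.sum_congr rfl fun w _ => ?_
      have h1 : ln (av (Sum.inl w : Pl K)) (τ s) = Real.log (max (w (τ s).1) (w (τ s).2)) := rfl
      have h2 : ln (av (Sum.inl w : Pl K)) s = Real.log (max (w s.1) (w s.2)) := rfl
      rw [h1, h2]
      ring
    rw [e2]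
    have h3 : ∑ᶠ v : HeightOneSpectrum (𝓞 K), ln (av (Sum.inr v : Pl K)) (τ s) =
      ∑ᶠ v : HeightOneSpectrum (𝓞 K), Real.log (max (fv v (τ s).1) (fv v (τ s).2)) := rfl
    have h4 : ∑ᶠ v : HeightOneSpectrum (𝓞 K), ln (av (Sum.inr v : Pl K)) s =
      ∑ᶠ v : HeightOneSpectrum (𝓞 K), Real.log (max (fv v s.1) (fv v s.2)) := rfl
    rw [h4, h3]
    ring
  have e3 : ∑ᶠ v : HeightOneSpectrum (𝓞 K),
        (ln (av (Sum.inr v : Pl K)) (τ s) - e * ln (av (Sum.inr v : Pl K)) s) =
      ∑ v ∈ hbf.toFinset,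
        (ln (av (Sum.inr v : Pl K)) (τ s) - e * ln (av (Sum.inr v : Pl K)) s) := by
    refine finsum_eq_sum_of_support_subset _ ?_
    intro v hv
    rw [Set.Finite.coe_toFinset, Set.mem_ofPred_eq]
    intro h0
    rw [Function.mem_support] at hv
    apply hv
    have h1 := hbs (Sum.inr v)
    rw [h0] at h1
    exact abs_eq_zero.mp (le_antisymm h1 (abs_nonneg _))
  rw [e1, e3]
  refine (abs_add_le _ _).trans (add_le_add ?_ ?_)
  · refine (Finset.abs_sum_le_sum_abs _ _).trans (Finset.sum_le_sum fun w _ => ?_)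
    rw [abs_mul, abs_of_nonneg (Nat.cast_nonneg _ : (0 : ℝ) ≤ w.mult)]
    exact mul_le_mul_of_nonneg_left (hbs _) (Nat.cast_nonneg _)
  · refine (Finset.abs_sum_le_sum_abs _ _).trans (Finset.sum_le_sum fun v _ => ?_)
    exact hbs _

/-- explicit curves give a configuration -/
theorem exists_cfg {g t : ℕ} (γ : Fin g → K × K) (hγ0 : ∀ i, γ i ≠ 0)
    (hγ : ∀ i j, i ≠ j → (γ i).1 * (γ j).2 - (γ i).2 * (γ j).1 ≠ 0)
    (A : Finset (Fin g)) (deg : Fin t → ℕ) (τ : Fin t → K × K → K × K)
    (hτ : ∀ k, IsForm (deg k) (τ k)) (S : Fin t → Fin t → Finset (Fin g))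
    (c : Fin t → Fin t → K) (hc : ∀ k l, k ≠ l → c k l ≠ 0)
    (hS : ∀ k l, k ≠ l → (S k l).card = deg k + deg l)
    (hw : ∀ k l, k ≠ l → ∀ s : K × K, (τ k s).1 * (τ l s).2 - (τ k s).2 * (τ l s).1 =
      c k l * ∏ i ∈ S k l, (s.1 * (γ i).2 - s.2 * (γ i).1))
    (hAS : ∀ k l, k ≠ l → Disjoint A (S k l))
    (hSS : ∀ k l m, k ≠ l → k ≠ m → l ≠ m → Disjoint (S k m) (S l m)) :
    ∃ F : Cfg K g t, F.γ = γ ∧ F.A = A ∧ F.τ = (fun k x => τ k (aff x)) ∧
      F.d = fun k => (deg k : ℝ) := by
  classical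
  choose b hb0 hbf hb using fun k => form_bound (hτ k)
  choose Ch hCh0 hCh using fun k => form_height (hτ k)
  have hdeg : ∀ k, deg k ≤ 1 := by
    intro k
    rcases hτ k with h | h
    · rw [h.1]; omega
    · rw [h.1]
  set E : Pl K → ℝ := fun v => mt v * (2 * ∑ k, b k v + ∑ i, |ln (av v) (γ i)| +
    ∑ k, ∑ l, |Real.log (av v (c k l))|) with hE
  refine ⟨{ γ := γ, A := A, τ := fun k x => τ k (aff x), S := S, d := fun k => (deg k : ℝ),
            E := E, Ct := ∑ k, Ch k, γ0 := hγ0, γne := hγ,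
            τ0 := fun k x => (hb k (aff x) (aff_ne_zero x)).1
            τne := ?_, loc := ?_, E0 := ?_, Efin := ?_, d0 := fun k => Nat.cast_nonneg _,
            d1 := fun k => by exact_mod_cast hdeg k,
            Ct0 := Finset.sum_nonneg fun k _ => hCh0 k,
            ht := ?_, AS := hAS, SS := hSS }, rfl, rfl, rfl, rfl⟩
  · intro x hx k l hkl
    rw [hw k l hkl]
    refine mul_ne_zero (hc k l hkl) ?_
    rw [Finset.prod_ne_zero_iff]
    intro i _
    exact hx i
  · intro v k l x hkl hx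
    obtain ⟨hk0, hk⟩ := hb k (aff x) (aff_ne_zero x)
    obtain ⟨hl0, hl⟩ := hb l (aff x) (aff_ne_zero x)
    have hkv := hk v
    have hlv := hl v
    have hwne : (τ k (aff x)).1 * (τ l (aff x)).2 - (τ k (aff x)).2 * (τ l (aff x)).1 ≠ 0 := by
      rw [hw k l hkl]
      refine mul_ne_zero (hc k l hkl) ?_
      rw [Finset.prod_ne_zero_iff]
      intro i _
      exact hx i
    rw [lam_eq, lamA_eq (av v) hk0 hl0 hwne, hw k l hkl]
    have h1 : ∀ i ∈ S k l, lam v (aff x) (γ i) = mt v * (ln (av v) (aff x) + ln (av v) (γ i) -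
        Real.log (av v ((aff x).1 * (γ i).2 - (aff x).2 * (γ i).1))) := by
      intro i _
      rw [lam_eq, lamA_eq (av v) (aff_ne_zero x) (hγ0 i) (hx i)]
      rfl
    rw [Finset.sum_congr rfl h1, ← Finset.mul_sum, hE]
    simp only
    rw [← mul_add]
    refine mul_le_mul_of_nonneg_left ?_ (mt_pos v).le
    rw [(av v).map_mul, map_prod, Real.log_mul ((av v).pos (hc k l hkl)).ne'
      (Finset.prod_ne_zero_iff.mpr fun i _ => ((av v).pos (hx i)).ne'),
      Real.log_prod (fun i _ => ((av v).pos (hx i)).ne')]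
    have h2 : ∑ i ∈ S k l, (ln (av v) (aff x) + ln (av v) (γ i) -
        Real.log (av v ((aff x).1 * (γ i).2 - (aff x).2 * (γ i).1))) =
        ((deg k : ℝ) + deg l) * ln (av v) (aff x) + ∑ i ∈ S k l, ln (av v) (γ i) -
        ∑ i ∈ S k l, Real.log (av v ((aff x).1 * (γ i).2 - (aff x).2 * (γ i).1)) := by
      rw [Finset.sum_sub_distrib, Finset.sum_add_distrib, Finset.sum_const, hS k l hkl,
        nsmul_eq_mul]
      push_cast
      ring
    rw [h2]
    have h3 : -∑ i, |ln (av v) (γ i)| ≤ ∑ i ∈ S k l, ln (av v) (γ i) := by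
      have h4 : -∑ i ∈ S k l, |ln (av v) (γ i)| ≤ ∑ i ∈ S k l, ln (av v) (γ i) := by
        rw [← Finset.sum_neg_distrib]
        exact Finset.sum_le_sum fun i _ => neg_abs_le _
      have h5 : ∑ i ∈ S k l, |ln (av v) (γ i)| ≤ ∑ i, |ln (av v) (γ i)| :=
        Finset.sum_le_sum_of_subset_of_nonneg (Finset.subset_univ _) fun i _ _ => abs_nonneg _
      linarith
    have h6 : b k v ≤ ∑ k, b k v :=
      Finset.single_le_sum (f := fun k => b k v) (fun k _ => hb0 k v) (Finset.mem_univ k)
    have h7 : b l v ≤ ∑ k, b k v :=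
      Finset.single_le_sum (f := fun k => b k v) (fun k _ => hb0 k v) (Finset.mem_univ l)
    have h8 : |Real.log (av v (c k l))| ≤ ∑ k, ∑ l, |Real.log (av v (c k l))| := by
      refine (Finset.single_le_sum (f := fun l => |Real.log (av v (c k l))|)
        (fun l _ => abs_nonneg _) (Finset.mem_univ l)).trans ?_
      exact Finset.single_le_sum (f := fun k => ∑ l, |Real.log (av v (c k l))|)
        (fun k _ => Finset.sum_nonneg fun l _ => abs_nonneg _) (Finset.mem_univ k)
    have h9 := neg_abs_le (Real.log (av v (c k l)))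
    have h10 := (abs_le.mp hkv).2
    have h11 := (abs_le.mp hlv).2
    have h12 : Real.log (max (av v (τ k (aff x)).1) (av v (τ k (aff x)).2)) =
        ln (av v) (τ k (aff x)) := rfl
    have h13 : Real.log (max (av v (τ l (aff x)).1) (av v (τ l (aff x)).2)) =
        ln (av v) (τ l (aff x)) := rfl
    rw [h12, h13]
    linarith
  · intro v
    rw [hE]
    simp only
    refine mul_nonneg (mt_pos v).le ?_
    have h1 : 0 ≤ ∑ k, b k v := Finset.sum_nonneg fun k _ => hb0 k v
    have h2 : 0 ≤ ∑ i, |ln (av v) (γ i)| := Finset.sum_nonneg fun i _ => abs_nonneg _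
    have h3 : 0 ≤ ∑ k, ∑ l, |Real.log (av v (c k l))| :=
      Finset.sum_nonneg fun k _ => Finset.sum_nonneg fun l _ => abs_nonneg _
    linarith
  · have hcf : ∀ k l, {v : HeightOneSpectrum (𝓞 K) | Real.log (fv v (c k l)) ≠ 0}.Finite := by
      intro k l
      by_cases h : c k l = 0
      · convert Set.finite_empty
        ext v
        simp [h]
      · exact log_fv_support_finite h
    refine (((Set.finite_iUnion fun k => hbf k).union
      (Set.finite_iUnion fun i => lnf_finite (hγ0 i))).union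
      (Set.finite_iUnion fun k => Set.finite_iUnion fun l => hcf k l)).subset ?_
    intro v hv
    simp only [Set.mem_union, Set.mem_iUnion, Set.mem_ofPred_eq]
    by_contra hcon
    push Not at hcon
    obtain ⟨⟨h1, h2⟩, h3⟩ := hcon
    rw [Set.mem_ofPred_eq] at hv
    apply hv
    have h4 : av (Sum.inr v : Pl K) = fv v := rfl
    rw [hE]
    simp only
    rw [Finset.sum_eq_zero fun k _ => h1 k]
    rw [h4, Finset.sum_eq_zero (fun i _ => by rw [h2 i, abs_zero]),
      Finset.sum_eq_zero (fun k _ => Finset.sum_eq_zero fun l _ => by rw [h3 k l, abs_zero])]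
    ring
  · intro k x
    refine (hCh k (aff x) (aff_ne_zero x)).trans ?_
    exact Finset.single_le_sum (f := fun k => Ch k) (fun k _ => hCh0 k) (Finset.mem_univ k)

end Pool.Agent.H691R3
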