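import Pool.Agent.H691R3.PData
import Pool.Agent.H691R3.PSel
import Pool.Agent.H691R3.NComb
import Pool.Agent.H691R3.Main

set_option autoImplicit false
set_option linter.unusedSectionVars false
set_option linter.unusedVariables false

/-!
The counting theorem for the product of two lines.
-/

namespace Pool.Agent.H691R3

open NumberField IsDedekindDomain Finset

variable {K : Type*} [Field K] [NumberField K]

open Classical in
/-- the weight -/
noncomputable def fwp (Sp : Finset (Pl K)) (η : ℝ) {g t : ℕ} (u : UP K g t) : ℝ :=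
  if thr Sp u.1 ≤ mulp u then Real.exp (-(costp Sp u) - η * (wx u + wy u)) else 0

lemma fwp_nonneg (Sp : Finset (Pl K)) (η : ℝ) {g t : ℕ} (u : UP K g t) :
    0 ≤ fwp Sp η u := by
  unfold fwp
  split_ifs
  · exact (Real.exp_pos _).le
  · exact le_rfl

lemma wxy {g t : ℕ} (u : UP K g t) : wx u + wy u = (mulp u : ℝ) * Lu u.1 := by
  unfold wx wy mulp
  push_cast
  ring

lemma pweights_bounded (Sp : Finset (Pl K)) (g t : ℕ) {η : ℝ} (hη : 0 < η) :
    ∃ F0 : ℝ, ∀ s : Finset (UP K g t), ∑ u ∈ s, fwp Sp η u ≤ F0 := by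
  classical
  set ρ : ℝ := Real.exp (-(η * Real.log 2)) with hρ
  have hlog : 0 < Real.log 2 := Real.log_pos (by norm_num)
  have hρ0 : 0 ≤ ρ := (Real.exp_pos _).le
  have hρ1 : ρ < 1 := by
    rw [hρ, Real.exp_lt_one_iff]
    have := mul_pos hη hlog
    linarith
  set G : Pl K → ℝ := fun v => (if v ∈ Sp then 1 else 0) + gmaj η v with hG
  have hG0 : ∀ v, 0 ≤ G v := by
    intro v
    rw [hG]
    simp only
    have h1 : 0 ≤ gmaj η v := by unfold gmaj; positivity
    split_ifs <;> linarith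
  have hGs : Summable G := by
    refine Summable.add ?_ (gmaj_summable hη)
    refine summable_of_ne_finset_zero (s := Sp) fun v hv => ?_
    rw [if_neg hv]
  have hle : ∀ u : UP K g t, fwp Sp η u ≤ G u.1 * (ρ ^ u.2.1.2 * ρ ^ u.2.2.2) := by
    intro u
    have hprod : ρ ^ u.2.1.2 * ρ ^ u.2.2.2 = ρ ^ (mulp u) := by
      rw [← pow_add]; rfl
    rw [hprod]
    have hnn : 0 ≤ G u.1 * ρ ^ (mulp u) := mul_nonneg (hG0 _) (pow_nonneg hρ0 _)
    unfold fwp
    rw [wxy]
    split_ifs with hthr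
    · have hLu := log_two_le_Lu u.1
      have hpow : ρ ^ (mulp u) = Real.exp (-((mulp u : ℝ) * (η * Real.log 2))) := by
        rw [hρ, ← Real.exp_nat_mul]
        congr 1
        ring
      have hm0 : (0 : ℝ) ≤ (mulp u : ℝ) := Nat.cast_nonneg _
      by_cases hv : u.1 ∈ Sp
      · have h1 : 1 ≤ G u.1 := by
          rw [hG]
          simp only [if_pos hv]
          have h1 : 0 ≤ gmaj η u.1 := by unfold gmaj; positivity
          linarith
        have h2 : Real.exp (-(costp Sp u) - η * ((mulp u : ℝ) * Lu u.1)) ≤ ρ ^ (mulp u) := by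
          rw [hpow]
          refine Real.exp_le_exp.mpr ?_
          have h3 : costp Sp u = 0 := by unfold costp; rw [if_pos hv]
          rw [h3]
          have h4 : (mulp u : ℝ) * (η * Real.log 2) ≤ (mulp u : ℝ) * (η * Lu u.1) :=
            mul_le_mul_of_nonneg_left (mul_le_mul_of_nonneg_left hLu hη.le) hm0
          linarith
        calc Real.exp (-(costp Sp u) - η * ((mulp u : ℝ) * Lu u.1)) ≤ ρ ^ (mulp u) := h2
          _ = 1 * ρ ^ (mulp u) := by ring
          _ ≤ G u.1 * ρ ^ (mulp u) :=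
            mul_le_mul_of_nonneg_right h1 (pow_nonneg hρ0 _)
      · have h1 : gmaj η u.1 ≤ G u.1 := by
          rw [hG]
          simp only [if_neg hv, zero_add, le_refl]
        have h2 : Real.exp (-(costp Sp u) - η * ((mulp u : ℝ) * Lu u.1)) ≤
            gmaj η u.1 * ρ ^ (mulp u) := by
          unfold gmaj
          rw [hpow, ← Real.exp_add, ← Real.exp_add]
          refine Real.exp_le_exp.mpr ?_
          have h3 : costp Sp u = Lu u.1 := by unfold costp; rw [if_neg hv]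
          rw [h3]
          have h5 : (2 : ℝ) ≤ (mulp u : ℝ) := by
            have : thr Sp u.1 = 2 := by unfold thr; rw [if_neg hv]
            rw [this] at hthr
            exact_mod_cast hthr
          have h4 : 0 ≤ ((mulp u : ℝ) - 2) * (η * (Lu u.1 - Real.log 2)) :=
            mul_nonneg (by linarith) (mul_nonneg hη.le (by linarith))
          nlinarith
        exact h2.trans (mul_le_mul_of_nonneg_right h1 (pow_nonneg hρ0 _))
    · exact hnn
  refine ⟨(∑' v, G v) * (((g : ℝ) * (1 / (1 - ρ))) * ((t : ℝ) * (1 / (1 - ρ)))), fun s => ?_⟩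
  -- enclose `s` in a product
  set Mx : ℕ := (s.sup fun u => mulp u) + 1 with hMx
  set P1 : Finset (Fin g × ℕ) := (Finset.univ : Finset (Fin g)) ×ˢ Finset.range Mx with hP1
  set P2 : Finset (Fin t × ℕ) := (Finset.univ : Finset (Fin t)) ×ˢ Finset.range Mx with hP2
  have hsub : s ⊆ (s.image Prod.fst) ×ˢ (P1 ×ˢ P2) := by
    intro u hu
    have h2 : mulp u ≤ s.sup fun u => mulp u := Finset.le_sup (f := fun u => mulp u) hu
    have h3 : mulp u = u.2.1.2 + u.2.2.2 := rfl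
    rw [Finset.mem_product, Finset.mem_product, hP1, hP2, Finset.mem_product,
      Finset.mem_product]
    refine ⟨Finset.mem_image_of_mem _ hu, ⟨Finset.mem_univ _, ?_⟩, Finset.mem_univ _, ?_⟩
    · rw [Finset.mem_range]; omega
    · rw [Finset.mem_range]; omega
  have hgeo : ∀ a : ℕ, ∑ b ∈ (Finset.univ : Finset (Fin a)) ×ˢ Finset.range Mx, ρ ^ b.2 ≤
      (a : ℝ) * (1 / (1 - ρ)) := by
    intro a
    rw [Finset.sum_product]
    simp only [Finset.sum_const, Finset.card_univ, Fintype.card_fin, nsmul_eq_mul]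
    refine mul_le_mul_of_nonneg_left ?_ (Nat.cast_nonneg _)
    have h1 := (summable_geometric_of_lt_one hρ0 hρ1).sum_le_tsum (Finset.range Mx)
      (fun m _ => pow_nonneg hρ0 m)
    rw [tsum_geometric_of_lt_one hρ0 hρ1] at h1
    rw [one_div]
    exact h1
  calc ∑ u ∈ s, fwp Sp η u ≤ ∑ u ∈ s, G u.1 * (ρ ^ u.2.1.2 * ρ ^ u.2.2.2) :=
        Finset.sum_le_sum fun u _ => hle u
    _ ≤ ∑ u ∈ (s.image Prod.fst) ×ˢ (P1 ×ˢ P2), G u.1 * (ρ ^ u.2.1.2 * ρ ^ u.2.2.2) := by
        refine Finset.sum_le_sum_of_subset_of_nonneg hsub fun u _ _ => ?_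
        exact mul_nonneg (hG0 _) (mul_nonneg (pow_nonneg hρ0 _) (pow_nonneg hρ0 _))
    _ = (∑ v ∈ s.image Prod.fst, G v) * ((∑ b ∈ P1, ρ ^ b.2) * ∑ b ∈ P2, ρ ^ b.2) := by
        rw [Finset.sum_product, Finset.sum_mul]
        refine Finset.sum_congr rfl fun v _ => ?_
        rw [Finset.sum_mul_sum, Finset.sum_product, Finset.mul_sum]
        refine Finset.sum_congr rfl fun b _ => ?_
        rw [Finset.mul_sum]
    _ ≤ (∑' v, G v) * (((g : ℝ) * (1 / (1 - ρ))) * ((t : ℝ) * (1 / (1 - ρ)))) := by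
        have hn1 : 0 ≤ ∑ b ∈ P1, ρ ^ b.2 := Finset.sum_nonneg fun b _ => pow_nonneg hρ0 _
        have hn2 : 0 ≤ ∑ b ∈ P2, ρ ^ b.2 := Finset.sum_nonneg fun b _ => pow_nonneg hρ0 _
        exact mul_le_mul (hGs.sum_le_tsum _ (fun v _ => hG0 v))
          (mul_le_mul (hgeo g) (hgeo t) hn2 (hn1.trans (hgeo g)))
          (mul_nonneg hn1 hn2) (tsum_nonneg fun v => hG0 v)

/-- the class bound, general index type -/
theorem class_bound_gen {ι : Type*} {q : ℕ} (α : Fin q → K × K) (hα0 : ∀ l, α l ≠ 0)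
    (A : Finset ι) (pl : ι → Pl K) (lab : ι → Fin q) (m : ι → ℕ) (hA : Set.InjOn pl A)
    (F : Finset K) (X : ℝ) (hne : ∀ x ∈ F, Off α x) (hX : ∀ x ∈ F, hr (aff x) ≤ X)
    (hcl : ∀ x ∈ F, ∀ u ∈ A, 1 ≤ m u →
      (m u : ℝ) * Lu (pl u) ≤ lam (pl u) (aff x) (α (lab u))) :
    (F.card : ℝ) ≤ 64 * Real.exp (3 * lossK K) *
      Real.exp (max 0 (2 * X - ∑ u ∈ A, (m u : ℝ) * Lu (pl u))) := by
  classical
  set Ai : Finset (Pl K × Fin q × ℕ) :=
    (A.filter (fun u => 1 ≤ m u)).image (fun u => (pl u, lab u, m u)) with hAi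
  have hinj : Set.InjOn (fun u : ι => ((pl u, lab u, m u) : Pl K × Fin q × ℕ))
      (A.filter (fun u => 1 ≤ m u)) := by
    intro u hu u' hu' huu
    have huu' : pl u = pl u' := congrArg (fun a : Pl K × Fin q × ℕ => a.1) huu
    refine hA ?_ ?_ huu'
    · exact (Finset.mem_filter.mp (Finset.mem_coe.mp hu)).1
    · exact (Finset.mem_filter.mp (Finset.mem_coe.mp hu')).1
  have hAinj : Set.InjOn (fun a : Pl K × Fin q × ℕ => a.1) Ai := by
    intro a ha b hb hab
    rw [hAi, Finset.mem_coe, Finset.mem_image] at ha hb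
    obtain ⟨u, hu, rfl⟩ := ha
    obtain ⟨u', hu', rfl⟩ := hb
    rw [Finset.mem_filter] at hu hu'
    have h3 : u = u' := hA hu.1 hu'.1 hab
    rw [h3]
  have hcount := class_bound α hα0 Ai hAinj F X (fun y hy l => hne y hy l) hX ?_
  · have h3 : ∑ a ∈ Ai, (a.2.2 : ℝ) * Lu a.1 = ∑ u ∈ A, (m u : ℝ) * Lu (pl u) := by
      rw [hAi, Finset.sum_image hinj]
      refine Finset.sum_filter_of_ne fun u _ hu => ?_
      by_contra hcon
      apply hu
      have h5 : m u = 0 := by omega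
      simp only
      rw [h5]; simp
    rw [h3] at hcount
    refine hcount.trans ?_
    set s := 2 * X - ∑ u ∈ A, (m u : ℝ) * Lu (pl u) with hs
    have h4 : 1 + Real.exp s ≤ 2 * Real.exp (max 0 s) := by
      have h5 : 1 ≤ Real.exp (max 0 s) := Real.one_le_exp (le_max_left _ _)
      have h6 : Real.exp s ≤ Real.exp (max 0 s) := Real.exp_le_exp.mpr (le_max_right _ _)
      linarith
    calc 32 * Real.exp (3 * lossK K) * (1 + Real.exp s)
        ≤ 32 * Real.exp (3 * lossK K) * (2 * Real.exp (max 0 s)) :=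
          mul_le_mul_of_nonneg_left h4 (by positivity)
      _ = _ := by ring
  · intro x hx a ha
    rw [hAi, Finset.mem_image] at ha
    obtain ⟨u, hu, rfl⟩ := ha
    rw [Finset.mem_filter] at hu
    exact hcl x hx u hu.1 hu.2

/-- the class bound for pairs -/
theorem pclass_bound {g t : ℕ} (F : Cfg K g t) (A : Finset (UP K g t))
    (hA : Set.InjOn (fun u : UP K g t => u.1) A)
    (E : Finset (K × K)) (X Y : ℝ)
    (hne : ∀ z ∈ E, Off F.γ z.1) (hne2 : ∀ z ∈ E, Off2 F z.1 z.2)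
    (hX : ∀ z ∈ E, hr (aff z.1) ≤ X) (hY : ∀ z ∈ E, hr (aff z.2) ≤ Y)
    (hcl : ∀ z ∈ E, ∀ u ∈ A, 1 ≤ u.2.1.2 → wx u ≤ lam u.1 (aff z.1) (F.γ u.2.1.1))
    (hcl2 : ∀ z ∈ E, ∀ u ∈ A, 1 ≤ u.2.2.2 → wy u ≤ lam u.1 (aff z.2) (F.τ u.2.2.1 z.1)) :
    (E.card : ℝ) ≤ (64 * Real.exp (3 * lossK K)) ^ 2 *
      Real.exp (max 0 (2 * X - ∑ u ∈ A, wx u) + max 0 (2 * Y - ∑ u ∈ A, wy u)) := by
  classical
  set k0 : ℝ := 64 * Real.exp (3 * lossK K) with hk0
  have hk0' : 0 ≤ k0 := by positivity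
  have h1 : ((E.image Prod.fst).card : ℝ) ≤ k0 *
      Real.exp (max 0 (2 * X - ∑ u ∈ A, wx u)) := by
    refine class_bound_gen F.γ F.γ0 A (fun u => u.1) (fun u => u.2.1.1) (fun u => u.2.1.2) hA
      (E.image Prod.fst) X ?_ ?_ ?_
    · intro x hx
      obtain ⟨z, hz, rfl⟩ := Finset.mem_image.mp hx
      exact hne z hz
    · intro x hx
      obtain ⟨z, hz, rfl⟩ := Finset.mem_image.mp hx
      exact hX z hz
    · intro x hx u hu hm
      obtain ⟨z, hz, rfl⟩ := Finset.mem_image.mp hx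
      exact hcl z hz u hu hm
  have h2 : ∀ x ∈ E.image Prod.fst, ((E.filter (fun z => z.1 = x)).card : ℝ) ≤ k0 *
      Real.exp (max 0 (2 * Y - ∑ u ∈ A, wy u)) := by
    intro x hx
    have h3 : (E.filter (fun z => z.1 = x)).card =
        ((E.filter (fun z => z.1 = x)).image Prod.snd).card := by
      rw [Finset.card_image_of_injOn]
      intro a ha b hb hab
      rw [Finset.mem_coe, Finset.mem_filter] at ha hb
      exact Prod.ext (ha.2.trans hb.2.symm) hab
    rw [h3]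
    refine class_bound_gen (fun k => F.τ k x) (fun k => F.τ0 k x) A (fun u => u.1)
      (fun u => u.2.2.1) (fun u => u.2.2.2) hA _ Y ?_ ?_ ?_
    · intro y hy
      obtain ⟨z, hz, rfl⟩ := Finset.mem_image.mp hy
      rw [Finset.mem_filter] at hz
      obtain ⟨hz1, rfl⟩ := hz
      exact hne2 z hz1
    · intro y hy
      obtain ⟨z, hz, rfl⟩ := Finset.mem_image.mp hy
      rw [Finset.mem_filter] at hz
      exact hY z hz.1
    · intro y hy u hu hm
      obtain ⟨z, hz, rfl⟩ := Finset.mem_image.mp hy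
      rw [Finset.mem_filter] at hz
      obtain ⟨hz1, rfl⟩ := hz
      exact hcl2 z hz1 u hu hm
  have h4 : (E.card : ℝ) = ∑ x ∈ E.image Prod.fst, ((E.filter (fun z => z.1 = x)).card : ℝ) := by
    exact_mod_cast Finset.card_eq_sum_card_image Prod.fst E
  rw [h4]
  refine (Finset.sum_le_sum h2).trans ?_
  rw [Finset.sum_const, nsmul_eq_mul]
  calc ((E.image Prod.fst).card : ℝ) * (k0 * Real.exp (max 0 (2 * Y - ∑ u ∈ A, wy u)))
      ≤ (k0 * Real.exp (max 0 (2 * X - ∑ u ∈ A, wx u))) *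
        (k0 * Real.exp (max 0 (2 * Y - ∑ u ∈ A, wy u))) :=
        mul_le_mul_of_nonneg_right h1 (by positivity)
    _ = _ := by rw [Real.exp_add]; ring

/-- points with heights in a window -/
theorem pcount_window {g t : ℕ} (hg0 : 0 < g) (ht0 : 0 < t)
    (T : Set (HeightOneSpectrum (𝓞 K))) (hT : T.Finite) (F : Cfg K g t)
    (κ : ℝ) (hκ0 : 0 ≤ κ) (hκ2 : κ ≤ 2) (C0 : ℝ) (hC0 : 0 ≤ C0) (δ : ℝ) (hδ : 0 < δ) :
    ∃ C : ℝ, 0 ≤ C ∧ ∀ X Y L : ℝ, 0 ≤ L → 1 ≤ X → 1 ≤ Y → X ≤ L → Y ≤ L →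
      ∀ E : Finset (K × K),
      (∀ z ∈ E, Off F.γ z.1 ∧ Off2 F z.1 z.2 ∧
        NTp T F.γ F.A F.τ z.1 z.2 < ((F.A.card : ℝ) + ∑ k, F.d k - κ) * hr (aff z.1) +
          ((t : ℝ) - κ) * hr (aff z.2) + C0 ∧
        (X - 1 ≤ hr (aff z.1) ∧ hr (aff z.1) ≤ X) ∧
        (Y - 1 ≤ hr (aff z.2) ∧ hr (aff z.2) ≤ Y)) →
      (E.card : ℝ) ≤ C * Real.exp ((max (2 * (2 - κ)) (10 / 3) + δ) * L) := by
  classical
  obtain ⟨Sp, C1, hC1, hB⟩ := exists_pblocks hg0 ht0 T hT F
  set Q : ℝ := (g : ℝ) + 2 * t with hQ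
  have hQ0 : 0 ≤ Q := by positivity
  set η : ℝ := δ / (Q + 1) with hη
  have hηpos : 0 < η := div_pos hδ (by linarith)
  obtain ⟨F0, hF0⟩ := pweights_bounded Sp g t hηpos
  set Cs : ℝ := C1 + 2 * κ + C0 with hCs
  have hCs0 : 0 ≤ Cs := by positivity
  set C3 : ℝ := (64 * Real.exp (3 * lossK K)) ^ 2 with hC3
  have hC30 : 0 ≤ C3 := by positivity
  refine ⟨C3 * Real.exp (3 * Cs + δ * Cs + F0), by positivity, ?_⟩
  intro X Y L hL hX1 hY1 hXL hYL E hE
  set ex : ℝ := max (2 * (2 - κ)) (10 / 3) with hex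
  have hsel : ∀ z : K × K, ∃ I : Finset (UP K g t), z ∈ E →
      (Set.InjOn (fun u : UP K g t => u.1) I ∧
      (∀ u ∈ I, 1 ≤ u.2.1.2 → wx u ≤ lam u.1 (aff z.1) (F.γ u.2.1.1)) ∧
      (∀ u ∈ I, 1 ≤ u.2.2.2 → wy u ≤ lam u.1 (aff z.2) (F.τ u.2.2.1 z.1)) ∧
      (∀ u ∈ I, thr Sp u.1 ≤ mulp u) ∧
      (∑ u ∈ I, (wx u + wy u) ≤ Q * (L + Cs)) ∧
      (∑ u ∈ I, costp Sp u) + (max 0 (2 * X - ∑ u ∈ I, wx u) +
          max 0 (2 * Y - ∑ u ∈ I, wy u)) ≤ ex * L + 3 * Cs) := by
    intro z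
    by_cases hz : z ∈ E
    · obtain ⟨hoff, hoff2, hviol, hwx, hwy⟩ := hE z hz
      obtain ⟨B, hB1, hB2, hB3, hB4, hB5, hB6, hB7⟩ := hB z.1 z.2 hoff hoff2
      have hx0 : ∀ u ∈ B, 0 ≤ wx u := fun u _ =>
        mul_nonneg (Nat.cast_nonneg _) (Lu_pos _).le
      have hy0 : ∀ u ∈ B, 0 ≤ wy u := fun u _ =>
        mul_nonneg (Nat.cast_nonneg _) (Lu_pos _).le
      have hcost : ∀ u ∈ B, costp Sp u ≤ (wx u + wy u) / 2 := by
        intro u hu
        have h1 := hB4 u hu
        have hL := Lu_pos u.1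
        rw [wxy]
        unfold costp
        unfold thr at h1
        split_ifs at h1 ⊢ with h2
        · have : (0 : ℝ) ≤ (mulp u : ℝ) := Nat.cast_nonneg _
          positivity
        · have : (2 : ℝ) ≤ (mulp u : ℝ) := by exact_mod_cast h1
          nlinarith
      have hlx : ∀ i, ∑ u ∈ B with u.2.1.1 = i, wx u ≤ X + Cs := by
        intro i
        have h1 := hB5 i
        have h2 := hwx.2
        linarith
      have hly : ∀ k, ∑ u ∈ B with u.2.2.1 = k, wy u ≤ X + Y + Cs := by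
        intro k
        have h1 := hB6 k
        have h2 := hwx.2
        have h3 := hwy.2
        linarith
      have hsx : ∀ u ∈ B, wx u ≤ X + Cs := by
        intro u hu
        refine le_trans ?_ (hlx u.2.1.1)
        exact Finset.single_le_sum (f := fun u => wx u)
          (fun u' hu' => hx0 u' (Finset.mem_filter.mp hu').1)
          (Finset.mem_filter.mpr ⟨hu, rfl⟩)
      have hsy : ∀ u ∈ B, wy u ≤ X + Y + Cs := by
        intro u hu
        refine le_trans ?_ (hly u.2.2.1)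
        exact Finset.single_le_sum (f := fun u => wy u)
          (fun u' hu' => hy0 u' (Finset.mem_filter.mp hu').1)
          (Finset.mem_filter.mpr ⟨hu, rfl⟩)
      have hEx : κ * (X + Y) - Cs ≤ ∑ u ∈ B, (wx u + wy u - costp Sp u) := by
        refine le_trans ?_ hB7
        have h1 := mul_le_mul_of_nonneg_left hwx.1 hκ0
        have h2 := mul_le_mul_of_nonneg_left hwy.1 hκ0
        have h3 : κ * (X + Y) - 2 * κ ≤ κ * hr (aff z.1) + κ * hr (aff z.2) := by linarith
        have h4 : ((F.A.card : ℝ) + ∑ k, F.d k - κ) * hr (aff z.1) +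
          ((t : ℝ) - κ) * hr (aff z.2) = ((F.A.card : ℝ) + ∑ k, F.d k) * hr (aff z.1) +
            t * hr (aff z.2) - (κ * hr (aff z.1) + κ * hr (aff z.2)) := by ring
        rw [h4] at hviol
        linarith
      obtain ⟨I, hIB, hI⟩ := pselection B wx wy (costp Sp) hx0 hy0 hcost X Y L Cs κ
        (by linarith) (by linarith) hXL hYL hCs0 hκ2 hsx hsy hEx
      refine ⟨I, fun _ => ⟨hB1.mono (by exact_mod_cast hIB), fun u hu => hB2 u (hIB hu),
        fun u hu => hB3 u (hIB hu), fun u hu => hB4 u (hIB hu), ?_, hI⟩⟩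
      calc ∑ u ∈ I, (wx u + wy u) ≤ ∑ u ∈ B, (wx u + wy u) :=
            Finset.sum_le_sum_of_subset_of_nonneg hIB fun u hu _ =>
              add_nonneg (hx0 u hu) (hy0 u hu)
        _ = ∑ u ∈ B, wx u + ∑ u ∈ B, wy u := Finset.sum_add_distrib
        _ = (∑ i : Fin g, ∑ u ∈ B with u.2.1.1 = i, wx u) +
            ∑ k : Fin t, ∑ u ∈ B with u.2.2.1 = k, wy u := by
            congr 1
            · exact (Finset.sum_fiberwise_of_maps_to
                (fun u _ => Finset.mem_univ u.2.1.1) (fun u => wx u)).symm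
            · exact (Finset.sum_fiberwise_of_maps_to
                (fun u _ => Finset.mem_univ u.2.2.1) (fun u => wy u)).symm
        _ ≤ (∑ i : Fin g, (L + Cs)) + ∑ k : Fin t, 2 * (L + Cs) := by
            refine add_le_add (Finset.sum_le_sum fun i _ => ?_) (Finset.sum_le_sum fun k _ => ?_)
            · have h1 := hlx i
              linarith
            · have h1 := hly k
              linarith
        _ = Q * (L + Cs) := by
            rw [hQ, Finset.sum_const, Finset.sum_const, Finset.card_univ, Finset.card_univ,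
              Fintype.card_fin, Fintype.card_fin, nsmul_eq_mul, nsmul_eq_mul]
            ring
    · exact ⟨∅, fun h => absurd h hz⟩
  choose I hI using hsel
  have hcount := count_bound3 E I (fun u => wx u + wy u) (costp Sp) (fwp Sp η)
    (fwp_nonneg Sp η) F0 hF0 η hηpos ?_
    (fun A => max 0 (2 * X - ∑ u ∈ A, wx u) + max 0 (2 * Y - ∑ u ∈ A, wy u))
    (ex * L + 3 * Cs) (Q * (L + Cs)) C3 hC30 ?_ ?_ ?_
  · refine hcount.trans ?_
    rw [mul_assoc C3, ← Real.exp_add]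
    refine mul_le_mul_of_nonneg_left (Real.exp_le_exp.mpr ?_) hC30
    have h1 : η * (Q * (L + Cs)) ≤ δ * (L + Cs) := by
      have h2 : η * Q ≤ δ := by
        rw [hη, div_mul_eq_mul_div, div_le_iff₀ (by linarith)]
        nlinarith
      have := mul_le_mul_of_nonneg_right h2 (by linarith : 0 ≤ L + Cs)
      linarith
    linarith
  · intro z hz u hu
    unfold fwp
    rw [if_pos ((hI z hz).2.2.2.1 u hu)]
  · intro z hz
    exact (hI z hz).2.2.2.2.2
  · intro z hz
    exact (hI z hz).2.2.2.2.1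
  · intro z hz
    refine pclass_bound F (I z) (hI z hz).1 (E.filter (fun y => I y = I z)) X Y
      ?_ ?_ ?_ ?_ ?_ ?_
    · intro y hy
      exact (hE y (Finset.mem_filter.mp hy).1).1
    · intro y hy
      exact (hE y (Finset.mem_filter.mp hy).1).2.1
    · intro y hy
      exact (hE y (Finset.mem_filter.mp hy).1).2.2.2.1.2
    · intro y hy
      exact (hE y (Finset.mem_filter.mp hy).1).2.2.2.2.2
    · intro y hy u hu
      rw [Finset.mem_filter] at hy
      rw [← hy.2] at hu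
      exact (hI y hy.1).2.1 u hu
    · intro y hy u hu
      rw [Finset.mem_filter] at hy
      rw [← hy.2] at hu
      exact (hI y hy.1).2.2.1 u hu

/-- points of bounded height, first coordinate off the critical points -/
theorem pcount_off {g t : ℕ} (hg0 : 0 < g) (ht0 : 0 < t)
    (T : Set (HeightOneSpectrum (𝓞 K))) (hT : T.Finite) (F : Cfg K g t)
    (κ : ℝ) (hκ0 : 0 ≤ κ) (hκ2 : κ ≤ 2) (C0 : ℝ) (hC0 : 0 ≤ C0) (δ : ℝ) (hδ : 0 < δ) :
    ∃ C : ℝ, 0 ≤ C ∧ ∀ X : ℝ, 0 ≤ X → ∀ E : Finset (K × K),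
      (∀ z ∈ E, Off F.γ z.1 ∧ Off2 F z.1 z.2 ∧
        NTp T F.γ F.A F.τ z.1 z.2 < ((F.A.card : ℝ) + ∑ k, F.d k - κ) * hr (aff z.1) +
          ((t : ℝ) - κ) * hr (aff z.2) + C0 ∧
        hr (aff z.1) ≤ X ∧ hr (aff z.2) ≤ X) →
      (E.card : ℝ) ≤ C * Real.exp ((max (2 * (2 - κ)) (10 / 3) + δ) * X) := by
  classical
  obtain ⟨C, hC, hwin⟩ := pcount_window hg0 ht0 T hT F κ hκ0 hκ2 C0 hC0 (δ / 2) (by positivity)
  set ex : ℝ := max (2 * (2 - κ)) (10 / 3) with hex
  have hex0 : 0 ≤ ex := le_trans (by norm_num) (le_max_right _ _)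
  refine ⟨C * ((2 / δ) ^ 2 * ((2 : ℕ).factorial : ℝ)) * Real.exp (ex + δ), by positivity, ?_⟩
  intro X hX E hE
  set N : ℕ := ⌊X⌋₊ + 1 with hN
  have hNX : (N : ℝ) ≤ X + 1 := by
    rw [hN]; push_cast
    have := Nat.floor_le hX
    linarith
  set W : Finset (ℕ × ℕ) := Finset.range N ×ˢ Finset.range N with hW
  have hWcard : (W.card : ℝ) ≤ (X + 1) ^ 2 := by
    rw [hW, Finset.card_product, Finset.card_range]
    push_cast
    have h0 : (0 : ℝ) ≤ N := Nat.cast_nonneg _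
    nlinarith
  have h1 : (E.card : ℝ) = ∑ j ∈ W,
      ((E.filter (fun z => (⌊hr (aff z.1)⌋₊, ⌊hr (aff z.2)⌋₊) = j)).card : ℝ) := by
    have h2 := Finset.card_eq_sum_card_fiberwise (s := E) (t := W)
      (f := fun z => (⌊hr (aff z.1)⌋₊, ⌊hr (aff z.2)⌋₊)) ?_
    · exact_mod_cast h2
    · intro z hz
      obtain ⟨_, _, _, h5, h6⟩ := hE z hz
      simp only [hW, Finset.mem_coe, Finset.mem_product, Finset.mem_range]
      rw [hN]
      have h7 := Nat.floor_le_floor h5
      have h8 := Nat.floor_le_floor h6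
      exact ⟨by omega, by omega⟩
  have h3 : ∀ j ∈ W, ((E.filter (fun z => (⌊hr (aff z.1)⌋₊, ⌊hr (aff z.2)⌋₊) = j)).card : ℝ) ≤
      C * Real.exp ((ex + δ / 2) * (X + 1)) := by
    intro j hj
    rw [hW, Finset.mem_product, Finset.mem_range, Finset.mem_range] at hj
    have hj1 : (j.1 : ℝ) + 1 ≤ X + 1 := by
      have : ((j.1 + 1 : ℕ) : ℝ) ≤ N := by exact_mod_cast hj.1
      push_cast at this
      linarith
    have hj2 : (j.2 : ℝ) + 1 ≤ X + 1 := by
      have : ((j.2 + 1 : ℕ) : ℝ) ≤ N := by exact_mod_cast hj.2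
      push_cast at this
      linarith
    refine hwin ((j.1 : ℝ) + 1) ((j.2 : ℝ) + 1) (X + 1) (by linarith)
      (by have : (0 : ℝ) ≤ j.1 := Nat.cast_nonneg _; linarith)
      (by have : (0 : ℝ) ≤ j.2 := Nat.cast_nonneg _; linarith) hj1 hj2 _ ?_
    intro z hz
    rw [Finset.mem_filter] at hz
    obtain ⟨hz1, hz2⟩ := hz
    obtain ⟨hz3, hz4, hz5, _, _⟩ := hE z hz1
    have hz6 : ⌊hr (aff z.1)⌋₊ = j.1 := congrArg Prod.fst hz2
    have hz7 : ⌊hr (aff z.2)⌋₊ = j.2 := congrArg Prod.snd hz2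
    refine ⟨hz3, hz4, hz5, ⟨?_, ?_⟩, ⟨?_, ?_⟩⟩
    · have := Nat.floor_le (hr_aff_nonneg z.1)
      rw [hz6] at this
      linarith
    · have := (Nat.lt_floor_add_one (hr (aff z.1))).le
      rw [hz6] at this
      exact this
    · have := Nat.floor_le (hr_aff_nonneg z.2)
      rw [hz7] at this
      linarith
    · have := (Nat.lt_floor_add_one (hr (aff z.2))).le
      rw [hz7] at this
      exact this
  have h4 : (E.card : ℝ) ≤ (X + 1) ^ 2 * (C * Real.exp ((ex + δ / 2) * (X + 1))) := by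
    rw [h1]
    refine (Finset.sum_le_sum h3).trans ?_
    rw [Finset.sum_const, nsmul_eq_mul]
    exact mul_le_mul_of_nonneg_right hWcard (by positivity)
  have h5 : (X + 1) ^ 2 ≤ (2 / δ) ^ 2 * ((2 : ℕ).factorial : ℝ) *
      Real.exp (δ / 2 * (X + 1)) := by
    have hY : 0 ≤ δ / 2 * (X + 1) := by positivity
    have h6 := Real.pow_div_factorial_le_exp (δ / 2 * (X + 1)) hY 2
    have hfac : (0 : ℝ) < ((2 : ℕ).factorial : ℝ) := by exact_mod_cast Nat.factorial_pos 2
    rw [div_le_iff₀ hfac] at h6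
    have h7 : (X + 1) ^ 2 = (2 / δ) ^ 2 * (δ / 2 * (X + 1)) ^ 2 := by
      rw [← mul_pow]
      congr 1
      field_simp
    rw [h7]
    calc (2 / δ) ^ 2 * (δ / 2 * (X + 1)) ^ 2
        ≤ (2 / δ) ^ 2 * (Real.exp (δ / 2 * (X + 1)) * ((2 : ℕ).factorial : ℝ)) :=
          mul_le_mul_of_nonneg_left h6 (by positivity)
      _ = _ := by ring
  calc (E.card : ℝ) ≤ (X + 1) ^ 2 * (C * Real.exp ((ex + δ / 2) * (X + 1))) := h4
    _ ≤ ((2 / δ) ^ 2 * ((2 : ℕ).factorial : ℝ) * Real.exp (δ / 2 * (X + 1))) *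
        (C * Real.exp ((ex + δ / 2) * (X + 1))) :=
        mul_le_mul_of_nonneg_right h5 (by positivity)
    _ = C * ((2 / δ) ^ 2 * ((2 : ℕ).factorial : ℝ)) * (Real.exp (δ / 2 * (X + 1)) *
        Real.exp ((ex + δ / 2) * (X + 1))) := by ring
    _ = C * ((2 / δ) ^ 2 * ((2 : ℕ).factorial : ℝ)) * (Real.exp (ex + δ) *
        Real.exp ((ex + δ) * X)) := by
        rw [← Real.exp_add, ← Real.exp_add]
        congr 2
        ring
    _ = _ := by ring

/-- points whose first coordinate is one of finitely many points -/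
lemma card_few {g : ℕ} (γ : Fin g → K × K) (hγ0 : ∀ i, γ i ≠ 0) (X : ℝ) (hX0 : 0 ≤ X)
    (E : Finset (K × K))
    (hE : ∀ z ∈ E, ¬ Off γ z.1 ∧ hr (aff z.2) ≤ X) :
    (E.card : ℝ) ≤ g * (64 * Real.exp (3 * lossK K)) * Real.exp (2 * X) := by
  classical
  -- the first coordinates
  have h1 : ∀ z ∈ E, ∃ i : Fin g, (aff z.1).1 * (γ i).2 - (aff z.1).2 * (γ i).1 = 0 := by
    intro z hz
    have h2 := (hE z hz).1
    unfold Off at h2
    push Not at h2
    exact h2
  have hcover : E ⊆ Finset.univ.biUnion (fun i : Fin g =>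
      E.filter (fun z => (aff z.1).1 * (γ i).2 - (aff z.1).2 * (γ i).1 = 0)) := by
    intro z hz
    obtain ⟨i, hi⟩ := h1 z hz
    rw [Finset.mem_biUnion]
    exact ⟨i, Finset.mem_univ i, Finset.mem_filter.mpr ⟨hz, hi⟩⟩
  have h3 : ∀ i : Fin g, ((E.filter (fun z =>
      (aff z.1).1 * (γ i).2 - (aff z.1).2 * (γ i).1 = 0)).card : ℝ) ≤
      64 * Real.exp (3 * lossK K) * Real.exp (2 * X) := by
    intro i
    set Ei := E.filter (fun z => (aff z.1).1 * (γ i).2 - (aff z.1).2 * (γ i).1 = 0) with hEi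
    have h4 : Ei.card = (Ei.image Prod.snd).card := by
      rw [Finset.card_image_of_injOn]
      intro a ha b hb hab
      rw [hEi, Finset.mem_coe, Finset.mem_filter] at ha hb
      have ha2 : a.1 * (γ i).2 = (γ i).1 := by
        have := ha.2
        simp only [aff, one_mul] at this
        exact sub_eq_zero.mp this
      have hb2 : b.1 * (γ i).2 = (γ i).1 := by
        have := hb.2
        simp only [aff, one_mul] at this
        exact sub_eq_zero.mp this
      have hne : (γ i).2 ≠ 0 := by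
        intro h0
        rw [h0, mul_zero] at ha2
        exact hγ0 i (Prod.ext ha2.symm h0)
      exact Prod.ext (mul_right_cancel₀ hne (ha2.trans hb2.symm)) hab
    rw [h4]
    have h5 := class_bound_gen (K := K) (ι := Empty) (q := 0) (fun l => l.elim0)
      (fun l => l.elim0) ∅ (fun u => u.elim) (fun u => u.elim) (fun u => u.elim)
      (by simp) (Ei.image Prod.snd) X (fun x _ l => l.elim0) ?_ (fun x _ u _ => u.elim)
    · rw [Finset.sum_empty, sub_zero, max_eq_right (by linarith)] at h5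
      exact h5
    · intro x hx
      obtain ⟨z, hz, rfl⟩ := Finset.mem_image.mp hx
      rw [hEi, Finset.mem_filter] at hz
      exact (hE z hz.1).2
  have h6 : (E.card : ℝ) ≤ ∑ i : Fin g, ((E.filter (fun z =>
      (aff z.1).1 * (γ i).2 - (aff z.1).2 * (γ i).1 = 0)).card : ℝ) := by
    exact_mod_cast (Finset.card_le_card hcover).trans Finset.card_biUnion_le
  refine h6.trans ((Finset.sum_le_sum fun i _ => h3 i).trans (le_of_eq ?_))
  rw [Finset.sum_const, Finset.card_univ, Fintype.card_fin, nsmul_eq_mul]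
  ring

/-- points of bounded height -/
theorem pcount_all {g t : ℕ} (hg0 : 0 < g) (ht0 : 0 < t)
    (T : Set (HeightOneSpectrum (𝓞 K))) (hT : T.Finite) (F : Cfg K g t)
    (κ : ℝ) (hκ0 : 0 ≤ κ) (hκ2 : κ ≤ 2) (C0 : ℝ) (hC0 : 0 ≤ C0) (δ : ℝ) (hδ : 0 < δ) :
    ∃ C : ℝ, 0 ≤ C ∧ ∀ X : ℝ, 0 ≤ X → ∀ E : Finset (K × K),
      (∀ z ∈ E, Off2 F z.1 z.2 ∧
        NTp T F.γ F.A F.τ z.1 z.2 < ((F.A.card : ℝ) + ∑ k, F.d k - κ) * hr (aff z.1) +
          ((t : ℝ) - κ) * hr (aff z.2) + C0 ∧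
        hr (aff z.1) ≤ X ∧ hr (aff z.2) ≤ X) →
      (E.card : ℝ) ≤ C * Real.exp ((max (2 * (2 - κ)) (10 / 3) + δ) * X) := by
  classical
  obtain ⟨C, hC, hoff⟩ := pcount_off hg0 ht0 T hT F κ hκ0 hκ2 C0 hC0 δ hδ
  set ex : ℝ := max (2 * (2 - κ)) (10 / 3) with hex
  have hex2 : 2 ≤ ex := le_trans (by norm_num) (le_max_right _ _)
  refine ⟨C + g * (64 * Real.exp (3 * lossK K)), by positivity, ?_⟩
  intro X hX E hE
  have h1 := hoff X hX (E.filter (fun z => Off F.γ z.1)) ?_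
  · have h2 := card_few F.γ F.γ0 X hX (E.filter (fun z => ¬ Off F.γ z.1)) ?_
    · have h3 : (E.card : ℝ) = ((E.filter (fun z => Off F.γ z.1)).card : ℝ) +
          ((E.filter (fun z => ¬ Off F.γ z.1)).card : ℝ) := by
        exact_mod_cast (Finset.card_filter_add_card_filter_not _).symm
      have h4 : Real.exp (2 * X) ≤ Real.exp ((ex + δ) * X) := by
        refine Real.exp_le_exp.mpr ?_
        exact mul_le_mul_of_nonneg_right (by linarith) hX
      have h5 : (g : ℝ) * (64 * Real.exp (3 * lossK K)) * Real.exp (2 * X) ≤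
          g * (64 * Real.exp (3 * lossK K)) * Real.exp ((ex + δ) * X) :=
        mul_le_mul_of_nonneg_left h4 (by positivity)
      rw [h3, add_mul]
      linarith
    · intro z hz
      rw [Finset.mem_filter] at hz
      exact ⟨hz.2, (hE z hz.1).2.2.2⟩
  · intro z hz
    rw [Finset.mem_filter] at hz
    obtain ⟨h2, h3, h4, h5⟩ := hE z hz.1
    exact ⟨hz.2, h2, h3, h4, h5⟩

end Pool.Agent.H691R3
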