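import Pool.Agent.H691R3.Global

set_option autoImplicit false
set_option linter.unusedSectionVars false

/-!
All places together: the local heights `lam`, the units `Lu`, discreteness at finite places.
-/

namespace Pool.Agent.H691R3

open NumberField IsDedekindDomain Finset

variable {K : Type*} [Field K] [NumberField K]

/-- values of the `v`-adic absolute value are integral powers of the norm -/
lemma fv_zpow (v : HeightOneSpectrum (𝓞 K)) {x : K} (hx : x ≠ 0) :
    ∃ n : ℤ, fv v x = (Nv v) ^ n := by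
  have h1 : fv v x = _ := NumberField.FinitePlace.norm_embedding' (v := v) (x := x)
  have hx' : v.valuation K x ≠ 0 := (Valuation.ne_zero_iff _).mpr hx
  rw [WithZeroMulInt.toNNReal_neg_apply _ hx'] at h1
  refine ⟨Multiplicative.toAdd (WithZero.unzero hx'), h1.trans ?_⟩
  push_cast
  rfl

lemma log_fv (v : HeightOneSpectrum (𝓞 K)) {x : K} (hx : x ≠ 0) :
    ∃ n : ℤ, Real.log (fv v x) = n * Real.log (Nv v) := by
  obtain ⟨n, hn⟩ := fv_zpow v hx
  exact ⟨n, by rw [hn, Real.log_zpow]⟩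

lemma log_max_fv (v : HeightOneSpectrum (𝓞 K)) {p : K × K} (hp : p ≠ 0) :
    ∃ n : ℤ, Real.log (max (fv v p.1) (fv v p.2)) = n * Real.log (Nv v) := by
  by_cases h1 : p.1 = 0
  · have h2 : p.2 ≠ 0 := fun h => hp (Prod.ext h1 h)
    rw [h1, map_zero, max_eq_right ((fv v).nonneg _)]
    exact log_fv v h2
  · by_cases h2 : p.2 = 0
    · rw [h2, map_zero, max_eq_left ((fv v).nonneg _)]
      exact log_fv v h1
    · rcases max_choice (fv v p.1) (fv v p.2) with h | h
      · rw [h]; exact log_fv v h1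
      · rw [h]; exact log_fv v h2

lemma lamF_nonneg (v : HeightOneSpectrum (𝓞 K)) {p r : K × K} (hp : p ≠ 0) (hr : r ≠ 0)
    (h : p.1 * r.2 - p.2 * r.1 ≠ 0) : 0 ≤ lamA (fv v) p r :=
  lamA_nonneg (fv v) (fv_na v) hp hr h

lemma lamF_discrete (v : HeightOneSpectrum (𝓞 K)) {p r : K × K} (hp : p ≠ 0) (hr : r ≠ 0)
    (h : p.1 * r.2 - p.2 * r.1 ≠ 0) :
    ∃ m : ℕ, lamA (fv v) p r = m * Real.log (Nv v) := by
  obtain ⟨a, ha⟩ := log_max_fv v hp
  obtain ⟨b, hb⟩ := log_max_fv v hr
  obtain ⟨c, hc⟩ := log_fv v h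
  have h1 := lamA_eq (fv v) hp hr h
  rw [ha, hb, hc] at h1
  have h2 : lamA (fv v) p r = ((a + b - c : ℤ) : ℝ) * Real.log (Nv v) := by
    rw [h1]; push_cast; ring
  have h3 := lamF_nonneg v hp hr h
  rw [h2] at h3
  have h4 : (0 : ℝ) ≤ ((a + b - c : ℤ) : ℝ) := nonneg_of_mul_nonneg_left h3 (log_Nv_pos v)
  have h5 : (0 : ℤ) ≤ a + b - c := by exact_mod_cast h4
  refine ⟨(a + b - c).toNat, ?_⟩
  rw [h2]
  congr 1
  exact_mod_cast (Int.toNat_of_nonneg h5).symm

variable (K) in
/-- all places -/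
abbrev Pl := InfinitePlace K ⊕ HeightOneSpectrum (𝓞 K)

/-- local height at an arbitrary place (unnormalised) -/
noncomputable def lam (v : Pl K) (p r : K × K) : ℝ :=
  Sum.elim (fun w : InfinitePlace K => (w.mult : ℝ) * lamA w.1 p r)
    (fun v : HeightOneSpectrum (𝓞 K) => lamA (fv v) p r) v

/-- the unit of measurement at a place -/
noncomputable def Lu (v : Pl K) : ℝ :=
  Sum.elim (fun _ : InfinitePlace K => (1 : ℝ))
    (fun v : HeightOneSpectrum (𝓞 K) => Real.log (Nv v)) v

/-- the loss at a place -/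
noncomputable def loss (v : Pl K) : ℝ :=
  Sum.elim (fun w : InfinitePlace K => (w.mult : ℝ) * Real.log 2)
    (fun _ : HeightOneSpectrum (𝓞 K) => (0 : ℝ)) v

lemma Lu_pos (v : Pl K) : 0 < Lu v := by
  rcases v with w | v
  · exact one_pos
  · exact log_Nv_pos v

lemma loss_nonneg (v : Pl K) : 0 ≤ loss v := by
  rcases v with w | v
  · exact mul_nonneg (Nat.cast_nonneg _) (Real.log_nonneg (by norm_num))
  · exact le_rfl

variable (K) in
/-- total loss -/
noncomputable def lossK : ℝ := ∑ w : InfinitePlace K, (w.mult : ℝ) * Real.log 2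

variable (K) in
lemma lossK_nonneg : 0 ≤ lossK K :=
  Finset.sum_nonneg fun w _ => mul_nonneg (Nat.cast_nonneg _) (Real.log_nonneg (by norm_num))

lemma lam_comm (v : Pl K) (p r : K × K) : lam v p r = lam v r p := by
  rcases v with w | v
  · unfold lam; simp only [Sum.elim_inl]; rw [lamA_comm]
  · unfold lam; simp only [Sum.elim_inr]; rw [lamA_comm]

lemma lam_ge (v : Pl K) {p r : K × K} (hp : p ≠ 0) (hr : r ≠ 0)
    (h : p.1 * r.2 - p.2 * r.1 ≠ 0) : -(loss v) ≤ lam v p r := by
  rcases v with w | v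
  · unfold lam loss
    simp only [Sum.elim_inl]
    have h1 := lamA_ge_neg_log_two w.1 hp hr h
    have h2 : (0 : ℝ) ≤ w.mult := Nat.cast_nonneg _
    nlinarith
  · unfold lam loss
    simp only [Sum.elim_inr, neg_zero]
    exact lamF_nonneg v hp hr h

lemma wedge_ne_comm {p r : K × K} (h : p.1 * r.2 - p.2 * r.1 ≠ 0) :
    r.1 * p.2 - r.2 * p.1 ≠ 0 := by
  intro h2
  apply h
  have : p.1 * r.2 - p.2 * r.1 = -(r.1 * p.2 - r.2 * p.1) := by ring
  rw [this, h2, neg_zero]

/-- triangle inequality at an arbitrary place -/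
lemma lam_triangle (v : Pl K) {p q r : K × K} (hp : p ≠ 0) (hq : q ≠ 0) (hr : r ≠ 0)
    (hpr : p.1 * r.2 - p.2 * r.1 ≠ 0)
    (hpq : p.1 * q.2 - p.2 * q.1 ≠ 0) (hqr : q.1 * r.2 - q.2 * r.1 ≠ 0) (t : ℝ)
    (h1 : t ≤ lam v p q) (h2 : t ≤ lam v q r) : t - loss v ≤ lam v p r := by
  rcases v with w | v
  · unfold lam at *
    unfold loss
    simp only [Sum.elim_inl] at *
    have hm : (0 : ℝ) < w.mult := by exact_mod_cast InfinitePlace.mult_pos
    have h3 := lamA_arch w.1 hp hq hr hpr hpq hqr (t / w.mult)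
      (by rwa [div_le_iff₀ hm, mul_comm]) (by rwa [div_le_iff₀ hm, mul_comm])
    have h4 := mul_le_mul_of_nonneg_left h3 hm.le
    have h5 : (w.mult : ℝ) * (t / w.mult - Real.log 2) = t - w.mult * Real.log 2 := by
      field_simp
    linarith
  · unfold lam at *
    unfold loss
    simp only [Sum.elim_inr, sub_zero] at *
    exact lamA_ultra (fv v) (fv_na v) hp hq hr hpr hpq hqr t h1 h2

/-- partial sums of local heights are bounded by the height -/
lemma sum_lam_le {p r : K × K} (hp : p ≠ 0) (hr' : r ≠ 0) (h : p.1 * r.2 - p.2 * r.1 ≠ 0)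
    (S : Finset (Pl K)) : ∑ v ∈ S, lam v p r ≤ hr p + hr r + lossK K := by
  classical
  rw [← sum_lam hp hr' h]
  set F := (lamF_support_finite hp hr' h).toFinset with hF
  have hfs : ∑ᶠ v : HeightOneSpectrum (𝓞 K), lamA (fv v) p r =
      ∑ v ∈ F ∪ S.toRight, lamA (fv v) p r := by
    refine finsum_eq_sum_of_support_subset _ ?_
    intro v hv
    rw [Finset.coe_union]
    left
    rw [hF, Set.Finite.coe_toFinset]
    exact hv
  rw [hfs]
  have hS : ∑ v ∈ S, lam v p r = ∑ w ∈ S.toLeft, (w.mult : ℝ) * lamA w.1 p r +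
      ∑ v ∈ S.toRight, lamA (fv v) p r := by
    rw [← Finset.toLeft_disjSum_toRight (u := S), Finset.sum_disjSum]
    simp only [Finset.toLeft_disjSum, Finset.toRight_disjSum]
    rfl
  rw [hS]
  have h1 : ∑ v ∈ S.toRight, lamA (fv v) p r ≤ ∑ v ∈ F ∪ S.toRight, lamA (fv v) p r :=
    Finset.sum_le_sum_of_subset_of_nonneg Finset.subset_union_right
      fun v _ _ => lamF_nonneg v hp hr' h
  have h2 : ∑ w ∈ S.toLeft, (w.mult : ℝ) * lamA w.1 p r ≤
      ∑ w : InfinitePlace K, (w.mult : ℝ) * lamA w.1 p r + lossK K := by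
    unfold lossK
    rw [← Finset.sum_add_distrib]
    calc ∑ w ∈ S.toLeft, (w.mult : ℝ) * lamA w.1 p r
        ≤ ∑ w ∈ S.toLeft, ((w.mult : ℝ) * lamA w.1 p r + (w.mult : ℝ) * Real.log 2) := by
          refine Finset.sum_le_sum fun w _ => ?_
          have : 0 ≤ (w.mult : ℝ) * Real.log 2 :=
            mul_nonneg (Nat.cast_nonneg _) (Real.log_nonneg (by norm_num))
          linarith
      _ ≤ ∑ w : InfinitePlace K, ((w.mult : ℝ) * lamA w.1 p r + (w.mult : ℝ) * Real.log 2) := by
          refine Finset.sum_le_sum_of_subset_of_nonneg (Finset.subset_univ _) fun w _ _ => ?_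
          have h3 := lam_ge (Sum.inl w) hp hr' h
          unfold lam loss at h3
          simp only [Sum.elim_inl] at h3
          linarith
  linarith

/-- the affine point `[x : 1]` -/
def aff (x : K) : K × K := (x, 1)

lemma aff_ne_zero (x : K) : aff x ≠ 0 := by
  intro h
  have := congrArg Prod.snd h
  simp [aff] at this

lemma aff_wedge {x y : K} (h : x ≠ y) : (aff x).1 * (aff y).2 - (aff x).2 * (aff y).1 ≠ 0 := by
  simp only [aff, mul_one, one_mul]
  exact sub_ne_zero.mpr h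

lemma hr_aff_nonneg (x : K) : 0 ≤ hr (aff x) := by
  unfold hr
  refine add_nonneg (Finset.sum_nonneg fun w _ => ?_) (finsum_nonneg fun v => ?_)
  · refine mul_nonneg (Nat.cast_nonneg _) (Real.log_nonneg ?_)
    simp [aff]
  · refine Real.log_nonneg ?_
    simp [aff]

end Pool.Agent.H691R3
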