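import Pool.Agent.H691R3.PForm

set_option autoImplicit false
set_option linter.unusedSectionVars false
set_option linter.unusedVariables false

/-!
Size of a pair of coprime polynomials.
-/

namespace Pool.Agent.H691R3

open Polynomial Finset

section Poly

variable {K : Type*} [Field K] (f : AbsoluteValue K ℝ)

lemma poly_upper (P : K[X]) (d : ℕ) (hd : P.natDegree ≤ d) :
    ∃ s : ℝ, 0 ≤ s ∧ ∀ x : K, f (P.eval x) ≤ s * max (f x) 1 ^ d := by
  refine ⟨∑ i ∈ Finset.range (d + 1), f (P.coeff i), Finset.sum_nonneg fun i _ => f.nonneg _, ?_⟩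
  intro x
  rw [Polynomial.eval_eq_sum_range' (Nat.lt_succ_of_le hd), Finset.sum_mul]
  refine (f.sum_le _ _).trans (Finset.sum_le_sum fun i hi => ?_)
  rw [f.map_mul, f.map_pow]
  refine mul_le_mul_of_nonneg_left ?_ (f.nonneg _)
  have h1 : f x ^ i ≤ max (f x) 1 ^ i := pow_le_pow_left₀ (f.nonneg _) (le_max_left _ _) i
  refine h1.trans (pow_le_pow_right₀ (le_max_right _ _) ?_)
  rw [Finset.mem_range] at hi
  omega

lemma poly_lead (P : K[X]) (hP : P ≠ 0) :
    ∃ R c : ℝ, 1 ≤ R ∧ 0 < c ∧ ∀ x : K, R ≤ f x → c * f x ^ P.natDegree ≤ f (P.eval x) := by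
  set d := P.natDegree with hd
  have hlc : 0 < f P.leadingCoeff := f.pos (Polynomial.leadingCoeff_ne_zero.mpr hP)
  set S0 : ℝ := ∑ i ∈ Finset.range d, f (P.coeff i) with hS0
  have hS00 : 0 ≤ S0 := Finset.sum_nonneg fun i _ => f.nonneg _
  refine ⟨max 1 (2 * S0 / f P.leadingCoeff), f P.leadingCoeff / 2, le_max_left _ _,
    by positivity, ?_⟩
  intro x hx
  have hx1 : 1 ≤ f x := (le_max_left _ _).trans hx
  have hx2 : 2 * S0 / f P.leadingCoeff ≤ f x := (le_max_right _ _).trans hx
  rw [div_le_iff₀ hlc] at hx2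
  have hx0 : 0 < f x := by linarith
  have he : P.eval x = ∑ i ∈ Finset.range d, P.coeff i * x ^ i + P.leadingCoeff * x ^ d := by
    rw [Polynomial.eval_eq_sum_range, Finset.sum_range_succ]
    rfl
  have h1 : f (P.leadingCoeff * x ^ d) ≤
      f (P.eval x) + f (∑ i ∈ Finset.range d, P.coeff i * x ^ i) := by
    have h2 : P.leadingCoeff * x ^ d = P.eval x + -(∑ i ∈ Finset.range d, P.coeff i * x ^ i) := by
      rw [he]; ring
    rw [h2]
    refine (f.add_le _ _).trans ?_
    rw [f.map_neg]
  have h3 : f (∑ i ∈ Finset.range d, P.coeff i * x ^ i) * f x ≤ S0 * f x ^ d := by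
    rw [hS0, Finset.sum_mul]
    calc f (∑ i ∈ Finset.range d, P.coeff i * x ^ i) * f x
        ≤ (∑ i ∈ Finset.range d, f (P.coeff i * x ^ i)) * f x :=
          mul_le_mul_of_nonneg_right (f.sum_le _ _) hx0.le
      _ = ∑ i ∈ Finset.range d, f (P.coeff i) * (f x ^ i * f x) := by
          rw [Finset.sum_mul]
          refine Finset.sum_congr rfl fun i _ => ?_
          rw [f.map_mul, f.map_pow]; ring
      _ ≤ ∑ i ∈ Finset.range d, f (P.coeff i) * f x ^ d := by
          refine Finset.sum_le_sum fun i hi => mul_le_mul_of_nonneg_left ?_ (f.nonneg _)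
          rw [← pow_succ]
          refine pow_le_pow_right₀ hx1 ?_
          rw [Finset.mem_range] at hi
          omega
  rw [f.map_mul, f.map_pow] at h1
  have h4 : 0 < f x ^ d := by positivity
  have h5 : f (∑ i ∈ Finset.range d, P.coeff i * x ^ i) ≤ f P.leadingCoeff / 2 * f x ^ d := by
    have h6 : 2 * S0 * f x ^ d ≤ f x * f P.leadingCoeff * f x ^ d :=
      mul_le_mul_of_nonneg_right hx2 h4.le
    have h7 : f (∑ i ∈ Finset.range d, P.coeff i * x ^ i) * f x ≤
        (f P.leadingCoeff / 2 * f x ^ d) * f x := by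
      refine h3.trans ?_
      linarith
    exact le_of_mul_le_mul_right h7 hx0
  linarith

/-- a pair of coprime polynomials has the size of the power of the variable -/
lemma poly_bound (P Q : K[X]) (h : IsCoprime P Q) :
    ∃ b : ℝ, 0 ≤ b ∧ ∀ x : K, ((P.eval x, Q.eval x) : K × K) ≠ 0 ∧
      |ln f (P.eval x, Q.eval x) - (max P.natDegree Q.natDegree : ℕ) * ln f (x, 1)| ≤ b := by
  set d : ℕ := max P.natDegree Q.natDegree with hd
  obtain ⟨A, B, hAB⟩ := h
  have hne : ∀ x : K, ((P.eval x, Q.eval x) : K × K) ≠ 0 := by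
    intro x h0
    have h1 : P.eval x = 0 := congrArg Prod.fst h0
    have h2 : Q.eval x = 0 := congrArg Prod.snd h0
    have h3 := congrArg (Polynomial.eval x) hAB
    rw [Polynomial.eval_add, Polynomial.eval_mul, Polynomial.eval_mul, h1, h2] at h3
    simp at h3
  obtain ⟨sP, hsP, hP⟩ := poly_upper f P d (le_max_left _ _)
  obtain ⟨sQ, hsQ, hQ⟩ := poly_upper f Q d (le_max_right _ _)
  obtain ⟨sA, hsA, hA⟩ := poly_upper f A A.natDegree le_rfl
  obtain ⟨sB, hsB, hB⟩ := poly_upper f B B.natDegree le_rfl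
  -- lower bound for large `x`
  have hlarge : ∃ R c : ℝ, 1 ≤ R ∧ 0 < c ∧ ∀ x : K, R ≤ f x →
      c * f x ^ d ≤ max (f (P.eval x)) (f (Q.eval x)) := by
    rcases le_total P.natDegree Q.natDegree with hPQ | hPQ
    · have hdQ : d = Q.natDegree := max_eq_right hPQ
      by_cases hQ0 : Q = 0
      · -- then `P` is a nonzero constant
        have hPd : P.natDegree = d := by
          rw [hdQ, hQ0, Polynomial.natDegree_zero]
          rw [hQ0, Polynomial.natDegree_zero] at hPQ
          omega
        have hP0 : P ≠ 0 := by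
          rintro rfl
          rw [hQ0] at hAB
          simp at hAB
        obtain ⟨R, c, hR, hc, hl⟩ := poly_lead f P hP0
        refine ⟨R, c, hR, hc, fun x hx => ?_⟩
        rw [← hPd]
        exact (hl x hx).trans (le_max_left _ _)
      · obtain ⟨R, c, hR, hc, hl⟩ := poly_lead f Q hQ0
        refine ⟨R, c, hR, hc, fun x hx => ?_⟩
        rw [hdQ]
        exact (hl x hx).trans (le_max_right _ _)
    · have hdP : d = P.natDegree := max_eq_left hPQ
      by_cases hP0 : P = 0
      · have hQd : Q.natDegree = d := by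
          rw [hdP, hP0, Polynomial.natDegree_zero]
          rw [hP0, Polynomial.natDegree_zero] at hPQ
          omega
        have hQ0 : Q ≠ 0 := by
          rintro rfl
          rw [hP0] at hAB
          simp at hAB
        obtain ⟨R, c, hR, hc, hl⟩ := poly_lead f Q hQ0
        refine ⟨R, c, hR, hc, fun x hx => ?_⟩
        rw [← hQd]
        exact (hl x hx).trans (le_max_right _ _)
      · obtain ⟨R, c, hR, hc, hl⟩ := poly_lead f P hP0
        refine ⟨R, c, hR, hc, fun x hx => ?_⟩
        rw [hdP]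
        exact (hl x hx).trans (le_max_left _ _)
  obtain ⟨R, c, hR, hc, hl⟩ := hlarge
  set CR : ℝ := sA * R ^ A.natDegree + sB * R ^ B.natDegree with hCR
  have hCR0 : 0 ≤ CR := by positivity
  set C2 : ℝ := R ^ d * CR + 1 / c with hC2
  have hC20 : 0 < C2 := by positivity
  have hlow : ∀ x : K, max (f x) 1 ^ d ≤ C2 * max (f (P.eval x)) (f (Q.eval x)) := by
    intro x
    set m := max (f (P.eval x)) (f (Q.eval x)) with hm
    have hm0 : 0 ≤ m := (f.nonneg _).trans (le_max_left _ _)
    rcases le_or_gt R (f x) with hx | hx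
    · have h1 := hl x hx
      rw [max_eq_left (hR.trans hx)]
      have h2 : f x ^ d ≤ 1 / c * m := by
        rw [one_div, ← div_eq_inv_mul, le_div_iff₀ hc]
        linarith
      have h3 : 0 ≤ R ^ d * CR * m := by positivity
      rw [hC2, add_mul]
      linarith
    · have hN : max (f x) 1 ≤ R := max_le hx.le hR
      have hN0 : 0 ≤ max (f x) 1 := zero_le_one.trans (le_max_right _ _)
      have h1 : 1 ≤ CR * m := by
        have h2 := congrArg (Polynomial.eval x) hAB
        rw [Polynomial.eval_add, Polynomial.eval_mul, Polynomial.eval_mul,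
          Polynomial.eval_one] at h2
        have h3 : (1 : ℝ) ≤ f (A.eval x) * f (P.eval x) + f (B.eval x) * f (Q.eval x) := by
          rw [← f.map_mul, ← f.map_mul]
          refine le_trans (le_of_eq ?_) (f.add_le _ _)
          rw [h2, f.map_one]
        have h4 : f (A.eval x) ≤ sA * R ^ A.natDegree :=
          (hA x).trans (mul_le_mul_of_nonneg_left (pow_le_pow_left₀ hN0 hN _) hsA)
        have h5 : f (B.eval x) ≤ sB * R ^ B.natDegree :=
          (hB x).trans (mul_le_mul_of_nonneg_left (pow_le_pow_left₀ hN0 hN _) hsB)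
        have h6 : f (A.eval x) * f (P.eval x) ≤ sA * R ^ A.natDegree * m :=
          mul_le_mul h4 (le_max_left _ _) (f.nonneg _) (by positivity)
        have h7 : f (B.eval x) * f (Q.eval x) ≤ sB * R ^ B.natDegree * m :=
          mul_le_mul h5 (le_max_right _ _) (f.nonneg _) (by positivity)
        rw [hCR, add_mul]
        linarith
      have h8 : max (f x) 1 ^ d ≤ R ^ d := pow_le_pow_left₀ hN0 hN d
      have h9 : R ^ d * 1 ≤ R ^ d * (CR * m) :=
        mul_le_mul_of_nonneg_left h1 (by positivity)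
      have h10 : 0 ≤ 1 / c * m := by positivity
      rw [hC2, add_mul]
      linarith
  have hup : ∀ x : K, max (f (P.eval x)) (f (Q.eval x)) ≤ (sP + sQ + 1) * max (f x) 1 ^ d := by
    intro x
    have hN0 : 0 ≤ max (f x) 1 ^ d := pow_nonneg (zero_le_one.trans (le_max_right _ _)) _
    refine max_le ((hP x).trans ?_) ((hQ x).trans ?_)
    · exact mul_le_mul_of_nonneg_right (by linarith) hN0
    · exact mul_le_mul_of_nonneg_right (by linarith) hN0
  refine ⟨|Real.log C2| + |Real.log (sP + sQ + 1)|, by positivity, fun x => ⟨hne x, ?_⟩⟩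
  have hm0 : 0 < max (f (P.eval x)) (f (Q.eval x)) := max_pos f (hne x)
  have hN0 : 0 < max (f x) 1 := lt_of_lt_of_le one_pos (le_max_right _ _)
  have hln : ln f (x, 1) = Real.log (max (f x) 1) := by
    unfold ln
    simp only [map_one]
  have h1 := Real.log_le_log (by positivity) (hlow x)
  rw [Real.log_pow, Real.log_mul hC20.ne' hm0.ne'] at h1
  have h2 := Real.log_le_log hm0 (hup x)
  rw [Real.log_mul (by positivity) (by positivity), Real.log_pow] at h2
  have h3 := le_abs_self (Real.log C2)
  have h4 := le_abs_self (Real.log (sP + sQ + 1))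
  have h5 := abs_nonneg (Real.log C2)
  have h6 := abs_nonneg (Real.log (sP + sQ + 1))
  have h7 : ln f (P.eval x, Q.eval x) = Real.log (max (f (P.eval x)) (f (Q.eval x))) := rfl
  rw [hln, h7, abs_le]
  constructor <;> linarith

end Poly

end Pool.Agent.H691R3
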