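import Pool.Agent.H691R3.UCount
import Pool.Agent.H691R3.UPoly

set_option autoImplicit false
set_option linter.unusedSectionVars false
set_option linter.unusedVariables false

/-!
Graphs of rational functions.
-/

namespace Pool.Agent.H691R3

open NumberField IsDedekindDomain Finset

section Abs

variable {K : Type*} [Field K] (f : AbsoluteValue K ℝ)

lemma neg_log_div' {F P Q : ℝ} (hF : 0 < F) (hP : 0 < P) (hQ : 0 < Q) {a b : ℕ} :
    -Real.log (F / (P ^ a * Q ^ b)) = a * Real.log P + b * Real.log Q - Real.log F := by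
  have h1 : P ^ a ≠ 0 := (pow_pos hP a).ne'
  have h2 : Q ^ b ≠ 0 := (pow_pos hQ b).ne'
  rw [Real.log_div hF.ne' (mul_ne_zero h1 h2), Real.log_mul h1 h2, Real.log_pow, Real.log_pow]
  ring

/-- the local height given by the equation, in terms of the distances -/
lemma std_eq {g t : ℕ} (γ : Fin g → K × K) (hγ0 : ∀ i, γ i ≠ 0) (A : Finset (Fin g))
    (deg : Fin t → ℕ) (T : Fin t → K × K) (x y : K) (hT0 : ∀ k, T k ≠ 0)
    (hx : ∀ i ∈ A, x * (γ i).2 - 1 * (γ i).1 ≠ 0)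
    (hy : ∀ k, y * (T k).2 - 1 * (T k).1 ≠ 0) :
    (∑ i ∈ A, lamA f ((x, 1) : K × K) (γ i) + ∑ k, lamA f ((y, 1) : K × K) (T k)) -
      (-Real.log (f ((∏ i ∈ A, (x * (γ i).2 - 1 * (γ i).1)) *
        ∏ k, (y * (T k).2 - 1 * (T k).1)) /
        (max (f x) (f 1) ^ (A.card + ∑ k, deg k) * max (f y) (f 1) ^ t))) =
      ∑ i ∈ A, ln f (γ i) + ∑ k, (ln f (T k) - deg k * ln f (x, 1)) := by
  have hx0 : ((x, 1) : K × K) ≠ 0 := by
    intro h
    exact one_ne_zero (congrArg Prod.snd h)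
  have hy0 : ((y, 1) : K × K) ≠ 0 := by
    intro h
    exact one_ne_zero (congrArg Prod.snd h)
  have h1 : ∑ i ∈ A, lamA f ((x, 1) : K × K) (γ i) =
      A.card * ln f (x, 1) + ∑ i ∈ A, ln f (γ i) -
        ∑ i ∈ A, Real.log (f (x * (γ i).2 - 1 * (γ i).1)) := by
    rw [Finset.sum_congr rfl fun i hi => lamA_eq f hx0 (hγ0 i) (hx i hi),
      Finset.sum_sub_distrib, Finset.sum_add_distrib, Finset.sum_const, nsmul_eq_mul]
    rfl
  have h2 : ∑ k, lamA f ((y, 1) : K × K) (T k) =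
      t * ln f (y, 1) + ∑ k, ln f (T k) -
        ∑ k, Real.log (f (y * (T k).2 - 1 * (T k).1)) := by
    rw [Finset.sum_congr rfl fun k _ => lamA_eq f hy0 (hT0 k) (hy k),
      Finset.sum_sub_distrib, Finset.sum_add_distrib, Finset.sum_const, nsmul_eq_mul,
      Finset.card_univ, Fintype.card_fin]
    rfl
  have hxp : 0 < max (f x) (f 1) := lt_max_of_lt_right (by rw [map_one]; exact one_pos)
  have hyp : 0 < max (f y) (f 1) := lt_max_of_lt_right (by rw [map_one]; exact one_pos)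
  have hA : (∏ i ∈ A, (x * (γ i).2 - 1 * (γ i).1)) ≠ 0 :=
    Finset.prod_ne_zero_iff.mpr fun i hi => hx i hi
  have hB : (∏ k, (y * (T k).2 - 1 * (T k).1)) ≠ 0 :=
    Finset.prod_ne_zero_iff.mpr fun k _ => hy k
  have hF : 0 < f ((∏ i ∈ A, (x * (γ i).2 - 1 * (γ i).1)) *
        ∏ k, (y * (T k).2 - 1 * (T k).1)) := f.pos (mul_ne_zero hA hB)
  rw [neg_log_div' hF hxp hyp]
  have hF2 : f ((∏ i ∈ A, (x * (γ i).2 - 1 * (γ i).1)) *
        ∏ k, (y * (T k).2 - 1 * (T k).1)) =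
      (∏ i ∈ A, f (x * (γ i).2 - 1 * (γ i).1)) *
        ∏ k, f (y * (T k).2 - 1 * (T k).1) := by
    rw [f.map_mul, map_prod, map_prod]
  have hA' : ∀ i ∈ A, f (x * (γ i).2 - 1 * (γ i).1) ≠ 0 :=
    fun i hi => (f.pos (hx i hi)).ne'
  have hB' : ∀ k ∈ Finset.univ, f (y * (T k).2 - 1 * (T k).1) ≠ 0 :=
    fun k _ => (f.pos (hy k)).ne'
  rw [hF2, Real.log_mul (Finset.prod_ne_zero_iff.mpr hA') (Finset.prod_ne_zero_iff.mpr hB'),
    Real.log_prod hA', Real.log_prod hB']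
  have e1 : Real.log (max (f x) (f 1)) = ln f (x, 1) := rfl
  have e2 : Real.log (max (f y) (f 1)) = ln f (y, 1) := rfl
  rw [e1, e2, h1, h2, Finset.sum_sub_distrib, ← Finset.sum_mul]
  push_cast
  ring

end Abs

variable {K : Type*} [Field K] [NumberField K]

/-- value of the equation of the divisor -/
def Geq {g t : ℕ} (γ : Fin g → K × K) (A : Finset (Fin g)) (P Q : Fin t → Polynomial K)
    (x y : K) : K :=
  (∏ i ∈ A, (x * (γ i).2 - 1 * (γ i).1)) *
    ∏ k, (y * (Q k).eval x - 1 * (P k).eval x)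

/-- the local height at an arbitrary place -/
noncomputable def lamW (v : Pl K) (a b : ℕ) (F x y : K) : ℝ :=
  mt v * (-Real.log (av v F / (max (av v x) (av v 1) ^ a * max (av v y) (av v 1) ^ b)))

/-- the counting theorem for graphs of rational functions -/
theorem graphs_count {g t : ℕ} (hg0 : 0 < g) (ht0 : 0 < t) (Sp : Finset (Pl K))
    (γ : Fin g → K × K) (hγ0 : ∀ i, γ i ≠ 0)
    (hγ : ∀ i j, i ≠ j → (γ i).1 * (γ j).2 - (γ i).2 * (γ j).1 ≠ 0)
    (A : Finset (Fin g)) (P Q : Fin t → Polynomial K) (hPQ : ∀ k, IsCoprime (P k) (Q k))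
    (S : Fin t → Fin t → Finset (Fin g)) (u : Fin t → Fin t → K)
    (hS : ∀ k l, k ≠ l → u k l ≠ 0 ∧
      (S k l).card = max (P k).natDegree (Q k).natDegree + max (P l).natDegree (Q l).natDegree ∧
      ∀ x : K, (P k).eval x * (Q l).eval x - (Q k).eval x * (P l).eval x =
        u k l * ∏ i ∈ S k l, (x * (γ i).2 - 1 * (γ i).1))
    (hAS : ∀ k l, k ≠ l → Disjoint A (S k l))
    (hSS : ∀ k l m, k ≠ l → k ≠ m → l ≠ m → Disjoint (S k m) (S l m))
    (κ : ℝ) (hκ0 : 0 ≤ κ) (hκ2 : κ ≤ 2) (c : ℝ) (δ : ℝ) (hδ : 0 < δ) :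
    ∃ C : ℝ, 0 ≤ C ∧ ∀ X : ℝ, 0 ≤ X → ∀ E : Finset (K × K),
      (∀ z ∈ E, Geq γ A P Q z.1 z.2 ≠ 0 ∧
        κ * (hr (aff z.1) + hr (aff z.2)) - c ≤ ∑ v ∈ Sp,
          lamW v (A.card + ∑ k, max (P k).natDegree (Q k).natDegree) t
            (Geq γ A P Q z.1 z.2) z.1 z.2 ∧
        hr (aff z.1) ≤ X ∧ hr (aff z.2) ≤ X) →
      (E.card : ℝ) ≤ C * Real.exp ((max (2 * (2 - κ)) 2 + δ) * X) := by
  classical
  choose b hb0 hb using fun (v : Pl K) (k : Fin t) => poly_bound (av v) (P k) (Q k) (hPQ k)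
  set deg : Fin t → ℕ := fun k => max (P k).natDegree (Q k).natDegree with hdeg
  set τ : Fin t → K → K × K := fun k x => ((P k).eval x, (Q k).eval x) with hτ
  obtain ⟨w0⟩ : Nonempty (InfinitePlace K) := inferInstance
  have hτ0 : ∀ k x, τ k x ≠ 0 := fun k x => (hb (Sum.inl w0) k x).1
  have hw : ∀ k l, k ≠ l → ∀ x, (τ k x).1 * (τ l x).2 - (τ k x).2 * (τ l x).1 =
      u k l * ∏ i ∈ S k l, ((aff x).1 * (γ i).2 - (aff x).2 * (γ i).1) :=
    fun k l hkl x => (hS k l hkl).2.2 x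
  have hτne : ∀ x, Off γ x → ∀ k l, k ≠ l →
      (τ k x).1 * (τ l x).2 - (τ k x).2 * (τ l x).1 ≠ 0 := by
    intro x hx k l hkl
    rw [hw k l hkl]
    refine mul_ne_zero (hS k l hkl).1 ?_
    rw [Finset.prod_ne_zero_iff]
    intro i _
    exact hx i
  set Ev : Pl K → ℝ := fun v => mt v * (2 * ∑ k, b v k + ∑ i, |ln (av v) (γ i)| +
    ∑ k, ∑ l, |Real.log (av v (u k l))|) with hEv
  have hEv0 : ∀ v, 0 ≤ Ev v := by
    intro v
    rw [hEv]
    simp only
    refine mul_nonneg (mt_pos v).le ?_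
    have h1 : 0 ≤ ∑ k, b v k := Finset.sum_nonneg fun k _ => hb0 v k
    have h2 : 0 ≤ ∑ i, |ln (av v) (γ i)| := Finset.sum_nonneg fun i _ => abs_nonneg _
    have h3 : 0 ≤ ∑ k, ∑ l, |Real.log (av v (u k l))| :=
      Finset.sum_nonneg fun k _ => Finset.sum_nonneg fun l _ => abs_nonneg _
    linarith
  have hloc : ∀ v ∈ Sp, ∀ k l x, k ≠ l → Off γ x →
      lam v (τ k x) (τ l x) ≤ ∑ i ∈ S k l, lam v (aff x) (γ i) + ∑ v ∈ Sp, Ev v := by
    intro v hv k l x hkl hx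
    have hEle : Ev v ≤ ∑ v ∈ Sp, Ev v :=
      Finset.single_le_sum (f := fun v => Ev v) (fun v _ => hEv0 v) hv
    refine le_trans ?_ (add_le_add le_rfl hEle)
    have hkv := (hb v k x).2
    have hlv := (hb v l x).2
    have hwne := hτne x hx k l hkl
    rw [lam_eq, lamA_eq (av v) (hτ0 k x) (hτ0 l x) hwne, hw k l hkl]
    have h1 : ∀ i ∈ S k l, lam v (aff x) (γ i) = mt v * (ln (av v) (x, 1) + ln (av v) (γ i) -
        Real.log (av v ((aff x).1 * (γ i).2 - (aff x).2 * (γ i).1))) := by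
      intro i _
      rw [lam_eq, lamA_eq (av v) (aff_ne_zero x) (hγ0 i) (hx i)]
      rfl
    rw [Finset.sum_congr rfl h1, ← Finset.mul_sum, hEv]
    simp only
    rw [← mul_add]
    refine mul_le_mul_of_nonneg_left ?_ (mt_pos v).le
    rw [(av v).map_mul, map_prod, Real.log_mul ((av v).pos (hS k l hkl).1).ne'
      (Finset.prod_ne_zero_iff.mpr fun i _ => ((av v).pos (hx i)).ne'),
      Real.log_prod (fun i _ => ((av v).pos (hx i)).ne')]
    have h2 : ∑ i ∈ S k l, (ln (av v) (x, 1) + ln (av v) (γ i) -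
        Real.log (av v ((aff x).1 * (γ i).2 - (aff x).2 * (γ i).1))) =
        ((deg k : ℝ) + deg l) * ln (av v) (x, 1) + ∑ i ∈ S k l, ln (av v) (γ i) -
        ∑ i ∈ S k l, Real.log (av v ((aff x).1 * (γ i).2 - (aff x).2 * (γ i).1)) := by
      rw [Finset.sum_sub_distrib, Finset.sum_add_distrib, Finset.sum_const, (hS k l hkl).2.1,
        nsmul_eq_mul, Nat.cast_add]
    rw [h2]
    have h3 : -∑ i, |ln (av v) (γ i)| ≤ ∑ i ∈ S k l, ln (av v) (γ i) := by
      have h4 : -∑ i ∈ S k l, |ln (av v) (γ i)| ≤ ∑ i ∈ S k l, ln (av v) (γ i) := by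
        rw [← Finset.sum_neg_distrib]
        exact Finset.sum_le_sum fun i _ => neg_abs_le _
      have h5 : ∑ i ∈ S k l, |ln (av v) (γ i)| ≤ ∑ i, |ln (av v) (γ i)| :=
        Finset.sum_le_sum_of_subset_of_nonneg (Finset.subset_univ _) fun i _ _ => abs_nonneg _
      linarith
    have h6 : b v k ≤ ∑ k, b v k :=
      Finset.single_le_sum (f := fun k => b v k) (fun k _ => hb0 v k) (Finset.mem_univ k)
    have h7 : b v l ≤ ∑ k, b v k :=
      Finset.single_le_sum (f := fun k => b v k) (fun k _ => hb0 v k) (Finset.mem_univ l)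
    have h8 : |Real.log (av v (u k l))| ≤ ∑ k, ∑ l, |Real.log (av v (u k l))| := by
      refine (Finset.single_le_sum (f := fun l => |Real.log (av v (u k l))|)
        (fun l _ => abs_nonneg _) (Finset.mem_univ l)).trans ?_
      exact Finset.single_le_sum (f := fun k => ∑ l, |Real.log (av v (u k l))|)
        (fun k _ => Finset.sum_nonneg fun l _ => abs_nonneg _) (Finset.mem_univ k)
    have h9 := neg_abs_le (Real.log (av v (u k l)))
    have h10 := (abs_le.mp hkv).2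
    have h11 := (abs_le.mp hlv).2
    have h12 : Real.log (max (av v (τ k x).1) (av v (τ k x).2)) =
        ln (av v) ((P k).eval x, (Q k).eval x) := rfl
    have h13 : Real.log (max (av v (τ l x).1) (av v (τ l x).2)) =
        ln (av v) ((P l).eval x, (Q l).eval x) := rfl
    have h14 : ((max (P k).natDegree (Q k).natDegree : ℕ) : ℝ) = (deg k : ℝ) := rfl
    have h15 : ((max (P l).natDegree (Q l).natDegree : ℕ) : ℝ) = (deg l : ℝ) := rfl
    rw [h14] at h10
    rw [h15] at h11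
    rw [h12, h13]
    linarith
  -- constants for the comparison of local heights
  set Cw : ℝ := ∑ v ∈ Sp, mt v * (∑ i, |ln (av v) (γ i)| + ∑ k, b v k) with hCw
  have hCw0 : 0 ≤ Cw := by
    refine Finset.sum_nonneg fun v _ => mul_nonneg (mt_pos v).le ?_
    have h1 : 0 ≤ ∑ k, b v k := Finset.sum_nonneg fun k _ => hb0 v k
    have h2 : 0 ≤ ∑ i, |ln (av v) (γ i)| := Finset.sum_nonneg fun i _ => abs_nonneg _
    linarith
  obtain ⟨C, hC, hall⟩ := u_all hg0 ht0 Sp γ hγ0 hγ A S hAS hSS τ hτ0 hτne (∑ v ∈ Sp, Ev v)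
    (Finset.sum_nonneg fun v _ => hEv0 v) hloc κ hκ0 hκ2 (Cw + max c 0)
    (add_nonneg hCw0 (le_max_right _ _)) δ hδ
  refine ⟨C, hC, fun X hX E hE => hall X hX E ?_⟩
  intro z hz
  obtain ⟨h1, h3, h4, h5⟩ := hE z hz
  have h1A : ∀ i ∈ A, z.1 * (γ i).2 - 1 * (γ i).1 ≠ 0 := by
    have h2 := left_ne_zero_of_mul h1
    rw [Finset.prod_ne_zero_iff] at h2
    exact h2
  have h1B : ∀ k, z.2 * (τ k z.1).2 - 1 * (τ k z.1).1 ≠ 0 := by
    have h2 := right_ne_zero_of_mul h1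
    rw [Finset.prod_ne_zero_iff] at h2
    exact fun k => h2 k (Finset.mem_univ k)
  refine ⟨fun k => h1B k, ?_, h4, h5⟩
  have hcmp : ∑ v ∈ Sp, lamW v (A.card + ∑ k, deg k) t (Geq γ A P Q z.1 z.2) z.1 z.2 ≤
      ∑ v ∈ Sp, ((∑ i ∈ A, lam v (aff z.1) (γ i) + ∑ k, lam v (aff z.2) (τ k z.1)) +
        mt v * (∑ i, |ln (av v) (γ i)| + ∑ k, b v k)) := by
    refine Finset.sum_le_sum fun v _ => ?_
    have h6 := std_eq (av v) γ hγ0 A deg (fun k => τ k z.1) z.1 z.2 (fun k => hτ0 k z.1) h1A h1B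
    have h7 : ∑ i ∈ A, lam v (aff z.1) (γ i) + ∑ k, lam v (aff z.2) (τ k z.1) =
        mt v * (∑ i ∈ A, lamA (av v) ((z.1, 1) : K × K) (γ i) +
          ∑ k, lamA (av v) ((z.2, 1) : K × K) (τ k z.1)) := by
      rw [mul_add, Finset.mul_sum, Finset.mul_sum]
      congr 1
      · exact Finset.sum_congr rfl fun i _ => lam_eq v _ _
      · exact Finset.sum_congr rfl fun k _ => lam_eq v _ _
    rw [h7, ← mul_add]
    unfold lamW
    refine mul_le_mul_of_nonneg_left ?_ (mt_pos v).le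
    have h8 : -Real.log (av v (Geq γ A P Q z.1 z.2) /
        (max (av v z.1) (av v 1) ^ (A.card + ∑ k, deg k) * max (av v z.2) (av v 1) ^ t)) =
        -Real.log (av v ((∏ i ∈ A, (z.1 * (γ i).2 - 1 * (γ i).1)) *
        ∏ k, (z.2 * (τ k z.1).2 - 1 * (τ k z.1).1)) /
        (max (av v z.1) (av v 1) ^ (A.card + ∑ k, deg k) * max (av v z.2) (av v 1) ^ t)) := rfl
    rw [h8]
    have h9 : -∑ i, |ln (av v) (γ i)| ≤ ∑ i ∈ A, ln (av v) (γ i) := by
      have h10 : -∑ i ∈ A, |ln (av v) (γ i)| ≤ ∑ i ∈ A, ln (av v) (γ i) := by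
        rw [← Finset.sum_neg_distrib]
        exact Finset.sum_le_sum fun i _ => neg_abs_le _
      have h11 : ∑ i ∈ A, |ln (av v) (γ i)| ≤ ∑ i, |ln (av v) (γ i)| :=
        Finset.sum_le_sum_of_subset_of_nonneg (Finset.subset_univ _) fun i _ _ => abs_nonneg _
      linarith
    have h12 : -∑ k, b v k ≤
        ∑ k, (ln (av v) (τ k z.1) - deg k * ln (av v) (z.1, 1)) := by
      rw [← Finset.sum_neg_distrib]
      exact Finset.sum_le_sum fun k _ => (abs_le.mp (hb v k z.1).2).1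
    linarith
  rw [Finset.sum_add_distrib] at hcmp
  have h13 := le_max_left c 0
  have h14 : ∑ v ∈ Sp, lamW v (A.card + ∑ k, max (P k).natDegree (Q k).natDegree) t
      (Geq γ A P Q z.1 z.2) z.1 z.2 =
      ∑ v ∈ Sp, lamW v (A.card + ∑ k, deg k) t (Geq γ A P Q z.1 z.2) z.1 z.2 := rfl
  rw [h14] at h3
  linarith

end Pool.Agent.H691R3
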