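import Mathlib

set_option autoImplicit false
set_option linter.unusedVariables false

/-!
Selection of blocks for a surface: two coordinates.
-/

namespace Pool.Agent.H691R3

open Finset

section QSelection

variable {ι : Type*}

/-- choice of blocks, two coordinates, the blocks of the second coordinate may be longer -/
theorem qselection (B : Finset ι) (g1 g2 c : ι → ℝ)
    (hg1 : ∀ a ∈ B, 0 ≤ g1 a) (hg2 : ∀ a ∈ B, 0 ≤ g2 a)
    (hc : ∀ a ∈ B, c a ≤ (g1 a + g2 a) / 2)
    (X Y L C κ : ℝ) (hX : 0 ≤ X) (hY : 0 ≤ Y) (hXL : X ≤ L) (hYL : Y ≤ L) (hC : 0 ≤ C)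
    (hκ : κ ≤ 2) (h1 : ∀ a ∈ B, g1 a ≤ X + C) (h2 : ∀ a ∈ B, g2 a ≤ 2 * X + Y + C)
    (hE : κ * (X + Y) - C ≤ ∑ a ∈ B, (g1 a + g2 a - c a)) :
    ∃ I ⊆ B, (∑ a ∈ I, c a) + (max 0 (2 * X - ∑ a ∈ I, g1 a) +
        max 0 (2 * Y - ∑ a ∈ I, g2 a)) ≤
      max (2 * (2 - κ)) (7 / 2) * L + 3 * C := by
  classical
  have hL : 0 ≤ L := hX.trans hXL
  -- sums without overshoot
  have htot : ∀ J ⊆ B, ∑ a ∈ J, g1 a ≤ 2 * X → ∑ a ∈ J, g2 a ≤ 2 * Y →
      (∑ a ∈ J, c a) + (max 0 (2 * X - ∑ a ∈ J, g1 a) + max 0 (2 * Y - ∑ a ∈ J, g2 a)) =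
        2 * X + 2 * Y - ∑ a ∈ J, (g1 a + g2 a - c a) := by
    intro J _ hJ1 hJ2
    rw [max_eq_right (by linarith), max_eq_right (by linarith), Finset.sum_sub_distrib,
      Finset.sum_add_distrib]
    ring
  have hex1 : 2 * (2 - κ) * L ≤ max (2 * (2 - κ)) (7 / 2) * L :=
    mul_le_mul_of_nonneg_right (le_max_left _ _) hL
  have hex2 : 7 / 2 * L ≤ max (2 * (2 - κ)) (7 / 2) * L :=
    mul_le_mul_of_nonneg_right (le_max_right _ _) hL
  by_cases hB : ∑ a ∈ B, g1 a ≤ 2 * X ∧ ∑ a ∈ B, g2 a ≤ 2 * Y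
  · refine ⟨B, Finset.Subset.refl _, ?_⟩
    rw [htot B (Finset.Subset.refl _) hB.1 hB.2]
    have h3 : (2 - κ) * (X + Y) ≤ (2 - κ) * (2 * L) :=
      mul_le_mul_of_nonneg_left (by linarith) (by linarith)
    linarith
  · set F := B.powerset.filter (fun I => 2 * X < ∑ a ∈ I, g1 a ∨ 2 * Y < ∑ a ∈ I, g2 a) with hF
    have hFne : F.Nonempty := ⟨B, by
      rw [hF, Finset.mem_filter]
      refine ⟨Finset.mem_powerset.mpr (Finset.Subset.refl _), ?_⟩
      by_contra hcon
      push Not at hcon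
      exact hB hcon⟩
    obtain ⟨I, hI, hmin⟩ := Finset.exists_min_image F Finset.card hFne
    rw [hF, Finset.mem_filter, Finset.mem_powerset] at hI
    obtain ⟨hIB, hi⟩ := hI
    have hIne : I.Nonempty := by
      rw [Finset.nonempty_iff_ne_empty]
      intro h
      rw [h, Finset.sum_empty, Finset.sum_empty] at hi
      rcases hi with hi | hi <;> linarith
    have hnot : ∀ a ∈ I, ∑ b ∈ I.erase a, g1 b ≤ 2 * X ∧ ∑ b ∈ I.erase a, g2 b ≤ 2 * Y := by
      intro a ha
      by_contra hcon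
      have hmem : I.erase a ∈ F := by
        rw [hF, Finset.mem_filter, Finset.mem_powerset]
        refine ⟨(Finset.erase_subset _ _).trans hIB, ?_⟩
        by_contra hcon2
        push Not at hcon2
        exact hcon hcon2
      have h7 := hmin _ hmem
      have h8 := Finset.card_erase_lt_of_mem ha
      omega
    have hcI : ∑ b ∈ I, c b ≤ (∑ b ∈ I, g1 b + ∑ b ∈ I, g2 b) / 2 := by
      rw [← Finset.sum_add_distrib, Finset.sum_div]
      exact Finset.sum_le_sum fun b hb => hc b (hIB hb)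
    by_cases hi1 : 2 * X < ∑ a ∈ I, g1 a
    · -- overshoot in the first coordinate
      obtain ⟨a, haI, hamin⟩ := Finset.exists_min_image I g1 hIne
      set J := I.erase a with hJ
      have hJI : J ⊆ I := Finset.erase_subset _ _
      have hJB : J ⊆ B := hJI.trans hIB
      obtain ⟨hJ1, hJ2⟩ := hnot a haI
      rw [← hJ] at hJ1 hJ2
      have hs1 : ∑ b ∈ I, g1 b = ∑ b ∈ J, g1 b + g1 a := (Finset.sum_erase_add _ _ haI).symm
      have hs2 : ∑ b ∈ I, g2 b = ∑ b ∈ J, g2 b + g2 a := (Finset.sum_erase_add _ _ haI).symm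
      set R := ∑ b ∈ J, g1 b with hR
      have hoptJ : (∑ b ∈ J, c b) + (max 0 (2 * X - ∑ b ∈ J, g1 b) +
          max 0 (2 * Y - ∑ b ∈ J, g2 b)) ≤ 2 * X + 2 * Y - R / 2 := by
        rw [htot J hJB hJ1 hJ2]
        have h3 : R / 2 ≤ ∑ b ∈ J, (g1 b + g2 b - c b) := by
          rw [hR, Finset.sum_div]
          refine Finset.sum_le_sum fun b hb => ?_
          have h4 := hc b (hJB hb)
          have h5 := hg2 b (hJB hb)
          linarith
        linarith
      have hoptI : (∑ b ∈ I, c b) + (max 0 (2 * X - ∑ b ∈ I, g1 b) +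
          max 0 (2 * Y - ∑ b ∈ I, g2 b)) ≤ (R + g1 a) / 2 + 5 / 2 * L + C := by
        rw [max_eq_left (by linarith)]
        have h3 : 0 ≤ ∑ b ∈ I, g2 b := Finset.sum_nonneg fun b hb => hg2 b (hIB hb)
        have h4 := h2 a (hIB haI)
        rcases max_cases 0 (2 * Y - ∑ b ∈ I, g2 b) with h | h
        · rw [h.1]; linarith
        · rw [h.1]; linarith
      rcases Nat.lt_or_ge I.card 3 with hcard | hcard
      · refine ⟨I, hIB, ?_⟩
        have h3 : R + g1 a ≤ 2 * (X + C) := by
          rw [← hs1]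
          calc ∑ b ∈ I, g1 b ≤ ∑ _b ∈ I, (X + C) :=
                Finset.sum_le_sum fun b hb => h1 b (hIB hb)
            _ = I.card * (X + C) := by rw [Finset.sum_const, nsmul_eq_mul]
            _ ≤ 2 * (X + C) := by
                refine mul_le_mul_of_nonneg_right ?_ (by linarith)
                exact_mod_cast (by omega : I.card ≤ 2)
        linarith
      · have hR2 : 2 * g1 a ≤ R := by
          have h3 : 2 ≤ J.card := by
            rw [hJ, Finset.card_erase_of_mem haI]
            omega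
          have h4 : 0 ≤ g1 a := hg1 a (hIB haI)
          calc 2 * g1 a ≤ J.card * g1 a :=
                mul_le_mul_of_nonneg_right (by exact_mod_cast h3) h4
            _ = ∑ _b ∈ J, g1 a := by rw [Finset.sum_const, nsmul_eq_mul]
            _ ≤ R := Finset.sum_le_sum fun b hb => hamin b (hJI hb)
        rcases le_or_gt (6 / 5 * X) R with h3 | h3
        · exact ⟨J, hJB, by linarith⟩
        · exact ⟨I, hIB, by linarith⟩
    · -- overshoot in the second coordinate
      have hi2 : 2 * Y < ∑ a ∈ I, g2 a := by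
        rcases hi with hi | hi
        · exact absurd hi hi1
        · exact hi
      rw [not_lt] at hi1
      obtain ⟨a, haI, hamin⟩ := Finset.exists_min_image I g2 hIne
      set J := I.erase a with hJ
      have hJI : J ⊆ I := Finset.erase_subset _ _
      have hJB : J ⊆ B := hJI.trans hIB
      obtain ⟨hJ1, hJ2⟩ := hnot a haI
      rw [← hJ] at hJ1 hJ2
      have hs2 : ∑ b ∈ I, g2 b = ∑ b ∈ J, g2 b + g2 a := (Finset.sum_erase_add _ _ haI).symm
      set R := ∑ b ∈ J, g2 b with hR
      have hoptJ : (∑ b ∈ J, c b) + (max 0 (2 * X - ∑ b ∈ J, g1 b) +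
          max 0 (2 * Y - ∑ b ∈ J, g2 b)) ≤ 2 * X + 2 * Y - R / 2 := by
        rw [htot J hJB hJ1 hJ2]
        have h3 : R / 2 ≤ ∑ b ∈ J, (g1 b + g2 b - c b) := by
          rw [hR, Finset.sum_div]
          refine Finset.sum_le_sum fun b hb => ?_
          have h4 := hc b (hJB hb)
          have h5 := hg1 b (hJB hb)
          linarith
        linarith
      have hG1 : 0 ≤ ∑ b ∈ I, g1 b := Finset.sum_nonneg fun b hb => hg1 b (hIB hb)
      have hoptI : (∑ b ∈ I, c b) + (max 0 (2 * X - ∑ b ∈ I, g1 b) +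
          max 0 (2 * Y - ∑ b ∈ I, g2 b)) ≤ 2 * X + (R + g2 a) / 2 := by
        rw [max_eq_right (by linarith), max_eq_left (by linarith)]
        linarith
      rcases Nat.lt_or_ge I.card 2 with hcard | hcard
      · refine ⟨I, hIB, ?_⟩
        have h3 : R + g2 a ≤ 1 * (2 * X + Y + C) := by
          rw [← hs2]
          calc ∑ b ∈ I, g2 b ≤ ∑ _b ∈ I, (2 * X + Y + C) :=
                Finset.sum_le_sum fun b hb => h2 b (hIB hb)
            _ = I.card * (2 * X + Y + C) := by rw [Finset.sum_const, nsmul_eq_mul]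
            _ ≤ 1 * (2 * X + Y + C) := by
                refine mul_le_mul_of_nonneg_right ?_ (by linarith)
                exact_mod_cast (by omega : I.card ≤ 1)
        linarith
      · have hR2 : g2 a ≤ R := by
          have h3 : 1 ≤ J.card := by
            rw [hJ, Finset.card_erase_of_mem haI]
            omega
          have h4 : 0 ≤ g2 a := hg2 a (hIB haI)
          calc g2 a = 1 * g2 a := (one_mul _).symm
            _ ≤ J.card * g2 a :=
                mul_le_mul_of_nonneg_right (by exact_mod_cast h3) h4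
            _ = ∑ _b ∈ J, g2 a := by rw [Finset.sum_const, nsmul_eq_mul]
            _ ≤ R := Finset.sum_le_sum fun b hb => hamin b (hJI hb)
        rcases le_or_gt (4 / 3 * Y) R with h3 | h3
        · exact ⟨J, hJB, by linarith⟩
        · exact ⟨I, hIB, by linarith⟩

end QSelection

end Pool.Agent.H691R3
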