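import Pool.Agent.H691R3.QForm

set_option autoImplicit false
set_option linter.unusedSectionVars false
set_option linter.unusedVariables false

/-!
The counting theorem for graphs of rational functions of degree at most two.
-/

namespace Pool.Agent.H691R3

open NumberField IsDedekindDomain Finset

variable {K : Type*} [Field K] [NumberField K]

/-- explicit curves give a configuration -/
theorem exists_cfg2 {g t : ℕ} (γ : Fin g → K × K) (hγ0 : ∀ i, γ i ≠ 0)
    (hγ : ∀ i j, i ≠ j → (γ i).1 * (γ j).2 - (γ i).2 * (γ j).1 ≠ 0)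
    (A : Finset (Fin g)) (P Q : Fin t → Polynomial K) (hPQ : ∀ k, IsCoprime (P k) (Q k))
    (hd2 : ∀ k, max (P k).natDegree (Q k).natDegree ≤ 2)
    (S : Fin t → Fin t → Finset (Fin g)) (u : Fin t → Fin t → K)
    (hS : ∀ k l, k ≠ l → u k l ≠ 0 ∧
      (S k l).card = max (P k).natDegree (Q k).natDegree + max (P l).natDegree (Q l).natDegree ∧
      ∀ x : K, (P k).eval x * (Q l).eval x - (Q k).eval x * (P l).eval x =
        u k l * ∏ i ∈ S k l, (x * (γ i).2 - 1 * (γ i).1))
    (hAS : ∀ k l, k ≠ l → Disjoint A (S k l))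
    (hSS : ∀ k l m, k ≠ l → k ≠ m → l ≠ m → Disjoint (S k m) (S l m)) :
    ∃ F : Cfg2 K g t, F.γ = γ ∧ F.A = A ∧
      F.τ = (fun k x => ((P k).eval x, (Q k).eval x)) ∧
      F.d = fun k => ((max (P k).natDegree (Q k).natDegree : ℕ) : ℝ) := by
  classical
  choose b hb0 hbf hb using fun k => rat_bound (P k) (Q k) (hPQ k)
  set deg : Fin t → ℕ := fun k => max (P k).natDegree (Q k).natDegree with hdeg
  set τ : Fin t → K → K × K := fun k x => ((P k).eval x, (Q k).eval x) with hτ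
  set Ch : Fin t → ℝ := fun k => ∑ w : InfinitePlace K, (w.mult : ℝ) * b k (Sum.inl w) +
      ∑ v ∈ (hbf k).toFinset, b k (Sum.inr v) with hCh
  have hCh0 : ∀ k, 0 ≤ Ch k := fun k => add_nonneg
    (Finset.sum_nonneg fun w _ => mul_nonneg (Nat.cast_nonneg _) (hb0 k _))
    (Finset.sum_nonneg fun v _ => hb0 k _)
  have hτ0 : ∀ k x, τ k x ≠ 0 := fun k x => (hb k x).1
  have hw : ∀ k l, k ≠ l → ∀ x, (τ k x).1 * (τ l x).2 - (τ k x).2 * (τ l x).1 =
      u k l * ∏ i ∈ S k l, ((aff x).1 * (γ i).2 - (aff x).2 * (γ i).1) :=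
    fun k l hkl x => (hS k l hkl).2.2 x
  have hτne : ∀ x, Off γ x → ∀ k l, k ≠ l →
      (τ k x).1 * (τ l x).2 - (τ k x).2 * (τ l x).1 ≠ 0 := by
    intro x hx k l hkl
    rw [hw k l hkl]
    refine mul_ne_zero (hS k l hkl).1 ?_
    rw [Finset.prod_ne_zero_iff]
    intro i _
    exact hx i
  set E : Pl K → ℝ := fun v => mt v * (2 * ∑ k, b k v + ∑ i, |ln (av v) (γ i)| +
    ∑ k, ∑ l, |Real.log (av v (u k l))|) with hE
  refine ⟨{ γ := γ, A := A, τ := τ, S := S, d := fun k => (deg k : ℝ),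
            E := E, Ct := ∑ k, Ch k, γ0 := hγ0, γne := hγ,
            τ0 := hτ0
            τne := hτne, loc := ?_, E0 := ?_, Efin := ?_, d0 := fun k => Nat.cast_nonneg _,
            d1 := fun k => by exact_mod_cast hd2 k,
            Ct0 := Finset.sum_nonneg fun k _ => hCh0 k,
            ht := ?_, AS := hAS, SS := hSS }, rfl, rfl, rfl, rfl⟩
  · intro v k l x hkl hx
    have hkv := (hb k x).2 v
    have hlv := (hb l x).2 v
    have hwne := hτne x hx k l hkl
    rw [lam_eq, lamA_eq (av v) (hτ0 k x) (hτ0 l x) hwne, hw k l hkl]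
    have h1 : ∀ i ∈ S k l, lam v (aff x) (γ i) = mt v * (ln (av v) (x, 1) + ln (av v) (γ i) -
        Real.log (av v ((aff x).1 * (γ i).2 - (aff x).2 * (γ i).1))) := by
      intro i _
      rw [lam_eq, lamA_eq (av v) (aff_ne_zero x) (hγ0 i) (hx i)]
      rfl
    rw [Finset.sum_congr rfl h1, ← Finset.mul_sum, hE]
    simp only
    rw [← mul_add]
    refine mul_le_mul_of_nonneg_left ?_ (mt_pos v).le
    rw [(av v).map_mul, map_prod, Real.log_mul ((av v).pos (hS k l hkl).1).ne'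
      (Finset.prod_ne_zero_iff.mpr fun i _ => ((av v).pos (hx i)).ne'),
      Real.log_prod (fun i _ => ((av v).pos (hx i)).ne')]
    have h2 : ∑ i ∈ S k l, (ln (av v) (x, 1) + ln (av v) (γ i) -
        Real.log (av v ((aff x).1 * (γ i).2 - (aff x).2 * (γ i).1))) =
        ((deg k : ℝ) + deg l) * ln (av v) (x, 1) + ∑ i ∈ S k l, ln (av v) (γ i) -
        ∑ i ∈ S k l, Real.log (av v ((aff x).1 * (γ i).2 - (aff x).2 * (γ i).1)) := by
      rw [Finset.sum_sub_distrib, Finset.sum_add_distrib, Finset.sum_const, (hS k l hkl).2.1,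
        nsmul_eq_mul, Nat.cast_add]
    rw [h2]
    have h3 : -∑ i, |ln (av v) (γ i)| ≤ ∑ i ∈ S k l, ln (av v) (γ i) := by
      have h4 : -∑ i ∈ S k l, |ln (av v) (γ i)| ≤ ∑ i ∈ S k l, ln (av v) (γ i) := by
        rw [← Finset.sum_neg_distrib]
        exact Finset.sum_le_sum fun i _ => neg_abs_le _
      have h5 : ∑ i ∈ S k l, |ln (av v) (γ i)| ≤ ∑ i, |ln (av v) (γ i)| :=
        Finset.sum_le_sum_of_subset_of_nonneg (Finset.subset_univ _) fun i _ _ => abs_nonneg _
      linarith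
    have h6 : b k v ≤ ∑ k, b k v :=
      Finset.single_le_sum (f := fun k => b k v) (fun k _ => hb0 k v) (Finset.mem_univ k)
    have h7 : b l v ≤ ∑ k, b k v :=
      Finset.single_le_sum (f := fun k => b k v) (fun k _ => hb0 k v) (Finset.mem_univ l)
    have h8 : |Real.log (av v (u k l))| ≤ ∑ k, ∑ l, |Real.log (av v (u k l))| := by
      refine (Finset.single_le_sum (f := fun l => |Real.log (av v (u k l))|)
        (fun l _ => abs_nonneg _) (Finset.mem_univ l)).trans ?_
      exact Finset.single_le_sum (f := fun k => ∑ l, |Real.log (av v (u k l))|)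
        (fun k _ => Finset.sum_nonneg fun l _ => abs_nonneg _) (Finset.mem_univ k)
    have h9 := neg_abs_le (Real.log (av v (u k l)))
    have h10 := (abs_le.mp hkv).2
    have h11 := (abs_le.mp hlv).2
    have h12 : Real.log (max (av v (τ k x).1) (av v (τ k x).2)) =
        ln (av v) ((P k).eval x, (Q k).eval x) := rfl
    have h13 : Real.log (max (av v (τ l x).1) (av v (τ l x).2)) =
        ln (av v) ((P l).eval x, (Q l).eval x) := rfl
    have h14 : ((max (P k).natDegree (Q k).natDegree : ℕ) : ℝ) = (deg k : ℝ) := rfl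
    have h15 : ((max (P l).natDegree (Q l).natDegree : ℕ) : ℝ) = (deg l : ℝ) := rfl
    rw [h14] at h10
    rw [h15] at h11
    rw [h12, h13]
    linarith
  · intro v
    rw [hE]
    simp only
    refine mul_nonneg (mt_pos v).le ?_
    have h1 : 0 ≤ ∑ k, b k v := Finset.sum_nonneg fun k _ => hb0 k v
    have h2 : 0 ≤ ∑ i, |ln (av v) (γ i)| := Finset.sum_nonneg fun i _ => abs_nonneg _
    have h3 : 0 ≤ ∑ k, ∑ l, |Real.log (av v (u k l))| :=
      Finset.sum_nonneg fun k _ => Finset.sum_nonneg fun l _ => abs_nonneg _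
    linarith
  · have hcf : ∀ k l, {v : HeightOneSpectrum (𝓞 K) | Real.log (fv v (u k l)) ≠ 0}.Finite := by
      intro k l
      by_cases h : u k l = 0
      · convert Set.finite_empty
        ext v
        simp [h]
      · exact log_fv_support_finite h
    refine (((Set.finite_iUnion fun k => hbf k).union
      (Set.finite_iUnion fun i => lnf_finite (hγ0 i))).union
      (Set.finite_iUnion fun k => Set.finite_iUnion fun l => hcf k l)).subset ?_
    intro v hv
    simp only [Set.mem_union, Set.mem_iUnion, Set.mem_ofPred_eq]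
    by_contra hcon
    push Not at hcon
    obtain ⟨⟨h1, h2⟩, h3⟩ := hcon
    rw [Set.mem_ofPred_eq] at hv
    apply hv
    have h4 : av (Sum.inr v : Pl K) = fv v := rfl
    rw [hE]
    simp only
    rw [Finset.sum_eq_zero fun k _ => h1 k]
    rw [h4, Finset.sum_eq_zero (fun i _ => by rw [h2 i, abs_zero]),
      Finset.sum_eq_zero (fun k _ => Finset.sum_eq_zero fun l _ => by rw [h3 k l, abs_zero])]
    ring
  · intro k x
    refine (height_cmp (b k) (hb0 k) (hbf k) (deg k) (τ k x) (aff x) (hτ0 k x) (aff_ne_zero x)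
      (fun v => (hb k x).2 v)).trans ?_
    exact Finset.single_le_sum (f := fun k => Ch k) (fun k _ => hCh0 k) (Finset.mem_univ k)

/-- the truncated counting function from the equation -/
noncomputable def NSq (T : Set (HeightOneSpectrum (𝓞 K))) {g t : ℕ} (γ : Fin g → K × K)
    (A : Finset (Fin g)) (P Q : Fin t → Polynomial K) (x y : K) : ℝ :=
  ∑ᶠ (v : HeightOneSpectrum (𝓞 K)) (_ : v ∉ T),
    min (lamS v (A.card + ∑ k, max (P k).natDegree (Q k).natDegree) t (Geq γ A P Q x y) x y)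
      (Real.log (Nv v))

/-- the two truncated counting functions differ by a bounded amount -/
lemma NTp_le_NSq (T : Set (HeightOneSpectrum (𝓞 K))) {g t : ℕ} (γ : Fin g → K × K)
    (hγ0 : ∀ i, γ i ≠ 0) (A : Finset (Fin g)) (P Q : Fin t → Polynomial K)
    (hPQ : ∀ k, IsCoprime (P k) (Q k)) :
    ∃ C : ℝ, 0 ≤ C ∧ ∀ x y : K, Geq γ A P Q x y ≠ 0 →
      NTp T γ A (fun k x => ((P k).eval x, (Q k).eval x)) x y ≤ NSq T γ A P Q x y + C := by
  classical
  choose b hb0 hbf hb using fun k => rat_bound (P k) (Q k) (hPQ k)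
  set deg : Fin t → ℕ := fun k => max (P k).natDegree (Q k).natDegree with hdeg
  set E2 : HeightOneSpectrum (𝓞 K) → ℝ := fun v =>
    ∑ i, |ln (fv v) (γ i)| + ∑ k, b k (Sum.inr v) with hE2
  have hE20 : ∀ v, 0 ≤ E2 v := fun v =>
    add_nonneg (Finset.sum_nonneg fun i _ => abs_nonneg _) (Finset.sum_nonneg fun k _ => hb0 k _)
  have hE2f : {v | E2 v ≠ 0}.Finite := by
    refine ((Set.finite_iUnion fun k => hbf k).union
      (Set.finite_iUnion fun i => lnf_finite (hγ0 i))).subset ?_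
    intro v hv
    simp only [Set.mem_union, Set.mem_iUnion, Set.mem_ofPred_eq]
    by_contra hcon
    push Not at hcon
    obtain ⟨h1, h2⟩ := hcon
    rw [Set.mem_ofPred_eq] at hv
    apply hv
    rw [hE2]
    simp only
    rw [Finset.sum_eq_zero (fun k _ => h1 k),
      Finset.sum_eq_zero (fun i _ => by rw [h2 i, abs_zero]), add_zero]
  refine ⟨∑ v ∈ hE2f.toFinset, E2 v, Finset.sum_nonneg fun v _ => hE20 v, ?_⟩
  intro x y hxy
  set Tx : Fin t → K × K := fun k => ((P k).eval x, (Q k).eval x) with hTx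
  have hTx0 : ∀ k, Tx k ≠ 0 := fun k => (hb k x).1
  have hx : ∀ i ∈ A, x * (γ i).2 - 1 * (γ i).1 ≠ 0 := by
    have h2 := left_ne_zero_of_mul hxy
    rw [Finset.prod_ne_zero_iff] at h2
    exact h2
  have hy : ∀ k, y * (Tx k).2 - 1 * (Tx k).1 ≠ 0 := by
    have h2 := right_ne_zero_of_mul hxy
    rw [Finset.prod_ne_zero_iff] at h2
    exact fun k => h2 k (Finset.mem_univ k)
  set mine : HeightOneSpectrum (𝓞 K) → ℝ := fun v =>
    ∑ i ∈ A, lamA (fv v) (aff x) (γ i) + ∑ k, lamA (fv v) (aff y) (Tx k) with hmine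
  set std : HeightOneSpectrum (𝓞 K) → ℝ := fun v =>
    lamS v (A.card + ∑ k, deg k) t (Geq γ A P Q x y) x y with hstd
  have hdiff : ∀ v, |mine v - std v| ≤ E2 v := by
    intro v
    have h1 := std_eq (fv v) γ hγ0 A deg Tx x y hTx0 hx hy
    have h2 : mine v - std v = ∑ i ∈ A, ln (fv v) (γ i) +
        ∑ k, (ln (fv v) (Tx k) - deg k * ln (fv v) (x, 1)) := h1
    rw [h2]
    refine (abs_add_le _ _).trans (add_le_add ?_ ?_)
    · refine (Finset.abs_sum_le_sum_abs _ _).trans ?_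
      exact Finset.sum_le_sum_of_subset_of_nonneg (Finset.subset_univ _)
        fun i _ _ => abs_nonneg _
    · refine (Finset.abs_sum_le_sum_abs _ _).trans (Finset.sum_le_sum fun k _ => ?_)
      exact (hb k x).2 (Sum.inr v)
  have hmf : {v | mine v ≠ 0}.Finite := by
    refine ((Set.Finite.biUnion (s := (A : Set (Fin g))) A.finite_toSet fun i hi =>
      lamF_support_finite (aff_ne_zero x) (hγ0 i) (hx i hi)).union
      (Set.finite_iUnion fun k => lamF_support_finite (aff_ne_zero y) (hTx0 k) (hy k))).subset ?_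
    intro v hv
    simp only [Set.mem_union, Set.mem_iUnion, Set.mem_ofPred_eq]
    by_contra hcon
    push Not at hcon
    obtain ⟨h1, h2⟩ := hcon
    rw [Set.mem_ofPred_eq] at hv
    apply hv
    rw [hmine]
    simp only
    rw [Finset.sum_eq_zero (fun i hi => h1 i (by exact_mod_cast hi)),
      Finset.sum_eq_zero (fun k _ => h2 k), add_zero]
  set V : Finset (HeightOneSpectrum (𝓞 K)) := hE2f.toFinset ∪ hmf.toFinset with hV
  have hVm : ∀ v, v ∉ V → mine v = 0 ∧ std v = 0 ∧ E2 v = 0 := by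
    intro v hv
    rw [hV, Finset.mem_union, Set.Finite.mem_toFinset, Set.Finite.mem_toFinset,
      Set.mem_ofPred_eq, Set.mem_ofPred_eq] at hv
    push Not at hv
    obtain ⟨h1, h2⟩ := hv
    have h3 := hdiff v
    rw [h1, h2] at h3
    have h4 := abs_eq_zero.mp (le_antisymm h3 (abs_nonneg _))
    exact ⟨h2, by linarith, h1⟩
  have key : ∀ f : HeightOneSpectrum (𝓞 K) → ℝ, (∀ v, v ∉ V → f v = 0) →
      ∑ᶠ (v : HeightOneSpectrum (𝓞 K)) (_ : v ∉ T), min (f v) (Real.log (Nv v)) =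
        ∑ v ∈ V.filter (fun v => v ∉ T), min (f v) (Real.log (Nv v)) := by
    intro f hf
    simp only [← Set.mem_compl_iff]
    rw [finsum_mem_eq_sum_of_inter_support_eq (t := V.filter (fun v => v ∉ T))]
    · exact Finset.sum_congr rfl fun v _ => rfl
    ext v
    simp only [Set.mem_compl_iff, Set.mem_inter_iff, Function.mem_support, Finset.coe_filter,
      Set.mem_ofPred_eq]
    constructor
    · rintro ⟨hv1, hv2⟩
      refine ⟨⟨?_, hv1⟩, hv2⟩
      by_contra hcon
      apply hv2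
      rw [hf v hcon]
      exact min_eq_left (log_Nv_pos v).le
    · rintro ⟨⟨_, hv1⟩, hv2⟩
      exact ⟨hv1, hv2⟩
  have h1 : NTp T γ A (fun k x => ((P k).eval x, (Q k).eval x)) x y =
      ∑ v ∈ V.filter (fun v => v ∉ T), min (mine v) (Real.log (Nv v)) :=
    key mine fun v hv => (hVm v hv).1
  have h2 : NSq T γ A P Q x y =
      ∑ v ∈ V.filter (fun v => v ∉ T), min (std v) (Real.log (Nv v)) :=
    key std fun v hv => (hVm v hv).2.1
  rw [h1, h2]
  have h3 : ∑ v ∈ V.filter (fun v => v ∉ T), min (mine v) (Real.log (Nv v)) ≤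
      ∑ v ∈ V.filter (fun v => v ∉ T), (min (std v) (Real.log (Nv v)) + E2 v) := by
    refine Finset.sum_le_sum fun v _ => ?_
    have h4 := (abs_le.mp (hdiff v)).2
    have h5 := hE20 v
    rcases min_cases (std v) (Real.log (Nv v)) with h | h
    · rw [h.1]
      exact (min_le_left _ _).trans (by linarith)
    · rw [h.1]
      exact (min_le_right _ _).trans (by linarith)
  rw [Finset.sum_add_distrib] at h3
  have h6 : ∑ v ∈ V.filter (fun v => v ∉ T), E2 v ≤ ∑ v ∈ hE2f.toFinset, E2 v := by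
    calc ∑ v ∈ V.filter (fun v => v ∉ T), E2 v ≤ ∑ v ∈ V, E2 v :=
          Finset.sum_le_sum_of_subset_of_nonneg (Finset.filter_subset _ _) fun v _ _ => hE20 v
      _ = ∑ v ∈ hE2f.toFinset, E2 v := by
          symm
          refine Finset.sum_subset (Finset.subset_union_left) ?_
          intro v _ hv
          rw [Set.Finite.mem_toFinset, Set.mem_ofPred_eq, not_not] at hv
          exact hv
  linarith

/-- the counting theorem in the explicit setting -/
theorem qstd_count {g t : ℕ} (hg0 : 0 < g) (ht0 : 0 < t)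
    (T : Set (HeightOneSpectrum (𝓞 K))) (hT : T.Finite)
    (γ : Fin g → K × K) (hγ0 : ∀ i, γ i ≠ 0)
    (hγ : ∀ i j, i ≠ j → (γ i).1 * (γ j).2 - (γ i).2 * (γ j).1 ≠ 0)
    (A : Finset (Fin g)) (P Q : Fin t → Polynomial K) (hPQ : ∀ k, IsCoprime (P k) (Q k))
    (hd2 : ∀ k, max (P k).natDegree (Q k).natDegree ≤ 2)
    (S : Fin t → Fin t → Finset (Fin g)) (u : Fin t → Fin t → K)
    (hS : ∀ k l, k ≠ l → u k l ≠ 0 ∧
      (S k l).card = max (P k).natDegree (Q k).natDegree + max (P l).natDegree (Q l).natDegree ∧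
      ∀ x : K, (P k).eval x * (Q l).eval x - (Q k).eval x * (P l).eval x =
        u k l * ∏ i ∈ S k l, (x * (γ i).2 - 1 * (γ i).1))
    (hAS : ∀ k l, k ≠ l → Disjoint A (S k l))
    (hSS : ∀ k l m, k ≠ l → k ≠ m → l ≠ m → Disjoint (S k m) (S l m))
    (κ : ℝ) (hκ0 : 0 ≤ κ) (hκ2 : κ ≤ 2) (C0 : ℝ) (δ : ℝ) (hδ : 0 < δ) :
    ∃ C : ℝ, 0 ≤ C ∧ ∀ X : ℝ, 0 ≤ X → ∀ E : Finset (K × K),
      (∀ z ∈ E, Geq γ A P Q z.1 z.2 ≠ 0 ∧
        NSq T γ A P Q z.1 z.2 <
          (((A.card + ∑ k, max (P k).natDegree (Q k).natDegree : ℕ) : ℝ) - κ) * hr (aff z.1) +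
          ((t : ℝ) - κ) * hr (aff z.2) + C0 ∧
        hr (aff z.1) ≤ X ∧ hr (aff z.2) ≤ X) →
      (E.card : ℝ) ≤ C * Real.exp ((max (2 * (2 - κ)) (7 / 2) + δ) * X) := by
  classical
  obtain ⟨F, hF1, hF2, hF3, hF4⟩ := exists_cfg2 γ hγ0 hγ A P Q hPQ hd2 S u hS hAS hSS
  obtain ⟨C1, hC1, hcmp⟩ := NTp_le_NSq T γ hγ0 A P Q hPQ
  obtain ⟨C, hC, hall⟩ := qcount_all hg0 ht0 T hT F κ hκ0 hκ2 (C1 + max C0 0)
    (add_nonneg hC1 (le_max_right _ _)) δ hδ
  refine ⟨C, hC, fun X hX E hE => hall X hX E ?_⟩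
  intro z hz
  obtain ⟨h1, h3, h4, h5⟩ := hE z hz
  refine ⟨?_, ?_, h4, h5⟩
  · intro k
    rw [hF3]
    have h2 := right_ne_zero_of_mul h1
    rw [Finset.prod_ne_zero_iff] at h2
    exact h2 k (Finset.mem_univ k)
  · rw [hF1, hF2, hF3, hF4]
    have h6 := hcmp z.1 z.2 h1
    rw [Nat.cast_add, Nat.cast_sum] at h3
    have h7 := le_max_left C0 0
    linarith

end Pool.Agent.H691R3
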