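import Pool.Agent.H691R3.Comb2

set_option autoImplicit false
set_option linter.unusedVariables false

/-!
A checked certificate for the selection of methods: linear forms in the class sums of a system
of blocks, and a case tree with multipliers at the leaves.
-/

namespace Pool.Agent.H691R3

open Finset

universe u

/-- an inequality `0 ≤ form` (strict when `s` is true) in the class sums -/
structure LForm where
  f : ℕ → ℕ → ℤ
  x : ℤ
  c : ℤ
  s : Bool

/-- the combination of inequalities with given multipliers -/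
def comb : List ℕ → List LForm → LForm
  | [], _ => ⟨fun _ _ => 0, 0, 0, false⟩
  | _ :: _, [] => ⟨fun _ _ => 0, 0, 0, false⟩
  | n :: ns, h :: hs =>
    if n = 0 then comb ns hs else
      ⟨fun l j => n * h.f l j + (comb ns hs).f l j, n * h.x + (comb ns hs).x,
        n * h.c + (comb ns hs).c, h.s || (comb ns hs).s⟩

/-- a case tree -/
inductive CTree where
  | leaf (ms : List ℕ) : CTree
  | node (k i1 i2 mask : ℕ) (t1 t2 : CTree) : CTree

/-- admissibility of a method with a set of classes -/
def nodeValid (q J k i1 i2 mask : ℕ) : Bool :=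
  decide (1 ≤ k) && decide (k ≤ 4) && decide (i1 < q) && decide (i2 < q) && decide (i1 ≠ i2) &&
    (List.range J).all fun j => decide (k = 1) || (decide (j + 1 < J) && decide (k ∣ j + 1)) ||
      (mask.testBit (i1 * J + j) && mask.testBit (i2 * J + j))

/-- the factor of the gain, times `k` -/
def gfac (k i1 i2 l : ℕ) : ℤ := if l = i1 ∨ l = i2 then 1 else k

/-- first alternative: the cost alone is large -/
def form1 (J en ed Cm mask : ℕ) : LForm :=
  ⟨fun l j => if j < J then (if mask.testBit (l * J + j) then (ed : ℤ) else 0) else 0,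
    -(en : ℤ), -(Cm : ℤ), true⟩

/-- second alternative: the cost plus the lack of gain is large -/
def form2 (J en ed Cm k i1 i2 mask : ℕ) : LForm :=
  ⟨fun l j => if j < J then (if mask.testBit (l * J + j) then
      (ed : ℤ) * (k - ((j : ℤ) + 1) * gfac k i1 i2 l) else 0)
    else if j = J then (if mask.testBit (l * J + (J - 1)) then -((ed : ℤ) * gfac k i1 i2 l) else 0)
    else -((ed : ℤ) * gfac k i1 i2 l),
    2 * (ed : ℤ) - (k : ℤ) * en, -(Cm : ℤ), true⟩

/-- the checker -/
def check (q J en ed Cm : ℕ) : CTree → List LForm → Bool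
  | .leaf ms, hs => (comb ms hs).s && decide ((comb ms hs).x ≤ 0) && decide ((comb ms hs).c ≤ 0) &&
      (List.range q).all fun l => (List.range (J + 2)).all fun j => decide ((comb ms hs).f l j ≤ 0)
  | .node k i1 i2 mask t1 t2, hs => nodeValid q J k i1 i2 mask &&
      (check q J en ed Cm t1 (form1 J en ed Cm mask :: hs) &&
        check q J en ed Cm t2 (form2 J en ed Cm k i1 i2 mask :: hs))

/-- the constraint of one form -/
def formH (J l : ℕ) : LForm :=
  ⟨fun l' j => if l' = l then (if j < J then -((j : ℤ) + 1) else -1) else 0, 1, 1, false⟩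

/-- the excess constraint -/
def excH (J kn kd : ℕ) : LForm :=
  ⟨fun _ j => if j < J then (kd : ℤ) * j else kd, -(kn : ℤ), kd, false⟩

/-- the ordering constraint -/
def ordH (J l : ℕ) : LForm :=
  ⟨fun l' j => if j < J then (if l' = l then 1 else if l' = l + 1 then -1 else 0) else 0,
    0, 0, false⟩

/-- the constraints of the problem -/
def baseH (q J kn kd : ℕ) : List LForm :=
  (List.range q).map (formH J) ++ ([excH J kn kd] ++ (List.range (q - 1)).map (ordH J))

section Sound

variable {ι : Type u} {q : ℕ}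

/-- contribution of a block -/
noncomputable def bval (J : ℕ) (w c : ι → ℝ) (lab : ι → Fin q) (m : ι → ℕ) (F : ℕ → ℕ → ℤ)
    (a : ι) : ℝ :=
  if c a = 0 then (F (lab a) (J + 1) : ℝ) * w a
  else if m a < J then (F (lab a) (m a - 1) : ℝ) * c a
  else (F (lab a) (J - 1) : ℝ) * c a + (F (lab a) J : ℝ) * (w a - J * c a)

/-- the value of a form -/
noncomputable def ev (J : ℕ) (B : Finset ι) (w c : ι → ℝ) (lab : ι → Fin q) (m : ι → ℕ)
    (X C : ℝ) (h : LForm) : ℝ :=
  ∑ a ∈ B, bval J w c lab m h.f a + h.x * X + h.c * C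

/-- the inequality holds -/
def Holds (J : ℕ) (B : Finset ι) (w c : ι → ℝ) (lab : ι → Fin q) (m : ι → ℕ)
    (X C : ℝ) (h : LForm) : Prop :=
  0 ≤ ev J B w c lab m X C h ∧ (h.s = true → 0 < ev J B w c lab m X C h)

variable {J : ℕ} {B : Finset ι} {w c : ι → ℝ} {lab : ι → Fin q} {m : ι → ℕ} {X C κ : ℝ}

lemma bval_comb (n : ℤ) (F G : ℕ → ℕ → ℤ) (a : ι) :
    bval J w c lab m (fun l j => n * F l j + G l j) a =
      n * bval J w c lab m F a + bval J w c lab m G a := by
  unfold bval
  split_ifs <;> push_cast <;> ring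

lemma comb_holds : ∀ (ms : List ℕ) (hs : List LForm),
    (∀ h ∈ hs, Holds J B w c lab m X C h) → Holds J B w c lab m X C (comb ms hs) := by
  intro ms
  induction ms with
  | nil =>
    intro hs _
    unfold comb Holds ev bval
    simp
  | cons n ns ih =>
    intro hs hh
    cases hs with
    | nil =>
      unfold comb Holds ev bval
      simp
    | cons h hs =>
      have h1 := hh h (by simp)
      have h2 := ih hs (fun g hg => hh g (by simp [hg]))
      rw [comb]
      split_ifs with hn
      · exact h2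
      · have hn0 : (0 : ℝ) < n := by exact_mod_cast Nat.pos_of_ne_zero hn
        have h3 : ev J B w c lab m X C ⟨fun l j => n * h.f l j + (comb ns hs).f l j,
            n * h.x + (comb ns hs).x, n * h.c + (comb ns hs).c, h.s || (comb ns hs).s⟩ =
            n * ev J B w c lab m X C h + ev J B w c lab m X C (comb ns hs) := by
          unfold ev
          simp only [bval_comb]
          rw [Finset.sum_add_distrib, ← Finset.mul_sum]
          push_cast
          ring
        refine ⟨?_, fun hs' => ?_⟩
        · rw [h3]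
          have := mul_nonneg hn0.le h1.1
          have := h2.1
          linarith
        · rw [h3]
          simp only [Bool.or_eq_true] at hs'
          rcases hs' with h4 | h4
          · have := mul_pos hn0 (h1.2 h4)
            have := h2.1
            linarith
          · have := mul_nonneg hn0.le h1.1
            have := h2.2 h4
            linarith

lemma blocks_tail (hB : Blocks q B w c lab m X C κ) (J : ℕ) {a : ι} (ha : a ∈ B) (hc : c a ≠ 0)
    (hm : ¬ m a < J) : 0 ≤ w a - J * c a := by
  rcases hB.cw a ha with h | h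
  · exact absurd h hc
  · rw [h]
    have h1 : (J : ℝ) ≤ m a := by exact_mod_cast (not_lt.mp hm)
    have := mul_le_mul_of_nonneg_right h1 (hB.c0 a ha)
    linarith

lemma ev_nonpos (hB : Blocks q B w c lab m X C κ) (hJ : 1 ≤ J) (h : LForm)
    (hx : h.x ≤ 0) (hc : h.c ≤ 0) (hf : ∀ l < q, ∀ j < J + 2, h.f l j ≤ 0) :
    ev J B w c lab m X C h ≤ 0 := by
  unfold ev
  have h1 : ∑ a ∈ B, bval J w c lab m h.f a ≤ 0 := by
    refine Finset.sum_nonpos fun a ha => ?_
    have hF : ∀ j < J + 2, (h.f (lab a) j : ℝ) ≤ 0 := fun j hj => by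
      exact_mod_cast hf (lab a) (lab a).2 j hj
    unfold bval
    split_ifs with h2 h3
    · exact mul_nonpos_of_nonpos_of_nonneg (hF _ (by omega)) (hB.w0 a ha)
    · exact mul_nonpos_of_nonpos_of_nonneg (hF _ (by omega)) (hB.c0 a ha)
    · have h4 := mul_nonpos_of_nonpos_of_nonneg (hF (J - 1) (by omega)) (hB.c0 a ha)
      have h5 := mul_nonpos_of_nonpos_of_nonneg (hF J (by omega)) (blocks_tail hB J ha h2 h3)
      linarith
  have h2 : (h.x : ℝ) * X ≤ 0 :=
    mul_nonpos_of_nonpos_of_nonneg (by exact_mod_cast hx) hB.hX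
  have h3 : (h.c : ℝ) * C ≤ 0 :=
    mul_nonpos_of_nonpos_of_nonneg (by exact_mod_cast hc) hB.hC
  linarith

/-- failure of all methods -/
def AllBad (B : Finset ι) (w c : ι → ℝ) (lab : ι → Fin q) (m : ι → ℕ) (X C e Cm : ℝ) : Prop :=
  ∀ (k : ℕ) (i1 i2 : Fin q) (I : Finset ι), 1 ≤ k → k ≤ 4 → i1 ≠ i2 → I ⊆ B →
    (∀ a ∈ B, (lab a = i1 ∨ lab a = i2) → ¬ k ∣ m a → a ∈ I) →
    e * X + Cm * C < ∑ a ∈ I, c a + max 0 (2 * X / k - ∑ a ∈ I, gain lab w k i1 i2 a)

lemma node_holds (hB : Blocks q B w c lab m X C κ) (hJ : 1 ≤ J) (en ed Cm : ℕ) (hed : 1 ≤ ed)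
    (hbad : AllBad B w c lab m X C ((en : ℝ) / ed) Cm) (k i1 i2 mask : ℕ)
    (hv : nodeValid q J k i1 i2 mask = true) :
    Holds J B w c lab m X C (form1 J en ed Cm mask) ∨
      Holds J B w c lab m X C (form2 J en ed Cm k i1 i2 mask) := by
  classical
  unfold nodeValid at hv
  simp only [Bool.and_eq_true, decide_eq_true_eq, List.all_eq_true, List.mem_range,
    Bool.or_eq_true] at hv
  obtain ⟨⟨⟨⟨⟨hk1, hk4⟩, hi1⟩, hi2⟩, hne⟩, hall⟩ := hv
  set cond : ι → Prop := fun a => c a = 0 ∨ mask.testBit (lab a * J + (min (m a) J - 1)) = true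
    with hcond
  set I := B.filter cond with hI
  have hk0 : (0 : ℝ) < k := by exact_mod_cast hk1
  have hed0 : (0 : ℝ) < ed := by exact_mod_cast hed
  have hb := hbad k ⟨i1, hi1⟩ ⟨i2, hi2⟩ I hk1 hk4 (by simpa [Fin.ext_iff] using hne)
    (Finset.filter_subset _ _) (by
      intro a ha hl hka
      rw [hI, Finset.mem_filter]
      refine ⟨ha, ?_⟩
      rw [hcond]
      by_cases hca : c a = 0
      · exact Or.inl hca
      · right
        have hm1 := hB.m1 a ha
        rcases hall (min (m a) J - 1) (by omega) with (h1 | h1) | h1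
        · subst h1
          exact absurd (one_dvd _) hka
        · exfalso
          obtain ⟨h2, h3⟩ := h1
          have h4 : min (m a) J - 1 + 1 = m a := by omega
          rw [h4] at h3
          exact hka h3
        · rcases hl with h2 | h2
          · rw [h2]; exact h1.1
          · rw [h2]; exact h1.2)
  have hgf : ∀ a, (k : ℝ) * gain lab w k ⟨i1, hi1⟩ ⟨i2, hi2⟩ a =
      (gfac k i1 i2 (lab a) : ℝ) * w a := by
    intro a
    unfold gain gfac
    have h1 : (lab a = ⟨i1, hi1⟩ ∨ lab a = ⟨i2, hi2⟩) ↔ (((lab a : Fin q) : ℕ) = i1 ∨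
        ((lab a : Fin q) : ℕ) = i2) := by
      simp [Fin.ext_iff]
    by_cases h2 : (((lab a : Fin q) : ℕ) = i1 ∨ ((lab a : Fin q) : ℕ) = i2)
    · rw [if_pos h2, if_pos (h1.mpr h2)]
      push_cast
      field_simp
    · rw [if_neg h2, if_neg (fun h => h2 (h1.mp h))]
      push_cast
      ring
  -- values of the two forms
  have hf1 : ∀ a ∈ B, bval J w c lab m (form1 J en ed Cm mask).f a =
      ed * (if cond a then c a else 0) := by
    intro a ha
    have hm1 := hB.m1 a ha
    unfold bval form1
    simp only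
    by_cases hca : c a = 0
    · rw [if_pos hca, if_neg (by omega)]
      have : (if cond a then c a else 0) = 0 := by split_ifs <;> simp [hca]
      rw [this]; simp
    · rw [if_neg hca]
      by_cases hmJ : m a < J
      · rw [if_pos hmJ, if_pos (by omega : m a - 1 < J)]
        have h1 : min (m a) J = m a := by omega
        have h2 : cond a ↔ mask.testBit (lab a * J + (m a - 1)) = true := by
          rw [hcond]; simp only [hca, false_or, h1]
        by_cases h3 : mask.testBit (lab a * J + (m a - 1)) = true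
        · rw [if_pos h3, if_pos (h2.mpr h3)]; push_cast; ring
        · rw [if_neg h3, if_neg (fun h => h3 (h2.mp h))]; push_cast; ring
      · rw [if_neg hmJ, if_pos (by omega : J - 1 < J), if_neg (lt_irrefl J)]
        have h1 : min (m a) J = J := by omega
        have h2 : cond a ↔ mask.testBit (lab a * J + (J - 1)) = true := by
          rw [hcond]; simp only [hca, false_or, h1]
        by_cases h3 : mask.testBit (lab a * J + (J - 1)) = true
        · rw [if_pos h3, if_pos (h2.mpr h3)]; push_cast; ring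
        · rw [if_neg h3, if_neg (fun h => h3 (h2.mp h))]; push_cast; ring
  have hf2 : ∀ a ∈ B, bval J w c lab m (form2 J en ed Cm k i1 i2 mask).f a =
      ed * (k * (if cond a then c a else 0) -
        (if cond a then (gfac k i1 i2 (lab a) : ℝ) * w a else 0)) := by
    intro a ha
    have hm1 := hB.m1 a ha
    unfold bval form2
    simp only
    by_cases hca : c a = 0
    · rw [if_pos hca, if_neg (by omega), if_neg (by omega)]
      have h2 : cond a := Or.inl hca
      rw [if_pos h2, if_pos h2, hca]
      push_cast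
      ring
    · rw [if_neg hca]
      have hw : w a = m a * c a := (hB.cw a ha).resolve_left hca
      by_cases hmJ : m a < J
      · rw [if_pos hmJ, if_pos (by omega : m a - 1 < J)]
        have h1 : min (m a) J = m a := by omega
        have h2 : cond a ↔ mask.testBit (lab a * J + (m a - 1)) = true := by
          rw [hcond]; simp only [hca, false_or, h1]
        have h4 : ((m a - 1 : ℕ) : ℤ) + 1 = m a := by omega
        by_cases h3 : mask.testBit (lab a * J + (m a - 1)) = true
        · rw [if_pos h3, if_pos (h2.mpr h3), if_pos (h2.mpr h3), h4, hw]; push_cast; ring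
        · rw [if_neg h3, if_neg (fun h => h3 (h2.mp h)), if_neg (fun h => h3 (h2.mp h))]
          push_cast; ring
      · rw [if_neg hmJ, if_pos (by omega : J - 1 < J), if_neg (lt_irrefl J), if_pos trivial]
        have h1 : min (m a) J = J := by omega
        have h2 : cond a ↔ mask.testBit (lab a * J + (J - 1)) = true := by
          rw [hcond]; simp only [hca, false_or, h1]
        have h4 : ((J - 1 : ℕ) : ℤ) + 1 = J := by omega
        by_cases h3 : mask.testBit (lab a * J + (J - 1)) = true
        · rw [if_pos h3, if_pos h3, if_pos (h2.mpr h3), if_pos (h2.mpr h3), h4]; push_cast; ring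
        · rw [if_neg h3, if_neg h3, if_neg (fun h => h3 (h2.mp h)),
            if_neg (fun h => h3 (h2.mp h))]
          push_cast; ring
  have he1 : ev J B w c lab m X C (form1 J en ed Cm mask) =
      ed * ∑ a ∈ I, c a - en * X - Cm * C := by
    unfold ev
    rw [Finset.sum_congr rfl hf1, ← Finset.mul_sum, hI, Finset.sum_filter]
    unfold form1
    push_cast
    ring
  have he2 : ev J B w c lab m X C (form2 J en ed Cm k i1 i2 mask) =
      ed * (k * (∑ a ∈ I, c a) -
        k * ∑ a ∈ I, gain lab w k ⟨i1, hi1⟩ ⟨i2, hi2⟩ a) + (2 * ed - k * en) * X - Cm * C := by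
    unfold ev
    rw [Finset.sum_congr rfl hf2, ← Finset.mul_sum, Finset.sum_sub_distrib, ← Finset.mul_sum, hI,
      Finset.mul_sum (Finset.filter cond B) (gain lab w k ⟨i1, hi1⟩ ⟨i2, hi2⟩), Finset.sum_filter,
      Finset.sum_filter]
    simp only [hgf]
    unfold form2
    push_cast
    ring
  have hCm : (0 : ℝ) ≤ Cm * C := mul_nonneg (Nat.cast_nonneg _) hB.hC
  have hCed : (Cm : ℝ) * C ≤ ed * (Cm * C) := by
    have h1 : (1 : ℝ) ≤ ed := by exact_mod_cast hed
    nlinarith
  rcases max_cases 0 (2 * X / (k : ℝ) - ∑ a ∈ I, gain lab w k ⟨i1, hi1⟩ ⟨i2, hi2⟩ a) with h | h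
  · left
    rw [h.1, add_zero] at hb
    have h5 := mul_lt_mul_of_pos_left hb hed0
    have h6 : (ed : ℝ) * ((en : ℝ) / ed * X + Cm * C) = en * X + ed * (Cm * C) := by
      field_simp
    have h7 : 0 < ev J B w c lab m X C (form1 J en ed Cm mask) := by
      rw [he1]; linarith
    exact ⟨h7.le, fun _ => h7⟩
  · right
    rw [h.1] at hb
    have h5 := mul_lt_mul_of_pos_left hb (mul_pos hk0 hed0)
    have h6 : (k : ℝ) * ed * ((en : ℝ) / ed * X + Cm * C) = k * en * X + k * (ed * (Cm * C)) := by
      field_simp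
    have h8 : (k : ℝ) * ed * (∑ a ∈ I, c a + (2 * X / (k : ℝ) -
        ∑ a ∈ I, gain lab w k ⟨i1, hi1⟩ ⟨i2, hi2⟩ a)) = ed * (k * (∑ a ∈ I, c a) -
        k * ∑ a ∈ I, gain lab w k ⟨i1, hi1⟩ ⟨i2, hi2⟩ a) + 2 * ed * X := by
      field_simp
      ring
    have h9 : (ed : ℝ) * (Cm * C) ≤ k * (ed * (Cm * C)) := by
      have h1 : (1 : ℝ) ≤ k := by exact_mod_cast hk1
      have h2 : 0 ≤ (ed : ℝ) * (Cm * C) := mul_nonneg hed0.le hCm
      nlinarith
    have h7 : 0 < ev J B w c lab m X C (form2 J en ed Cm k i1 i2 mask) := by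
      rw [he2]; linarith
    exact ⟨h7.le, fun _ => h7⟩

theorem check_sound (hB : Blocks q B w c lab m X C κ) (hJ : 1 ≤ J) (en ed Cm : ℕ) (hed : 1 ≤ ed)
    (hbad : AllBad B w c lab m X C ((en : ℝ) / ed) Cm) :
    ∀ (t : CTree) (hs : List LForm), (∀ h ∈ hs, Holds J B w c lab m X C h) →
      check q J en ed Cm t hs = true → False := by
  intro t
  induction t with
  | leaf ms =>
    intro hs hh hc
    unfold check at hc
    simp only [Bool.and_eq_true, decide_eq_true_eq, List.all_eq_true, List.mem_range] at hc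
    obtain ⟨⟨⟨h1, h2⟩, h3⟩, h4⟩ := hc
    have h5 := (comb_holds ms hs hh).2 h1
    have h6 := ev_nonpos hB hJ (comb ms hs) h2 h3 h4
    linarith
  | node k i1 i2 mask t1 t2 ih1 ih2 =>
    intro hs hh hc
    unfold check at hc
    simp only [Bool.and_eq_true] at hc
    obtain ⟨h1, h2, h3⟩ := hc
    rcases node_holds hB hJ en ed Cm hed hbad k i1 i2 mask h1 with h4 | h4
    · refine ih1 _ ?_ h2
      intro h hh'
      rcases List.mem_cons.mp hh' with rfl | h5
      · exact h4
      · exact hh h h5
    · refine ih2 _ ?_ h3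
      intro h hh'
      rcases List.mem_cons.mp hh' with rfl | h5
      · exact h4
      · exact hh h h5

lemma base_holds (hB : Blocks q B w c lab m X C κ) (hJ : 1 ≤ J) (kn kd : ℕ)
    (hκ : (kn : ℝ) ≤ kd * κ)
    (hord : ∀ l l' : Fin q, l ≤ l' →
      ∑ a ∈ B with lab a = l', c a ≤ ∑ a ∈ B with lab a = l, c a) :
    ∀ h ∈ baseH q J kn kd, Holds J B w c lab m X C h := by
  classical
  have htail : ∀ a ∈ B, c a ≠ 0 → w a = m a * c a := fun a ha h => (hB.cw a ha).resolve_left h
  intro h hh
  unfold baseH at hh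
  rw [List.mem_append, List.mem_append, List.mem_map, List.mem_map, List.mem_singleton] at hh
  rcases hh with ⟨l, hl, rfl⟩ | rfl | ⟨l, hl, rfl⟩
  · rw [List.mem_range] at hl
    have h1 : ∀ a ∈ B, bval J w c lab m (formH J l).f a =
        -(if lab a = ⟨l, hl⟩ then w a else 0) := by
      intro a ha
      have hm1 := hB.m1 a ha
      have hlab : lab a = ⟨l, hl⟩ ↔ ((lab a : Fin q) : ℕ) = l := by simp [Fin.ext_iff]
      unfold bval formH
      simp only
      by_cases h2 : ((lab a : Fin q) : ℕ) = l
      · simp only [if_pos h2, if_pos (hlab.mpr h2)]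
        by_cases hca : c a = 0
        · rw [if_pos hca, if_neg (by omega)]
          push_cast; ring
        · rw [if_neg hca, htail a ha hca]
          by_cases hmJ : m a < J
          · rw [if_pos hmJ, if_pos (by omega : m a - 1 < J)]
            have h4 : ((m a - 1 : ℕ) : ℤ) + 1 = m a := by omega
            rw [h4]; push_cast; ring
          · rw [if_neg hmJ, if_pos (by omega : J - 1 < J), if_neg (lt_irrefl J)]
            have h4 : ((J - 1 : ℕ) : ℤ) + 1 = J := by omega
            rw [h4]; push_cast; ring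
      · simp only [if_neg h2, if_neg (fun h => h2 (hlab.mp h))]
        push_cast
        split_ifs <;> ring
    have h2 : ev J B w c lab m X C (formH J l) =
        X + C - ∑ a ∈ B with lab a = ⟨l, hl⟩, w a := by
      unfold ev
      rw [Finset.sum_congr rfl h1, Finset.sum_neg_distrib, Finset.sum_filter]
      unfold formH
      push_cast
      ring
    refine ⟨?_, fun h => by simp [formH] at h⟩
    rw [h2]
    have := hB.form ⟨l, hl⟩
    linarith
  · have h1 : ∀ a ∈ B, bval J w c lab m (excH J kn kd).f a = kd * (w a - c a) := by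
      intro a ha
      have hm1 := hB.m1 a ha
      unfold bval excH
      simp only
      by_cases hca : c a = 0
      · rw [if_pos hca, if_neg (by omega), hca]
        push_cast; ring
      · rw [if_neg hca, htail a ha hca]
        by_cases hmJ : m a < J
        · rw [if_pos hmJ, if_pos (by omega : m a - 1 < J)]
          have h4 : ((m a - 1 : ℕ) : ℤ) = m a - 1 := by omega
          rw [h4]; push_cast; ring
        · rw [if_neg hmJ, if_pos (by omega : J - 1 < J), if_neg (lt_irrefl J)]
          have h4 : ((J - 1 : ℕ) : ℤ) = J - 1 := by omega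
          rw [h4]; push_cast; ring
    have h2 : ev J B w c lab m X C (excH J kn kd) =
        kd * ∑ a ∈ B, (w a - c a) - kn * X + kd * C := by
      unfold ev
      rw [Finset.sum_congr rfl h1, ← Finset.mul_sum]
      unfold excH
      push_cast
      ring
    refine ⟨?_, fun h => by simp [excH] at h⟩
    rw [h2]
    have h3 := mul_le_mul_of_nonneg_left hB.exc (Nat.cast_nonneg kd : (0 : ℝ) ≤ kd)
    have h4 := mul_le_mul_of_nonneg_right hκ hB.hX
    nlinarith
  · rw [List.mem_range] at hl
    have hl1 : l < q := by omega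
    have hl2 : l + 1 < q := by omega
    have h1 : ∀ a ∈ B, bval J w c lab m (ordH J l).f a =
        (if lab a = ⟨l, hl1⟩ then c a else 0) - (if lab a = ⟨l + 1, hl2⟩ then c a else 0) := by
      intro a ha
      have hm1 := hB.m1 a ha
      have hlab : lab a = ⟨l, hl1⟩ ↔ ((lab a : Fin q) : ℕ) = l := by simp [Fin.ext_iff]
      have hlab2 : lab a = ⟨l + 1, hl2⟩ ↔ ((lab a : Fin q) : ℕ) = l + 1 := by simp [Fin.ext_iff]
      have key : bval J w c lab m (ordH J l).f a =
          (((if ((lab a : Fin q) : ℕ) = l then 1 else if ((lab a : Fin q) : ℕ) = l + 1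
            then -1 else 0) : ℤ) : ℝ) * c a := by
        unfold bval ordH
        simp only
        by_cases hca : c a = 0
        · rw [if_pos hca, if_neg (by omega), hca]
          push_cast; ring
        · rw [if_neg hca]
          by_cases hmJ : m a < J
          · rw [if_pos hmJ, if_pos (by omega : m a - 1 < J)]
          · rw [if_neg hmJ, if_pos (by omega : J - 1 < J), if_neg (lt_irrefl J)]
            push_cast; ring
      rw [key]
      by_cases h2 : ((lab a : Fin q) : ℕ) = l
      · rw [if_pos h2, if_pos (hlab.mpr h2), if_neg (fun h => by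
          have := hlab2.mp h
          omega)]
        push_cast; ring
      · rw [if_neg h2, if_neg (fun h => h2 (hlab.mp h))]
        by_cases h3 : ((lab a : Fin q) : ℕ) = l + 1
        · rw [if_pos h3, if_pos (hlab2.mpr h3)]
          push_cast; ring
        · rw [if_neg h3, if_neg (fun h => h3 (hlab2.mp h))]
          push_cast; ring
    have h2 : ev J B w c lab m X C (ordH J l) =
        ∑ a ∈ B with lab a = ⟨l, hl1⟩, c a - ∑ a ∈ B with lab a = ⟨l + 1, hl2⟩, c a := by
      unfold ev
      rw [Finset.sum_congr rfl h1, Finset.sum_sub_distrib, Finset.sum_filter, Finset.sum_filter]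
      unfold ordH
      push_cast
      ring
    refine ⟨?_, fun h => by simp [ordH] at h⟩
    rw [h2]
    have := hord ⟨l, hl1⟩ ⟨l + 1, hl2⟩ (by simp)
    linarith

/-- selection with sorted costs -/
def SelS (q : ℕ) (κ e : ℝ) : Prop :=
  ∃ Cm : ℝ, 0 ≤ Cm ∧ ∀ (ι : Type u) (B : Finset ι) (w c : ι → ℝ) (lab : ι → Fin q) (m : ι → ℕ)
    (X C : ℝ), Blocks q B w c lab m X C κ →
    (∀ l l' : Fin q, l ≤ l' → ∑ a ∈ B with lab a = l', c a ≤ ∑ a ∈ B with lab a = l, c a) →
    ∃ (k : ℕ) (i1 i2 : Fin q) (I : Finset ι), 1 ≤ k ∧ k ≤ 4 ∧ i1 ≠ i2 ∧ I ⊆ B ∧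
      (∀ a ∈ B, (lab a = i1 ∨ lab a = i2) → ¬ k ∣ m a → a ∈ I) ∧
      ∑ a ∈ I, c a + max 0 (2 * X / k - ∑ a ∈ I, gain lab w k i1 i2 a) ≤ e * X + Cm * C

theorem sel_of_sorted {q : ℕ} {κ e : ℝ} (h : SelS.{u} q κ e) : Sel.{u} q κ e := by
  classical
  obtain ⟨Cm, hCm, h⟩ := h
  refine ⟨Cm, hCm, ?_⟩
  intro ι B w c lab m X C hB
  set S : Fin q → ℝ := fun l => -∑ a ∈ B with lab a = l, c a with hS
  set σ := Tuple.sort S with hσ
  have hmono : Monotone (S ∘ σ) := Tuple.monotone_sort S
  set lab' : ι → Fin q := fun a => σ.symm (lab a) with hlab'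
  have heq : ∀ a l, lab' a = l ↔ lab a = σ l := by
    intro a l
    rw [hlab']
    exact Equiv.symm_apply_eq σ
  have hfil : ∀ l, B.filter (fun a => lab' a = l) = B.filter (fun a => lab a = σ l) := by
    intro l
    exact Finset.filter_congr fun a _ => heq a l
  have hB' : Blocks q B w c lab' m X C κ :=
    { hX := hB.hX
      hC := hB.hC
      c0 := hB.c0
      w0 := hB.w0
      m1 := hB.m1
      cw := hB.cw
      form := fun l => by rw [hfil]; exact hB.form (σ l)
      exc := hB.exc }
  obtain ⟨k, i1, i2, I, h1, h2, h3, h4, h5, h6⟩ := h ι B w c lab' m X C hB' (by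
    intro l l' hl
    have h1 := hmono hl
    simp only [Function.comp_apply, hS] at h1
    rw [hfil, hfil]
    linarith)
  refine ⟨k, σ i1, σ i2, I, h1, h2, fun h => h3 (σ.injective h), h4, ?_, ?_⟩
  · intro a ha hl hk
    exact h5 a ha (by rw [heq, heq]; exact hl) hk
  · have hg : ∀ a, gain lab w k (σ i1) (σ i2) a = gain lab' w k i1 i2 a := by
      intro a
      unfold gain
      simp only [heq]
    simp only [hg]
    exact h6

theorem sel_of_check {q : ℕ} {κ : ℝ} (J en ed Cm kn kd : ℕ) (hJ : 1 ≤ J) (hed : 1 ≤ ed)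
    (hκ : (kn : ℝ) ≤ kd * κ) (t : CTree)
    (ht : check q J en ed Cm t (baseH q J kn kd) = true) :
    Sel.{u} q κ ((en : ℝ) / ed) := by
  refine sel_of_sorted ⟨Cm, Nat.cast_nonneg _, ?_⟩
  intro ι B w c lab m X C hB hord
  by_contra hcon
  push Not at hcon
  exact check_sound hB hJ en ed Cm hed hcon t _ (base_holds hB hJ kn kd hκ hord) ht

end Sound

end Pool.Agent.H691R3
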