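import Pool.Agent.H691R3.Reflect

set_option autoImplicit false
set_option linter.unusedVariables false

/-!
A faster checker for the case trees, with natural numbers only.
-/

namespace Pool.Agent.H691R3

open Finset

universe u

/-- an inequality with separated positive and negative parts -/
structure NForm where
  P : ℕ → ℕ → ℕ
  N : ℕ → ℕ → ℕ
  xp : ℕ
  xn : ℕ
  cp : ℕ
  cn : ℕ
  s : Bool

/-- the associated form -/
def NForm.toL (h : NForm) : LForm :=
  ⟨fun l j => (h.P l j : ℤ) - (h.N l j : ℤ), (h.xp : ℤ) - h.xn, (h.cp : ℤ) - h.cn, h.s⟩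

/-- the pairs with nonzero multiplier -/
def selNZ : List ℕ → List NForm → List (ℕ × NForm)
  | [], _ => []
  | _ :: _, [] => []
  | n :: ns, h :: hs => bif Nat.beq n 0 then selNZ ns hs else (n, h) :: selNZ ns hs

def sP (l j : ℕ) (zs : List (ℕ × NForm)) : ℕ :=
  List.rec (motive := fun _ => ℕ) 0 (fun p _ a => Nat.add (Nat.mul p.1 (p.2.P l j)) a) zs

def sN (l j : ℕ) (zs : List (ℕ × NForm)) : ℕ :=
  List.rec (motive := fun _ => ℕ) 0 (fun p _ a => Nat.add (Nat.mul p.1 (p.2.N l j)) a) zs

def sXp (zs : List (ℕ × NForm)) : ℕ :=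
  List.rec (motive := fun _ => ℕ) 0 (fun p _ a => Nat.add (Nat.mul p.1 p.2.xp) a) zs

def sXn (zs : List (ℕ × NForm)) : ℕ :=
  List.rec (motive := fun _ => ℕ) 0 (fun p _ a => Nat.add (Nat.mul p.1 p.2.xn) a) zs

def sCp (zs : List (ℕ × NForm)) : ℕ :=
  List.rec (motive := fun _ => ℕ) 0 (fun p _ a => Nat.add (Nat.mul p.1 p.2.cp) a) zs

def sCn (zs : List (ℕ × NForm)) : ℕ :=
  List.rec (motive := fun _ => ℕ) 0 (fun p _ a => Nat.add (Nat.mul p.1 p.2.cn) a) zs

def sS (zs : List (ℕ × NForm)) : Bool :=
  List.rec (motive := fun _ => Bool) false (fun p _ a => or p.2.s a) zs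

lemma comb_selNZ : ∀ (ms : List ℕ) (hs : List NForm),
    (∀ l j, (comb ms (hs.map NForm.toL)).f l j =
      (sP l j (selNZ ms hs) : ℤ) - (sN l j (selNZ ms hs) : ℤ)) ∧
    (comb ms (hs.map NForm.toL)).x = (sXp (selNZ ms hs) : ℤ) - (sXn (selNZ ms hs) : ℤ) ∧
    (comb ms (hs.map NForm.toL)).c = (sCp (selNZ ms hs) : ℤ) - (sCn (selNZ ms hs) : ℤ) ∧
    (comb ms (hs.map NForm.toL)).s = sS (selNZ ms hs) := by
  intro ms
  induction ms with
  | nil =>
    intro hs
    unfold comb selNZ sP sN sXp sXn sCp sCn sS
    simp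
  | cons n ns ih =>
    intro hs
    cases hs with
    | nil =>
      unfold comb selNZ sP sN sXp sXn sCp sCn sS
      simp
    | cons h hs =>
      obtain ⟨h1, h2, h3, h4⟩ := ih hs
      rw [List.map_cons, comb, selNZ]
      by_cases hn : n = 0
      · subst hn
        simp only [if_true]
        exact ⟨h1, h2, h3, h4⟩
      · have hb : Nat.beq n 0 = false := by
          cases n with
          | zero => exact absurd rfl hn
          | succ n => rfl
        rw [if_neg hn, hb]
        simp only [cond_false]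
        refine ⟨fun l j => ?_, ?_, ?_, ?_⟩
        · show (n : ℤ) * ((h.P l j : ℤ) - (h.N l j : ℤ)) + _ =
            ((n * h.P l j + sP l j (selNZ ns hs) : ℕ) : ℤ) -
              ((n * h.N l j + sN l j (selNZ ns hs) : ℕ) : ℤ)
          rw [h1]; push_cast; ring
        · show (n : ℤ) * ((h.xp : ℤ) - (h.xn : ℤ)) + _ =
            ((n * h.xp + sXp (selNZ ns hs) : ℕ) : ℤ) - ((n * h.xn + sXn (selNZ ns hs) : ℕ) : ℤ)
          rw [h2]; push_cast; ring
        · show (n : ℤ) * ((h.cp : ℤ) - (h.cn : ℤ)) + _ =
            ((n * h.cp + sCp (selNZ ns hs) : ℕ) : ℤ) - ((n * h.cn + sCn (selNZ ns hs) : ℕ) : ℤ)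
          rw [h3]; push_cast; ring
        · show (h.s || _) = (h.s || sS (selNZ ns hs))
          rw [h4]

/-- bit of the mask -/
def tb (mask i : ℕ) : Bool := Nat.beq (Nat.mod (Nat.div mask (Nat.pow 2 i)) 2) 1

lemma tb_eq (mask i : ℕ) : tb mask i = mask.testBit i := by
  unfold tb
  rw [Nat.testBit_eq_decide_div_mod_eq]
  show Nat.beq (mask / 2 ^ i % 2) 1 = _
  by_cases h : mask / 2 ^ i % 2 = 1
  · rw [h]; rfl
  · have e : Nat.beq (mask / 2 ^ i % 2) 1 = false := by
      rw [← Bool.not_eq_true, Nat.beq_eq]; exact h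
    rw [e]; simp [h]

/-- the factor of the gain, times `k` -/
def gfN (k i1 i2 l : ℕ) : ℕ := bif or (Nat.beq l i1) (Nat.beq l i2) then 1 else k

lemma gfN_eq (k i1 i2 l : ℕ) : (gfN k i1 i2 l : ℤ) = gfac k i1 i2 l := by
  unfold gfN gfac
  by_cases h1 : l = i1
  · subst h1; simp
  · by_cases h2 : l = i2
    · subst h2; simp
    · have e1 : Nat.beq l i1 = false := by
        rw [← Bool.not_eq_true, Nat.beq_eq]; exact h1
      have e2 : Nat.beq l i2 = false := by
        rw [← Bool.not_eq_true, Nat.beq_eq]; exact h2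
      rw [if_neg (by tauto), e1, e2]
      simp

def form1N (J en ed Cm mask : ℕ) : NForm :=
  ⟨fun l j => bif and (Nat.blt j J) (tb mask (Nat.add (Nat.mul l J) j)) then ed else 0,
    fun _ _ => 0, 0, en, 0, Cm, true⟩

def form2N (J en ed Cm k i1 i2 mask : ℕ) : NForm :=
  ⟨fun l j => bif and (Nat.blt j J) (tb mask (Nat.add (Nat.mul l J) j)) then Nat.mul ed k else 0,
    fun l j => bif Nat.blt j J then
        (bif tb mask (Nat.add (Nat.mul l J) j) then
          Nat.mul ed (Nat.mul (Nat.succ j) (gfN k i1 i2 l)) else 0)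
      else (bif and (Nat.beq j J) (not (tb mask (Nat.add (Nat.mul l J) (J - 1)))) then 0
        else Nat.mul ed (gfN k i1 i2 l)),
    Nat.mul 2 ed, Nat.mul k en, 0, Cm, true⟩

lemma form1N_toL (J en ed Cm mask : ℕ) : (form1N J en ed Cm mask).toL = form1 J en ed Cm mask := by
  unfold NForm.toL form1N form1
  congr 1
  · funext l j
    simp only
    by_cases h1 : j < J
    · have e1 : Nat.blt j J = true := by rw [Nat.blt_eq]; exact h1
      rw [if_pos h1, e1, tb_eq]
      show ((bif (true && mask.testBit (l * J + j)) then ed else 0 : ℕ) : ℤ) - _ = _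
      by_cases h2 : mask.testBit (l * J + j) = true
      · rw [h2]; simp
      · rw [Bool.not_eq_true] at h2
        rw [h2]; simp
    · have e1 : Nat.blt j J = false := by
        rw [← Bool.not_eq_true, Nat.blt_eq]; exact h1
      rw [if_neg h1, e1]
      simp
  · push_cast; ring
  · push_cast; ring

lemma form2N_toL (J en ed Cm k i1 i2 mask : ℕ) :
    (form2N J en ed Cm k i1 i2 mask).toL = form2 J en ed Cm k i1 i2 mask := by
  unfold NForm.toL form2N form2
  congr 1
  · funext l j
    simp only
    by_cases h1 : j < J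
    · have e1 : Nat.blt j J = true := by rw [Nat.blt_eq]; exact h1
      rw [if_pos h1, e1, tb_eq, ← gfN_eq]
      show ((bif (true && mask.testBit (l * J + j)) then ed * k else 0 : ℕ) : ℤ) -
        ((bif true then (bif mask.testBit (l * J + j) then
          ed * ((j + 1) * (gfN k i1 i2 l)) else 0) else _ : ℕ) : ℤ) = _
      by_cases h2 : mask.testBit (l * J + j) = true
      · rw [h2, if_pos rfl]
        simp only [Bool.and_self, cond_true]
        push_cast; ring
      · rw [Bool.not_eq_true] at h2
        rw [h2]; simp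
    · have e1 : Nat.blt j J = false := by
        rw [← Bool.not_eq_true, Nat.blt_eq]; exact h1
      rw [if_neg h1, e1, ← gfN_eq]
      simp only [Bool.false_and, cond_false]
      rw [tb_eq (i := (Nat.add (Nat.mul l J) (J - 1)))]
      show _ - ((bif and (Nat.beq j J) (not (mask.testBit (l * J + (J - 1)))) then 0
        else ed * (gfN k i1 i2 l) : ℕ) : ℤ) = _
      by_cases h3 : j = J
      · have e3 : Nat.beq j J = true := by rw [Nat.beq_eq]; exact h3
        rw [if_pos h3, e3]
        by_cases h2 : mask.testBit (l * J + (J - 1)) = true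
        · rw [h2, if_pos rfl]
          simp
        · rw [Bool.not_eq_true] at h2
          rw [h2]; simp
      · have e3 : Nat.beq j J = false := by
          rw [← Bool.not_eq_true, Nat.beq_eq]; exact h3
        rw [if_neg h3, e3]
        simp
  · push_cast; ring

/-- `a < n` for all -/
def allLt (n : ℕ) (f : ℕ → Bool) : Bool :=
  Nat.rec (motive := fun _ => Bool) true (fun i a => and (f i) a) n

lemma allLt_iff (n : ℕ) (f : ℕ → Bool) : allLt n f = true ↔ ∀ i < n, f i = true := by
  induction n with
  | zero => simp [allLt]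
  | succ n ih =>
    have : allLt (n + 1) f = (f n && allLt n f) := rfl
    rw [this, Bool.and_eq_true, ih]
    constructor
    · rintro ⟨h1, h2⟩ i hi
      rcases Nat.lt_succ_iff_lt_or_eq.mp hi with h | h
      · exact h2 i h
      · rw [h]; exact h1
    · intro h
      exact ⟨h n (Nat.lt_succ_self n), fun i hi => h i (Nat.lt_succ_of_lt hi)⟩

/-- the checks at a leaf -/
def leafN (q J : ℕ) (zs : List (ℕ × NForm)) : Bool :=
  and (sS zs) (and (Nat.ble (sXp zs) (sXn zs)) (and (Nat.ble (sCp zs) (sCn zs))
    (allLt q fun l => allLt (Nat.add J 2) fun j => Nat.ble (sP l j zs) (sN l j zs))))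

/-- the checker -/
def checkN (q J en ed Cm : ℕ) : CTree → List NForm → Bool
  | .leaf ms, hs => leafN q J (selNZ ms hs)
  | .node k i1 i2 mask t1 t2, hs => and (nodeValid q J k i1 i2 mask)
      (and (checkN q J en ed Cm t1 (form1N J en ed Cm mask :: hs))
        (checkN q J en ed Cm t2 (form2N J en ed Cm k i1 i2 mask :: hs)))

theorem check_of_checkN (q J en ed Cm : ℕ) : ∀ (t : CTree) (hs : List NForm),
    checkN q J en ed Cm t hs = true → check q J en ed Cm t (hs.map NForm.toL) = true := by
  intro t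
  induction t with
  | leaf ms =>
    intro hs h
    unfold checkN leafN at h
    simp only [Bool.and_eq_true, allLt_iff] at h
    obtain ⟨h1, h2, h3, h4⟩ := h
    obtain ⟨e1, e2, e3, e4⟩ := comb_selNZ ms hs
    unfold check
    simp only [Bool.and_eq_true, decide_eq_true_eq, List.all_eq_true, List.mem_range]
    refine ⟨⟨⟨?_, ?_⟩, ?_⟩, ?_⟩
    · rw [e4]; exact h1
    · rw [e2]
      have := Nat.le_of_ble_eq_true h2
      omega
    · rw [e3]
      have := Nat.le_of_ble_eq_true h3
      omega
    · intro l hl j hj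
      rw [e1]
      have := Nat.le_of_ble_eq_true (h4 l hl j hj)
      omega
  | node k i1 i2 mask t1 t2 ih1 ih2 =>
    intro hs h
    unfold checkN at h
    simp only [Bool.and_eq_true] at h
    obtain ⟨h1, h2, h3⟩ := h
    unfold check
    simp only [Bool.and_eq_true]
    refine ⟨h1, ?_, ?_⟩
    · have := ih1 _ h2
      rw [List.map_cons, form1N_toL] at this
      exact this
    · have := ih2 _ h3
      rw [List.map_cons, form2N_toL] at this
      exact this

def formHN (J l : ℕ) : NForm :=
  ⟨fun _ _ => 0, fun l' j => bif Nat.beq l' l then (bif Nat.blt j J then Nat.succ j else 1) else 0,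
    1, 0, 1, 0, false⟩

def excHN (J kn kd : ℕ) : NForm :=
  ⟨fun _ j => bif Nat.blt j J then Nat.mul kd j else kd, fun _ _ => 0, 0, kn, kd, 0, false⟩

def ordHN (J l : ℕ) : NForm :=
  ⟨fun l' j => bif and (Nat.blt j J) (Nat.beq l' l) then 1 else 0,
    fun l' j => bif and (Nat.blt j J) (Nat.beq l' (Nat.succ l)) then 1 else 0,
    0, 0, 0, 0, false⟩

def baseHN (q J kn kd : ℕ) : List NForm :=
  (List.range q).map (formHN J) ++ ([excHN J kn kd] ++ (List.range (q - 1)).map (ordHN J))

lemma formHN_toL (J l : ℕ) : (formHN J l).toL = formH J l := by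
  unfold NForm.toL formHN formH
  congr 1
  funext l' j
  simp only
  by_cases h1 : l' = l
  · have e1 : Nat.beq l' l = true := by rw [Nat.beq_eq]; exact h1
    rw [if_pos h1, e1]
    by_cases h2 : j < J
    · have e2 : Nat.blt j J = true := by rw [Nat.blt_eq]; exact h2
      rw [if_pos h2, e2]
      simp only [cond_true]
      push_cast; ring
    · have e2 : Nat.blt j J = false := by
        rw [← Bool.not_eq_true, Nat.blt_eq]; exact h2
      rw [if_neg h2, e2]
      simp
  · have e1 : Nat.beq l' l = false := by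
      rw [← Bool.not_eq_true, Nat.beq_eq]; exact h1
    rw [if_neg h1, e1]
    simp

lemma excHN_toL (J kn kd : ℕ) : (excHN J kn kd).toL = excH J kn kd := by
  unfold NForm.toL excHN excH
  congr 1
  · funext l' j
    simp only
    by_cases h2 : j < J
    · have e2 : Nat.blt j J = true := by rw [Nat.blt_eq]; exact h2
      rw [if_pos h2, e2]
      show ((kd * j : ℕ) : ℤ) - _ = _
      push_cast; ring
    · have e2 : Nat.blt j J = false := by
        rw [← Bool.not_eq_true, Nat.blt_eq]; exact h2
      rw [if_neg h2, e2]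
      simp
  · push_cast; ring

lemma ordHN_toL (J l : ℕ) : (ordHN J l).toL = ordH J l := by
  unfold NForm.toL ordHN ordH
  congr 1
  funext l' j
  simp only
  by_cases h2 : j < J
  · have e2 : Nat.blt j J = true := by rw [Nat.blt_eq]; exact h2
    rw [if_pos h2, e2]
    by_cases h3 : l' = l
    · have e3 : Nat.beq l' l = true := by rw [Nat.beq_eq]; exact h3
      have e4 : Nat.beq l' (Nat.succ l) = false := by
        rw [← Bool.not_eq_true, Nat.beq_eq]; omega
      rw [if_pos h3, e3, e4]
      simp
    · have e3 : Nat.beq l' l = false := by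
        rw [← Bool.not_eq_true, Nat.beq_eq]; exact h3
      rw [if_neg h3, e3]
      by_cases h4 : l' = l + 1
      · have e4 : Nat.beq l' (Nat.succ l) = true := by rw [Nat.beq_eq]; exact h4
        rw [if_pos h4, e4]
        simp
      · have e4 : Nat.beq l' (Nat.succ l) = false := by
          rw [← Bool.not_eq_true, Nat.beq_eq]; exact h4
        rw [if_neg h4, e4]
        simp
  · have e2 : Nat.blt j J = false := by
      rw [← Bool.not_eq_true, Nat.blt_eq]; exact h2
    rw [if_neg h2, e2]
    simp

lemma baseHN_toL (q J kn kd : ℕ) : (baseHN q J kn kd).map NForm.toL = baseH q J kn kd := by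
  unfold baseHN baseH
  rw [List.map_append, List.map_append, List.map_map, List.map_map, List.map_singleton,
    excHN_toL]
  congr 2
  · funext l
    exact formHN_toL J l
  · congr 1
    funext l
    exact ordHN_toL J l

theorem sel_of_checkN {q : ℕ} {κ : ℝ} (J en ed Cm kn kd : ℕ) (hJ : 1 ≤ J) (hed : 1 ≤ ed)
    (hκ : (kn : ℝ) ≤ kd * κ) (t : CTree)
    (ht : checkN q J en ed Cm t (baseHN q J kn kd) = true) :
    Sel.{u} q κ ((en : ℝ) / ed) := by
  have h := check_of_checkN q J en ed Cm t _ ht
  rw [baseHN_toL] at h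
  exact sel_of_check J en ed Cm kn kd hJ hed hκ t h

end Pool.Agent.H691R3
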