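import Pool.Agent.H691R3.PowColor

set_option autoImplicit false
set_option linter.unusedSectionVars false

/-!
Colourings of a number field adapted to one place.
-/

namespace Pool.Agent.H691R3

open NumberField IsDedekindDomain Finset nonZeroDivisors

variable {K : Type*} [Field K] [NumberField K]

lemma fv_le_pow_iff (v : HeightOneSpectrum (𝓞 K)) (r : 𝓞 K) (n : ℕ) :
    fv v (r : K) ≤ (Nv v) ^ (-(n : ℤ)) ↔ r ∈ v.asIdeal ^ n := by
  have hN : (1 : ℝ) < Nv v := by linarith [two_le_Nv v]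
  by_cases hr : r = 0
  · rw [hr]
    simp only [Submodule.zero_mem, iff_true]
    have : ((0 : 𝓞 K) : K) = 0 := map_zero _
    rw [this, map_zero]
    positivity
  · rw [← v.intValuation_le_pow_iff_mem, v.intValuation_if_neg hr, fv_int_count v hr,
      zpow_le_zpow_iff_right₀ hN, WithZero.exp_le_exp]

lemma fv_int_le_one (v : HeightOneSpectrum (𝓞 K)) (r : 𝓞 K) : fv v (r : K) ≤ 1 := by
  have h := (fv_le_pow_iff v r 0).mpr (by simp)
  simpa using h

lemma fv_eq_one_of_notMem (v : HeightOneSpectrum (𝓞 K)) {s : 𝓞 K} (hs : s ∉ v.asIdeal) :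
    fv v (s : K) = 1 := (NumberField.FinitePlace.norm_eq_one_iff_notMem K v s).mpr hs

lemma fv_lt_one_iff (v : HeightOneSpectrum (𝓞 K)) {s : 𝓞 K} :
    fv v (s : K) < 1 ↔ s ∈ v.asIdeal := NumberField.FinitePlace.norm_lt_one_iff_mem K v s

/-- fractions with denominator prime to `v` -/
lemma exists_rep (v : HeightOneSpectrum (𝓞 K)) {a : K} (ha : fv v a ≤ 1) :
    ∃ b s : 𝓞 K, s ∉ v.asIdeal ∧ a * (s : K) = (b : K) := by
  classical
  obtain ⟨n, m, hm, rfl⟩ := IsFractionRing.div_surjective (𝓞 K) a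
  have hm0 : m ≠ 0 := nonZeroDivisors.ne_zero hm
  have hm1 : (algebraMap (𝓞 K) K m) ≠ 0 := RingOfIntegers.coe_ne_zero_iff.mpr hm0
  set e : ℕ := (Associates.mk v.asIdeal).count
      (Associates.mk (Ideal.span {m} : Ideal (𝓞 K))).factors with he
  have hfm : fv v (algebraMap (𝓞 K) K m) = (Nv v) ^ (-(e : ℤ)) := fv_int_count v hm0
  have hN : (1 : ℝ) < Nv v := by linarith [two_le_Nv v]
  have hme : m ∈ v.asIdeal ^ e := (fv_le_pow_iff v m e).mp hfm.le
  have hmne : m ∉ v.asIdeal ^ (e + 1) := by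
    intro h
    have h1 := (fv_le_pow_iff v m (e + 1)).mpr h
    have h2 : (Nv v) ^ (-(e : ℤ)) ≤ (Nv v) ^ (-((e + 1 : ℕ) : ℤ)) := by rw [← hfm]; exact h1
    rw [zpow_le_zpow_iff_right₀ hN] at h2
    push_cast at h2
    linarith
  have hne : n ∈ v.asIdeal ^ e := by
    refine (fv_le_pow_iff v n e).mp ?_
    rw [map_div₀, div_le_one ((fv v).pos hm1), hfm] at ha
    exact ha
  obtain ⟨J, hJ⟩ : v.asIdeal ^ e ∣ Ideal.span {m} := Ideal.dvd_span_singleton.mpr hme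
  have hJv : ¬ J ≤ v.asIdeal := by
    intro h
    obtain ⟨J', hJ'⟩ := Ideal.dvd_iff_le.mpr h
    apply hmne
    rw [← Ideal.dvd_span_singleton]
    exact ⟨J', by rw [hJ, hJ', pow_succ]; ring⟩
  obtain ⟨s, hsJ, hsv⟩ := Set.not_subset.mp hJv
  have hmem : n * s ∈ Ideal.span {m} := by
    rw [hJ]
    exact Ideal.mul_mem_mul hne hsJ
  obtain ⟨b, hb⟩ := Ideal.mem_span_singleton'.mp hmem
  refine ⟨b, s, hsv, ?_⟩
  have h1 : (algebraMap (𝓞 K) K b) * (algebraMap (𝓞 K) K m) =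
      (algebraMap (𝓞 K) K n) * (algebraMap (𝓞 K) K s) := by
    rw [← map_mul, ← map_mul, hb]
  have h2 : algebraMap (𝓞 K) K n / algebraMap (𝓞 K) K m * algebraMap (𝓞 K) K s =
      algebraMap (𝓞 K) K b := by
    rw [div_mul_eq_mul_div, div_eq_iff hm1, h1]
  exact h2

/-- total boundedness at a finite place -/
theorem tb_finite (v : HeightOneSpectrum (𝓞 K)) (ε : ℝ) (hε : 0 < ε) :
    ∃ (N : ℕ) (c : K → Fin N), ∀ a b : K, fv v a ≤ 1 → fv v b ≤ 1 → c a = c b →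
      fv v (a - b) ≤ ε := by
  classical
  have hN : (1 : ℝ) < Nv v := by linarith [two_le_Nv v]
  obtain ⟨n, hn⟩ : ∃ n : ℕ, (Nv v) ^ (-(n : ℤ)) ≤ ε := by
    obtain ⟨n, hn⟩ := exists_pow_lt_of_lt_one hε (inv_lt_one_of_one_lt₀ hN)
    refine ⟨n, ?_⟩
    rw [zpow_neg, zpow_natCast, ← inv_pow]
    exact hn.le
  have hex : ∀ a : K, ∃ b s : 𝓞 K, fv v a ≤ 1 → (s ∉ v.asIdeal ∧ a * (s : K) = (b : K)) := by
    intro a
    by_cases h : fv v a ≤ 1
    · obtain ⟨b, s, hs⟩ := exists_rep v h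
      exact ⟨b, s, fun _ => hs⟩
    · exact ⟨0, 0, fun h' => absurd h' h⟩
  choose B S hBS using hex
  have hbot : v.asIdeal ^ n ≠ ⊥ := by
    rw [← Ideal.zero_eq_bot]
    exact pow_ne_zero _ (by rw [Ideal.zero_eq_bot]; exact v.ne_bot)
  have hfin : Finite (𝓞 K ⧸ v.asIdeal ^ n) := Ideal.finiteQuotientOfFreeOfNeBot _ hbot
  have hfin2 : Finite ((𝓞 K ⧸ v.asIdeal ^ n) × (𝓞 K ⧸ v.asIdeal ^ n)) := inferInstance
  obtain ⟨N, ⟨e⟩⟩ := Finite.exists_equiv_fin ((𝓞 K ⧸ v.asIdeal ^ n) × (𝓞 K ⧸ v.asIdeal ^ n))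
  refine ⟨N, fun a => e (Ideal.Quotient.mk _ (B a), Ideal.Quotient.mk _ (S a)), ?_⟩
  intro a b ha hb hab
  have hab' := e.injective hab
  have h1 : B a - B b ∈ v.asIdeal ^ n := Ideal.Quotient.eq.mp (congrArg Prod.fst hab')
  have h2 : S a - S b ∈ v.asIdeal ^ n := Ideal.Quotient.eq.mp (congrArg Prod.snd hab')
  obtain ⟨hsa, hea⟩ := hBS a ha
  obtain ⟨hsb, heb⟩ := hBS b hb
  have h3 : B a * S b - B b * S a ∈ v.asIdeal ^ n := by
    have : B a * S b - B b * S a = S b * (B a - B b) - B b * (S a - S b) := by ring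
    rw [this]
    exact Ideal.sub_mem _ (Ideal.mul_mem_left _ _ h1) (Ideal.mul_mem_left _ _ h2)
  have h4 := (fv_le_pow_iff v _ n).mpr h3
  have h5 : ((B a * S b - B b * S a : 𝓞 K) : K) = (a - b) * ((S a : K) * (S b : K)) := by
    have e0 : ((B a * S b - B b * S a : 𝓞 K) : K) =
        (B a : K) * (S b : K) - (B b : K) * (S a : K) := by
      simp only [map_sub, map_mul]
    rw [e0, ← hea, ← heb]
    ring
  rw [h5, map_mul, map_mul, fv_eq_one_of_notMem v hsa, fv_eq_one_of_notMem v hsb, mul_one,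
    mul_one] at h4
  exact h4.trans hn

/-- the `k`-th roots of unity in the residue field -/
theorem branch_coloring (v : HeightOneSpectrum (𝓞 K)) {k : ℕ} (hk : 0 < k) :
    ∃ c : K → Fin k, ∀ a b : K, fv v a ≤ 1 → fv v b ≤ 1 → fv v (a ^ k - 1) < 1 →
      fv v (b ^ k - 1) < 1 → c a = c b → fv v (a - b) < 1 := by
  classical
  have hex : ∀ a : K, ∃ b s : 𝓞 K, fv v a ≤ 1 → (s ∉ v.asIdeal ∧ a * (s : K) = (b : K)) := by
    intro a
    by_cases h : fv v a ≤ 1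
    · obtain ⟨b, s, hs⟩ := exists_rep v h
      exact ⟨b, s, fun _ => hs⟩
    · exact ⟨0, 0, fun h' => absurd h' h⟩
  choose B S hBS using hex
  have hmax : v.asIdeal.IsMaximal := v.isMaximal
  let _ : Field (𝓞 K ⧸ v.asIdeal) := Ideal.Quotient.field v.asIdeal
  set r : K → (𝓞 K ⧸ v.asIdeal) := fun a =>
    Ideal.Quotient.mk v.asIdeal (B a) / Ideal.Quotient.mk v.asIdeal (S a) with hr
  set R : Finset (𝓞 K ⧸ v.asIdeal) := (Polynomial.nthRoots k (1 : 𝓞 K ⧸ v.asIdeal)).toFinset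
    with hR
  have hRc : R.card ≤ k := (Multiset.toFinset_card_le _).trans (Polynomial.card_nthRoots k 1)
  have hroot : ∀ a : K, fv v a ≤ 1 → fv v (a ^ k - 1) < 1 → r a ∈ R := by
    intro a ha hak
    obtain ⟨hs, he⟩ := hBS a ha
    rw [hR, Multiset.mem_toFinset, Polynomial.mem_nthRoots hk]
    have hs0 : Ideal.Quotient.mk v.asIdeal (S a) ≠ 0 := by
      rw [Ne, Ideal.Quotient.eq_zero_iff_mem]; exact hs
    rw [hr]
    simp only
    rw [div_pow, div_eq_one_iff_eq (pow_ne_zero _ hs0), ← map_pow, ← map_pow, Ideal.Quotient.eq]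
    rw [← fv_lt_one_iff]
    have h1 : ((B a ^ k - S a ^ k : 𝓞 K) : K) = (a ^ k - 1) * (S a : K) ^ k := by
      have e0 : ((B a ^ k - S a ^ k : 𝓞 K) : K) = (B a : K) ^ k - (S a : K) ^ k := by
        simp only [map_sub, map_pow]
      rw [e0, ← he]
      ring
    rw [h1, map_mul, map_pow, fv_eq_one_of_notMem v hs, one_pow, mul_one]
    exact hak
  set c : K → Fin k := fun a => if h : r a ∈ R then
    Fin.castLE hRc (R.equivFin ⟨r a, h⟩) else ⟨0, hk⟩ with hc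
  refine ⟨c, ?_⟩
  intro a b ha hb hak hbk hab
  have hra := hroot a ha hak
  have hrb := hroot b hb hbk
  rw [hc] at hab
  simp only [dif_pos hra, dif_pos hrb] at hab
  have h1 := R.equivFin.injective (Fin.castLE_injective hRc hab)
  have h2 : r a = r b := congrArg Subtype.val h1
  obtain ⟨hsa, hea⟩ := hBS a ha
  obtain ⟨hsb, heb⟩ := hBS b hb
  have hsa0 : Ideal.Quotient.mk v.asIdeal (S a) ≠ 0 := by
    rw [Ne, Ideal.Quotient.eq_zero_iff_mem]; exact hsa
  have hsb0 : Ideal.Quotient.mk v.asIdeal (S b) ≠ 0 := by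
    rw [Ne, Ideal.Quotient.eq_zero_iff_mem]; exact hsb
  rw [hr] at h2
  simp only at h2
  rw [div_eq_div_iff hsa0 hsb0, ← map_mul, ← map_mul, Ideal.Quotient.eq, ← fv_lt_one_iff] at h2
  have h5 : ((B a * S b - B b * S a : 𝓞 K) : K) = (a - b) * ((S a : K) * (S b : K)) := by
    have e0 : ((B a * S b - B b * S a : 𝓞 K) : K) =
        (B a : K) * (S b : K) - (B b : K) * (S a : K) := by
      simp only [map_sub, map_mul]
    rw [e0, ← hea, ← heb]
    ring
  rw [h5, map_mul, map_mul, fv_eq_one_of_notMem v hsa, fv_eq_one_of_notMem v hsb, mul_one,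
    mul_one] at h2
  exact h2

end Pool.Agent.H691R3
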