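import Pool.Agent.H691R3.RootFinal

set_option autoImplicit false
set_option linter.unusedSectionVars false
set_option linter.unusedVariables false

/-!
The class bound for the `k`-th root descent.
-/

namespace Pool.Agent.H691R3

open NumberField IsDedekindDomain Finset

variable {K : Type*} [Field K] [NumberField K]

lemma pow_le_of {a : ℝ} {k : ℕ} (hk : 0 < k) (ha : 0 ≤ a) (h : a ^ k ≤ 2) : a ≤ 2 := by
  by_contra hcon
  rw [not_le] at hcon
  have h1 : a ≤ a ^ k := le_self_pow₀ (by linarith) hk.ne'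
  linarith

lemma ge_of_pow {a : ℝ} {k : ℕ} (hk : 0 < k) (ha : 0 ≤ a) (h : 1 / 2 ≤ a ^ k) : 1 / 2 ≤ a := by
  by_contra hcon
  rw [not_le] at hcon
  have h1 : a ^ k ≤ a := pow_le_of_le_one ha (by linarith) hk.ne'
  linarith

/-- The class bound. -/
theorem class_bound_root {q : ℕ} (α : Fin q → K × K) (hα0 : ∀ l, α l ≠ 0)
    (hα : ∀ i j, i ≠ j → wg (α i) (α j) ≠ 0) (i1 i2 : Fin q) (h12 : i1 ≠ i2) {k : ℕ} (hk : 0 < k)
    (Sp : Finset (Pl K)) (hinl : ∀ w : InfinitePlace K, (Sum.inl w : Pl K) ∈ Sp)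
    (hord : ∀ v : HeightOneSpectrum (𝓞 K), (Sum.inr v : Pl K) ∉ Sp → Ordin k α v) :
    ∃ C : ℝ, 0 ≤ C ∧ ∀ (A : Finset (Pl K × Fin q × ℕ)),
      Set.InjOn (fun a : Pl K × Fin q × ℕ => a.1) A → (∀ a ∈ A, 1 ≤ a.2.2) →
      ∀ (F : Finset K) (T : ℝ),
      (∀ x ∈ F, Off α x) → (∀ x ∈ F, hr (aff x) ≤ T) →
      (∀ x ∈ F, ∀ a ∈ A, wt a ≤ lam a.1 (aff x) (α a.2.1)) →
      (∀ x ∈ F, ∀ y ∈ F, ∀ v : HeightOneSpectrum (𝓞 K), (Sum.inr v : Pl K) ∉ Sp →
        ∃ n : ℤ, fv v ((wg (aff x) (α i1) / wg (aff x) (α i2)) /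
          (wg (aff y) (α i1) / wg (aff y) (α i2))) = (Nv v) ^ ((k : ℤ) * n)) →
      (F.card : ℝ) ≤ C * (k : ℝ) ^ A.card *
        (1 + Real.exp (2 * T / k - ∑ a ∈ A, gk k i1 i2 a)) := by
  classical
  have hkK : (k : K) ≠ 0 := by exact_mod_cast hk.ne'
  have hk1 : (1 : ℝ) ≤ k := by exact_mod_cast hk
  -- constants of the third forms
  have hex : ∀ (v : Pl K) (l : Fin q), ∃ ε Θ C : ℝ, 0 < ε ∧ (l ≠ i1 → l ≠ i2 → (0 ≤ Θ ∧ 0 ≤ C ∧
      ThirdProp (av v) k (α i1) (α i2) (α l) ε Θ C)) := by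
    intro v l
    by_cases h : l ≠ i1 ∧ l ≠ i2
    · obtain ⟨ε, Θ, C, h1, h2, h3, h4⟩ := muA_ge_third (av v) hk ((av v).pos hkK) (hα0 i1) (hα0 i2)
        (hα0 l) (hα i1 i2 h12) (hα l i1 h.1) (hα l i2 h.2)
      exact ⟨ε, Θ, C, h1, fun _ _ => ⟨h2, h3, h4⟩⟩
    · exact ⟨1, 0, 0, one_pos, fun h1 h2 => absurd ⟨h1, h2⟩ h⟩
  choose εf Θf Cf hε hthird using hex
  obtain ⟨C0, hC0, hfinal⟩ := final_count α hα0 hα i1 i2 h12 hk Sp hinl hord εf Θf Cf hthird
  obtain ⟨Np, cp, hcp⟩ := power_coloring (K := K) hk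
  -- colourings at the places
  have htb : ∀ v : Pl K, ∃ (N : ℕ) (c : K → Fin N), ∀ a b : K, av v a ≤ 2 → av v b ≤ 2 →
      c a = c b → ∀ l, av v (a - b) ≤ εf v l / 2 := by
    intro v
    rcases Nat.eq_zero_or_pos q with hq | hq
    · subst hq
      exact ⟨1, fun _ => 0, fun a b _ _ _ l => Fin.elim0 l⟩
    · have : Nonempty (Fin q) := ⟨⟨0, hq⟩⟩
      obtain ⟨l0, hl0⟩ := Finite.exists_min (fun l => εf v l)
      obtain ⟨N, c, hc⟩ := tb_place v (εf v l0 / 2) (by have := hε v l0; positivity)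
      refine ⟨N, c, fun a b ha hb hab l => (hc a b ha hb hab).trans ?_⟩
      have := hl0 l
      linarith
  choose Nt ct hct using htb
  have hbr : ∀ v : HeightOneSpectrum (𝓞 K), ∃ c : K → Fin k, ∀ a b : K, fv v a ≤ 1 →
      fv v b ≤ 1 → fv v (a ^ k - 1) < 1 → fv v (b ^ k - 1) < 1 → c a = c b →
      fv v (a - b) < 1 := fun v => branch_coloring v hk
  choose cb hcb using hbr
  refine ⟨(∏ v ∈ Sp, (k : ℝ)) * ((Np : ℝ) * ((∏ v ∈ Sp, (Nt v : ℝ)) * C0)), by positivity, ?_⟩
  intro A hA hA1 F T hoff hT hcl hpow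
  set Ebd : ℝ := 1 + Real.exp (2 * T / k - ∑ a ∈ A, gk k i1 i2 a) with hEbd
  have hEbd0 : 0 ≤ Ebd := by positivity
  -- the quotient
  set G : K → K := fun x => wg (aff x) (α i1) / wg (aff x) (α i2) with hG
  have hG0 : ∀ x ∈ F, G x ≠ 0 := fun x hx => div_ne_zero (hoff x hx i1) (hoff x hx i2)
  -- step 4
  have step4 : ∀ (H : Finset K), H ⊆ F → ∀ (x1 : K), x1 ∈ F → ∀ (t : K → K) (g : K), g ≠ 0 →
      (∀ x ∈ H, t x ^ k * g * wg (aff x) (α i2) = wg (aff x) (α i1)) →
      (t x1 ^ k * g * wg (aff x1) (α i2) = wg (aff x1) (α i1)) →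
      (∀ v ∈ Sp, ∀ x ∈ H, ∀ y ∈ H, ct v (t x / t x1) = ct v (t y / t x1)) →
      (H.card : ℝ) ≤ (k : ℝ) ^ A.card * (C0 * Ebd) := by
    intro H hHF x1 hx1 t g hg ht ht1 hcol
    have ht0 : ∀ x, x ∈ F → t x ^ k * g * wg (aff x) (α i2) = wg (aff x) (α i1) → t x ≠ 0 := by
      intro x hx h h0
      rw [h0, zero_pow hk.ne', zero_mul, zero_mul] at h
      exact hoff x hx i1 h.symm
    have ht10 := ht0 x1 hx1 ht1
    set S4 := A.filter (fun a => a.1 ∉ Sp ∧ a.2.1 ≠ i1 ∧ a.2.1 ≠ i2) with hS4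
    set c4 : (Pl K × Fin q × ℕ) → K → Fin k := fun a x =>
      Sum.elim (fun _ : InfinitePlace K => ⟨0, hk⟩)
        (fun v : HeightOneSpectrum (𝓞 K) => cb v (t x / t x1)) a.1 with hc4
    have hmc := multi_coloring S4 (fun _ => k) c4 (C0 * Ebd) H ?_
    · refine hmc.trans ?_
      rw [Finset.prod_const]
      refine mul_le_mul_of_nonneg_right ?_ (mul_nonneg hC0 hEbd0)
      exact pow_le_pow_right₀ hk1 (Finset.card_le_card (Finset.filter_subset _ _))
    · intro L hLH hLcol
      have hLF : L ⊆ F := hLH.trans hHF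
      refine hfinal A hA hA1 L T t g hg (fun x hx => hoff x (hLF hx)) (fun x hx => hT x (hLF hx))
        (fun x hx => hcl x (hLF hx)) (fun x hx => ht x (hLH hx)) ?_
      intro a ha hn1 hn2 x hx y hy
      have hxF := hLF hx
      have hyF := hLF hy
      have htx := ht0 x hxF (ht x (hLH hx))
      have hty := ht0 y hyF (ht y (hLH hy))
      have hratio : t x / t y - 1 = (t x / t x1 - t y / t x1) / (t y / t x1) := by
        field_simp
      constructor
      · intro hv hΘ
        have hm := mt_pos a.1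
        have hθ : ∀ z ∈ F, wt a / mt a.1 ≤ lamA (av a.1) (aff z) (α a.2.1) := by
          intro z hz
          have h1 := hcl z hz a ha
          rw [lam_eq] at h1
          rw [div_le_iff₀ hm, mul_comm]
          exact h1
        obtain ⟨_, _, hth⟩ := hthird a.1 a.2.1 hn1 hn2
        have hs : ∀ z ∈ L, av a.1 ((t z / t x1) ^ k - 1) ≤ 1 / 2 := by
          intro z hz
          by_cases hzx : z = x1
          · rw [hzx, div_self ht10, one_pow, sub_self, map_zero]
            norm_num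
          · exact (hth (aff z) (aff x1) (aff_ne_zero z) (aff_ne_zero x1) (aff_wg hzx)
              (hoff z (hLF hz) i1) (hoff z (hLF hz) i2) (hoff x1 hx1 i1) (hoff x1 hx1 i2)
              (hoff z (hLF hz) a.2.1) (hoff x1 hx1 a.2.1) (t z) (t x1) g (ht z (hLH hz)) ht1 ht10
              (wt a / mt a.1) hΘ (hθ z (hLF hz)) (hθ x1 hx1)).1
        have hs2 : ∀ z ∈ L, av a.1 (t z / t x1) ≤ 2 := by
          intro z hz
          refine pow_le_of hk ((av a.1).nonneg _) ?_
          rw [← (av a.1).map_pow]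
          have h1 := (av a.1).add_le ((t z / t x1) ^ k - 1) 1
          rw [sub_add_cancel, (av a.1).map_one] at h1
          have := hs z hz
          linarith
        have hs3 : ∀ z ∈ L, 1 / 2 ≤ av a.1 (t z / t x1) := by
          intro z hz
          refine ge_of_pow hk ((av a.1).nonneg _) ?_
          rw [← (av a.1).map_pow]
          have h1 := (av a.1).add_le ((t z / t x1) ^ k) (-((t z / t x1) ^ k - 1))
          rw [(av a.1).map_neg] at h1
          have h2 : (t z / t x1) ^ k + -((t z / t x1) ^ k - 1) = 1 := by ring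
          rw [h2, (av a.1).map_one] at h1
          have := hs z hz
          linarith
        have h3 := hct a.1 (t x / t x1) (t y / t x1) (hs2 x hx) (hs2 y hy)
          (hcol a.1 hv x (hLH hx) y (hLH hy)) a.2.1
        rw [hratio, map_div₀]
        rw [div_le_iff₀ (lt_of_lt_of_le (by norm_num) (hs3 y hy))]
        have h4 := hs3 y hy
        have h5 := hε a.1 a.2.1
        nlinarith
      · intro hv
        have hva : ∃ v : HeightOneSpectrum (𝓞 K), a.1 = Sum.inr v := by
          rcases h : a.1 with w' | v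
          · exact absurd (by rw [h]; exact hinl w') hv
          · exact ⟨v, rfl⟩
        obtain ⟨v, hav⟩ := hva
        have ho := hord v (by rw [← hav]; exact hv)
        have hwt0 : 0 < wt a := by
          unfold wt
          have h4 : (1 : ℝ) ≤ a.2.2 := by exact_mod_cast hA1 a ha
          have := Lu_pos a.1
          nlinarith
        have hθ : ∀ z ∈ F, wt a ≤ lamA (fv v) (aff z) (α a.2.1) := by
          intro z hz
          have h1 := hcl z hz a ha
          rw [hav] at h1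
          exact h1
        have hs : ∀ z ∈ L, fv v ((t z / t x1) ^ k - 1) < 1 := by
          intro z hz
          by_cases hzx : z = x1
          · rw [hzx, div_self ht10, one_pow, sub_self, map_zero]
            norm_num
          · have h5 := (muA_ge_third_na (fv v) (fv_na v) (k := k) ho.k_one (aff_ne_zero z)
              (aff_ne_zero x1) (hα0 i1) (hα0 i2) (hα0 a.2.1) (aff_wg hzx) (hoff z (hLF hz) i1)
              (hoff z (hLF hz) i2) (hoff x1 hx1 i1) (hoff x1 hx1 i2) (hoff z (hLF hz) a.2.1)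
              (hoff x1 hx1 a.2.1)
              (hα i1 i2 h12) (hα a.2.1 i1 hn1) (hα a.2.1 i2 hn2) (ho.nrm_one i1) (ho.nrm_one i2)
              (ho.lam_zero i1 i2 h12) (ho.lam_zero a.2.1 i1 hn1) (ho.lam_zero a.2.1 i2 hn2)
              (ht z (hLH hz)) ht1 ht10 (wt a) hwt0 (hθ z (hLF hz)) (hθ x1 hx1)).1
            refine h5.trans_lt ?_
            rw [Real.exp_lt_one_iff]
            linarith
        have hs2 : ∀ z ∈ L, fv v (t z / t x1) = 1 := by
          intro z hz
          have h1 : fv v ((t z / t x1) ^ k) = 1 := by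
            refine le_antisymm ?_ ?_
            · have h2 := fv_na v ((t z / t x1) ^ k - 1) 1
              rw [sub_add_cancel, (fv v).map_one] at h2
              exact h2.trans (max_le (hs z hz).le le_rfl)
            · have h2 := fv_na v ((t z / t x1) ^ k) (-((t z / t x1) ^ k - 1))
              have h3 : (t z / t x1) ^ k + -((t z / t x1) ^ k - 1) = 1 := by ring
              rw [h3, (fv v).map_one, (fv v).map_neg] at h2
              rcases le_max_iff.mp h2 with h4 | h4
              · exact h4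
              · have := hs z hz
                linarith
          rw [(fv v).map_pow] at h1
          exact (pow_eq_one_iff_of_nonneg ((fv v).nonneg _) hk.ne').mp h1
        have hcol4 : cb v (t x / t x1) = cb v (t y / t x1) := by
          have ha4 : a ∈ S4 := by
            rw [hS4, Finset.mem_filter]
            exact ⟨ha, hv, hn1, hn2⟩
          have h1 := hLcol a ha4 x hx y hy
          rw [hc4] at h1
          simp only [hav, Sum.elim_inr] at h1
          exact h1
        have h6 := hcb v (t x / t x1) (t y / t x1) (hs2 x hx).le (hs2 y hy).le (hs x hx) (hs y hy)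
          hcol4
        have h7 : av a.1 (t x / t y - 1) = fv v (t x / t y - 1) := by rw [hav]; rfl
        rw [h7, hratio, map_div₀, hs2 y hy, div_one]
        exact h6
  -- step 3: total boundedness colours
  have step3 : ∀ (H : Finset K), H ⊆ F → ∀ (x1 : K), x1 ∈ F → ∀ (t : K → K) (g : K), g ≠ 0 →
      (∀ x ∈ H, t x ^ k * g * wg (aff x) (α i2) = wg (aff x) (α i1)) →
      (t x1 ^ k * g * wg (aff x1) (α i2) = wg (aff x1) (α i1)) →
      (H.card : ℝ) ≤ (∏ v ∈ Sp, (Nt v : ℝ)) * ((k : ℝ) ^ A.card * (C0 * Ebd)) := by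
    intro H hHF x1 hx1 t g hg ht ht1
    refine multi_coloring Sp Nt (fun v x => ct v (t x / t x1)) _ H ?_
    intro L hLH hLcol
    exact step4 L (hLH.trans hHF) x1 hx1 t g hg (fun x hx => ht x (hLH hx)) ht1 hLcol
  -- step 2: colour modulo k-th powers
  have step2 : ∀ (H : Finset K), H ⊆ F →
      (∀ x ∈ H, ∀ y ∈ H, PowIdeal k (G x / G y)) →
      (H.card : ℝ) ≤ (Np : ℝ) * ((∏ v ∈ Sp, (Nt v : ℝ)) * ((k : ℝ) ^ A.card * (C0 * Ebd))) := by
    intro H hHF hPow
    rcases H.eq_empty_or_nonempty with rfl | ⟨x0, hx0⟩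
    · simp only [Finset.card_empty, Nat.cast_zero]
      positivity
    have hmc := multi_coloring ({0} : Finset ℕ) (fun _ => Np) (fun _ x => cp (G x / G x0))
      ((∏ v ∈ Sp, (Nt v : ℝ)) * ((k : ℝ) ^ A.card * (C0 * Ebd))) H ?_
    · rwa [Finset.prod_singleton] at hmc
    intro L hLH hLcol
    rcases L.eq_empty_or_nonempty with rfl | ⟨x1, hx1⟩
    · simp only [Finset.card_empty, Nat.cast_zero]
      positivity
    have hx1F := hHF (hLH hx1)
    have hroot : ∀ x : K, ∃ z : K, x ∈ L → z ^ k * G x1 = G x := by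
      intro x
      by_cases hx : x ∈ L
      · have hxF := hHF (hLH hx)
        have hx0F := hHF hx0
        obtain ⟨z, hz⟩ := hcp (G x / G x0) (G x1 / G x0)
          (div_ne_zero (hG0 x hxF) (hG0 x0 hx0F)) (div_ne_zero (hG0 x1 hx1F) (hG0 x0 hx0F))
          (hPow x (hLH hx) x0 hx0) (hPow x1 (hLH hx1) x0 hx0)
          (hLcol 0 (Finset.mem_singleton_self 0) x hx x1 hx1)
        refine ⟨z, fun _ => ?_⟩
        have h1 := hG0 x0 hx0F
        rw [← mul_div_assoc] at hz
        exact (div_left_inj' h1).mp hz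
      · exact ⟨0, fun h => absurd h hx⟩
    choose t ht using hroot
    have hteq : ∀ x ∈ L, t x ^ k * G x1 * wg (aff x) (α i2) = wg (aff x) (α i1) := by
      intro x hx
      rw [ht x hx]
      exact div_mul_cancel₀ _ (hoff x (hHF (hLH hx)) i2)
    exact step3 L (hLH.trans hHF) x1 hx1F t (G x1) (hG0 x1 hx1F) hteq (hteq x1 hx1)
  -- step 1: colour by the orders at the special places
  have hordx : ∀ (v : HeightOneSpectrum (𝓞 K)) (x : K), ∃ n : ℤ, G x ≠ 0 → fv v (G x) =
      (Nv v) ^ n := by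
    intro v x
    by_cases h : G x ≠ 0
    · obtain ⟨n, hn⟩ := fv_zpow v h
      exact ⟨n, fun _ => hn⟩
    · exact ⟨0, fun h' => absurd h' h⟩
  choose nn hnn using hordx
  have hkz : (0 : ℤ) < k := by exact_mod_cast hk
  set c1 : Pl K → K → Fin k := fun v x =>
    Sum.elim (fun _ : InfinitePlace K => ⟨0, hk⟩)
      (fun v : HeightOneSpectrum (𝓞 K) => ⟨(nn v x % k).toNat, by
        have h1 := Int.emod_nonneg (nn v x) hkz.ne'
        have h2 := Int.emod_lt_of_pos (nn v x) hkz
        omega⟩) v with hc1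
  have step1 := multi_coloring Sp (fun _ => k) c1
    ((Np : ℝ) * ((∏ v ∈ Sp, (Nt v : ℝ)) * ((k : ℝ) ^ A.card * (C0 * Ebd)))) F ?_
  · refine step1.trans (le_of_eq ?_)
    rw [hEbd]; ring
  · intro L hLF hLcol
    refine step2 L hLF ?_
    intro x hx y hy v
    have hxF := hLF hx
    have hyF := hLF hy
    by_cases hv : (Sum.inr v : Pl K) ∈ Sp
    · have h1 := hLcol (Sum.inr v) hv x hx y hy
      rw [hc1] at h1
      simp only [Sum.elim_inr, Fin.mk.injEq] at h1
      have h2 := Int.emod_nonneg (nn v x) hkz.ne'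
      have h3 := Int.emod_nonneg (nn v y) hkz.ne'
      have h4 : nn v x % k = nn v y % k := by omega
      have h5 : (k : ℤ) ∣ nn v x - nn v y := (Int.emod_emod_of_dvd _ (dvd_refl _) ▸
        Int.emod_eq_emod_iff_emod_sub_eq_zero.mp h4 |> Int.dvd_of_emod_eq_zero)
      obtain ⟨m, hm⟩ := h5
      refine ⟨m, ?_⟩
      rw [map_div₀, hnn v x (hG0 x hxF), hnn v y (hG0 y hyF), ← hm,
        zpow_sub₀ (by linarith [two_le_Nv v] : Nv v ≠ 0)]
    · exact hpow x hxF y hyF v hv

end Pool.Agent.H691R3
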