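import Pool.Agent.H691R3.RootPack

set_option autoImplicit false
set_option linter.unusedSectionVars false
set_option linter.unusedVariables false

/-!
The class bound for the `k`-th root descent, with the branches fixed.
-/

namespace Pool.Agent.H691R3

open NumberField IsDedekindDomain Finset

variable {K : Type*} [Field K] [NumberField K]

/-- weight of a block -/
noncomputable def wt {q : ℕ} (a : Pl K × Fin q × ℕ) : ℝ := (a.2.2 : ℝ) * Lu a.1

/-- gain of a block in the `k`-th root method with root forms `i1`, `i2` -/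
noncomputable def gk {q : ℕ} (k : ℕ) (i1 i2 : Fin q) (a : Pl K × Fin q × ℕ) : ℝ :=
  if a.2.1 = i1 ∨ a.2.1 = i2 then wt a / k else wt a

/-- the point `[x : 1]` is different from all `α l` -/
def Off {q : ℕ} (α : Fin q → K × K) (x : K) : Prop := ∀ l, wg (aff x) (α l) ≠ 0

/-- ordinary primes -/
structure Ordin (k : ℕ) {q : ℕ} (α : Fin q → K × K) (v : HeightOneSpectrum (𝓞 K)) : Prop where
  nrm_one : ∀ l, nrm (fv v) (α l) = 1
  lam_zero : ∀ l j, l ≠ j → lamA (fv v) (α l) (α j) = 0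
  k_one : fv v (k : K) = 1

/-- the conclusion of `muA_ge_third` -/
def ThirdProp (f : AbsoluteValue K ℝ) (k : ℕ) (α1 α2 α3 : K × K) (ε Θ C : ℝ) : Prop :=
  ∀ (p r : K × K), p ≠ 0 → r ≠ 0 → wg p r ≠ 0 →
      wg p α1 ≠ 0 → wg p α2 ≠ 0 → wg r α1 ≠ 0 → wg r α2 ≠ 0 → wg p α3 ≠ 0 → wg r α3 ≠ 0 →
      ∀ tx ty g0 : K, tx ^ k * g0 * wg p α2 = wg p α1 → ty ^ k * g0 * wg r α2 = wg r α1 →
      ty ≠ 0 → ∀ θ : ℝ, Θ ≤ θ → θ ≤ lamA f p α3 → θ ≤ lamA f r α3 →
      f ((tx / ty) ^ k - 1) ≤ 1 / 2 ∧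
      (f (tx / ty - 1) ≤ ε → (tx - ty) ^ k * wg p α2 * wg r α2 * g0 ≠ 0 →
        k * θ - C ≤ muA f p r ((tx - ty) ^ k * wg p α2 * wg r α2 * g0))

/-- class bound, branches fixed -/
theorem final_count {q : ℕ} (α : Fin q → K × K) (hα0 : ∀ l, α l ≠ 0)
    (hα : ∀ i j, i ≠ j → wg (α i) (α j) ≠ 0) (i1 i2 : Fin q) (h12 : i1 ≠ i2) {k : ℕ} (hk : 0 < k)
    (Sp : Finset (Pl K)) (hinl : ∀ w : InfinitePlace K, (Sum.inl w : Pl K) ∈ Sp)
    (hord : ∀ v : HeightOneSpectrum (𝓞 K), (Sum.inr v : Pl K) ∉ Sp → Ordin k α v)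
    (εf Θf Cf : Pl K → Fin q → ℝ)
    (hthird : ∀ v l, l ≠ i1 → l ≠ i2 → 0 ≤ Θf v l ∧ 0 ≤ Cf v l ∧
      ThirdProp (av v) k (α i1) (α i2) (α l) (εf v l) (Θf v l) (Cf v l)) :
    ∃ C : ℝ, 0 ≤ C ∧ ∀ (A : Finset (Pl K × Fin q × ℕ)),
      Set.InjOn (fun a : Pl K × Fin q × ℕ => a.1) A → (∀ a ∈ A, 1 ≤ a.2.2) →
      ∀ (F : Finset K) (T : ℝ) (t : K → K) (g : K), g ≠ 0 →
      (∀ x ∈ F, Off α x) → (∀ x ∈ F, hr (aff x) ≤ T) →
      (∀ x ∈ F, ∀ a ∈ A, wt a ≤ lam a.1 (aff x) (α a.2.1)) →
      (∀ x ∈ F, t x ^ k * g * wg (aff x) (α i2) = wg (aff x) (α i1)) →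
      (∀ a ∈ A, a.2.1 ≠ i1 → a.2.1 ≠ i2 → ∀ x ∈ F, ∀ y ∈ F,
        (a.1 ∈ Sp → Θf a.1 a.2.1 ≤ wt a / mt a.1 → av a.1 (t x / t y - 1) ≤ εf a.1 a.2.1) ∧
        (a.1 ∉ Sp → av a.1 (t x / t y - 1) < 1)) →
      (F.card : ℝ) ≤ C * (1 + Real.exp (2 * T / k - ∑ a ∈ A, gk k i1 i2 a)) := by
  classical
  obtain ⟨w⟩ : Nonempty (InfinitePlace K) := inferInstance
  obtain ⟨C0, hC0, hcount⟩ := place_count_root w hk (hα0 i1) (hα0 i2) (hα i1 i2 h12)
  have hk0 : (0 : ℝ) < k := by exact_mod_cast hk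
  have hlog2 : 0 < Real.log 2 := Real.log_pos (by norm_num)
  -- constants at the special places
  set Bv : Pl K → ℝ := fun v => mt v * (k * Real.log 2 + |Real.log (nrm (av v) (α i1))| +
    |Real.log (nrm (av v) (α i2))| + Real.log 2 + Real.log 2) with hBv
  set Tv : Pl K → ℝ := fun v => ∑ l : Fin q, (if l ≠ i1 ∧ l ≠ i2 then
    mt v * (Cf v l + k * Θf v l) else 0) with hTv
  have hBv0 : ∀ v, 0 ≤ Bv v := fun v => by
    have := mt_pos v
    rw [hBv]; positivity
  have hTvl : ∀ v l, 0 ≤ (if l ≠ i1 ∧ l ≠ i2 then mt v * (Cf v l + k * Θf v l) else 0) := by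
    intro v l
    split_ifs with h
    · have h1 := hthird v l h.1 h.2
      have := mt_pos v
      exact mul_nonneg this.le (add_nonneg h1.2.1 (mul_nonneg hk0.le h1.1))
    · exact le_rfl
  have hTv0 : ∀ v, 0 ≤ Tv v := fun v => Finset.sum_nonneg fun l _ => hTvl v l
  have hTvle : ∀ v l, l ≠ i1 → l ≠ i2 → mt v * (Cf v l + k * Θf v l) ≤ Tv v := by
    intro v l h1 h2
    have h3 := Finset.single_le_sum (f := fun l => (if l ≠ i1 ∧ l ≠ i2 then
      mt v * (Cf v l + k * Θf v l) else 0)) (fun l _ => hTvl v l) (Finset.mem_univ l)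
    simp only [if_pos (⟨h1, h2⟩ : l ≠ i1 ∧ l ≠ i2)] at h3
    exact h3
  set Cs : Pl K → ℝ := fun v => if v ∈ Sp then Bv v + Tv v else 0 with hCs
  have hCs0 : ∀ v, 0 ≤ Cs v := by
    intro v
    rw [hCs]; simp only
    split_ifs
    · exact add_nonneg (hBv0 v) (hTv0 v)
    · exact le_rfl
  set Ct : ℝ := ∑ v ∈ Sp, Cs v with hCt
  have hCt0 : 0 ≤ Ct := Finset.sum_nonneg fun v _ => hCs0 v
  have hCsle : ∀ v, Cs v ≤ Ct := by
    intro v
    by_cases hv : v ∈ Sp
    · exact Finset.single_le_sum (f := Cs) (fun v _ => hCs0 v) hv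
    · have : Cs v = 0 := by rw [hCs]; simp only [if_neg hv]
      rw [this]; exact hCt0
  have hCssum : ∀ S : Finset (Pl K), ∑ v ∈ S, Cs v ≤ Ct := by
    intro S
    have h1 : ∑ v ∈ S, Cs v = ∑ v ∈ S.filter (fun v => v ∈ Sp), Cs v := by
      rw [Finset.sum_filter]
      refine Finset.sum_congr rfl fun v _ => ?_
      split_ifs with h
      · rfl
      · rw [hCs]; simp only [if_neg h]
    rw [h1, hCt]
    refine Finset.sum_le_sum_of_subset_of_nonneg ?_ (fun v _ _ => hCs0 v)
    intro v hv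
    exact (Finset.mem_filter.mp hv).2
  refine ⟨C0 * Real.exp (3 * Ct / k), by positivity, ?_⟩
  intro A hA hA1 F T t g hg hoff hT hcl ht hbr
  have ht0 : ∀ x ∈ F, t x ≠ 0 := by
    intro x hx h0
    have h1 := ht x hx
    rw [h0, zero_pow hk.ne', zero_mul, zero_mul] at h1
    exact hoff x hx i1 h1.symm
  have hAA : ∀ x ∈ F, ∀ y ∈ F, x ≠ y → AA k (α i2) t g x y ≠ 0 := fun x hx y hy hxy =>
    AA_ne (hα i1 i2 h12) (hoff x hx i2) (hoff y hy i2) hg (ht x hx) (ht y hy) hxy
  -- gain at the root forms (and no gain)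
  have hroot : ∀ x ∈ F, ∀ y ∈ F, x ≠ y → ∀ v : Pl K, ∀ θ : ℝ,
      ((θ ≤ lamA (av v) (aff x) (α i1) ∧ θ ≤ lamA (av v) (aff y) (α i1)) ∨
        (θ ≤ lamA (av v) (aff x) (α i2) ∧ θ ≤ lamA (av v) (aff y) (α i2))) →
      mt v * θ - Cs v ≤ mu v (aff x) (aff y) (AA k (α i2) t g x y) := by
    intro x hx y hy hxy v θ hθ
    by_cases hv : v ∈ Sp
    · have h1 := muA_ge (av v) (by norm_num : (1 : ℝ) ≤ 2) (av_two v) (aff_ne_zero x)
        (aff_ne_zero y) (hα0 i1) (hα0 i2) (hoff x hx i1) (hoff x hx i2) (hoff y hy i1)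
        (hoff y hy i2) (ht x hx) (ht y hy) (hAA x hx y hy hxy) (Real.log 2)
        (lamA_ge_neg_log_two (av v) (aff_ne_zero x) (hα0 i1) (hoff x hx i1))
        (lamA_ge_neg_log_two (av v) (aff_ne_zero x) (hα0 i2) (hoff x hx i2))
        (lamA_ge_neg_log_two (av v) (aff_ne_zero y) (hα0 i1) (hoff y hy i1))
        (lamA_ge_neg_log_two (av v) (aff_ne_zero y) (hα0 i2) (hoff y hy i2)) θ hθ
      have h2 : mu v (aff x) (aff y) (AA k (α i2) t g x y) =
        mt v * muA (av v) (aff x) (aff y) (AA k (α i2) t g x y) := rfl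
      have h3 : Cs v = Bv v + Tv v := by rw [hCs]; simp only [if_pos hv]
      rw [h2, h3]
      have hm := mt_pos v
      have h4 := mul_le_mul_of_nonneg_left h1 hm.le
      have h5 : mt v * (k * Real.log 2 + Real.log (nrm (av v) (α i1)) +
          Real.log (nrm (av v) (α i2)) + Real.log 2) ≤ Bv v := by
        rw [hBv]
        refine mul_le_mul_of_nonneg_left ?_ hm.le
        linarith [le_abs_self (Real.log (nrm (av v) (α i1))),
          le_abs_self (Real.log (nrm (av v) (α i2)))]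
      have h6 := hTv0 v
      have h7 : mt v * (θ - (k * Real.log 2 + Real.log (nrm (av v) (α i1)) +
          Real.log (nrm (av v) (α i2)) + Real.log 2)) = mt v * θ -
          mt v * (k * Real.log 2 + Real.log (nrm (av v) (α i1)) +
          Real.log (nrm (av v) (α i2)) + Real.log 2) := by ring
      rw [h7] at h4
      unfold AA at *
      linarith
    · rcases v with w' | v
      · exact absurd (hinl w') hv
      have ho := hord v hv
      have hna : ∀ a b, fv v (a + b) ≤ 1 * max (fv v a) (fv v b) := by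
        intro a b; rw [one_mul]; exact fv_na v a b
      have h1 := muA_ge (fv v) (le_refl (1 : ℝ)) hna (aff_ne_zero x)
        (aff_ne_zero y) (hα0 i1) (hα0 i2) (hoff x hx i1) (hoff x hx i2) (hoff y hy i1)
        (hoff y hy i2) (ht x hx) (ht y hy) (hAA x hx y hy hxy) 0
        (by rw [neg_zero]; exact lamF_nonneg v (aff_ne_zero x) (hα0 i1) (hoff x hx i1))
        (by rw [neg_zero]; exact lamF_nonneg v (aff_ne_zero x) (hα0 i2) (hoff x hx i2))
        (by rw [neg_zero]; exact lamF_nonneg v (aff_ne_zero y) (hα0 i1) (hoff y hy i1))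
        (by rw [neg_zero]; exact lamF_nonneg v (aff_ne_zero y) (hα0 i2) (hoff y hy i2)) θ hθ
      rw [ho.nrm_one i1, ho.nrm_one i2, Real.log_one] at h1
      have h3 : Cs (Sum.inr v) = 0 := by rw [hCs]; simp only [if_neg hv]
      have h2 : mu (Sum.inr v : Pl K) (aff x) (aff y) (AA k (α i2) t g x y) =
        1 * muA (fv v) (aff x) (aff y) (AA k (α i2) t g x y) := rfl
      have h4 : mt (Sum.inr v : Pl K) = 1 := rfl
      rw [h2, h3, h4]
      unfold AA
      linarith
  -- lower bound everywhere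
  have hlow : ∀ x ∈ F, ∀ y ∈ F, x ≠ y → ∀ v : Pl K,
      -(Cs v) ≤ mu v (aff x) (aff y) (AA k (α i2) t g x y) := by
    intro x hx y hy hxy v
    by_cases hv : v ∈ Sp
    · -- use θ = -log 2 and the extra log 2 in the constant
      have h1 := muA_ge (av v) (by norm_num : (1 : ℝ) ≤ 2) (av_two v) (aff_ne_zero x)
        (aff_ne_zero y) (hα0 i1) (hα0 i2) (hoff x hx i1) (hoff x hx i2) (hoff y hy i1)
        (hoff y hy i2) (ht x hx) (ht y hy) (hAA x hx y hy hxy) (Real.log 2)
        (lamA_ge_neg_log_two (av v) (aff_ne_zero x) (hα0 i1) (hoff x hx i1))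
        (lamA_ge_neg_log_two (av v) (aff_ne_zero x) (hα0 i2) (hoff x hx i2))
        (lamA_ge_neg_log_two (av v) (aff_ne_zero y) (hα0 i1) (hoff y hy i1))
        (lamA_ge_neg_log_two (av v) (aff_ne_zero y) (hα0 i2) (hoff y hy i2)) (-Real.log 2)
        (Or.inl ⟨lamA_ge_neg_log_two (av v) (aff_ne_zero x) (hα0 i1) (hoff x hx i1),
          lamA_ge_neg_log_two (av v) (aff_ne_zero y) (hα0 i1) (hoff y hy i1)⟩)
      have h2 : mu v (aff x) (aff y) (AA k (α i2) t g x y) =
        mt v * muA (av v) (aff x) (aff y) (AA k (α i2) t g x y) := rfl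
      have h3 : Cs v = Bv v + Tv v := by rw [hCs]; simp only [if_pos hv]
      rw [h2, h3]
      have hm := mt_pos v
      have h4 := mul_le_mul_of_nonneg_left h1 hm.le
      have h5 : mt v * (k * Real.log 2 + Real.log (nrm (av v) (α i1)) +
          Real.log (nrm (av v) (α i2)) + Real.log 2 + Real.log 2) ≤ Bv v := by
        rw [hBv]
        refine mul_le_mul_of_nonneg_left ?_ hm.le
        linarith [le_abs_self (Real.log (nrm (av v) (α i1))),
          le_abs_self (Real.log (nrm (av v) (α i2)))]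
      have h6 := hTv0 v
      have h7 : mt v * (-Real.log 2 - (k * Real.log 2 + Real.log (nrm (av v) (α i1)) +
          Real.log (nrm (av v) (α i2)) + Real.log 2)) = -(mt v * (k * Real.log 2 +
          Real.log (nrm (av v) (α i1)) + Real.log (nrm (av v) (α i2)) + Real.log 2 +
          Real.log 2)) := by ring
      rw [h7] at h4
      unfold AA at *
      linarith
    · rcases v with w' | v
      · exact absurd (hinl w') hv
      have h1 := hroot x hx y hy hxy (Sum.inr v) 0
        (Or.inl ⟨lamF_nonneg v (aff_ne_zero x) (hα0 i1) (hoff x hx i1),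
          lamF_nonneg v (aff_ne_zero y) (hα0 i1) (hoff y hy i1)⟩)
      rw [mul_zero] at h1
      linarith
  -- gain at the blocks
  have hgain : ∀ x ∈ F, ∀ y ∈ F, x ≠ y → ∀ a ∈ A,
      k * gk k i1 i2 a - Cs a.1 ≤ mu a.1 (aff x) (aff y) (AA k (α i2) t g x y) := by
    intro x hx y hy hxy a ha
    have hm := mt_pos a.1
    have hθ : ∀ z ∈ F, wt a / mt a.1 ≤ lamA (av a.1) (aff z) (α a.2.1) := by
      intro z hz
      have h1 := hcl z hz a ha
      rw [lam_eq] at h1
      rw [div_le_iff₀ hm, mul_comm]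
      exact h1
    by_cases hroot12 : a.2.1 = i1 ∨ a.2.1 = i2
    · have h1 : k * gk k i1 i2 a = mt a.1 * (wt a / mt a.1) := by
        unfold gk
        rw [if_pos hroot12]
        field_simp
      rw [h1]
      refine hroot x hx y hy hxy a.1 (wt a / mt a.1) ?_
      rcases hroot12 with h2 | h2
      · left
        rw [← h2]
        exact ⟨hθ x hx, hθ y hy⟩
      · right
        rw [← h2]
        exact ⟨hθ x hx, hθ y hy⟩
    · push Not at hroot12
      obtain ⟨hn1, hn2⟩ := hroot12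
      have h1 : gk k i1 i2 a = wt a := by
        unfold gk
        rw [if_neg (by push Not; exact ⟨hn1, hn2⟩)]
      rw [h1]
      obtain ⟨hb1, hb2⟩ := hbr a ha hn1 hn2 x hx y hy
      by_cases hv : a.1 ∈ Sp
      · have h3 : Cs a.1 = Bv a.1 + Tv a.1 := by rw [hCs]; simp only [if_pos hv]
        obtain ⟨hΘ0, hC0', hth⟩ := hthird a.1 a.2.1 hn1 hn2
        have hTl := hTvle a.1 a.2.1 hn1 hn2
        by_cases hbig : Θf a.1 a.2.1 ≤ wt a / mt a.1
        · obtain ⟨_, h4⟩ := hth (aff x) (aff y) (aff_ne_zero x) (aff_ne_zero y) (aff_wg hxy)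
            (hoff x hx i1) (hoff x hx i2) (hoff y hy i1) (hoff y hy i2) (hoff x hx a.2.1)
            (hoff y hy a.2.1) (t x) (t y) g (ht x hx) (ht y hy) (ht0 y hy) (wt a / mt a.1) hbig
            (hθ x hx) (hθ y hy)
          have h5 := h4 (hb1 hv hbig) (hAA x hx y hy hxy)
          have h6 := mul_le_mul_of_nonneg_left h5 hm.le
          have h7 : mt a.1 * (k * (wt a / mt a.1) - Cf a.1 a.2.1) =
              k * wt a - mt a.1 * Cf a.1 a.2.1 := by
            field_simp
          rw [h7] at h6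
          have h8 : mt a.1 * Cf a.1 a.2.1 ≤ mt a.1 * (Cf a.1 a.2.1 + k * Θf a.1 a.2.1) := by
            refine mul_le_mul_of_nonneg_left ?_ hm.le
            have := mul_nonneg hk0.le hΘ0
            linarith
          have h9 := hBv0 a.1
          have h10 : mu a.1 (aff x) (aff y) (AA k (α i2) t g x y) =
            mt a.1 * muA (av a.1) (aff x) (aff y) (AA k (α i2) t g x y) := rfl
          rw [h3, h10]
          unfold AA
          linarith
        · rw [not_le] at hbig
          have h4 := hlow x hx y hy hxy a.1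
          -- the gain is bounded
          have h5 : wt a ≤ mt a.1 * Θf a.1 a.2.1 := by
            rw [div_lt_iff₀ hm] at hbig
            linarith
          have h6 : k * wt a ≤ mt a.1 * (Cf a.1 a.2.1 + k * Θf a.1 a.2.1) := by
            have h7 := mul_le_mul_of_nonneg_left h5 hk0.le
            have h8 := mul_nonneg hm.le hC0'
            linarith
          -- need a second copy of the constant
          have h11 := muA_ge (av a.1) (by norm_num : (1 : ℝ) ≤ 2) (av_two a.1) (aff_ne_zero x)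
            (aff_ne_zero y) (hα0 i1) (hα0 i2) (hoff x hx i1) (hoff x hx i2) (hoff y hy i1)
            (hoff y hy i2) (ht x hx) (ht y hy) (hAA x hx y hy hxy) (Real.log 2)
            (lamA_ge_neg_log_two (av a.1) (aff_ne_zero x) (hα0 i1) (hoff x hx i1))
            (lamA_ge_neg_log_two (av a.1) (aff_ne_zero x) (hα0 i2) (hoff x hx i2))
            (lamA_ge_neg_log_two (av a.1) (aff_ne_zero y) (hα0 i1) (hoff y hy i1))
            (lamA_ge_neg_log_two (av a.1) (aff_ne_zero y) (hα0 i2) (hoff y hy i2)) (-Real.log 2)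
            (Or.inl ⟨lamA_ge_neg_log_two (av a.1) (aff_ne_zero x) (hα0 i1) (hoff x hx i1),
              lamA_ge_neg_log_two (av a.1) (aff_ne_zero y) (hα0 i1) (hoff y hy i1)⟩)
          have h12' := mul_le_mul_of_nonneg_left h11 hm.le
          have h13 : mt a.1 * (k * Real.log 2 + Real.log (nrm (av a.1) (α i1)) +
              Real.log (nrm (av a.1) (α i2)) + Real.log 2 + Real.log 2) ≤ Bv a.1 := by
            rw [hBv]
            refine mul_le_mul_of_nonneg_left ?_ hm.le
            linarith [le_abs_self (Real.log (nrm (av a.1) (α i1))),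
              le_abs_self (Real.log (nrm (av a.1) (α i2)))]
          have h14 : mt a.1 * (-Real.log 2 - (k * Real.log 2 + Real.log (nrm (av a.1) (α i1)) +
              Real.log (nrm (av a.1) (α i2)) + Real.log 2)) = -(mt a.1 * (k * Real.log 2 +
              Real.log (nrm (av a.1) (α i1)) + Real.log (nrm (av a.1) (α i2)) + Real.log 2 +
              Real.log 2)) := by ring
          rw [h14] at h12'
          have h10 : mu a.1 (aff x) (aff y) (AA k (α i2) t g x y) =
            mt a.1 * muA (av a.1) (aff x) (aff y) (AA k (α i2) t g x y) := rfl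
          rw [h3, h10]
          unfold AA
          linarith
      · have hva : ∃ v : HeightOneSpectrum (𝓞 K), a.1 = Sum.inr v := by
          rcases h : a.1 with w' | v
          · exact absurd (by rw [h]; exact hinl w') hv
          · exact ⟨v, rfl⟩
        obtain ⟨v, hav⟩ := hva
        have ho := hord v (by rw [← hav]; exact hv)
        have h3 : Cs a.1 = 0 := by rw [hCs]; simp only [if_neg hv]
        have hwt0 : 0 < wt a := by
          unfold wt
          have h4 : (1 : ℝ) ≤ a.2.2 := by exact_mod_cast hA1 a ha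
          have := Lu_pos a.1
          nlinarith
        have hθx := hcl x hx a ha
        have hθy := hcl y hy a ha
        have hb3 := hb2 hv
        rw [hav] at hθx hθy hb3 h3 ⊢
        have h5 := muA_ge_third_na (fv v) (fv_na v) (k := k) ho.k_one (aff_ne_zero x)
          (aff_ne_zero y) (hα0 i1) (hα0 i2) (hα0 a.2.1) (aff_wg hxy) (hoff x hx i1)
          (hoff x hx i2) (hoff y hy i1) (hoff y hy i2) (hoff x hx a.2.1) (hoff y hy a.2.1)
          (hα i1 i2 h12) (hα a.2.1 i1 hn1) (hα a.2.1 i2 hn2) (ho.nrm_one i1) (ho.nrm_one i2)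
          (ho.lam_zero i1 i2 h12) (ho.lam_zero a.2.1 i1 hn1) (ho.lam_zero a.2.1 i2 hn2)
          (ht x hx) (ht y hy) (ht0 y hy) (wt a) hwt0 hθx hθy
        have h6 := h5.2 hb3 (hAA x hx y hy hxy)
        have h10 : mu (Sum.inr v : Pl K) (aff x) (aff y) (AA k (α i2) t g x y) =
          1 * muA (fv v) (aff x) (aff y) (AA k (α i2) t g x y) := rfl
        rw [h3, h10]
        unfold AA
        linarith
  -- upper and lower bound at `w`
  set A1 := A.filter (fun a => a.1 = Sum.inl w) with hA1'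
  set A2 := A.filter (fun a => ¬ a.1 = Sum.inl w) with hA2'
  have hsplit : ∑ a ∈ A, gk k i1 i2 a = ∑ a ∈ A1, gk k i1 i2 a + ∑ a ∈ A2, gk k i1 i2 a :=
    (Finset.sum_filter_add_sum_filter_not _ _ _).symm
  have hU : ∀ x ∈ F, ∀ y ∈ F, x ≠ y →
      mu (Sum.inl w : Pl K) (aff x) (aff y) (AA k (α i2) t g x y) ≤
        2 * T + 2 * Ct - k * ∑ a ∈ A2, gk k i1 i2 a := by
    intro x hx y hy hxy
    set S : Finset (Pl K) := insert (Sum.inl w) (A2.image (fun a => a.1)) with hS
    have hnot : (Sum.inl w : Pl K) ∉ A2.image (fun a => a.1) := by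
      intro hmem
      obtain ⟨a, ha, hav⟩ := Finset.mem_image.mp hmem
      exact (Finset.mem_filter.mp ha).2 hav
    obtain ⟨P, hSP, hP⟩ := sum_mu (aff_ne_zero x) (aff_ne_zero y) (hAA x hx y hy hxy) S
    have h1 : ∑ v ∈ S, (mu v (aff x) (aff y) (AA k (α i2) t g x y) + Cs v) ≤
        ∑ v ∈ P, (mu v (aff x) (aff y) (AA k (α i2) t g x y) + Cs v) :=
      Finset.sum_le_sum_of_subset_of_nonneg hSP fun v _ _ => by
        have := hlow x hx y hy hxy v
        linarith
    rw [Finset.sum_add_distrib (s := P), hP] at h1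
    rw [hS, Finset.sum_insert hnot, Finset.sum_image
      (hA.mono (by rw [hA2']; exact_mod_cast Finset.filter_subset _ _))] at h1
    have h2 : ∑ a ∈ A2, k * gk k i1 i2 a ≤
        ∑ a ∈ A2, (mu a.1 (aff x) (aff y) (AA k (α i2) t g x y) + Cs a.1) :=
      Finset.sum_le_sum fun a ha => by
        have := hgain x hx y hy hxy a (Finset.mem_filter.mp ha).1
        linarith
    rw [← Finset.mul_sum] at h2
    have h3 := hCssum P
    have h4 := hCs0 (Sum.inl w)
    have h5 := hT x hx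
    have h6 := hT y hy
    linarith
  have hL : ∀ x ∈ F, ∀ y ∈ F, x ≠ y → k * ∑ a ∈ A1, gk k i1 i2 a - Ct ≤
      mu (Sum.inl w : Pl K) (aff x) (aff y) (AA k (α i2) t g x y) := by
    intro x hx y hy hxy
    rcases A1.eq_empty_or_nonempty with h1 | ⟨a, ha⟩
    · rw [h1, Finset.sum_empty, mul_zero]
      have h2 := hlow x hx y hy hxy (Sum.inl w)
      have h3 := hCsle (Sum.inl w)
      linarith
    · have h3 : A1 = {a} := by
        refine Finset.eq_singleton_iff_unique_mem.mpr ⟨ha, fun b hb => ?_⟩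
        rw [hA1', Finset.mem_filter] at ha hb
        exact hA hb.1 ha.1 (hb.2.trans ha.2.symm)
      rw [h3, Finset.sum_singleton]
      rw [hA1', Finset.mem_filter] at ha
      have h2 := hgain x hx y hy hxy a ha.1
      rw [ha.2] at h2
      have h4 := hCsle (Sum.inl w)
      linarith
  have hfin := hcount F t _ _ g hg (fun x hx => ⟨hoff x hx i1, hoff x hx i2, ht x hx⟩) hU hL
  refine hfin.trans ?_
  have h7 : ((2 * T + 2 * Ct - k * ∑ a ∈ A2, gk k i1 i2 a) -
      (k * ∑ a ∈ A1, gk k i1 i2 a - Ct)) / k =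
      3 * Ct / k + (2 * T / k - ∑ a ∈ A, gk k i1 i2 a) := by
    rw [hsplit]; field_simp; ring
  rw [h7, Real.exp_add]
  have h8 : 1 ≤ Real.exp (3 * Ct / k) := Real.one_le_exp (by positivity)
  have h9 := Real.exp_pos (2 * T / k - ∑ a ∈ A, gk k i1 i2 a)
  calc C0 * (1 + Real.exp (3 * Ct / k) * Real.exp (2 * T / k - ∑ a ∈ A, gk k i1 i2 a))
      ≤ C0 * (Real.exp (3 * Ct / k) +
        Real.exp (3 * Ct / k) * Real.exp (2 * T / k - ∑ a ∈ A, gk k i1 i2 a)) :=
        mul_le_mul_of_nonneg_left (by linarith) hC0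
    _ = _ := by ring

end Pool.Agent.H691R3
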