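import Pool.Agent.H691R3.PlaceK

set_option autoImplicit false
set_option linter.unusedSectionVars false

/-!
Counting points with given bounds for `mu` at one archimedean place.
-/

namespace Pool.Agent.H691R3

open NumberField IsDedekindDomain Finset

variable {K : Type*} [Field K] [NumberField K]

/-- the auxiliary quantity -/
def AA (k : ℕ) (α2 : K × K) (t : K → K) (g0 x y : K) : K :=
  (t x - t y) ^ k * wg (aff x) α2 * wg (aff y) α2 * g0

lemma aff_wg {x y : K} (h : x ≠ y) : wg (aff x) (aff y) ≠ 0 := aff_wedge h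

lemma t_ne {k : ℕ} {α1 α2 : K × K} (h12 : wg α1 α2 ≠ 0) {t : K → K} {g0 x y : K}
    (hx : t x ^ k * g0 * wg (aff x) α2 = wg (aff x) α1)
    (hy : t y ^ k * g0 * wg (aff y) α2 = wg (aff y) α1) (hxy : x ≠ y) : t x ≠ t y := by
  intro h
  have h1 : wg (aff x) α1 * wg (aff y) α2 - wg (aff y) α1 * wg (aff x) α2 = 0 := by
    rw [← hx, ← hy, h]; ring
  rw [plucker] at h1
  rcases mul_eq_zero.mp h1 with h2 | h2
  · exact aff_wg hxy h2
  · exact h12 h2

lemma AA_ne {k : ℕ} {α1 α2 : K × K} (h12 : wg α1 α2 ≠ 0) {t : K → K} {g0 x y : K}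
    (hx2 : wg (aff x) α2 ≠ 0) (hy2 : wg (aff y) α2 ≠ 0) (hg : g0 ≠ 0)
    (hx : t x ^ k * g0 * wg (aff x) α2 = wg (aff x) α1)
    (hy : t y ^ k * g0 * wg (aff y) α2 = wg (aff y) α1) (hxy : x ≠ y) :
    AA k α2 t g0 x y ≠ 0 :=
  mul_ne_zero (mul_ne_zero (mul_ne_zero (pow_ne_zero _ (sub_ne_zero.mpr (t_ne h12 hx hy hxy)))
    hx2) hy2) hg

lemma f_eq_exp_muA (f : AbsoluteValue K ℝ) {p r : K × K} {A : K} (hp : p ≠ 0) (hr : r ≠ 0)
    (hA : A ≠ 0) : f A = nrm f p * nrm f r * Real.exp (-muA f p r A) := by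
  have h1 := nrm_pos f hp
  have h2 := nrm_pos f hr
  have h3 := f.pos hA
  unfold muA
  rw [← Real.log_inv, Real.exp_log (by positivity), inv_div]
  field_simp

/-- the larger of the two forms is comparable to the norm -/
lemma wg_lower (f : AbsoluteValue K ℝ) {α1 α2 s : K × K} (hα1 : α1 ≠ 0) (hα2 : α2 ≠ 0)
    (hs : s ≠ 0) (hle : f (wg s α1) ≤ f (wg s α2)) :
    f (wg α1 α2) / (nrm f α1 + nrm f α2) * nrm f s ≤ f (wg s α2) := by
  have n1 := nrm_pos f hα1
  have n2 := nrm_pos f hα2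
  have h1 : f (wg α1 α2) * nrm f s ≤ f (wg α1 s) * nrm f α2 + f (wg s α2) * nrm f α1 :=
    wedge_arch f α1 s α2
  rw [f_wg_comm f α1 s] at h1
  rw [div_mul_eq_mul_div, div_le_iff₀ (by positivity)]
  nlinarith

/-- count of points at one archimedean place -/
theorem place_count_root (w : InfinitePlace K) {k : ℕ} (hk : 0 < k) {α1 α2 : K × K}
    (hα1 : α1 ≠ 0) (hα2 : α2 ≠ 0) (h12 : wg α1 α2 ≠ 0) :
    ∃ C : ℝ, 0 ≤ C ∧ ∀ (F : Finset K) (t : K → K) (U k' : ℝ) (g : K), g ≠ 0 →
      (∀ x ∈ F, wg (aff x) α1 ≠ 0 ∧ wg (aff x) α2 ≠ 0 ∧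
        t x ^ k * g * wg (aff x) α2 = wg (aff x) α1) →
      (∀ x ∈ F, ∀ y ∈ F, x ≠ y → mu (Sum.inl w : Pl K) (aff x) (aff y) (AA k α2 t g x y) ≤ U) →
      (∀ x ∈ F, ∀ y ∈ F, x ≠ y → k' ≤ mu (Sum.inl w : Pl K) (aff x) (aff y) (AA k α2 t g x y)) →
      (F.card : ℝ) ≤ C * (1 + Real.exp ((U - k') / k)) := by
  classical
  set f := w.1 with hf
  have hm : (0 : ℝ) < w.mult := by exact_mod_cast InfinitePlace.mult_pos
  have n1 := nrm_pos f hα1
  have n2 := nrm_pos f hα2
  have p12 := f.pos h12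
  set c : ℝ := f (wg α1 α2) / (nrm f α1 + nrm f α2) with hc
  have hcp : 0 < c := by positivity
  set D1 : ℝ := Real.log ((1 / c ^ 2) / (1 / (4 * nrm f α2 ^ 2))) with hD1
  set D2 : ℝ := Real.log ((1 / c ^ 2) / (1 / (4 * nrm f α1 ^ 2))) with hD2
  refine ⟨16 * Real.exp (2 * |D1|) + 16 * Real.exp (2 * |D2|), by positivity, ?_⟩
  intro F t U k' g hg hF hU hk'
  have hgp : 0 < f g := f.pos hg
  have hmu : ∀ x y : K, mu (Sum.inl w : Pl K) (aff x) (aff y) (AA k α2 t g x y) =
      w.mult * muA f (aff x) (aff y) (AA k α2 t g x y) := fun x y => rfl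
  have hA0 : ∀ x ∈ F, ∀ y ∈ F, x ≠ y → AA k α2 t g x y ≠ 0 := fun x hx y hy hxy =>
    AA_ne h12 (hF x hx).2.1 (hF y hy).2.1 hg (hF x hx).2.2 (hF y hy).2.2 hxy
  have ht0 : ∀ x ∈ F, t x ≠ 0 := by
    intro x hx h0
    have h1 := (hF x hx).2.2
    rw [h0, zero_pow hk.ne', zero_mul, zero_mul] at h1
    exact (hF x hx).1 h1.symm
  -- bounds for f A
  have hAU : ∀ x ∈ F, ∀ y ∈ F, x ≠ y →
      nrm f (aff x) * nrm f (aff y) * Real.exp (-U / w.mult) ≤ f (AA k α2 t g x y) := by
    intro x hx y hy hxy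
    rw [f_eq_exp_muA f (aff_ne_zero x) (aff_ne_zero y) (hA0 x hx y hy hxy)]
    have h1 := hU x hx y hy hxy
    rw [hmu] at h1
    refine mul_le_mul_of_nonneg_left (Real.exp_le_exp.mpr ?_)
      (mul_nonneg (nrm_pos f (aff_ne_zero x)).le (nrm_pos f (aff_ne_zero y)).le)
    rw [neg_div, neg_le_neg_iff, le_div_iff₀ hm]
    linarith
  have hAk : ∀ x ∈ F, ∀ y ∈ F, x ≠ y →
      f (AA k α2 t g x y) ≤ nrm f (aff x) * nrm f (aff y) * Real.exp (-k' / w.mult) := by
    intro x hx y hy hxy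
    rw [f_eq_exp_muA f (aff_ne_zero x) (aff_ne_zero y) (hA0 x hx y hy hxy)]
    have h1 := hk' x hx y hy hxy
    rw [hmu] at h1
    refine mul_le_mul_of_nonneg_left (Real.exp_le_exp.mpr ?_)
      (mul_nonneg (nrm_pos f (aff_ne_zero x)).le (nrm_pos f (aff_ne_zero y)).le)
    rw [neg_div, neg_le_neg_iff, div_le_iff₀ hm]
    linarith
  -- first chart
  set F1 := F.filter (fun x => f (wg (aff x) α1) ≤ f (wg (aff x) α2)) with hF1
  set F2 := F.filter (fun x => ¬ f (wg (aff x) α1) ≤ f (wg (aff x) α2)) with hF2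
  have hchart : ∀ (β γ : K × K) (x y : K), nrm f γ = nrm f γ → 0 < nrm f γ → γ ≠ 0 →
      c * nrm f (aff x) ≤ f (wg (aff x) γ) → c * nrm f (aff y) ≤ f (wg (aff y) γ) →
      1 / (4 * nrm f γ ^ 2) * (f (wg (aff x) γ) * f (wg (aff y) γ)) ≤
        nrm f (aff x) * nrm f (aff y) ∧
      nrm f (aff x) * nrm f (aff y) ≤ 1 / c ^ 2 * (f (wg (aff x) γ) * f (wg (aff y) γ)) := by
    intro β γ x y _ hγ _ hx hy
    have nx := nrm_pos f (aff_ne_zero x)
    have ny := nrm_pos f (aff_ne_zero y)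
    constructor
    · have h1 := f_wg_le f (aff x) γ
      have h2 := f_wg_le f (aff y) γ
      have h3 : f (wg (aff x) γ) * f (wg (aff y) γ) ≤
          (2 * (nrm f (aff x) * nrm f γ)) * (2 * (nrm f (aff y) * nrm f γ)) :=
        mul_le_mul h1 h2 (f.nonneg _) (by positivity)
      rw [one_div, inv_mul_le_iff₀ (by positivity)]
      calc f (wg (aff x) γ) * f (wg (aff y) γ) ≤ _ := h3
        _ = _ := by ring
    · have h3 : (c * nrm f (aff x)) * (c * nrm f (aff y)) ≤
          f (wg (aff x) γ) * f (wg (aff y) γ) := mul_le_mul hx hy (by positivity) (f.nonneg _)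
      rw [one_div, ← div_eq_inv_mul, le_div_iff₀ (by positivity)]
      calc nrm f (aff x) * nrm f (aff y) * c ^ 2 = (c * nrm f (aff x)) * (c * nrm f (aff y)) := by
            ring
        _ ≤ _ := h3
  have hcard : (F.card : ℝ) = F1.card + F2.card := by
    rw [hF1, hF2]
    exact_mod_cast (Finset.card_filter_add_card_filter_not (s := F) _).symm
  have hb1 : (F1.card : ℝ) ≤ 16 * Real.exp (2 * |D1|) * (1 + Real.exp ((U - k') / k)) := by
    have hlow : ∀ x ∈ F1, c * nrm f (aff x) ≤ f (wg (aff x) α2) := by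
      intro x hx
      rw [hF1, Finset.mem_filter] at hx
      exact wg_lower f hα1 hα2 (aff_ne_zero x) hx.2
    have hE : (1 / c ^ 2) / (1 / (4 * nrm f α2 ^ 2)) =
        (1 / c ^ 2 / f g) / (1 / (4 * nrm f α2 ^ 2) / f g) := by
      field_simp
    rw [hD1, hE]
    refine chart_count_pow w hk F1 t ?_ (1 / (4 * nrm f α2 ^ 2) / f g) (1 / c ^ 2 / f g) U k'
      (by positivity) (by positivity) ?_ ?_
    · intro x hx y hy hxy
      by_contra hne
      have hx' := (Finset.mem_filter.mp (Finset.mem_coe.mp hx)).1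
      have hy' := (Finset.mem_filter.mp (Finset.mem_coe.mp hy)).1
      exact t_ne h12 (hF x hx').2.2 (hF y hy').2.2 hne hxy
    · intro x hx y hy hxy
      have hx' := (Finset.mem_filter.mp hx).1
      have hy' := (Finset.mem_filter.mp hy).1
      have h1 := hAU x hx' y hy' hxy
      obtain ⟨h2, _⟩ := hchart α1 α2 x y rfl n2 hα2 (hlow x hx) (hlow y hy)
      have ha2 := f.pos (hF x hx').2.1
      have hb2 := f.pos (hF y hy').2.1
      have h3 : f (AA k α2 t g x y) =
          w (t x - t y) ^ k * (f (wg (aff x) α2) * f (wg (aff y) α2)) * f g := by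
        unfold AA
        rw [f.map_mul, f.map_mul, f.map_mul, f.map_pow]
        have : w (t x - t y) = f (t x - t y) := rfl
        rw [this]; ring
      rw [h3] at h1
      have h4 : 1 / (4 * nrm f α2 ^ 2) * (f (wg (aff x) α2) * f (wg (aff y) α2)) *
          Real.exp (-U / w.mult) ≤
          w (t x - t y) ^ k * (f (wg (aff x) α2) * f (wg (aff y) α2)) * f g :=
        (mul_le_mul_of_nonneg_right h2 (Real.exp_pos _).le).trans h1
      have h5 : (1 / (4 * nrm f α2 ^ 2) * Real.exp (-U / w.mult)) *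
          (f (wg (aff x) α2) * f (wg (aff y) α2)) ≤
          (w (t x - t y) ^ k * f g) * (f (wg (aff x) α2) * f (wg (aff y) α2)) := by
        linarith
      have h6 := le_of_mul_le_mul_right h5 (mul_pos ha2 hb2)
      rw [div_mul_eq_mul_div, div_le_iff₀ hgp]
      exact h6
    · intro x hx y hy hxy
      have hx' := (Finset.mem_filter.mp hx).1
      have hy' := (Finset.mem_filter.mp hy).1
      have h1 := hAk x hx' y hy' hxy
      obtain ⟨_, h2⟩ := hchart α1 α2 x y rfl n2 hα2 (hlow x hx) (hlow y hy)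
      have ha2 := f.pos (hF x hx').2.1
      have hb2 := f.pos (hF y hy').2.1
      have h3 : f (AA k α2 t g x y) =
          w (t x - t y) ^ k * (f (wg (aff x) α2) * f (wg (aff y) α2)) * f g := by
        unfold AA
        rw [f.map_mul, f.map_mul, f.map_mul, f.map_pow]
        have : w (t x - t y) = f (t x - t y) := rfl
        rw [this]; ring
      rw [h3] at h1
      have h4 := h1.trans (mul_le_mul_of_nonneg_right h2 (Real.exp_pos (-k' / w.mult)).le)
      have h5 : (w (t x - t y) ^ k * f g) * (f (wg (aff x) α2) * f (wg (aff y) α2)) ≤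
          (1 / c ^ 2 * Real.exp (-k' / w.mult)) *
          (f (wg (aff x) α2) * f (wg (aff y) α2)) := by
        linarith
      have h6 := le_of_mul_le_mul_right h5 (mul_pos ha2 hb2)
      rw [div_mul_eq_mul_div, le_div_iff₀ hgp]
      exact h6
  have hb2 : (F2.card : ℝ) ≤ 16 * Real.exp (2 * |D2|) * (1 + Real.exp ((U - k') / k)) := by
    have hlow : ∀ x ∈ F2, c * nrm f (aff x) ≤ f (wg (aff x) α1) := by
      intro x hx
      rw [hF2, Finset.mem_filter, not_le] at hx
      have h1 := wg_lower f hα2 hα1 (aff_ne_zero x) hx.2.le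
      rw [f_wg_comm f α2 α1, add_comm (nrm f α2)] at h1
      exact h1
    have hE : (1 / c ^ 2) / (1 / (4 * nrm f α1 ^ 2)) =
        (1 / c ^ 2 * f g) / (1 / (4 * nrm f α1 ^ 2) * f g) := by
      field_simp
    rw [hD2, hE]
    have h3 : ∀ x ∈ F, ∀ y ∈ F, f (AA k α2 t g x y) * f g =
        w ((t x)⁻¹ - (t y)⁻¹) ^ k * (f (wg (aff x) α1) * f (wg (aff y) α1)) := by
      intro x hx y hy
      have hw : ∀ s : K, w s = f s := fun s => rfl
      have e1 : (t x - t y) ^ k * wg (aff x) α2 * wg (aff y) α2 * g * g =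
          (-1) ^ k * (((t x)⁻¹ - (t y)⁻¹) ^ k * (wg (aff x) α1 * wg (aff y) α1)) := by
        rw [← (hF x hx).2.2, ← (hF y hy).2.2]
        have h5 : t x - t y = -1 * (((t x)⁻¹ - (t y)⁻¹) * (t x * t y)) := by
          have := ht0 x hx
          have := ht0 y hy
          field_simp
          ring
        rw [h5, mul_pow, mul_pow, mul_pow]
        ring
      have e2 := congrArg f e1
      simp only [f.map_mul, f.map_pow, f.map_neg, f.map_one, one_pow, one_mul] at e2
      unfold AA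
      simp only [f.map_mul, f.map_pow]
      rw [hw, e2]
    refine chart_count_pow w hk F2 (fun x => (t x)⁻¹) ?_ (1 / (4 * nrm f α1 ^ 2) * f g)
      (1 / c ^ 2 * f g) U k' (by positivity) (by positivity) ?_ ?_
    · intro x hx y hy hxy
      by_contra hne
      have hx' := (Finset.mem_filter.mp (Finset.mem_coe.mp hx)).1
      have hy' := (Finset.mem_filter.mp (Finset.mem_coe.mp hy)).1
      exact t_ne h12 (hF x hx').2.2 (hF y hy').2.2 hne (inv_injective hxy)
    · intro x hx y hy hxy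
      have hx' := (Finset.mem_filter.mp hx).1
      have hy' := (Finset.mem_filter.mp hy).1
      have h1 := hAU x hx' y hy' hxy
      obtain ⟨h2, _⟩ := hchart α2 α1 x y rfl n1 hα1 (hlow x hx) (hlow y hy)
      have ha2 := f.pos (hF x hx').1
      have hb2 := f.pos (hF y hy').1
      have h4 : 1 / (4 * nrm f α1 ^ 2) * (f (wg (aff x) α1) * f (wg (aff y) α1)) *
          Real.exp (-U / w.mult) * f g ≤
          w ((t x)⁻¹ - (t y)⁻¹) ^ k * (f (wg (aff x) α1) * f (wg (aff y) α1)) := by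
        rw [← h3 x hx' y hy']
        exact mul_le_mul_of_nonneg_right
          ((mul_le_mul_of_nonneg_right h2 (Real.exp_pos _).le).trans h1) hgp.le
      have h5 : (1 / (4 * nrm f α1 ^ 2) * f g * Real.exp (-U / w.mult)) *
          (f (wg (aff x) α1) * f (wg (aff y) α1)) ≤
          (w ((t x)⁻¹ - (t y)⁻¹) ^ k) * (f (wg (aff x) α1) * f (wg (aff y) α1)) := by
        linarith
      exact le_of_mul_le_mul_right h5 (mul_pos ha2 hb2)
    · intro x hx y hy hxy
      have hx' := (Finset.mem_filter.mp hx).1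
      have hy' := (Finset.mem_filter.mp hy).1
      have h1 := hAk x hx' y hy' hxy
      obtain ⟨_, h2⟩ := hchart α2 α1 x y rfl n1 hα1 (hlow x hx) (hlow y hy)
      have ha2 := f.pos (hF x hx').1
      have hb2 := f.pos (hF y hy').1
      have h4 : w ((t x)⁻¹ - (t y)⁻¹) ^ k * (f (wg (aff x) α1) * f (wg (aff y) α1)) ≤
          1 / c ^ 2 * (f (wg (aff x) α1) * f (wg (aff y) α1)) *
          Real.exp (-k' / w.mult) * f g := by
        rw [← h3 x hx' y hy']
        exact mul_le_mul_of_nonneg_right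
          (h1.trans (mul_le_mul_of_nonneg_right h2 (Real.exp_pos _).le)) hgp.le
      have h5 : (w ((t x)⁻¹ - (t y)⁻¹) ^ k) * (f (wg (aff x) α1) * f (wg (aff y) α1)) ≤
          (1 / c ^ 2 * f g * Real.exp (-k' / w.mult)) *
          (f (wg (aff x) α1) * f (wg (aff y) α1)) := by
        linarith
      exact le_of_mul_le_mul_right h5 (mul_pos ha2 hb2)
  rw [hcard]
  linarith

end Pool.Agent.H691R3
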