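import Pool.Agent.H691R3.ReflectN

set_option autoImplicit false
set_option maxRecDepth 100000
set_option maxHeartbeats 100000000

/-!
Certificate for 5 forms.
-/

namespace Pool.Agent.H691R3

universe u

/-- the case tree -/
noncomputable def tree5 : CTree :=
  (.node 2 3 4 23044 (.node 1 0 1 2084 (.leaf [12, 0, 4, 4, 0, 4, 0, 0, 0, 0, 0, 0])
      (.node 1 0 1 16644 (.leaf [8, 0, 4, 4, 0, 4, 0, 4, 0, 0, 0, 4, 0])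
      (.node 2 1 2 2412 (.node 1 0 1 18720 (.leaf [6, 0, 3, 3, 0, 0, 0, 0, 0, 0, 0, 0, 0, 0, 0])
      (.node 1 0 1 18692 (.leaf [7, 2, 0, 2, 2, 0, 0, 0, 0, 0, 0, 0, 0, 0, 0, 0])
      (.node 1 0 1 18724 (.leaf [7, 2, 2, 0, 0, 2, 0, 0, 0, 0, 0, 0, 0, 0, 0, 0, 0])
      (.leaf [4, 0, 0, 4, 0, 0, 4, 6, 2, 2, 4, 2, 6, 6, 4, 2, 2]))))
      (.leaf [3, 0, 0, 6, 6, 3, 3, 0, 6, 6, 6, 6, 6, 0]))))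
      (.node 1 0 1 288 (.leaf [12, 0, 0, 4, 4, 0, 0, 0, 0, 0, 0, 0])
      (.node 2 0 1 301 (.node 1 0 1 16672 (.leaf [8, 0, 4, 0, 0, 0, 0, 0, 3, 0, 0, 0, 0, 0])
      (.node 1 0 1 2336 (.leaf [8, 0, 0, 4, 0, 0, 0, 0, 3, 0, 0, 0, 0, 0, 0])
      (.node 2 3 4 23072 (.node 1 0 1 19744 (.leaf [25, 10, 0, 13, 0, 0, 0, 0, 5, 0, 15, 0, 0, 0, 5, 5, 10])
      (.node 2 2 4 20836 (.leaf [24, 32, 8, 0, 0, 16, 0, 14, 38, 39, 30, 9, 8, 54, 22, 45, 51, 38])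
      (.leaf [6, 3, 3, 0, 0, 6, 0, 0, 6, 6, 6, 9, 3, 12, 0, 0, 0, 6])))
      (.node 1 0 1 18688 (.leaf [7, 0, 0, 0, 0, 0, 3, 0, 0, 4, 2, 1, 0, 0, 0, 3, 2])
      (.node 2 1 4 22570 (.node 1 0 1 2306 (.leaf [9, 0, 1, 3, 3, 0, 4, 0, 0, 9, 0, 7, 1, 0, 4, 4, 0, 7, 4])
      (.node 1 0 1 18690 (.leaf [5, 0, 0, 3, 1, 0, 0, 2, 0, 0, 4, 0, 2, 0, 0, 1, 2, 0, 2, 1])
      (.node 2 0 3 2821 (.node 2 2 4 22848 (.node 1 0 1 18726 (.leaf [12, 0, 0, 6, 0, 0, 0, 5, 0, 0, 4, 0, 2, 10, 3, 9, 0, 0, 7, 6, 5, 14, 7])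
      (.leaf [4, 3, 1, 0, 0, 2, 0, 0, 0, 0, 1, 0, 0, 2, 3, 3, 5, 2, 6, 0, 0, 0, 3]))
      (.node 1 0 1 18726 (.leaf [12, 0, 0, 6, 0, 0, 0, 5, 0, 0, 4, 0, 2, 10, 3, 9, 0, 0, 7, 6, 5, 14, 7])
      (.leaf [5, 4, 10, 0, 0, 7, 0, 1, 0, 0, 0, 0, 2, 10, 11, 14, 6, 7, 18, 0, 4, 14, 7])))
      (.node 2 2 3 19264 (.node 1 0 1 18726 (.leaf [15, 0, 2, 5, 0, 0, 0, 5, 0, 0, 2, 0, 0, 10, 2, 4, 0, 2, 4, 6, 6, 10, 3])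
      (.leaf [9, 7, 0, 0, 0, 4, 0, 0, 0, 0, 4, 0, 0, 5, 7, 7, 7, 7, 14, 1, 0, 0, 0]))
      (.node 2 2 4 22848 (.leaf [20, 10, 13, 0, 0, 0, 0, 7, 0, 0, 14, 0, 7, 28, 41, 26, 28, 21, 55, 0, 27, 22, 13])
      (.leaf [5, 10, 8, 0, 0, 20, 0, 25, 0, 0, 31, 0, 5, 61, 29, 64, 31, 24, 79, 22, 0, 49, 32]))))))
      (.leaf [3, 0, 0, 0, 0, 0, 0, 3, 0, 3, 6, 3, 0, 6, 0, 0, 6, 6]))))))
      (.node 1 0 1 18464 (.leaf [7, 0, 0, 3, 0, 4, 0, 2, 1, 0, 0, 3, 3, 2])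
      (.node 1 0 1 18434 (.leaf [8, 4, 0, 0, 0, 4, 0, 0, 0, 0, 0, 0, 0, 0, 0])
      (.node 1 0 1 16418 (.leaf [8, 0, 4, 0, 0, 0, 4, 0, 0, 0, 0, 0, 0, 0, 0, 0])
      (.node 1 0 1 2082 (.leaf [8, 0, 0, 4, 0, 0, 0, 4, 0, 0, 0, 0, 0, 0, 0, 0, 0])
      (.node 2 0 2 18789 (.node 1 0 1 18722 (.leaf [12, 0, 0, 0, 3, 3, 3, 0, 0, 6, 0, 0, 0, 0, 0, 3, 0, 0, 0])
      (.node 2 3 4 23328 (.node 2 1 2 3436 (.node 1 0 1 18708 (.leaf [27, 5, 8, 18, 0, 0, 0, 0, 0, 2, 0, 17, 2, 42, 18, 3, 1, 22, 0, 35, 47, 25])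
      (.node 2 2 3 19264 (.leaf [18, 9, 0, 12, 15, 0, 0, 0, 0, 0, 0, 0, 3, 15, 21, 12, 3, 15, 30, 15, 36, 30, 0])
      (.node 1 0 1 18852 (.leaf [16, 1, 0, 2, 7, 15, 3, 0, 0, 0, 0, 0, 0, 14, 3, 19, 31, 2, 0, 21, 0, 16, 41, 21])
      (.leaf [6, 0, 4, 0, 16, 7, 3, 0, 0, 0, 0, 0, 0, 0, 8, 15, 9, 3, 3, 18, 5, 20, 26, 13]))))
      (.leaf [5, 5, 6, 3, 0, 0, 0, 0, 0, 0, 0, 5, 9, 7, 0, 8, 14, 2, 6, 5, 0]))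
      (.node 2 1 2 18792 (.leaf [4, 1, 2, 0, 0, 0, 0, 0, 0, 0, 2, 4, 2, 2, 3, 3, 6, 4, 2, 0, 0])
      (.leaf [1, 2, 0, 4, 0, 0, 0, 0, 0, 0, 1, 4, 5, 1, 3, 3, 6, 0, 4, 0, 0]))))
      (.node 2 0 1 173 (.node 2 2 3 2914 (.node 2 3 4 23328 (.leaf [11, 0, 3, 5, 0, 0, 0, 0, 0, 0, 0, 8, 11, 14, 3, 3, 13, 0, 8, 16, 8])
      (.node 2 2 4 23908 (.leaf [11, 8, 18, 14, 7, 0, 0, 0, 0, 0, 0, 0, 36, 24, 16, 22, 19, 37, 15, 25, 5, 0])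
      (.leaf [4, 0, 0, 4, 0, 0, 0, 0, 0, 0, 0, 0, 4, 4, 6, 0, 4, 8, 0, 0, 0, 0])))
      (.leaf [3, 0, 0, 0, 0, 0, 0, 0, 0, 3, 0, 6, 3, 0, 3, 6, 0, 6, 6, 0]))
      (.node 2 3 4 23344 (.node 2 1 4 22824 (.leaf [4, 2, 0, 3, 0, 0, 0, 0, 0, 0, 0, 3, 4, 6, 4, 1, 6, 0, 0, 3, 5])
      (.node 2 1 3 19244 (.leaf [11, 3, 4, 0, 5, 0, 0, 0, 0, 0, 0, 3, 15, 9, 16, 3, 10, 19, 10, 4, 15, 0])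
      (.leaf [4, 4, 8, 6, 0, 0, 0, 0, 0, 0, 0, 0, 12, 13, 6, 7, 6, 18, 6, 5, 11, 6])))
      (.leaf [6, 5, 0, 0, 0, 0, 0, 0, 0, 1, 10, 0, 2, 7, 7, 14, 5, 0, 0, 0])))))))))))

theorem check5 : checkN 5 3 1 1 1000000 tree5 (baseHN 5 3 2 1) = true := by
  decide +kernel

theorem sel5 (κ : ℝ) (hκ : 2 ≤ κ) : Sel.{u} 5 κ ((1 : ℝ) / 1) := by
  have h := sel_of_checkN.{u} (κ := κ) 3 1 1 1000000 2 1 (by norm_num) (by norm_num)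
    (by push_cast; linarith) tree5 check5
  exact_mod_cast h

end Pool.Agent.H691R3
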