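import Pool.Agent.H691R3.Comb2

set_option autoImplicit false
set_option linter.unusedVariables false

/-!
Selection of methods for any number of forms.
-/

namespace Pool.Agent.H691R3

open Finset

universe u

section Gen

variable {ι : Type u} {q : ℕ} {B : Finset ι} {w c : ι → ℝ} {lab : ι → Fin q} {m : ι → ℕ}
  {X C κ : ℝ}

lemma gain_one (lab : ι → Fin q) (w : ι → ℝ) (i1 i2 : Fin q) (a : ι) :
    gain lab w 1 i1 i2 a = w a := by
  unfold gain
  split_ifs <;> simp

lemma c_le_w (hB : Blocks q B w c lab m X C κ) {a : ι} (ha : a ∈ B) : c a ≤ w a := by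
  rcases hB.cw a ha with h | h
  · rw [h]; exact hB.w0 a ha
  · rw [h]
    have h1 : (1 : ℝ) ≤ m a := by exact_mod_cast hB.m1 a ha
    have := mul_le_mul_of_nonneg_right h1 (hB.c0 a ha)
    linarith

/-- the blocks with small cost carry the excess -/
lemma exc_small (hB : Blocks q B w c lab m X C κ) :
    κ * X - C ≤ ∑ a ∈ B with c a ≤ w a / 2, (w a - c a) := by
  classical
  refine hB.exc.trans (le_of_eq ?_)
  rw [Finset.sum_filter]
  refine Finset.sum_congr rfl fun a ha => ?_
  split_ifs with h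
  · rfl
  · rcases hB.cw a ha with h1 | h1
    · exfalso
      apply h
      rw [h1]
      have := hB.w0 a ha
      linarith
    · have hm := hB.m1 a ha
      rcases Nat.lt_or_ge 1 (m a) with h2 | h2
      · exfalso
        apply h
        have h3 : (2 : ℝ) ≤ m a := by exact_mod_cast h2
        have := mul_le_mul_of_nonneg_right h3 (hB.c0 a ha)
        linarith
      · have h3 : m a = 1 := by omega
        rw [h1, h3]; simp

lemma c_le_third (hB : Blocks q B w c lab m X C κ) {a : ι} (ha : a ∈ B) (h2 : c a ≤ w a / 2)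
    (ho : ¬ 2 ∣ m a) : c a ≤ w a / 3 := by
  have hc0 := hB.c0 a ha
  rcases hB.cw a ha with h | h
  · rw [h]; have := hB.w0 a ha; linarith
  · have hm := hB.m1 a ha
    by_cases h1 : m a = 1
    · rw [h, h1] at h2
      push_cast at h2
      have h3 : c a = 0 := by linarith
      rw [h, h3]; simp
    · have h3 : 3 ≤ m a := by
        by_contra h4
        have h5 : m a = 2 := by omega
        exact ho (by rw [h5])
      have h4 : (3 : ℝ) ≤ m a := by exact_mod_cast h3
      have := mul_le_mul_of_nonneg_right h4 hc0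
      linarith

lemma odd_form [DecidableEq ι] (hB : Blocks q B w c lab m X C κ) (l : Fin q) {a1 : ι}
    (ha1 : a1 ∈ B) (hl : lab a1 = l) (h2 : 2 ∣ m a1) :
    ∑ a ∈ B with (lab a = l ∧ ¬ 2 ∣ m a), w a + w a1 ≤ X + C := by
  refine le_trans ?_ (hB.form l)
  have hnot : a1 ∉ B.filter (fun a => lab a = l ∧ ¬ 2 ∣ m a) := by
    intro h
    rw [Finset.mem_filter] at h
    exact h.2.2 h2
  rw [add_comm, ← Finset.sum_insert hnot]
  refine Finset.sum_le_sum_of_subset_of_nonneg ?_ ?_
  · intro a ha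
    rw [Finset.mem_insert, Finset.mem_filter] at ha
    rw [Finset.mem_filter]
    rcases ha with rfl | ha
    · exact ⟨ha1, hl⟩
    · exact ⟨ha.1, ha.2.1⟩
  · intro a ha _
    exact hB.w0 a (Finset.mem_filter.mp ha).1

lemma root_two (hB : Blocks q B w c lab m X C κ) {a1 a2 a3 : ι} (ha1 : a1 ∈ B) (ha2 : a2 ∈ B)
    (ha3 : a3 ∈ B) (h12 : lab a1 ≠ lab a2) (h31 : lab a3 ≠ lab a1) (h32 : lab a3 ≠ lab a2)
    (e1 : 2 ∣ m a1) (e2 : 2 ∣ m a2) :
    ∃ I ⊆ B, (∀ a ∈ B, (lab a = lab a1 ∨ lab a = lab a2) → ¬ 2 ∣ m a → a ∈ I) ∧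
      ∑ a ∈ I, c a + max 0 (2 * X / (2 : ℕ) - ∑ a ∈ I, gain lab w 2 (lab a1) (lab a2) a) ≤
        max (2 * X + 2 * C - w a1 - w a2 + c a3)
          (X + (2 * X + 2 * C - w a1 - w a2) / 2 + c a3 - w a3) := by
  classical
  set O1 := B.filter (fun a => lab a = lab a1 ∧ ¬ 2 ∣ m a) with hO1
  set O2 := B.filter (fun a => lab a = lab a2 ∧ ¬ 2 ∣ m a) with hO2
  have hd : Disjoint O1 O2 := by
    rw [Finset.disjoint_left]
    intro a ha hb
    rw [hO1, Finset.mem_filter] at ha
    rw [hO2, Finset.mem_filter] at hb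
    exact h12 (ha.2.1.symm.trans hb.2.1)
  have h3 : a3 ∉ O1 ∪ O2 := by
    rw [Finset.mem_union]
    rintro (h | h)
    · rw [hO1, Finset.mem_filter] at h
      exact h31 h.2.1
    · rw [hO2, Finset.mem_filter] at h
      exact h32 h.2.1
  have hs1 := odd_form hB (lab a1) ha1 rfl e1
  have hs2 := odd_form hB (lab a2) ha2 rfl e2
  rw [← hO1] at hs1
  rw [← hO2] at hs2
  refine ⟨insert a3 (O1 ∪ O2), ?_, ?_, ?_⟩
  · intro a ha
    rw [Finset.mem_insert, Finset.mem_union, hO1, hO2, Finset.mem_filter, Finset.mem_filter] at ha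
    rcases ha with rfl | ha | ha
    · exact ha3
    · exact ha.1
    · exact ha.1
  · intro a ha hl ho
    rw [Finset.mem_insert, Finset.mem_union, hO1, hO2, Finset.mem_filter, Finset.mem_filter]
    rcases hl with hl | hl
    · exact Or.inr (Or.inl ⟨ha, hl, ho⟩)
    · exact Or.inr (Or.inr ⟨ha, hl, ho⟩)
  · rw [Finset.sum_insert h3, Finset.sum_insert h3, Finset.sum_union hd, Finset.sum_union hd]
    have hg3 : gain lab w 2 (lab a1) (lab a2) a3 = w a3 := by
      unfold gain
      rw [if_neg]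
      rintro (h | h)
      · exact h31 h
      · exact h32 h
    have hg1 : ∑ a ∈ O1, gain lab w 2 (lab a1) (lab a2) a = (∑ a ∈ O1, w a) / 2 := by
      rw [Finset.sum_div]
      refine Finset.sum_congr rfl fun a ha => ?_
      rw [hO1, Finset.mem_filter] at ha
      unfold gain
      rw [if_pos (Or.inl ha.2.1)]
      norm_num
    have hg2 : ∑ a ∈ O2, gain lab w 2 (lab a1) (lab a2) a = (∑ a ∈ O2, w a) / 2 := by
      rw [Finset.sum_div]
      refine Finset.sum_congr rfl fun a ha => ?_
      rw [hO2, Finset.mem_filter] at ha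
      unfold gain
      rw [if_pos (Or.inr ha.2.1)]
      norm_num
    rw [hg1, hg2, hg3]
    have hc1 : ∑ a ∈ O1, c a ≤ ∑ a ∈ O1, w a :=
      Finset.sum_le_sum fun a ha => c_le_w hB (Finset.mem_filter.mp ha).1
    have hc2 : ∑ a ∈ O2, c a ≤ ∑ a ∈ O2, w a :=
      Finset.sum_le_sum fun a ha => c_le_w hB (Finset.mem_filter.mp ha).1
    have h0 : 2 * X / ((2 : ℕ) : ℝ) = X := by push_cast; ring
    rw [h0]
    rcases max_cases 0 (X - (w a3 + ((∑ a ∈ O1, w a) / 2 + (∑ a ∈ O2, w a) / 2))) with h | h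
    · rw [h.1]
      exact le_trans (by linarith) (le_max_left _ _)
    · rw [h.1]
      exact le_trans (by linarith) (le_max_right _ _)

theorem sel_two {q : ℕ} (hq : 2 ≤ q) (κ : ℝ) : Sel.{u} q κ (2 - 2 * κ / q) := by
  classical
  refine ⟨3, by norm_num, ?_⟩
  intro ι B w c lab m X C hB
  obtain ⟨I, hI, h⟩ := selection_two hq (B.filter (fun a => c a ≤ w a / 2)) w c lab X C κ hB.hC
    (by
      intro l
      refine le_trans ?_ (hB.form l)
      refine Finset.sum_le_sum_of_subset_of_nonneg ?_ ?_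
      · intro a ha
        rw [Finset.mem_filter, Finset.mem_filter] at ha
        rw [Finset.mem_filter]
        exact ⟨ha.1.1, ha.2⟩
      · intro a ha _
        exact hB.w0 a (Finset.mem_filter.mp ha).1)
    (exc_small hB)
  refine ⟨1, ⟨0, by omega⟩, ⟨1, by omega⟩, I, le_refl _, by norm_num, ?_,
    hI.trans (Finset.filter_subset _ _), ?_, ?_⟩
  · simp [Fin.ext_iff]
  · intro a _ _ h1
    exact absurd (one_dvd _) h1
  · simp only [gain_one]
    have h0 : 2 * X / ((1 : ℕ) : ℝ) = 2 * X := by push_cast; ring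
    rw [h0]
    exact h

theorem sel_all {q : ℕ} (hq : 2 ≤ q) (κ : ℝ) : Sel.{u} q κ (max (2 - κ) (8 / 7)) := by
  classical
  refine ⟨200, by norm_num, ?_⟩
  intro ι B w c lab m X C hB
  have hX := hB.hX
  have hC := hB.hC
  have hk1 : (2 - κ) * X ≤ max (2 - κ) (8 / 7) * X :=
    mul_le_mul_of_nonneg_right (le_max_left _ _) hX
  have hk2 : (8 / 7) * X ≤ max (2 - κ) (8 / 7) * X :=
    mul_le_mul_of_nonneg_right (le_max_right _ _) hX
  -- it suffices to use the lattice method in most cases
  have hone : (∃ I ⊆ B, ∑ a ∈ I, c a + max 0 (2 * X - ∑ a ∈ I, w a) ≤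
      max (2 - κ) (8 / 7) * X + 200 * C) →
      ∃ (k : ℕ) (i1 i2 : Fin q) (I : Finset ι), 1 ≤ k ∧ k ≤ 4 ∧ i1 ≠ i2 ∧ I ⊆ B ∧
      (∀ a ∈ B, (lab a = i1 ∨ lab a = i2) → ¬ k ∣ m a → a ∈ I) ∧
      ∑ a ∈ I, c a + max 0 (2 * X / k - ∑ a ∈ I, gain lab w k i1 i2 a) ≤
        max (2 - κ) (8 / 7) * X + 200 * C := by
    rintro ⟨I, hI, h⟩
    refine ⟨1, ⟨0, by omega⟩, ⟨1, by omega⟩, I, le_refl _, by norm_num, ?_, hI, ?_, ?_⟩
    · simp [Fin.ext_iff]
    · intro a _ _ h1
      exact absurd (one_dvd _) h1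
    · simp only [gain_one]
      have h0 : 2 * X / ((1 : ℕ) : ℝ) = 2 * X := by push_cast; ring
      rw [h0]
      exact h
  rcases le_or_gt X (100 * C) with hXC | hXC
  · refine hone ⟨∅, Finset.empty_subset _, ?_⟩
    simp only [Finset.sum_empty, sub_zero, zero_add]
    rw [max_eq_right (by linarith)]
    linarith
  have hXpos : 0 < X := by linarith
  set P := B.filter (fun a => c a ≤ w a / 2) with hP
  have hPB : P ⊆ B := Finset.filter_subset _ _
  have hPc : ∀ a ∈ P, c a ≤ w a / 2 := fun a ha => (Finset.mem_filter.mp ha).2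
  have hE := exc_small hB
  rw [← hP] at hE
  have hsub : ∀ I ⊆ P, ∑ a ∈ I, c a ≤ (∑ a ∈ I, w a) / 2 := by
    intro I hI
    rw [Finset.sum_div]
    exact Finset.sum_le_sum fun a ha => hPc a (hI ha)
  rcases le_or_gt (∑ a ∈ P, w a) (2 * X) with h | h
  · refine hone ⟨P, hPB, ?_⟩
    rw [max_eq_right (by linarith)]
    rw [Finset.sum_sub_distrib] at hE
    linarith
  have hwa : ∀ a ∈ B, w a ≤ X + C := fun a ha =>
    (Finset.single_le_sum (f := w) (fun b hb => hB.w0 b (Finset.mem_filter.mp hb).1)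
      (Finset.mem_filter.mpr ⟨ha, rfl⟩ : a ∈ B.filter (fun b => lab b = lab a))).trans
      (hB.form (lab a))
  -- blocks of weight above `4/7 X` have distinct forms
  have hdist : ∀ a ∈ B, ∀ b ∈ B, a ≠ b → 4 / 7 * X < w a → 4 / 7 * X < w b → lab a ≠ lab b := by
    intro a ha b hb hab h1 h2 hl
    have h3 := hB.form (lab a)
    have h4 : ∑ x ∈ ({a, b} : Finset ι), w x ≤ ∑ x ∈ B with lab x = lab a, w x := by
      refine Finset.sum_le_sum_of_subset_of_nonneg ?_ ?_
      · intro x hx
        rw [Finset.mem_insert, Finset.mem_singleton] at hx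
        rw [Finset.mem_filter]
        rcases hx with rfl | rfl
        · exact ⟨ha, rfl⟩
        · exact ⟨hb, hl.symm⟩
      · intro x hx _
        exact hB.w0 x (Finset.mem_filter.mp hx).1
    rw [Finset.sum_pair hab] at h4
    linarith
  by_cases hbig : ∃ a ∈ P, ∃ b ∈ P, ∃ d ∈ P, a ≠ b ∧ a ≠ d ∧ b ≠ d ∧ 4 / 7 * X < w a ∧
      4 / 7 * X < w b ∧ 4 / 7 * X < w d
  · -- arrange that the third is the smallest
    obtain ⟨a, ha, b, hb, d, hd, hab, had, hbd, h1, h2, h3, h4, h5⟩ :
        ∃ a ∈ P, ∃ b ∈ P, ∃ d ∈ P, a ≠ b ∧ a ≠ d ∧ b ≠ d ∧ 4 / 7 * X < w a ∧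
      4 / 7 * X < w b ∧ 4 / 7 * X < w d ∧ w d ≤ w a ∧ w d ≤ w b := by
      obtain ⟨a, ha, b, hb, d, hd, hab, had, hbd, h1, h2, h3⟩ := hbig
      rcases le_total (w d) (w a) with h4 | h4
      · rcases le_total (w d) (w b) with h5 | h5
        · exact ⟨a, ha, b, hb, d, hd, hab, had, hbd, h1, h2, h3, h4, h5⟩
        · exact ⟨a, ha, d, hd, b, hb, had, hab, hbd.symm, h1, h3, h2, h5.trans h4, h5⟩
      · rcases le_total (w a) (w b) with h5 | h5
        · exact ⟨d, hd, b, hb, a, ha, hbd.symm, had.symm, hab.symm, h3, h2, h1, h4, h5⟩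
        · exact ⟨a, ha, d, hd, b, hb, had, hab, hbd.symm, h1, h3, h2, h5, h5.trans h4⟩
    have hla := hdist a (hPB ha) b (hPB hb) hab h1 h2
    have hlad := hdist a (hPB ha) d (hPB hd) had h1 h3
    have hlbd := hdist b (hPB hb) d (hPB hd) hbd h2 h3
    have hwa' := hwa a (hPB ha)
    have hwb' := hwa b (hPB hb)
    have hwd' := hwa d (hPB hd)
    have hca := hPc a ha
    have hcb := hPc b hb
    have hcd := hPc d hd
    rcases le_or_gt (w a + w b + w d) (16 / 7 * X) with h6 | h6
    · refine hone ⟨{a, b, d}, ?_, ?_⟩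
      · intro x hx
        simp only [Finset.mem_insert, Finset.mem_singleton] at hx
        rcases hx with rfl | rfl | rfl
        · exact hPB ha
        · exact hPB hb
        · exact hPB hd
      · have s1 : ∀ f : ι → ℝ, ∑ x ∈ ({a, b, d} : Finset ι), f x = f a + (f b + f d) := by
          intro f
          rw [Finset.sum_insert (by simp [hab, had]), Finset.sum_pair hbd]
        rw [s1, s1]
        rcases max_cases 0 (2 * X - (w a + (w b + w d))) with h7 | h7
        · rw [h7.1]; linarith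
        · rw [h7.1]; linarith
    · have hpair : ∀ x ∈ P, ∀ y ∈ P, x ≠ y → c x ≤ w x / 3 → c y ≤ w y / 3 →
          9 / 7 * X - C ≤ w x + w y → w x ≤ X + C → w y ≤ X + C →
          ∃ I ⊆ B, ∑ a ∈ I, c a + max 0 (2 * X - ∑ a ∈ I, w a) ≤
            max (2 - κ) (8 / 7) * X + 200 * C := by
        intro x hx y hy hxy hcx hcy hs hwx hwy
        refine ⟨{x, y}, ?_, ?_⟩
        · intro z hz
          simp only [Finset.mem_insert, Finset.mem_singleton] at hz
          rcases hz with rfl | rfl
          · exact hPB hx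
          · exact hPB hy
        · rw [Finset.sum_pair hxy, Finset.sum_pair hxy]
          rcases max_cases 0 (2 * X - (w x + w y)) with h7 | h7
          · rw [h7.1]; linarith
          · rw [h7.1]; linarith
      have hroot : ∀ x ∈ P, ∀ y ∈ P, ∀ z ∈ P, lab x ≠ lab y → lab z ≠ lab x → lab z ≠ lab y →
          2 ∣ m x → 2 ∣ m y →
          max (2 * X + 2 * C - w x - w y + c z)
            (X + (2 * X + 2 * C - w x - w y) / 2 + c z - w z) ≤ 8 / 7 * X + 200 * C →
          ∃ (k : ℕ) (i1 i2 : Fin q) (I : Finset ι), 1 ≤ k ∧ k ≤ 4 ∧ i1 ≠ i2 ∧ I ⊆ B ∧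
            (∀ a ∈ B, (lab a = i1 ∨ lab a = i2) → ¬ k ∣ m a → a ∈ I) ∧
            ∑ a ∈ I, c a + max 0 (2 * X / k - ∑ a ∈ I, gain lab w k i1 i2 a) ≤
              max (2 - κ) (8 / 7) * X + 200 * C := by
        intro x hx y hy z hz hxy hzx hzy ex ey hle
        obtain ⟨I, hI, hmand, hIle⟩ := root_two hB (hPB hx) (hPB hy) (hPB hz) hxy hzx hzy ex ey
        exact ⟨2, lab x, lab y, I, by norm_num, by norm_num, hxy, hI, hmand, by linarith⟩
      by_cases ea : 2 ∣ m a
      · by_cases eb : 2 ∣ m b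
        · -- both roots
          refine hroot a ha b hb d hd hla hlad.symm hlbd.symm ea eb (max_le ?_ ?_) <;> linarith
        · by_cases ed : 2 ∣ m d
          · have hcb' := c_le_third hB (hPB hb) hcb eb
            refine hroot a ha d hd b hb hlad hla.symm hlbd ea ed (max_le ?_ ?_) <;> linarith
          · have hcb' := c_le_third hB (hPB hb) hcb eb
            have hcd' := c_le_third hB (hPB hd) hcd ed
            exact hone (hpair b hb d hd hbd hcb' hcd' (by linarith) hwb' hwd')
      · have hca' := c_le_third hB (hPB ha) hca ea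
        by_cases eb : 2 ∣ m b
        · by_cases ed : 2 ∣ m d
          · refine hroot b hb d hd a ha hlbd hla hlad eb ed (max_le ?_ ?_) <;> linarith
          · have hcd' := c_le_third hB (hPB hd) hcd ed
            exact hone (hpair a ha d hd had hca' hcd' (by linarith) hwa' hwd')
        · have hcb' := c_le_third hB (hPB hb) hcb eb
          exact hone (hpair a ha b hb hab hca' hcb' (by linarith) hwa' hwb')
  · push Not at hbig
    -- a minimal subset crossing `2X`
    set F := P.powerset.filter (fun I => 2 * X ≤ ∑ a ∈ I, w a) with hF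
    have hFne : F.Nonempty := ⟨P, by
      rw [hF, Finset.mem_filter]; exact ⟨Finset.mem_powerset.mpr (Finset.Subset.refl _), h.le⟩⟩
    obtain ⟨I, hI, hmin⟩ := Finset.exists_min_image F Finset.card hFne
    rw [hF, Finset.mem_filter, Finset.mem_powerset] at hI
    obtain ⟨hIP, hIT⟩ := hI
    by_cases hex : ∃ a ∈ I, w a ≤ 4 / 7 * X
    · obtain ⟨a, haI, ha⟩ := hex
      have hlt : ∑ b ∈ I.erase a, w b < 2 * X := by
        by_contra hcon
        rw [not_lt] at hcon
        have hmem : I.erase a ∈ F := by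
          rw [hF, Finset.mem_filter, Finset.mem_powerset]
          exact ⟨(Finset.erase_subset _ _).trans hIP, hcon⟩
        have h7 := hmin _ hmem
        have h8 := Finset.card_erase_lt_of_mem haI
        omega
      have hsplit : ∑ b ∈ I, w b = ∑ b ∈ I.erase a, w b + w a :=
        (Finset.sum_erase_add _ _ haI).symm
      have hce := hsub (I.erase a) ((Finset.erase_subset _ _).trans hIP)
      have hcI := hsub I hIP
      rcases le_or_gt (2 * X - ∑ b ∈ I.erase a, w b) (2 / 7 * X) with h9 | h9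
      · refine hone ⟨I.erase a, ((Finset.erase_subset _ _).trans hIP).trans hPB, ?_⟩
        rw [max_eq_right (by linarith)]
        linarith
      · refine hone ⟨I, hIP.trans hPB, ?_⟩
        rw [max_eq_left (by linarith)]
        linarith
    · push Not at hex
      -- at most two blocks
      have hcard : I.card ≤ 2 := by
        by_contra h2
        rw [not_le, Finset.two_lt_card] at h2
        obtain ⟨a, ha, b, hb, d, hd, hab, had, hbd⟩ := h2
        have := hbig a (hIP ha) b (hIP hb) d (hIP hd) hab had hbd (hex a ha) (hex b hb)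
        linarith [hex d hd]
      have hsum : ∑ a ∈ I, w a ≤ 2 * (X + C) := by
        calc ∑ a ∈ I, w a ≤ ∑ _a ∈ I, (X + C) :=
              Finset.sum_le_sum fun a ha => hwa a (hPB (hIP ha))
          _ = I.card * (X + C) := by rw [Finset.sum_const, nsmul_eq_mul]
          _ ≤ 2 * (X + C) := by
              refine mul_le_mul_of_nonneg_right ?_ (by linarith)
              exact_mod_cast hcard
      have hcI := hsub I hIP
      refine hone ⟨I, hIP.trans hPB, ?_⟩
      rw [max_eq_left (by linarith)]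
      linarith

end Gen

end Pool.Agent.H691R3
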