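import Pool.Agent.H691R3.SelGen
import Pool.Agent.H691R3.Sel3
import Pool.Agent.H691R3.Sel4
import Pool.Agent.H691R3.Sel5
import Pool.Agent.H691R3.Sel6

set_option autoImplicit false

/-!
The exponents obtained from the selection lemmas.
-/

namespace Pool.Agent.H691R3

universe u

/-- the exponent -/
noncomputable def expoR (q : ℕ) (κ : ℝ) : ℝ :=
  min (min (2 - 2 * κ / q) (max (2 - κ) (8 / 7)))
    (if κ < 2 then 2 else if q = 3 then 80 / 133 else if q = 4 then 18 / 23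
      else if q = 5 ∨ q = 6 then 1 else 2)

lemma sel_mono {q : ℕ} {κ e e' : ℝ} (h : Sel.{u} q κ e) (he : e ≤ e') : Sel.{u} q κ e' := by
  obtain ⟨Cm, hCm, h⟩ := h
  refine ⟨Cm, hCm, ?_⟩
  intro ι B w c lab m X C hB
  obtain ⟨k, i1, i2, I, h1, h2, h3, h4, h5, h6⟩ := h ι B w c lab m X C hB
  refine ⟨k, i1, i2, I, h1, h2, h3, h4, h5, h6.trans ?_⟩
  have := mul_le_mul_of_nonneg_right he hB.hX
  linarith

lemma sel_min {q : ℕ} {κ e e' : ℝ} (h : Sel.{u} q κ e) (h' : Sel.{u} q κ e') :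
    Sel.{u} q κ (min e e') := by
  rcases le_total e e' with h1 | h1
  · rw [min_eq_left h1]; exact h
  · rw [min_eq_right h1]; exact h'

theorem sel_expo {q : ℕ} (hq : 2 ≤ q) (κ : ℝ) (hκ0 : 0 ≤ κ) (hκq : κ ≤ q) :
    Sel.{u} q κ (expoR q κ) := by
  have hq0 : (0 : ℝ) < q := by exact_mod_cast (by omega : 0 < q)
  have hgen : Sel.{u} q κ (min (2 - 2 * κ / q) (max (2 - κ) (8 / 7))) :=
    sel_min (sel_two hq κ) (sel_all hq κ)
  have h2 : min (2 - 2 * κ / q) (max (2 - κ) (8 / 7)) ≤ (2 : ℝ) := by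
    refine (min_le_left _ _).trans ?_
    have : 0 ≤ 2 * κ / (q : ℝ) := by positivity
    linarith
  refine sel_min hgen ?_
  split_ifs with h1 h3 h4 h5
  · exact sel_mono hgen h2
  · rw [h3]
    exact sel3 κ (not_lt.mp h1)
  · rw [h4]
    exact sel4 κ (not_lt.mp h1)
  · rcases h5 with h5 | h5
    · rw [h5]
      have := sel5.{u} κ (not_lt.mp h1)
      rw [div_one] at this
      exact this
    · rw [h5]
      have := sel6.{u} κ (not_lt.mp h1)
      rw [div_one] at this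
      exact this
  · exact sel_mono hgen h2

lemma expoR_nonneg {q : ℕ} (hq : 2 ≤ q) (κ : ℝ) (hκq : κ ≤ q) : 0 ≤ expoR q κ := by
  have hq0 : (0 : ℝ) < q := by exact_mod_cast (by omega : 0 < q)
  unfold expoR
  refine le_min (le_min ?_ ?_) ?_
  · have : 2 * κ / (q : ℝ) ≤ 2 := by
      rw [div_le_iff₀ hq0]; linarith
    linarith
  · exact le_trans (by norm_num) (le_max_right _ _)
  · split_ifs <;> norm_num

end Pool.Agent.H691R3
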