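import Pool.Agent.H691R3.PMain

set_option autoImplicit false
set_option linter.unusedSectionVars false
set_option linter.unusedVariables false

/-!
Proximity functions on the product of two lines: the counting theorem.
-/

namespace Pool.Agent.H691R3

open NumberField IsDedekindDomain Finset

variable {K : Type*} [Field K] [NumberField K]

/-- the total local height at one place -/
theorem local_total {g t : ℕ} (hg0 : 0 < g) (ht0 : 0 < t) (v : Pl K)
    (γ : Fin g → K × K) (hγ0 : ∀ i, γ i ≠ 0)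
    (hγ : ∀ i j, i ≠ j → (γ i).1 * (γ j).2 - (γ i).2 * (γ j).1 ≠ 0)
    (A : Finset (Fin g)) (S : Fin t → Fin t → Finset (Fin g))
    (hAS : ∀ k l, k ≠ l → Disjoint A (S k l))
    (hSS : ∀ k l m, k ≠ l → k ≠ m → l ≠ m → Disjoint (S k m) (S l m))
    (E : ℝ) (hE : 0 ≤ E) :
    ∃ C : ℝ, 0 ≤ C ∧ ∀ (x y : K) (τ : Fin t → K × K), Off γ x → (∀ k, τ k ≠ 0) →
      (∀ k l, k ≠ l → (τ k).1 * (τ l).2 - (τ k).2 * (τ l).1 ≠ 0) → Off τ y →
      (∀ k l, k ≠ l → lam v (τ k) (τ l) ≤ ∑ i ∈ S k l, lam v (aff x) (γ i) + E) →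
      ∃ (l1 : Fin g) (m1 : ℕ) (l2 : Fin t) (m2 : ℕ),
        (1 ≤ m1 → (m1 : ℝ) * Lu v ≤ lam v (aff x) (γ l1)) ∧
        (1 ≤ m2 → (m2 : ℝ) * Lu v ≤ lam v (aff y) (τ l2)) ∧
        ∑ i ∈ A, lam v (aff x) (γ i) + ∑ k, lam v (aff y) (τ k) ≤
          m1 * Lu v + m2 * Lu v + C := by
  classical
  have : Nonempty (Fin g) := ⟨⟨0, hg0⟩⟩
  have : Nonempty (Fin t) := ⟨⟨0, ht0⟩⟩
  set M : ℝ := ∑ l : Fin g, ∑ j : Fin g, (|lam v (γ l) (γ j)| + loss v) with hM
  have hM0 : ∀ l j, |lam v (γ l) (γ j)| + loss v ≤ M := by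
    intro l j
    have h1 : |lam v (γ l) (γ j)| + loss v ≤
        ∑ j : Fin g, (|lam v (γ l) (γ j)| + loss v) :=
      Finset.single_le_sum (f := fun j => |lam v (γ l) (γ j)| + loss v)
        (fun j _ => add_nonneg (abs_nonneg _) (loss_nonneg v)) (Finset.mem_univ j)
    refine h1.trans ?_
    exact Finset.single_le_sum
      (f := fun l => ∑ j : Fin g, (|lam v (γ l) (γ j)| + loss v))
      (fun l _ => Finset.sum_nonneg fun j _ => add_nonneg (abs_nonneg _) (loss_nonneg v))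
      (Finset.mem_univ l)
  have hMnn : 0 ≤ M := Finset.sum_nonneg fun l _ =>
    Finset.sum_nonneg fun j _ => add_nonneg (abs_nonneg _) (loss_nonneg v)
  have hLp := Lu_pos v
  have hloss := loss_nonneg v
  refine ⟨2 * Lu v + g * M + t * (E + loss v), by positivity, ?_⟩
  intro x y τ hx hτ0 hτne hy hloc
  have hax : aff x ≠ 0 := aff_ne_zero x
  have hay : aff y ≠ 0 := aff_ne_zero y
  obtain ⟨nx, hnx⟩ : ∃ l : Fin g, ∀ j, lam v (aff x) (γ j) ≤ lam v (aff x) (γ l) :=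
    Finite.exists_max (fun l => lam v (aff x) (γ l))
  obtain ⟨ny, hny⟩ : ∃ l : Fin t, ∀ j, lam v (aff y) (τ j) ≤ lam v (aff y) (τ l) :=
    Finite.exists_max (fun l => lam v (aff y) (τ l))
  have hotherx : ∀ l, l ≠ nx → lam v (aff x) (γ l) ≤ lam v (γ l) (γ nx) + loss v := by
    intro l hl
    have h1 := lam_triangle v (p := γ l) (q := aff x) (r := γ nx) (hγ0 l)
      hax (hγ0 nx) (hγ l nx hl) (wedge_ne_comm (hx l))
      (hx nx) (lam v (aff x) (γ l)) (by rw [lam_comm]) (hnx l)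
    linarith
  have hothery : ∀ k, k ≠ ny →
      lam v (aff y) (τ k) ≤ ∑ i ∈ S k ny, lam v (aff x) (γ i) + (E + loss v) := by
    intro k hk
    have h1 := lam_triangle v (p := τ k) (q := aff y) (r := τ ny) (hτ0 k)
      hay (hτ0 ny) (hτne k ny hk) (wedge_ne_comm (hy k))
      (hy ny) (lam v (aff y) (τ k)) (by rw [lam_comm]) (hny k)
    have h2 := hloc k ny hk
    linarith
  refine ⟨nx, ⌊lam v (aff x) (γ nx) / Lu v⌋₊, ny, ⌊lam v (aff y) (τ ny) / Lu v⌋₊,
    fun h => lev_le_lam v _ h, fun h => lev_le_lam v _ h, ?_⟩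
  obtain ⟨U, hU⟩ := sum_sets_eq A (fun k => S k ny) ny
    (fun k hk => hAS k ny hk) (fun k l hk hl hkl => hSS k l ny hkl hk hl)
  have hU1 := hU (fun i => lam v (aff x) (γ i))
  have h1 : ∑ k, lam v (aff y) (τ k) = lam v (aff y) (τ ny) +
      ∑ k ∈ Finset.univ.erase ny, lam v (aff y) (τ k) :=
    (Finset.add_sum_erase _ _ (Finset.mem_univ ny)).symm
  have h2 : ∑ k ∈ Finset.univ.erase ny, lam v (aff y) (τ k) ≤
      ∑ k ∈ Finset.univ.erase ny, (∑ i ∈ S k ny, lam v (aff x) (γ i) + (E + loss v)) :=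
    Finset.sum_le_sum fun k hk => hothery k (Finset.ne_of_mem_erase hk)
  rw [Finset.sum_add_distrib] at h2
  have h3 : ∑ k ∈ Finset.univ.erase ny, (E + loss v) ≤ t * (E + loss v) := by
    rw [Finset.sum_const, nsmul_eq_mul]
    refine mul_le_mul_of_nonneg_right ?_ (add_nonneg hE hloss)
    have h4 : (Finset.univ.erase ny).card ≤ t := by
      refine (Finset.card_le_univ _).trans ?_
      rw [Fintype.card_fin]
    exact_mod_cast h4
  have h5 := lam_le_lev v (lam v (aff x) (γ nx))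
  have h7 := lam_le_lev v (lam v (aff y) (τ ny))
  set lx : ℕ := ⌊lam v (aff x) (γ nx) / Lu v⌋₊ with hlx
  have hlx0 : 0 ≤ (lx : ℝ) * Lu v := mul_nonneg (Nat.cast_nonneg _) hLp.le
  have hsumU : ∑ i ∈ U, lam v (aff x) (γ i) ≤ (lx : ℝ) * Lu v + Lu v + g * M := by
    have h9 : ∀ i ∈ U, lam v (aff x) (γ i) ≤
        (if i = nx then (lx : ℝ) * Lu v + Lu v else 0) + M := by
      intro i _
      by_cases hi : i = nx
      · rw [if_pos hi, hi]
        linarith
      · rw [if_neg hi, zero_add]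
        refine (hotherx i hi).trans ?_
        exact (add_le_add (le_abs_self _) le_rfl).trans (hM0 i nx)
    refine (Finset.sum_le_sum h9).trans ?_
    rw [Finset.sum_add_distrib, Finset.sum_const, nsmul_eq_mul]
    refine add_le_add ?_ ?_
    · calc ∑ i ∈ U, (if i = nx then (lx : ℝ) * Lu v + Lu v else 0)
          ≤ ∑ i, (if i = nx then (lx : ℝ) * Lu v + Lu v else 0) := by
            refine Finset.sum_le_sum_of_subset_of_nonneg (Finset.subset_univ _) ?_
            intro i _ _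
            split_ifs
            · linarith
            · exact le_rfl
        _ = (lx : ℝ) * Lu v + Lu v := by
            rw [Finset.sum_ite_eq' Finset.univ nx, if_pos (Finset.mem_univ _)]
    · refine mul_le_mul_of_nonneg_right ?_ hMnn
      have h4 : U.card ≤ g := by
        refine (Finset.card_le_univ _).trans ?_
        rw [Fintype.card_fin]
      exact_mod_cast h4
  linarith

/-- the class bound for pairs, general index type -/
theorem pair_bound {ι : Type*} {g t : ℕ} (γ : Fin g → K × K) (hγ0 : ∀ i, γ i ≠ 0)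
    (τ : Fin t → K → K × K) (hτ0 : ∀ k x, τ k x ≠ 0) (A : Finset ι) (pl : ι → Pl K)
    (hA : Set.InjOn pl A) (lx : ι → Fin g) (mx : ι → ℕ) (ly : ι → Fin t) (my : ι → ℕ)
    (E : Finset (K × K)) (X Y : ℝ)
    (hne : ∀ z ∈ E, Off γ z.1) (hne2 : ∀ z ∈ E, Off (fun k => τ k z.1) z.2)
    (hX : ∀ z ∈ E, hr (aff z.1) ≤ X) (hY : ∀ z ∈ E, hr (aff z.2) ≤ Y)
    (hcl : ∀ z ∈ E, ∀ u ∈ A, 1 ≤ mx u →
      (mx u : ℝ) * Lu (pl u) ≤ lam (pl u) (aff z.1) (γ (lx u)))
    (hcl2 : ∀ z ∈ E, ∀ u ∈ A, 1 ≤ my u →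
      (my u : ℝ) * Lu (pl u) ≤ lam (pl u) (aff z.2) (τ (ly u) z.1)) :
    (E.card : ℝ) ≤ (64 * Real.exp (3 * lossK K)) ^ 2 *
      Real.exp (max 0 (2 * X - ∑ u ∈ A, (mx u : ℝ) * Lu (pl u)) +
        max 0 (2 * Y - ∑ u ∈ A, (my u : ℝ) * Lu (pl u))) := by
  classical
  set k0 : ℝ := 64 * Real.exp (3 * lossK K) with hk0
  have hk0' : 0 ≤ k0 := by positivity
  have h1 : ((E.image Prod.fst).card : ℝ) ≤ k0 *
      Real.exp (max 0 (2 * X - ∑ u ∈ A, (mx u : ℝ) * Lu (pl u))) := by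
    refine class_bound_gen γ hγ0 A pl lx mx hA (E.image Prod.fst) X ?_ ?_ ?_
    · intro x hx
      obtain ⟨z, hz, rfl⟩ := Finset.mem_image.mp hx
      exact hne z hz
    · intro x hx
      obtain ⟨z, hz, rfl⟩ := Finset.mem_image.mp hx
      exact hX z hz
    · intro x hx u hu hm
      obtain ⟨z, hz, rfl⟩ := Finset.mem_image.mp hx
      exact hcl z hz u hu hm
  have h2 : ∀ x ∈ E.image Prod.fst, ((E.filter (fun z => z.1 = x)).card : ℝ) ≤ k0 *
      Real.exp (max 0 (2 * Y - ∑ u ∈ A, (my u : ℝ) * Lu (pl u))) := by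
    intro x hx
    have h3 : (E.filter (fun z => z.1 = x)).card =
        ((E.filter (fun z => z.1 = x)).image Prod.snd).card := by
      rw [Finset.card_image_of_injOn]
      intro a ha b hb hab
      rw [Finset.mem_coe, Finset.mem_filter] at ha hb
      exact Prod.ext (ha.2.trans hb.2.symm) hab
    rw [h3]
    refine class_bound_gen (fun k => τ k x) (fun k => hτ0 k x) A pl ly my hA _ Y ?_ ?_ ?_
    · intro y hy
      obtain ⟨z, hz, rfl⟩ := Finset.mem_image.mp hy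
      rw [Finset.mem_filter] at hz
      obtain ⟨hz1, rfl⟩ := hz
      exact hne2 z hz1
    · intro y hy
      obtain ⟨z, hz, rfl⟩ := Finset.mem_image.mp hy
      rw [Finset.mem_filter] at hz
      exact hY z hz.1
    · intro y hy u hu hm
      obtain ⟨z, hz, rfl⟩ := Finset.mem_image.mp hy
      rw [Finset.mem_filter] at hz
      obtain ⟨hz1, rfl⟩ := hz
      exact hcl2 z hz1 u hu hm
  have h4 : (E.card : ℝ) = ∑ x ∈ E.image Prod.fst, ((E.filter (fun z => z.1 = x)).card : ℝ) := by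
    exact_mod_cast Finset.card_eq_sum_card_image Prod.fst E
  rw [h4]
  refine (Finset.sum_le_sum h2).trans ?_
  rw [Finset.sum_const, nsmul_eq_mul]
  calc ((E.image Prod.fst).card : ℝ) *
        (k0 * Real.exp (max 0 (2 * Y - ∑ u ∈ A, (my u : ℝ) * Lu (pl u))))
      ≤ (k0 * Real.exp (max 0 (2 * X - ∑ u ∈ A, (mx u : ℝ) * Lu (pl u)))) *
        (k0 * Real.exp (max 0 (2 * Y - ∑ u ∈ A, (my u : ℝ) * Lu (pl u)))) :=
        mul_le_mul_of_nonneg_right h1 (by positivity)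
    _ = _ := by rw [Real.exp_add]; ring

lemma half_le_Lu (v : Pl K) : 1 / 2 ≤ Lu v := by
  have h1 := log_two_le_Lu v
  have h2 := Real.log_two_gt_d9
  linarith

/-- powers are smaller than exponentials -/
lemma pow_le_exp' (n : ℕ) (δ : ℝ) (hδ : 0 < δ) (y : ℝ) (hy : 0 ≤ y) :
    y ^ n ≤ (1 / δ) ^ n * (n.factorial : ℝ) * Real.exp (δ * y) := by
  have hY : 0 ≤ δ * y := by positivity
  have h6 := Real.pow_div_factorial_le_exp (δ * y) hY n
  have hfac : (0 : ℝ) < (n.factorial : ℝ) := by exact_mod_cast Nat.factorial_pos n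
  rw [div_le_iff₀ hfac] at h6
  have h7 : y ^ n = (1 / δ) ^ n * (δ * y) ^ n := by
    rw [← mul_pow]
    congr 1
    field_simp
  rw [h7]
  calc (1 / δ) ^ n * (δ * y) ^ n ≤ (1 / δ) ^ n * (Real.exp (δ * y) * (n.factorial : ℝ)) :=
        mul_le_mul_of_nonneg_left h6 (by positivity)
    _ = _ := by ring

/-- points with heights in a window -/
theorem u_window {g t : ℕ} (hg0 : 0 < g) (ht0 : 0 < t) (Sp : Finset (Pl K))
    (γ : Fin g → K × K) (hγ0 : ∀ i, γ i ≠ 0)
    (hγ : ∀ i j, i ≠ j → (γ i).1 * (γ j).2 - (γ i).2 * (γ j).1 ≠ 0)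
    (A : Finset (Fin g)) (S : Fin t → Fin t → Finset (Fin g))
    (hAS : ∀ k l, k ≠ l → Disjoint A (S k l))
    (hSS : ∀ k l m, k ≠ l → k ≠ m → l ≠ m → Disjoint (S k m) (S l m))
    (τ : Fin t → K → K × K) (hτ0 : ∀ k x, τ k x ≠ 0)
    (hτne : ∀ x, Off γ x → ∀ k l, k ≠ l → (τ k x).1 * (τ l x).2 - (τ k x).2 * (τ l x).1 ≠ 0)
    (E0 : ℝ) (hE0 : 0 ≤ E0)
    (hloc : ∀ v ∈ Sp, ∀ k l x, k ≠ l → Off γ x →
      lam v (τ k x) (τ l x) ≤ ∑ i ∈ S k l, lam v (aff x) (γ i) + E0)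
    (κ : ℝ) (hκ0 : 0 ≤ κ) (hκ2 : κ ≤ 2) (C0 : ℝ) (hC0 : 0 ≤ C0) (δ : ℝ) (hδ : 0 < δ) :
    ∃ C : ℝ, 0 ≤ C ∧ ∀ X Y L : ℝ, 0 ≤ L → 1 ≤ X → 1 ≤ Y → X ≤ L → Y ≤ L →
      ∀ E : Finset (K × K),
      (∀ z ∈ E, Off γ z.1 ∧ Off (fun k => τ k z.1) z.2 ∧
        κ * (hr (aff z.1) + hr (aff z.2)) - C0 ≤ ∑ v ∈ Sp,
          (∑ i ∈ A, lam v (aff z.1) (γ i) + ∑ k, lam v (aff z.2) (τ k z.1)) ∧
        (X - 1 ≤ hr (aff z.1) ∧ hr (aff z.1) ≤ X) ∧
        (Y - 1 ≤ hr (aff z.2) ∧ hr (aff z.2) ≤ Y)) →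
      (E.card : ℝ) ≤ C * Real.exp ((max (2 * (2 - κ)) 2 + δ) * L) := by
  classical
  choose Cv hCv0 hCv using fun v : Pl K => local_total hg0 ht0 v γ hγ0 hγ A S hAS hSS E0 hE0
  set Cs : ℝ := ∑ v ∈ Sp, Cv v + 2 * κ + C0 with hCs
  have hCs0 : 0 ≤ Cs := by
    have : 0 ≤ ∑ v ∈ Sp, Cv v := Finset.sum_nonneg fun v _ => hCv0 v
    positivity
  set ex : ℝ := max (2 * (2 - κ)) 2 with hex
  set k0 : ℝ := (64 * Real.exp (3 * lossK K)) ^ 2 with hk0
  have hk00 : 0 ≤ k0 := by positivity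
  set s : ℕ := Sp.card with hs
  set Cd : ℝ := ((g : ℝ) * t * 16) ^ s * ((1 / δ) ^ (2 * s) * ((2 * s).factorial : ℝ) *
    Real.exp δ) with hCd
  have hCd0 : 0 ≤ Cd := by positivity
  refine ⟨Cd * (k0 * Real.exp Cs), by positivity, ?_⟩
  intro X Y L hL hX1 hY1 hXL hYL E hE
  have hdata : ∀ z : K × K, ∀ v : Pl K, ∃ d : (Fin g × ℕ) × (Fin t × ℕ), z ∈ E → v ∈ Sp →
      (1 ≤ d.1.2 → (d.1.2 : ℝ) * Lu v ≤ lam v (aff z.1) (γ d.1.1)) ∧
      (1 ≤ d.2.2 → (d.2.2 : ℝ) * Lu v ≤ lam v (aff z.2) (τ d.2.1 z.1)) ∧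
      ∑ i ∈ A, lam v (aff z.1) (γ i) + ∑ k, lam v (aff z.2) (τ k z.1) ≤
        d.1.2 * Lu v + d.2.2 * Lu v + Cv v := by
    intro z v
    by_cases hz : z ∈ E
    · by_cases hv : v ∈ Sp
      · obtain ⟨h1, h2, _, _, _⟩ := hE z hz
        obtain ⟨l1, m1, l2, m2, h3, h4, h5⟩ := hCv v z.1 z.2 (fun k => τ k z.1) h1
          (fun k => hτ0 k z.1) (hτne z.1 h1) h2 (fun k l hkl => hloc v hv k l z.1 hkl h1)
        exact ⟨((l1, m1), (l2, m2)), fun _ _ => ⟨h3, h4, h5⟩⟩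
      · exact ⟨((⟨0, hg0⟩, 0), (⟨0, ht0⟩, 0)), fun _ h => absurd h hv⟩
    · exact ⟨((⟨0, hg0⟩, 0), (⟨0, ht0⟩, 0)), fun h => absurd h hz⟩
  choose d hd using hdata
  set M1 : ℕ := ⌊4 * L⌋₊ + 1 with hM1
  have hM1L : 4 * L ≤ M1 := by
    rw [hM1]
    push_cast
    exact (Nat.lt_floor_add_one _).le
  have hM1U : (M1 : ℝ) + 1 ≤ 4 * (L + 1) := by
    rw [hM1]
    push_cast
    have := Nat.floor_le (by positivity : 0 ≤ 4 * L)
    linarith
  set D : K × K → (Sp → (Fin g × ℕ) × (Fin t × ℕ)) := fun z v =>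
    (((d z v).1.1, min (d z v).1.2 M1), ((d z v).2.1, min (d z v).2.2 M1)) with hD
  set W : Finset (Sp → (Fin g × ℕ) × (Fin t × ℕ)) := Fintype.piFinset (fun _ : Sp =>
    ((Finset.univ : Finset (Fin g)) ×ˢ Finset.range (M1 + 1)) ×ˢ
      ((Finset.univ : Finset (Fin t)) ×ˢ Finset.range (M1 + 1))) with hW
  have hWcard : (W.card : ℝ) ≤ Cd * Real.exp (δ * L) := by
    rw [hW, Fintype.card_piFinset]
    simp only [Finset.card_product, Finset.card_range, Finset.card_univ, Fintype.card_fin,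
      Finset.prod_const, Fintype.card_coe]
    push_cast
    have h1 : (g : ℝ) * ((M1 : ℝ) + 1) * (t * ((M1 : ℝ) + 1)) ≤
        (g * t * 16) * (L + 1) ^ 2 := by
      have h2 : ((M1 : ℝ) + 1) * ((M1 : ℝ) + 1) ≤ (4 * (L + 1)) * (4 * (L + 1)) :=
        mul_le_mul hM1U hM1U (by positivity) (by positivity)
      have h3 : 0 ≤ (g : ℝ) * t := by positivity
      calc (g : ℝ) * ((M1 : ℝ) + 1) * (t * ((M1 : ℝ) + 1))
          = g * t * (((M1 : ℝ) + 1) * ((M1 : ℝ) + 1)) := by ring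
        _ ≤ g * t * ((4 * (L + 1)) * (4 * (L + 1))) := mul_le_mul_of_nonneg_left h2 h3
        _ = _ := by ring
    have h4 := pow_le_pow_left₀ (by positivity) h1 s
    have h5 := pow_le_exp' (2 * s) δ hδ (L + 1) (by positivity)
    have h6 : Real.exp (δ * (L + 1)) = Real.exp δ * Real.exp (δ * L) := by
      rw [← Real.exp_add]
      congr 1
      ring
    calc ((g : ℝ) * ((M1 : ℝ) + 1) * (t * ((M1 : ℝ) + 1))) ^ s
        ≤ ((g * t * 16) * (L + 1) ^ 2) ^ s := h4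
      _ = ((g : ℝ) * t * 16) ^ s * (L + 1) ^ (2 * s) := by rw [mul_pow, ← pow_mul]
      _ ≤ ((g : ℝ) * t * 16) ^ s * ((1 / δ) ^ (2 * s) * ((2 * s).factorial : ℝ) *
          Real.exp (δ * (L + 1))) := mul_le_mul_of_nonneg_left h5 (by positivity)
      _ = Cd * Real.exp (δ * L) := by rw [h6, hCd]; ring
  have h1 : (E.card : ℝ) = ∑ j ∈ W, ((E.filter (fun z => D z = j)).card : ℝ) := by
    have h2 := Finset.card_eq_sum_card_fiberwise (s := E) (t := W) (f := D) ?_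
    · exact_mod_cast h2
    · intro z hz
      simp only [hW, Finset.mem_coe, Fintype.mem_piFinset, Finset.mem_product,
        Finset.mem_range, Finset.mem_univ, true_and]
      intro v
      rw [hD]
      simp only
      exact ⟨Nat.lt_succ_of_le (min_le_right _ _), Nat.lt_succ_of_le (min_le_right _ _)⟩
  have h3 : ∀ j ∈ W, ((E.filter (fun z => D z = j)).card : ℝ) ≤
      k0 * Real.exp Cs * Real.exp (ex * L) := by
    intro j _
    rcases (E.filter (fun z => D z = j)).eq_empty_or_nonempty with hemp | ⟨z0, hz0⟩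
    · rw [hemp, Finset.card_empty, Nat.cast_zero]
      positivity
    have hpb := pair_bound γ hγ0 τ hτ0 (Finset.univ : Finset Sp) (fun v : Sp => (v : Pl K))
      (fun a _ b _ hab => Subtype.ext hab) (fun v => (j v).1.1) (fun v => (j v).1.2)
      (fun v => (j v).2.1) (fun v => (j v).2.2) (E.filter (fun z => D z = j)) X Y
      (fun z hz => (hE z (Finset.mem_filter.mp hz).1).1)
      (fun z hz => (hE z (Finset.mem_filter.mp hz).1).2.1)
      (fun z hz => (hE z (Finset.mem_filter.mp hz).1).2.2.2.1.2)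
      (fun z hz => (hE z (Finset.mem_filter.mp hz).1).2.2.2.2.2) ?_ ?_
    · refine hpb.trans ?_
      rw [mul_assoc]
      refine mul_le_mul_of_nonneg_left ?_ hk00
      rw [← Real.exp_add]
      refine Real.exp_le_exp.mpr ?_
      -- the exponent
      rw [Finset.mem_filter] at hz0
      obtain ⟨hz0E, rfl⟩ := hz0
      obtain ⟨_, _, hprox, hwx, hwy⟩ := hE z0 hz0E
      have hnn1 : ∀ v : Sp, 0 ≤ ((D z0 v).1.2 : ℝ) * Lu (v : Pl K) := fun v =>
        mul_nonneg (Nat.cast_nonneg _) (Lu_pos _).le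
      have hnn2 : ∀ v : Sp, 0 ≤ ((D z0 v).2.2 : ℝ) * Lu (v : Pl K) := fun v =>
        mul_nonneg (Nat.cast_nonneg _) (Lu_pos _).le
      set W1 : ℝ := ∑ v : Sp, ((D z0 v).1.2 : ℝ) * Lu (v : Pl K) with hW1
      set W2 : ℝ := ∑ v : Sp, ((D z0 v).2.2 : ℝ) * Lu (v : Pl K) with hW2
      have hW10 : 0 ≤ W1 := Finset.sum_nonneg fun v _ => hnn1 v
      have hW20 : 0 ≤ W2 := Finset.sum_nonneg fun v _ => hnn2 v
      have hex1 : 2 * (2 - κ) * L ≤ ex * L :=
        mul_le_mul_of_nonneg_right (le_max_left _ _) hL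
      have hex2 : 2 * L ≤ ex * L := mul_le_mul_of_nonneg_right (le_max_right _ _) hL
      have hcap : ∀ v : Pl K, ∀ m : ℕ, M1 < m → 2 * L ≤ ((min m M1 : ℕ) : ℝ) * Lu v := by
        intro v m hm
        rw [min_eq_right hm.le]
        have h5 := half_le_Lu v
        have h6 : 4 * L * (1 / 2) ≤ (M1 : ℝ) * Lu v :=
          mul_le_mul hM1L h5 (by norm_num) (Nat.cast_nonneg _)
        linarith
      by_cases hc1 : ∃ v : Sp, M1 < (d z0 v).1.2
      · obtain ⟨v, hv⟩ := hc1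
        have h5 := hcap v _ hv
        have h6 : ((D z0 v).1.2 : ℝ) * Lu (v : Pl K) ≤ W1 :=
          Finset.single_le_sum (f := fun v : Sp => ((D z0 v).1.2 : ℝ) * Lu (v : Pl K))
            (fun v _ => hnn1 v) (Finset.mem_univ v)
        have h7 : ((D z0 v).1.2 : ℝ) * Lu (v : Pl K) =
          ((min (d z0 v).1.2 M1 : ℕ) : ℝ) * Lu (v : Pl K) := rfl
        rw [max_eq_left (by linarith : 2 * X - W1 ≤ 0)]
        rcases max_cases 0 (2 * Y - W2) with h | h
        · rw [h.1]; linarith [mul_nonneg (by norm_num : (0 : ℝ) ≤ 2) hL]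
        · rw [h.1]; linarith
      · by_cases hc2 : ∃ v : Sp, M1 < (d z0 v).2.2
        · obtain ⟨v, hv⟩ := hc2
          have h5 := hcap v _ hv
          have h6 : ((D z0 v).2.2 : ℝ) * Lu (v : Pl K) ≤ W2 :=
            Finset.single_le_sum (f := fun v : Sp => ((D z0 v).2.2 : ℝ) * Lu (v : Pl K))
              (fun v _ => hnn2 v) (Finset.mem_univ v)
          have h7 : ((D z0 v).2.2 : ℝ) * Lu (v : Pl K) =
            ((min (d z0 v).2.2 M1 : ℕ) : ℝ) * Lu (v : Pl K) := rfl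
          rw [max_eq_left (by linarith : 2 * Y - W2 ≤ 0)]
          rcases max_cases 0 (2 * X - W1) with h | h
          · rw [h.1]; linarith [mul_nonneg (by norm_num : (0 : ℝ) ≤ 2) hL]
          · rw [h.1]; linarith
        · push Not at hc1 hc2
          have h5 : ∑ v ∈ Sp, (∑ i ∈ A, lam v (aff z0.1) (γ i) +
              ∑ k, lam v (aff z0.2) (τ k z0.1)) ≤
              ∑ v ∈ Sp, (((d z0 v).1.2 : ℝ) * Lu v + (d z0 v).2.2 * Lu v + Cv v) :=
            Finset.sum_le_sum fun v hv => (hd z0 v hz0E hv).2.2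
          have h6 : ∑ v ∈ Sp, (((d z0 v).1.2 : ℝ) * Lu v + (d z0 v).2.2 * Lu v + Cv v) =
              W1 + W2 + ∑ v ∈ Sp, Cv v := by
            rw [Finset.sum_add_distrib, Finset.sum_add_distrib]
            congr 1
            congr 1
            · rw [hW1, ← Finset.sum_coe_sort Sp]
              refine Finset.sum_congr rfl fun v _ => ?_
              have h7 : (D z0 v).1.2 = min (d z0 v).1.2 M1 := rfl
              rw [h7, min_eq_left (hc1 v)]
            · rw [hW2, ← Finset.sum_coe_sort Sp]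
              refine Finset.sum_congr rfl fun v _ => ?_
              have h7 : (D z0 v).2.2 = min (d z0 v).2.2 M1 := rfl
              rw [h7, min_eq_left (hc2 v)]
          rw [h6] at h5
          have h8 := mul_le_mul_of_nonneg_left hwx.1 hκ0
          have h9 := mul_le_mul_of_nonneg_left hwy.1 hκ0
          have h10 : κ * (X + Y) - Cs ≤ W1 + W2 := by
            rw [hCs]
            linarith
          have h11 : (2 - κ) * (X + Y) ≤ (2 - κ) * (2 * L) :=
            mul_le_mul_of_nonneg_left (by linarith) (by linarith)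
          rcases max_cases 0 (2 * X - W1) with h | h
          · rcases max_cases 0 (2 * Y - W2) with h' | h'
            · rw [h.1, h'.1]; linarith [mul_nonneg (by norm_num : (0 : ℝ) ≤ 2) hL]
            · rw [h.1, h'.1]; linarith
          · rcases max_cases 0 (2 * Y - W2) with h' | h'
            · rw [h.1, h'.1]; linarith
            · rw [h.1, h'.1]; linarith
    · intro z hz v _ hm
      rw [Finset.mem_filter] at hz
      obtain ⟨hzE, rfl⟩ := hz
      have h5 := (hd z v hzE v.2).1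
      have h7 : (D z v).1.2 = min (d z v).1.2 M1 := rfl
      have h8 : (D z v).1.1 = (d z v).1.1 := rfl
      rw [h7] at hm
      rw [h7, h8]
      refine le_trans ?_ (h5 (hm.trans (min_le_left _ _)))
      refine mul_le_mul_of_nonneg_right ?_ (Lu_pos _).le
      exact_mod_cast min_le_left _ _
    · intro z hz v _ hm
      rw [Finset.mem_filter] at hz
      obtain ⟨hzE, rfl⟩ := hz
      have h5 := (hd z v hzE v.2).2.1
      have h7 : (D z v).2.2 = min (d z v).2.2 M1 := rfl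
      have h8 : (D z v).2.1 = (d z v).2.1 := rfl
      rw [h7] at hm
      rw [h7, h8]
      refine le_trans ?_ (h5 (hm.trans (min_le_left _ _)))
      refine mul_le_mul_of_nonneg_right ?_ (Lu_pos _).le
      exact_mod_cast min_le_left _ _
  rw [h1]
  refine (Finset.sum_le_sum h3).trans ?_
  rw [Finset.sum_const, nsmul_eq_mul]
  calc (W.card : ℝ) * (k0 * Real.exp Cs * Real.exp (ex * L))
      ≤ (Cd * Real.exp (δ * L)) * (k0 * Real.exp Cs * Real.exp (ex * L)) :=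
        mul_le_mul_of_nonneg_right hWcard (by positivity)
    _ = Cd * (k0 * Real.exp Cs) * (Real.exp (ex * L) * Real.exp (δ * L)) := by ring
    _ = _ := by rw [← Real.exp_add]; congr 2; ring

/-- points of bounded height -/
theorem u_all {g t : ℕ} (hg0 : 0 < g) (ht0 : 0 < t) (Sp : Finset (Pl K))
    (γ : Fin g → K × K) (hγ0 : ∀ i, γ i ≠ 0)
    (hγ : ∀ i j, i ≠ j → (γ i).1 * (γ j).2 - (γ i).2 * (γ j).1 ≠ 0)
    (A : Finset (Fin g)) (S : Fin t → Fin t → Finset (Fin g))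
    (hAS : ∀ k l, k ≠ l → Disjoint A (S k l))
    (hSS : ∀ k l m, k ≠ l → k ≠ m → l ≠ m → Disjoint (S k m) (S l m))
    (τ : Fin t → K → K × K) (hτ0 : ∀ k x, τ k x ≠ 0)
    (hτne : ∀ x, Off γ x → ∀ k l, k ≠ l → (τ k x).1 * (τ l x).2 - (τ k x).2 * (τ l x).1 ≠ 0)
    (E0 : ℝ) (hE0 : 0 ≤ E0)
    (hloc : ∀ v ∈ Sp, ∀ k l x, k ≠ l → Off γ x →
      lam v (τ k x) (τ l x) ≤ ∑ i ∈ S k l, lam v (aff x) (γ i) + E0)
    (κ : ℝ) (hκ0 : 0 ≤ κ) (hκ2 : κ ≤ 2) (C0 : ℝ) (hC0 : 0 ≤ C0) (δ : ℝ) (hδ : 0 < δ) :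
    ∃ C : ℝ, 0 ≤ C ∧ ∀ X : ℝ, 0 ≤ X → ∀ E : Finset (K × K),
      (∀ z ∈ E, Off (fun k => τ k z.1) z.2 ∧
        κ * (hr (aff z.1) + hr (aff z.2)) - C0 ≤ ∑ v ∈ Sp,
          (∑ i ∈ A, lam v (aff z.1) (γ i) + ∑ k, lam v (aff z.2) (τ k z.1)) ∧
        hr (aff z.1) ≤ X ∧ hr (aff z.2) ≤ X) →
      (E.card : ℝ) ≤ C * Real.exp ((max (2 * (2 - κ)) 2 + δ) * X) := by
  classical
  obtain ⟨C, hC, hwin⟩ := u_window hg0 ht0 Sp γ hγ0 hγ A S hAS hSS τ hτ0 hτne E0 hE0 hloc
    κ hκ0 hκ2 C0 hC0 (δ / 2) (by positivity)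
  set ex : ℝ := max (2 * (2 - κ)) 2 with hex
  have hex2 : 2 ≤ ex := le_max_right _ _
  refine ⟨C * ((1 / (δ / 2)) ^ 2 * ((2 : ℕ).factorial : ℝ)) * Real.exp (ex + δ) +
    g * (64 * Real.exp (3 * lossK K)), by positivity, ?_⟩
  intro X hX E0' hE'
  have hoff : ∀ E : Finset (K × K), (∀ z ∈ E, Off γ z.1 ∧ Off (fun k => τ k z.1) z.2 ∧
        κ * (hr (aff z.1) + hr (aff z.2)) - C0 ≤ ∑ v ∈ Sp,
          (∑ i ∈ A, lam v (aff z.1) (γ i) + ∑ k, lam v (aff z.2) (τ k z.1)) ∧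
        hr (aff z.1) ≤ X ∧ hr (aff z.2) ≤ X) →
      (E.card : ℝ) ≤ C * ((1 / (δ / 2)) ^ 2 * ((2 : ℕ).factorial : ℝ)) * Real.exp (ex + δ) *
        Real.exp ((ex + δ) * X) := by
    intro E hE
    set N : ℕ := ⌊X⌋₊ + 1 with hN
    have hNX : (N : ℝ) ≤ X + 1 := by
      rw [hN]; push_cast
      have := Nat.floor_le hX
      linarith
    set W : Finset (ℕ × ℕ) := Finset.range N ×ˢ Finset.range N with hW
    have hWcard : (W.card : ℝ) ≤ (X + 1) ^ 2 := by
      rw [hW, Finset.card_product, Finset.card_range]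
      push_cast
      have h0 : (0 : ℝ) ≤ N := Nat.cast_nonneg _
      nlinarith
    have h1 : (E.card : ℝ) = ∑ j ∈ W,
        ((E.filter (fun z => (⌊hr (aff z.1)⌋₊, ⌊hr (aff z.2)⌋₊) = j)).card : ℝ) := by
      have h2 := Finset.card_eq_sum_card_fiberwise (s := E) (t := W)
        (f := fun z => (⌊hr (aff z.1)⌋₊, ⌊hr (aff z.2)⌋₊)) ?_
      · exact_mod_cast h2
      · intro z hz
        obtain ⟨_, _, _, h5, h6⟩ := hE z hz
        simp only [hW, Finset.mem_coe, Finset.mem_product, Finset.mem_range]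
        rw [hN]
        have h7 := Nat.floor_le_floor h5
        have h8 := Nat.floor_le_floor h6
        exact ⟨by omega, by omega⟩
    have h3 : ∀ j ∈ W, ((E.filter (fun z =>
        (⌊hr (aff z.1)⌋₊, ⌊hr (aff z.2)⌋₊) = j)).card : ℝ) ≤
        C * Real.exp ((ex + δ / 2) * (X + 1)) := by
      intro j hj
      rw [hW, Finset.mem_product, Finset.mem_range, Finset.mem_range] at hj
      have hj1 : (j.1 : ℝ) + 1 ≤ X + 1 := by
        have : ((j.1 + 1 : ℕ) : ℝ) ≤ N := by exact_mod_cast hj.1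
        push_cast at this
        linarith
      have hj2 : (j.2 : ℝ) + 1 ≤ X + 1 := by
        have : ((j.2 + 1 : ℕ) : ℝ) ≤ N := by exact_mod_cast hj.2
        push_cast at this
        linarith
      refine hwin ((j.1 : ℝ) + 1) ((j.2 : ℝ) + 1) (X + 1) (by linarith)
        (by have : (0 : ℝ) ≤ j.1 := Nat.cast_nonneg _; linarith)
        (by have : (0 : ℝ) ≤ j.2 := Nat.cast_nonneg _; linarith) hj1 hj2 _ ?_
      intro z hz
      rw [Finset.mem_filter] at hz
      obtain ⟨hz1, hz2⟩ := hz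
      obtain ⟨hz3, hz4, hz5, _, _⟩ := hE z hz1
      have hz6 : ⌊hr (aff z.1)⌋₊ = j.1 := congrArg Prod.fst hz2
      have hz7 : ⌊hr (aff z.2)⌋₊ = j.2 := congrArg Prod.snd hz2
      refine ⟨hz3, hz4, hz5, ⟨?_, ?_⟩, ⟨?_, ?_⟩⟩
      · have := Nat.floor_le (hr_aff_nonneg z.1)
        rw [hz6] at this
        linarith
      · have := (Nat.lt_floor_add_one (hr (aff z.1))).le
        rw [hz6] at this
        exact this
      · have := Nat.floor_le (hr_aff_nonneg z.2)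
        rw [hz7] at this
        linarith
      · have := (Nat.lt_floor_add_one (hr (aff z.2))).le
        rw [hz7] at this
        exact this
    have h4 : (E.card : ℝ) ≤ (X + 1) ^ 2 * (C * Real.exp ((ex + δ / 2) * (X + 1))) := by
      rw [h1]
      refine (Finset.sum_le_sum h3).trans ?_
      rw [Finset.sum_const, nsmul_eq_mul]
      exact mul_le_mul_of_nonneg_right hWcard (by positivity)
    have h5 := pow_le_exp' 2 (δ / 2) (by positivity) (X + 1) (by positivity)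
    calc (E.card : ℝ) ≤ (X + 1) ^ 2 * (C * Real.exp ((ex + δ / 2) * (X + 1))) := h4
      _ ≤ ((1 / (δ / 2)) ^ 2 * ((2 : ℕ).factorial : ℝ) * Real.exp (δ / 2 * (X + 1))) *
          (C * Real.exp ((ex + δ / 2) * (X + 1))) :=
          mul_le_mul_of_nonneg_right h5 (by positivity)
      _ = C * ((1 / (δ / 2)) ^ 2 * ((2 : ℕ).factorial : ℝ)) * (Real.exp (δ / 2 * (X + 1)) *
          Real.exp ((ex + δ / 2) * (X + 1))) := by ring
      _ = C * ((1 / (δ / 2)) ^ 2 * ((2 : ℕ).factorial : ℝ)) * (Real.exp (ex + δ) *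
          Real.exp ((ex + δ) * X)) := by
          rw [← Real.exp_add, ← Real.exp_add]
          congr 2
          ring
      _ = _ := by ring
  have h1 := hoff (E0'.filter (fun z => Off γ z.1)) ?_
  · have h2 := card_few γ hγ0 X hX (E0'.filter (fun z => ¬ Off γ z.1)) ?_
    · have h3 : (E0'.card : ℝ) = ((E0'.filter (fun z => Off γ z.1)).card : ℝ) +
          ((E0'.filter (fun z => ¬ Off γ z.1)).card : ℝ) := by
        exact_mod_cast (Finset.card_filter_add_card_filter_not _).symm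
      have h4 : Real.exp (2 * X) ≤ Real.exp ((ex + δ) * X) := by
        refine Real.exp_le_exp.mpr ?_
        exact mul_le_mul_of_nonneg_right (by linarith) hX
      have h5 : (g : ℝ) * (64 * Real.exp (3 * lossK K)) * Real.exp (2 * X) ≤
          g * (64 * Real.exp (3 * lossK K)) * Real.exp ((ex + δ) * X) :=
        mul_le_mul_of_nonneg_left h4 (by positivity)
      rw [h3, add_mul]
      linarith
    · intro z hz
      rw [Finset.mem_filter] at hz
      exact ⟨hz.2, (hE' z hz.1).2.2.2⟩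
  · intro z hz
    rw [Finset.mem_filter] at hz
    obtain ⟨h2, h3, h4, h5⟩ := hE' z hz.1
    exact ⟨hz.2, h2, h3, h4, h5⟩

end Pool.Agent.H691R3
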